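import Pool.Agent.H24.PG.P1

/-!
# Module A1 (about 170 lines): asymptotics of `EE`, and one step of the lift

PROOF. `asy_step`: let `C1 ≥ 0` be a constant for `h.asy` and `h.dasy`, `E = exp (- 2 π ξ.im / Q) ≤ 1`, `ζ = f ξ ∈ HH`. From
`‖ζ - (c + ξ/Q)‖ ≤ C E ≤ |C|` we get `ζ.im ≥ c.im + ξ.im/Q - |C|`, so `exp (- 2 π ζ.im) ≤ M E`, `M = exp (2 π (|C| - c.im))`. So
`‖Ft w ζ - (c + (ξ + 1)/Q)‖ ≤ C E + ‖w ζ - 1/Q‖ ≤ (C + C1 M) E`. Derivative: `D (Ft w ∘ f) u = v + Dw v`, `v = Df u` (chain rule within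
`HH`, `hev`), `‖v - u/Q‖ ≤ C E ‖u‖`, `‖v‖ ≤ (1 + |C|) ‖u‖`, `‖Dw‖ ≤ C1 M E`. So `C' = |C| + C1 M (1 + |C|)`.
`EE_asy`: for `s = ξ.im ≥ s0`: `del s = c + I s/Q`, `exp (- 2 π (del s).im) = exp (- 2 π c.im) exp (- 2 π s/Q)`,
`EE ξ - (c + ξ/Q) = t (w (del s) - 1/Q)`, `|t| ≤ 2`. Derivative by `EE_form` with `derivWithin del (Ici 0) s = I/Q` for `s > s0` (affine
near `s`) and for `s = s0` by continuity of `derivWithin del (Ici 0)` (`a.smooth`, `1 ≤ m`) (or treat `s ≤ s0` together, below):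
`D EE u - u/Q = u.re (w - 1/Q) + u.im * t * Dw (I/Q)`. For `s ≤ s0`, `|t| ≤ 2`: the compact set
`{ξ | |re| ≤ 2, 0 ≤ im ≤ s0}`, on which `EE ξ - (c + ξ/Q)` and `fderivWithin ℝ (EE w del) HH ξ` are continuous (`EE_smooth`,
`ContDiffOn.continuousOn_fderivWithin`), so bounded, and `exp (- 2 π s/Q) ≥ exp (- 2 π s0/Q)`.
-/

open Set

namespace Pool.Agent.H24.PG

variable {m Q : ℕ} {e1 s0 : ℝ} {w g : ℂ → ℂ} {del : ℝ → ℂ} {c : ℂ}

/-- `f` is asymptotic to `c + ξ / Q` at `ξ`, with its derivative -/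
def AsyAt (Q : ℕ) (c : ℂ) (C : ℝ) (f : ℂ → ℂ) (ξ : ℂ) : Prop :=
  ‖f ξ - (c + ξ / Q)‖ ≤ C * Real.exp (-(2 * Real.pi * ξ.im / Q)) ∧
  ∀ u : ℂ, ‖fderivWithin ℝ f HH ξ u - u / Q‖ ≤ C * Real.exp (-(2 * Real.pi * ξ.im / Q)) * ‖u‖

private theorem A1_pi : (0 : ℝ) < 2 * Real.pi := by positivity

private theorem A1_consts (h : Strip m Q e1 w g) : ∃ K : ℝ, 0 ≤ K ∧
    (∀ ζ ∈ HH, ‖w ζ - 1 / Q‖ ≤ K * Real.exp (-(2 * Real.pi * ζ.im))) ∧
    ∀ ζ ∈ HH, ‖fderivWithin ℝ w HH ζ‖ ≤ K * Real.exp (-(2 * Real.pi * ζ.im)) := by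
  obtain ⟨C0, h0⟩ := h.asy
  obtain ⟨C1, h1⟩ := h.dasy
  refine ⟨max |C0| |C1|, le_trans (abs_nonneg _) (le_max_left _ _), fun ζ hζ => ?_, fun ζ hζ => ?_⟩
  · refine (h0 ζ hζ).trans (mul_le_mul_of_nonneg_right ?_ (Real.exp_pos _).le)
    exact (le_abs_self _).trans (le_max_left _ _)
  · refine (h1 ζ hζ).trans (mul_le_mul_of_nonneg_right ?_ (Real.exp_pos _).le)
    exact (le_abs_self _).trans (le_max_right _ _)

private theorem A1_Q (h : Strip m Q e1 w g) : (1 : ℝ) ≤ Q := by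
  have := h.hQ
  exact_mod_cast (by omega : 1 ≤ Q)

private theorem A1_E (h : Strip m Q e1 w g) {ξ : ℂ} (hξ : ξ ∈ HH) :
    Real.exp (-(2 * Real.pi * ξ.im / Q)) ≤ 1 := by
  rw [Real.exp_le_one_iff]
  have hQ := A1_Q h
  have h1 : 0 ≤ ξ.im := hξ
  have h2 : 0 ≤ 2 * Real.pi * ξ.im / Q := by positivity
  linarith

private theorem A1_divn (h : Strip m Q e1 w g) (u : ℂ) : ‖u / (Q : ℂ)‖ ≤ ‖u‖ := by
  have hQ := A1_Q h
  rw [norm_div, Complex.norm_natCast]
  exact div_le_self (norm_nonneg _) hQ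

private theorem A1_divim (ξ : ℂ) : (ξ / (Q : ℂ)).im = ξ.im / Q := by
  rw [Complex.div_natCast_im]

theorem asy_step (h : Strip m Q e1 w g) (c : ℂ) (C : ℝ) : ∃ C' : ℝ, ∀ (f : ℂ → ℂ) (ξ : ℂ),
    ξ ∈ HH → DifferentiableWithinAt ℝ f HH ξ → (∀ᶠ x in nhdsWithin ξ HH, f x ∈ HH) →
    AsyAt Q c C f ξ → AsyAt Q (c + 1 / Q) C' (fun x => Ft w (f x)) ξ := by
  obtain ⟨K, hK, hK0, hK1⟩ := A1_consts h
  set M : ℝ := Real.exp (2 * Real.pi * (|C| - c.im)) with hM
  have hMpos : 0 < M := Real.exp_pos _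
  refine ⟨|C| + K * M * (1 + |C|), ?_⟩
  intro f ξ hξ hd hev hA
  obtain ⟨hA1, hA2⟩ := hA
  set E : ℝ := Real.exp (-(2 * Real.pi * ξ.im / Q)) with hE
  have hEpos : 0 < E := Real.exp_pos _
  have hE1 : E ≤ 1 := A1_E h hξ
  have hζ : f ξ ∈ HH := hev.self_of_nhdsWithin hξ
  have hCE : C * E ≤ |C| * E := mul_le_mul_of_nonneg_right (le_abs_self C) hEpos.le
  have hCE1 : |C| * E ≤ |C| := by
    have := mul_le_mul_of_nonneg_left hE1 (abs_nonneg C)
    linarith
  have him : c.im + ξ.im / Q - |C| ≤ (f ξ).im := by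
    have h1 : |(f ξ - (c + ξ / Q)).im| ≤ |C| :=
      (Complex.abs_im_le_norm _).trans (hA1.trans (hCE.trans hCE1))
    have h2 : (f ξ - (c + ξ / Q)).im = (f ξ).im - (c.im + ξ.im / Q) := by
      rw [Complex.sub_im, Complex.add_im, A1_divim]
    rw [h2] at h1
    have := (abs_le.1 h1).1
    linarith
  have hexp : Real.exp (-(2 * Real.pi * (f ξ).im)) ≤ M * E := by
    rw [hM, hE, ← Real.exp_add, Real.exp_le_exp]
    have h1 := mul_le_mul_of_nonneg_left him A1_pi.le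
    have h2 : 2 * Real.pi * ξ.im / Q = 2 * Real.pi * (ξ.im / Q) := by ring
    rw [h2]
    linarith
  have hw0 : ‖w (f ξ) - 1 / Q‖ ≤ K * (M * E) :=
    (hK0 _ hζ).trans (mul_le_mul_of_nonneg_left hexp hK)
  have hw1 : ‖fderivWithin ℝ w HH (f ξ)‖ ≤ K * (M * E) :=
    (hK1 _ hζ).trans (mul_le_mul_of_nonneg_left hexp hK)
  constructor
  · have e : Ft w (f ξ) - (c + 1 / Q + ξ / Q) = (f ξ - (c + ξ / Q)) + (w (f ξ) - 1 / Q) := by
      unfold Ft
      ring
    rw [e]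
    refine (norm_add_le _ _).trans ?_
    have h1 : 0 ≤ K * M * |C| * E := by positivity
    nlinarith [hA1, hCE, hw0, h1]
  · intro u
    have hne : (m : WithTop ℕ∞) ≠ 0 := by
      have := h.hm
      exact_mod_cast (by omega : m ≠ 0)
    have hwd : HasFDerivWithinAt w (fderivWithin ℝ w HH (f ξ)) HH (f ξ) :=
      ((h.smooth.differentiableOn hne) (f ξ) hζ).hasFDerivWithinAt
    have hfd := hd.hasFDerivWithinAt
    have hten : Filter.Tendsto f (nhdsWithin ξ HH) (nhdsWithin (f ξ) HH) :=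
      tendsto_nhdsWithin_iff.2 ⟨hd.continuousWithinAt, hev⟩
    have hcomp := hwd.comp_of_tendsto ξ hfd hten
    have hsum := hfd.add hcomp
    have e : (fun x => Ft w (f x)) = f + w ∘ f := by
      funext x
      rfl
    have hder : fderivWithin ℝ (fun x => Ft w (f x)) HH ξ u
        = fderivWithin ℝ f HH ξ u + fderivWithin ℝ w HH (f ξ) (fderivWithin ℝ f HH ξ u) := by
      rw [e, hsum.fderivWithin (unique_HH ξ hξ)]
      rfl
    rw [hder]
    set v := fderivWithin ℝ f HH ξ u with hv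
    have h1 : ‖v - u / Q‖ ≤ C * E * ‖u‖ := hA2 u
    have h2 : C * E * ‖u‖ ≤ |C| * E * ‖u‖ := mul_le_mul_of_nonneg_right hCE (norm_nonneg _)
    have h3 : |C| * E * ‖u‖ ≤ |C| * ‖u‖ := mul_le_mul_of_nonneg_right hCE1 (norm_nonneg _)
    have h4 : ‖v‖ ≤ (1 + |C|) * ‖u‖ := by
      have h5 : v = (v - u / Q) + u / Q := by ring
      rw [h5]
      refine (norm_add_le _ _).trans ?_
      have := A1_divn h u
      linarith
    have h6 : ‖fderivWithin ℝ w HH (f ξ) v‖ ≤ K * (M * E) * ((1 + |C|) * ‖u‖) := by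
      refine (ContinuousLinearMap.le_opNorm _ _).trans ?_
      exact mul_le_mul hw1 h4 (norm_nonneg _) (by positivity)
    have e2 : v + fderivWithin ℝ w HH (f ξ) v - u / Q
        = (v - u / Q) + fderivWithin ℝ w HH (f ξ) v := by ring
    rw [e2]
    refine (norm_add_le _ _).trans ?_
    calc ‖v - u / Q‖ + ‖fderivWithin ℝ w HH (f ξ) v‖
        ≤ |C| * E * ‖u‖ + K * (M * E) * ((1 + |C|) * ‖u‖) := add_le_add (h1.trans h2) h6
      _ = (|C| + K * M * (1 + |C|)) * E * ‖u‖ := by ring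

private theorem A1_der (h : Strip m Q e1 w g) (a : Arc m Q w del s0 c) {s : ℝ} (hs : s0 < s) :
    derivWithin del (Ici 0) s = Complex.I / Q := by
  have hQ := A1_Q h
  have h1 : HasDerivAt (fun x : ℝ => c + Complex.I * (x : ℂ) / Q) (Complex.I / Q) s := by
    have h2 : HasDerivAt (fun x : ℝ => (x : ℂ)) 1 s := Complex.ofRealCLM.hasDerivAt
    have h3 := ((h2.const_mul Complex.I).div_const (Q : ℂ)).const_add c
    rw [mul_one] at h3
    exact h3
  have h4 : del =ᶠ[nhds s] (fun x : ℝ => c + Complex.I * (x : ℂ) / Q) := by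
    filter_upwards [Ioi_mem_nhds hs] with x hx
    exact a.aff x (le_of_lt hx)
  have h5 : HasDerivAt del (Complex.I / Q) s := h1.congr_of_eventuallyEq h4
  have h6 : (0 : ℝ) ≤ s := le_trans a.s0pos.le hs.le
  exact h5.hasDerivWithinAt.derivWithin (uniqueDiffOn_Ici 0 s h6)

theorem EE_asy (h : Strip m Q e1 w g) (a : Arc m Q w del s0 c) :
    ∃ C : ℝ, ∀ ξ ∈ HH, |ξ.re| ≤ 2 → AsyAt Q c C (EE w del) ξ := by
  obtain ⟨K, hK, hK0, hK1⟩ := A1_consts h
  have hQ := A1_Q h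
  have hs0 := a.s0pos
  set M : ℝ := Real.exp (-(2 * Real.pi * c.im)) with hM
  have hMpos : 0 < M := Real.exp_pos _
  have hsm := EE_smooth h a
  -- the compact part
  set S : Set ℂ := (Icc (-2 : ℝ) 2) ×ℂ (Icc (0 : ℝ) s0) with hS
  have hScomp : IsCompact S := IsCompact.reProdIm isCompact_Icc isCompact_Icc
  have hSsub : S ⊆ HH := by
    intro ξ hξ
    rw [hS, Complex.mem_reProdIm] at hξ
    exact hξ.2.1
  have hc1 : ContinuousOn (fun ξ => EE w del ξ - (c + ξ / Q)) S := by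
    refine ((hsm.continuousOn).mono hSsub).sub ?_
    fun_prop
  have hc2 : ContinuousOn (fun ξ => fderivWithin ℝ (EE w del) HH ξ) S := by
    have hm1 : (1 : WithTop ℕ∞) ≤ m := by
      have := h.hm
      exact_mod_cast (by omega : 1 ≤ m)
    exact (hsm.continuousOn_fderivWithin unique_HH hm1).mono hSsub
  obtain ⟨B1, hB1⟩ := hScomp.exists_bound_of_continuousOn hc1
  obtain ⟨B2, hB2⟩ := hScomp.exists_bound_of_continuousOn hc2
  set e0 : ℝ := Real.exp (-(2 * Real.pi * s0 / Q)) with he0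
  have he0pos : 0 < e0 := Real.exp_pos _
  set B : ℝ := |B1| + |B2| + 1 with hB
  have hBpos : 0 ≤ B := by positivity
  refine ⟨B / e0 + 3 * K * M, ?_⟩
  intro ξ hξ ht
  set E : ℝ := Real.exp (-(2 * Real.pi * ξ.im / Q)) with hE
  have hEpos : 0 < E := Real.exp_pos _
  have hξ0 : 0 ≤ ξ.im := hξ
  by_cases hs : ξ.im ≤ s0
  · have hξS : ξ ∈ S := by
      rw [hS, Complex.mem_reProdIm]
      exact ⟨abs_le.1 ht, hξ0, hs⟩
    have hE0 : e0 ≤ E := by
      rw [he0, hE, Real.exp_le_exp]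
      have h1 : 2 * Real.pi * ξ.im / Q ≤ 2 * Real.pi * s0 / Q := by
        refine div_le_div_of_nonneg_right ?_ (by linarith)
        exact mul_le_mul_of_nonneg_left hs A1_pi.le
      linarith
    have hBE : B ≤ B / e0 * E := by
      have h1 : B = B / e0 * e0 := by
        field_simp
      calc B = B / e0 * e0 := h1
        _ ≤ B / e0 * E := mul_le_mul_of_nonneg_left hE0 (by positivity)
    have hBE2 : B ≤ (B / e0 + 3 * K * M) * E := by
      have h1 : 0 ≤ 3 * K * M * E := by positivity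
      linarith
    constructor
    · refine (hB1 ξ hξS).trans (le_trans ?_ hBE2)
      have := le_abs_self B1
      have := abs_nonneg B2
      linarith
    · intro u
      have h1 : ‖fderivWithin ℝ (EE w del) HH ξ u‖ ≤ |B2| * ‖u‖ := by
        refine (ContinuousLinearMap.le_opNorm _ _).trans ?_
        exact mul_le_mul_of_nonneg_right ((hB2 ξ hξS).trans (le_abs_self _)) (norm_nonneg _)
      have h2 := A1_divn h u
      have h3 := norm_sub_le (fderivWithin ℝ (EE w del) HH ξ u) (u / Q)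
      have h4 : 0 ≤ |B1| * ‖u‖ := by positivity
      have h5 := mul_le_mul_of_nonneg_right hBE2 (norm_nonneg u)
      have h6 : B * ‖u‖ = |B1| * ‖u‖ + |B2| * ‖u‖ + ‖u‖ := by
        rw [hB]
        ring
      linarith
  · rw [not_le] at hs
    have hdel := a.aff ξ.im hs.le
    have hdm := del_mem a hξ0
    have hdim : (del ξ.im).im = c.im + ξ.im / Q := by
      rw [hdel, Complex.add_im, A1_divim, Complex.I_mul_im, Complex.ofReal_re]
    have hexp : Real.exp (-(2 * Real.pi * (del ξ.im).im)) = M * E := by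
      rw [hM, hE, ← Real.exp_add, hdim]
      congr 1
      ring
    have hw0 : ‖w (del ξ.im) - 1 / Q‖ ≤ K * (M * E) := by
      rw [← hexp]
      exact hK0 _ hdm
    have hw1 : ‖fderivWithin ℝ w HH (del ξ.im)‖ ≤ K * (M * E) := by
      rw [← hexp]
      exact hK1 _ hdm
    have hξe : ξ = (ξ.re : ℂ) + Complex.I * (ξ.im : ℂ) := by
      rw [mul_comm]
      exact (Complex.re_add_im ξ).symm
    have hBn : 0 ≤ B / e0 * E := by positivity
    have htn : ‖(ξ.re : ℂ)‖ ≤ 2 := by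
      rw [Complex.norm_real]
      exact ht
    constructor
    · have e : EE w del ξ - (c + ξ / Q) = (ξ.re : ℂ) * (w (del ξ.im) - 1 / Q) := by
        have h0 : ξ / (Q : ℂ) = ((ξ.re : ℂ) + Complex.I * (ξ.im : ℂ)) / (Q : ℂ) := by
          rw [← hξe]
        unfold EE
        rw [hdel, h0]
        ring
      rw [e, norm_mul]
      have h1 := mul_le_mul htn hw0 (norm_nonneg _) (by norm_num)
      have h2 : 0 ≤ K * M * E := by positivity
      calc ‖(ξ.re : ℂ)‖ * ‖w (del ξ.im) - 1 / Q‖ ≤ 2 * (K * (M * E)) := h1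
        _ ≤ (B / e0 + 3 * K * M) * E := by linarith
    · intro u
      rw [EE_form h a hξ u, A1_der h a hs]
      set W := fderivWithin ℝ w HH (del ξ.im) with hW
      have hue : u = (u.re : ℂ) + Complex.I * (u.im : ℂ) := by
        rw [mul_comm]
        exact (Complex.re_add_im u).symm
      have e : (u.re : ℂ) * w (del ξ.im) + (u.im : ℂ) * (Complex.I / Q + (ξ.re : ℂ) *
          W (Complex.I / Q)) - u / Q = (u.re : ℂ) * (w (del ξ.im) - 1 / Q) +
          (u.im : ℂ) * ((ξ.re : ℂ) * W (Complex.I / Q)) := by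
        have h0 : u / (Q : ℂ) = ((u.re : ℂ) + Complex.I * (u.im : ℂ)) / (Q : ℂ) := by
          rw [← hue]
        rw [h0]
        ring
      rw [e]
      refine (norm_add_le _ _).trans ?_
      have hre : ‖(u.re : ℂ)‖ ≤ ‖u‖ := by
        rw [Complex.norm_real]
        exact Complex.abs_re_le_norm u
      have him : ‖(u.im : ℂ)‖ ≤ ‖u‖ := by
        rw [Complex.norm_real]
        exact Complex.abs_im_le_norm u
      have hWI : ‖W (Complex.I / Q)‖ ≤ K * (M * E) := by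
        refine (ContinuousLinearMap.le_opNorm _ _).trans ?_
        have h1 : ‖Complex.I / (Q : ℂ)‖ ≤ 1 := by
          have := A1_divn h Complex.I
          rwa [Complex.norm_I] at this
        have h2 := mul_le_mul hw1 h1 (norm_nonneg _) (by positivity)
        rwa [mul_one] at h2
      have g1 : ‖(u.re : ℂ) * (w (del ξ.im) - 1 / Q)‖ ≤ ‖u‖ * (K * (M * E)) := by
        rw [norm_mul]
        exact mul_le_mul hre hw0 (norm_nonneg _) (norm_nonneg _)
      have g2 : ‖(u.im : ℂ) * ((ξ.re : ℂ) * W (Complex.I / Q))‖ ≤ ‖u‖ * (2 * (K * (M * E))) := by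
        rw [norm_mul, norm_mul]
        refine mul_le_mul him ?_ (by positivity) (norm_nonneg _)
        exact mul_le_mul htn hWI (norm_nonneg _) (by norm_num)
      have g3 : 0 ≤ B / e0 * E * ‖u‖ := by positivity
      calc ‖(u.re : ℂ) * (w (del ξ.im) - 1 / Q)‖ + ‖(u.im : ℂ) * ((ξ.re : ℂ) * W (Complex.I / Q))‖
          ≤ ‖u‖ * (K * (M * E)) + ‖u‖ * (2 * (K * (M * E))) := add_le_add g1 g2
        _ ≤ (B / e0 + 3 * K * M) * E * ‖u‖ := by linarith

end Pool.Agent.H24.PG
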