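import Pool.Agent.H24.PG.StL

/-!
# Module T1 (about 150 lines): the integer iterates of a strip map

PROOF. `Tn w g (Int.ofNat n) = (Ft w)^[n]`, `Tn w g (Int.negSucc n) = g^[n + 1]` (by definition). Prove first `Tn_mem` by cases and induction
(`h.maps`, `h.gmaps`), then `Tn_succ`, `Tn_succ'` by cases on `n` (`Int.ofNat n`: `Function.iterate_succ_apply'`, `Function.iterate_succ_apply`;
`Int.negSucc 0`: `n + 1 = 0`, `h.gr`, `h.gl`; `Int.negSucc (k + 1)`: `n + 1 = Int.negSucc k`), then `Tn_pred` from `Tn_succ` at `n - 1` and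
`h.gl`. All the others by `Int.induction_on` with `Tn_succ` and `Tn_pred` (on `HH` the function `Tn (n+1)` is `Ft w ∘ Tn n` and
`Tn (n-1)` is `g ∘ Tn n`; `ContDiffOn.comp`, `ContDiffOn.congr`; determinants: `HasFDerivWithinAt.comp`, `det_comp`, `Ft_det`, `g_det`).
`Tn_Q`: `Tn (n + k) ζ = Tn n ((Ft w)^[k] ζ)` by induction on `k : ℕ` (`Tn_succ'`), then `h.iter` and `Tn_add_one`.
-/

open Set

namespace Pool.Agent.H24.PG

variable {m Q : ℕ} {e1 : ℝ} {w g : ℂ → ℂ}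

private theorem T1_iter {f : ℂ → ℂ} (hf : ∀ ζ ∈ HH, f ζ ∈ HH) (n : ℕ) {ζ : ℂ} (hζ : ζ ∈ HH) :
    f^[n] ζ ∈ HH := by
  induction n with
  | zero => exact hζ
  | succ n ih =>
    rw [Function.iterate_succ_apply']
    exact hf _ ih

private theorem T1_add_one_mem {ζ : ℂ} (hζ : ζ ∈ HH) : ζ + 1 ∈ HH := by
  have h := (add_real_mem (ζ := ζ) 1).2 hζ
  simpa using h

private theorem T1_neg (k : ℕ) : Int.negSucc (k + 1) + 1 = Int.negSucc k := by
  omega

private theorem T1_det {f k F : ℂ → ℂ} (hf : DifferentiableOn ℝ f HH)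
    (hk : DifferentiableOn ℝ k HH) (hm : ∀ ζ ∈ HH, k ζ ∈ HH)
    (df : ∀ ζ ∈ HH, 0 < (fderivWithin ℝ f HH ζ).det)
    (dk : ∀ ζ ∈ HH, 0 < (fderivWithin ℝ k HH ζ).det)
    (hF : ∀ ζ ∈ HH, F ζ = f (k ζ)) {ζ : ℂ} (hζ : ζ ∈ HH) :
    0 < (fderivWithin ℝ F HH ζ).det := by
  have h1 : fderivWithin ℝ F HH ζ =
      (fderivWithin ℝ f HH (k ζ)).comp (fderivWithin ℝ k HH ζ) := by
    rw [fderivWithin_congr hF (hF ζ hζ)]
    exact fderivWithin_comp ζ (hf _ (hm ζ hζ)) (hk ζ hζ) hm (unique_HH ζ hζ)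
  rw [h1, det_comp]
  exact mul_pos (df _ (hm ζ hζ)) (dk ζ hζ)

theorem Tn_zero (ζ : ℂ) : Tn w g 0 ζ = ζ := by
  rfl

theorem Tn_mem (h : Strip m Q e1 w g) (n : ℤ) {ζ : ℂ} (hζ : ζ ∈ HH) : Tn w g n ζ ∈ HH := by
  cases n with
  | ofNat n => exact T1_iter h.maps n hζ
  | negSucc n => exact T1_iter h.gmaps (n + 1) hζ

theorem Tn_succ (h : Strip m Q e1 w g) (n : ℤ) {ζ : ℂ} (hζ : ζ ∈ HH) :
    Tn w g (n + 1) ζ = Ft w (Tn w g n ζ) := by
  cases n with
  | ofNat n =>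
    show (Ft w)^[n + 1] ζ = Ft w ((Ft w)^[n] ζ)
    exact Function.iterate_succ_apply' _ _ _
  | negSucc n =>
    cases n with
    | zero =>
      show ζ = Ft w (g ζ)
      exact (h.gr ζ hζ).symm
    | succ k =>
      rw [T1_neg]
      show g^[k + 1] ζ = Ft w (g^[k + 1 + 1] ζ)
      rw [Function.iterate_succ_apply' g (k + 1)]
      exact (h.gr _ (T1_iter h.gmaps (k + 1) hζ)).symm

theorem Tn_succ' (h : Strip m Q e1 w g) (n : ℤ) {ζ : ℂ} (hζ : ζ ∈ HH) :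
    Tn w g (n + 1) ζ = Tn w g n (Ft w ζ) := by
  cases n with
  | ofNat n =>
    show (Ft w)^[n + 1] ζ = (Ft w)^[n] (Ft w ζ)
    exact Function.iterate_succ_apply _ _ _
  | negSucc n =>
    cases n with
    | zero =>
      show ζ = g (Ft w ζ)
      exact (h.gl ζ hζ).symm
    | succ k =>
      rw [T1_neg]
      show g^[k + 1] ζ = g^[k + 1 + 1] (Ft w ζ)
      rw [Function.iterate_succ_apply g (k + 1), h.gl ζ hζ]

theorem Tn_pred (h : Strip m Q e1 w g) (n : ℤ) {ζ : ℂ} (hζ : ζ ∈ HH) :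
    Tn w g (n - 1) ζ = g (Tn w g n ζ) := by
  have h1 := Tn_succ h (n - 1) hζ
  rw [sub_add_cancel] at h1
  rw [h1, h.gl _ (Tn_mem h (n - 1) hζ)]

theorem Tn_real (h : Strip m Q e1 w g) (n : ℤ) {ζ : ℂ} (hζ : ζ.im = 0) :
    (Tn w g n ζ).im = 0 := by
  have hH : ζ ∈ HH := by
    show 0 ≤ ζ.im
    rw [hζ]
  induction n using Int.induction_on with
  | zero => exact hζ
  | succ n ih =>
    rw [Tn_succ h _ hH]
    exact Ft_real h ih
  | pred n ih =>
    rw [Tn_pred h _ hH]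
    exact g_real h ih

theorem Tn_pos (h : Strip m Q e1 w g) (n : ℤ) {ζ : ℂ} (hζ : 0 < ζ.im) :
    0 < (Tn w g n ζ).im := by
  have hH : ζ ∈ HH := hζ.le
  induction n using Int.induction_on with
  | zero => exact hζ
  | succ n ih =>
    rw [Tn_succ h _ hH]
    exact Ft_pos h ih
  | pred n ih =>
    rw [Tn_pred h _ hH]
    exact g_pos h ih

theorem Tn_smooth (h : Strip m Q e1 w g) (n : ℤ) : ContDiffOn ℝ m (Tn w g n) HH := by
  induction n using Int.induction_on with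
  | zero => exact contDiffOn_id
  | succ n ih =>
    exact ((Ft_smooth h).comp ih (fun ζ hζ => Tn_mem h _ hζ)).congr
      (fun ζ hζ => Tn_succ h _ hζ)
  | pred n ih =>
    exact (h.gsmooth.comp ih (fun ζ hζ => Tn_mem h _ hζ)).congr
      (fun ζ hζ => Tn_pred h _ hζ)

theorem Tn_det (h : Strip m Q e1 w g) (n : ℤ) {ζ : ℂ} (hζ : ζ ∈ HH) :
    0 < (fderivWithin ℝ (Tn w g n) HH ζ).det := by
  have hm : ((m : ℕ∞) : WithTop ℕ∞) ≠ 0 := by
    have := h.hm
    have h0 : m ≠ 0 := by omega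
    exact_mod_cast h0
  induction n using Int.induction_on generalizing ζ with
  | zero =>
    have h1 : fderivWithin ℝ (Tn w g 0) HH ζ = ContinuousLinearMap.id ℝ ℂ :=
      fderivWithin_id (unique_HH ζ hζ)
    rw [h1, det_eq_om]
    simp [om]
  | succ n ih =>
    exact T1_det ((Ft_smooth h).differentiableOn hm) ((Tn_smooth h n).differentiableOn hm)
      (fun ζ hζ => Tn_mem h _ hζ) (fun ζ hζ => Ft_det h hζ) (fun ζ hζ => ih hζ)
      (fun ζ hζ => Tn_succ h _ hζ) hζ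
  | pred n ih =>
    exact T1_det (h.gsmooth.differentiableOn hm) ((Tn_smooth h (-n)).differentiableOn hm)
      (fun ζ hζ => Tn_mem h _ hζ) (fun ζ hζ => g_det h hζ) (fun ζ hζ => ih hζ)
      (fun ζ hζ => Tn_pred h _ hζ) hζ

theorem Tn_add_one (h : Strip m Q e1 w g) (n : ℤ) {ζ : ℂ} (hζ : ζ ∈ HH) :
    Tn w g n (ζ + 1) = Tn w g n ζ + 1 := by
  have h1 := T1_add_one_mem hζ
  induction n using Int.induction_on with
  | zero => rfl
  | succ n ih =>
    rw [Tn_succ h _ h1, Tn_succ h _ hζ, ih, Ft_add_one h]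
  | pred n ih =>
    rw [Tn_pred h _ h1, Tn_pred h _ hζ, ih, g_per h (Tn_mem h _ hζ)]

theorem Tn_Q (h : Strip m Q e1 w g) (n : ℤ) {ζ : ℂ} (hζ : ζ ∈ HH) :
    Tn w g (n + Q) ζ = Tn w g n ζ + 1 := by
  have key : ∀ (k : ℕ) (ζ : ℂ), ζ ∈ HH → Tn w g (n + k) ζ = Tn w g n ((Ft w)^[k] ζ) := by
    intro k
    induction k with
    | zero =>
      intro ζ _
      simp
    | succ k ih =>
      intro ζ hζ
      have h1 : n + ((k + 1 : ℕ) : ℤ) = n + k + 1 := by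
        push_cast
        ring
      rw [h1, Tn_succ' h _ hζ, ih _ (h.maps ζ hζ), Function.iterate_succ_apply]
  rw [key Q ζ hζ, h.iter ζ hζ, Tn_add_one h n hζ]

end Pool.Agent.H24.PG
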