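import Pool.Agent.H24.PG.P2
import Pool.Agent.H24.PG.T1

/-!
# Module P3 (about 180 lines): the fundamental parametrisation `Phi`

PROOF. `Phi_loc`: if `n ≤ ξ.re < n + 1` then `⌊ξ.re⌋ = n` and it is the definition. If `n - 1/3 < ξ.re < n` then `⌊ξ.re⌋ = n - 1`,
`(ξ - (n - 1)).re = ξ.re - n + 1 ≥ 2/3`, so `Phi ξ = Tn (n - 1) (Ft w (EE (ξ - n)))` (`Phi0_right`) `= Tn n (EE (ξ - n))` (`Tn_succ'`,
`EE_mem`) and `Phi0 (ξ - n) = EE (ξ - n)` (`Phi0_left`). The others: with `n = ⌊ξ.re⌋`, near `ξ` `Phi` is the function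
`x ↦ Tn n (Phi0 (x - n))` (open condition `n - 1/3 < re < n + 1`), so everything follows from the facts on `Phi0` at `ξ - n`
(`0 ≤ re < 1`) and on `Tn n`: `Phi_smooth` (`ContDiffWithinAt.comp`, `ContDiffWithinAt.congr_of_eventuallyEq`, `Phi0_diff`, `Tn_smooth`;
`Phi0` has values in `HH` near the point), `Phi_det`: chain rule, `det_comp`, `Tn_det`, and `det (D Phi0) > 0` by `det_pos_of_near` with
`a = w (del s)` (`Phi0_deriv`, `h.ne`), `fderivWithin_shift`. `Phi_equiv`: `⌊ξ.re + 1⌋ = ⌊ξ.re⌋ + 1`, `Tn_succ`. `Phi_per`: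
`⌊ξ.re + Q⌋ = ⌊ξ.re⌋ + Q`, `Tn_Q`.
-/

open Set

namespace Pool.Agent.H24.PG

variable {m Q : ℕ} {e1 s0 K : ℝ} {w g : ℂ → ℂ} {del : ℝ → ℂ} {c : ℂ} {χ : ℝ → ℝ}

private theorem P3_re (ξ : ℂ) (n : ℤ) : (ξ - n).re = ξ.re - n := by
  rw [Complex.sub_re, Complex.intCast_re]

private theorem P3_im (ξ : ℂ) (n : ℤ) : (ξ - n).im = ξ.im := by
  rw [Complex.sub_im, Complex.intCast_im, sub_zero]

private theorem P3_mem {ξ : ℂ} (hξ : ξ ∈ HH) (n : ℤ) : ξ - n ∈ HH := by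
  change 0 ≤ (ξ - n).im
  rw [P3_im]
  exact hξ

theorem Phi_loc (h : Strip m Q e1 w g) (a : Arc m Q w del s0 c) (hχ : Step χ (1 / 3) (2 / 3) K)
    (n : ℤ) {ξ : ℂ} (hξ : ξ ∈ HH) (h1 : (n : ℝ) - 1 / 3 < ξ.re) (h2 : ξ.re < n + 1) :
    Phi χ w g del ξ = Tn w g n (Phi0 χ w del (ξ - n)) := by
  rcases le_or_gt (n : ℝ) ξ.re with h3 | h3
  · have hfl : ⌊ξ.re⌋ = n := Int.floor_eq_iff.2 ⟨h3, h2⟩
    rw [Phi, hfl]
  · have hfl : ⌊ξ.re⌋ = n - 1 := by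
      rw [Int.floor_eq_iff]
      push_cast
      constructor <;> linarith
    have e1 : ξ - ((n - 1 : ℤ) : ℂ) - 1 = ξ - n := by
      push_cast
      ring
    have hm : EE w del (ξ - n) ∈ HH := by
      refine EE_mem h a (P3_mem hξ n) ?_
      rw [P3_re, abs_le]
      constructor <;> linarith
    have e2 := Tn_succ' h (n - 1) hm
    rw [sub_add_cancel] at e2
    rw [Phi, hfl, Phi0_right hχ, e1, Phi0_left hχ, e2]
    · rw [P3_re]
      linarith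
    · rw [P3_re]
      push_cast
      linarith

private theorem P3_fl0 (ξ : ℂ) : 0 ≤ (ξ - (⌊ξ.re⌋ : ℤ)).re := by
  rw [P3_re]
  have := Int.floor_le ξ.re
  linarith

private theorem P3_fl1 (ξ : ℂ) : (ξ - (⌊ξ.re⌋ : ℤ)).re < 1 := by
  rw [P3_re]
  have := Int.lt_floor_add_one ξ.re
  linarith

theorem Phi_mem (h : Strip m Q e1 w g) (a : Arc m Q w del s0 c) (hχ : Step χ (1 / 3) (2 / 3) K)
    {ξ : ℂ} (hξ : ξ ∈ HH) : Phi χ w g del ξ ∈ HH := by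
  have h0 := P3_fl0 ξ
  have h1 := P3_fl1 ξ
  exact Tn_mem h _ (Phi0_mem h a hχ (P3_mem hξ _) (by linarith) (by linarith))

theorem Phi_real (h : Strip m Q e1 w g) (a : Arc m Q w del s0 c) (hχ : Step χ (1 / 3) (2 / 3) K)
    {ξ : ℂ} (hξ : ξ.im = 0) : (Phi χ w g del ξ).im = 0 := by
  refine Tn_real h _ (Phi0_real h a ?_)
  rw [P3_im]
  exact hξ

theorem Phi_pos (h : Strip m Q e1 w g) (a : Arc m Q w del s0 c) (hχ : Step χ (1 / 3) (2 / 3) K)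
    {ξ : ℂ} (hξ : 0 < ξ.im) : 0 < (Phi χ w g del ξ).im := by
  have h0 := P3_fl0 ξ
  have h1 := P3_fl1 ξ
  refine Tn_pos h _ (Phi0_pos h a hχ ?_ (by linarith) (by linarith))
  rw [P3_im]
  exact hξ

theorem Phi_equiv (h : Strip m Q e1 w g) (a : Arc m Q w del s0 c)
    (hχ : Step χ (1 / 3) (2 / 3) K) {ξ : ℂ} (hξ : ξ ∈ HH) :
    Phi χ w g del (ξ + 1) = Ft w (Phi χ w g del ξ) := by
  have h0 := P3_fl0 ξ
  have h1 := P3_fl1 ξ
  have e1 : ⌊(ξ + 1).re⌋ = ⌊ξ.re⌋ + 1 := by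
    rw [Complex.add_re, Complex.one_re, Int.floor_add_one]
  have e2 : ξ + 1 - ((⌊ξ.re⌋ + 1 : ℤ) : ℂ) = ξ - (⌊ξ.re⌋ : ℤ) := by
    push_cast
    ring
  rw [Phi, e1, e2, Tn_succ h _ (Phi0_mem h a hχ (P3_mem hξ _) (by linarith) (by linarith)), Phi]

theorem Phi_per (h : Strip m Q e1 w g) (a : Arc m Q w del s0 c)
    (hχ : Step χ (1 / 3) (2 / 3) K) {ξ : ℂ} (hξ : ξ ∈ HH) :
    Phi χ w g del (ξ + Q) = Phi χ w g del ξ + 1 := by
  have h0 := P3_fl0 ξ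
  have h1 := P3_fl1 ξ
  have e1 : ⌊(ξ + Q).re⌋ = ⌊ξ.re⌋ + Q := by
    rw [Complex.add_re, Complex.natCast_re, Int.floor_add_natCast]
  have e2 : ξ + Q - ((⌊ξ.re⌋ + Q : ℤ) : ℂ) = ξ - (⌊ξ.re⌋ : ℤ) := by
    push_cast
    ring
  rw [Phi, e1, e2, Tn_Q h _ (Phi0_mem h a hχ (P3_mem hξ _) (by linarith) (by linarith)), Phi]

private def P3_U (n : ℤ) : Set ℂ := {x | (n : ℝ) - 1 / 3 < x.re ∧ x.re < n + 1}

private theorem P3_nhds (ξ : ℂ) : P3_U ⌊ξ.re⌋ ∈ nhds ξ := by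
  have ho : IsOpen (P3_U ⌊ξ.re⌋) := by
    refine IsOpen.and ?_ ?_
    · exact isOpen_lt continuous_const Complex.continuous_re
    · exact isOpen_lt Complex.continuous_re continuous_const
  refine ho.mem_nhds ⟨?_, ?_⟩
  · have := Int.floor_le ξ.re
    linarith
  · exact Int.lt_floor_add_one ξ.re

private theorem P3_maps (h : Strip m Q e1 w g) (a : Arc m Q w del s0 c)
    (hχ : Step χ (1 / 3) (2 / 3) K) (n : ℤ) :
    MapsTo (fun x : ℂ => Phi0 χ w del (x - n)) (HH ∩ P3_U n) HH := by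
  rintro x ⟨hx, hx1, hx2⟩
  refine Phi0_mem h a hχ (P3_mem hx n) ?_ ?_
  · rw [P3_re]
    linarith
  · rw [P3_re]
    linarith

private theorem P3_ev (h : Strip m Q e1 w g) (a : Arc m Q w del s0 c)
    (hχ : Step χ (1 / 3) (2 / 3) K) (ξ : ℂ) :
    Phi χ w g del =ᶠ[nhdsWithin ξ HH]
      fun x => Tn w g ⌊ξ.re⌋ (Phi0 χ w del (x - (⌊ξ.re⌋ : ℤ))) := by
  have h1 : HH ∩ P3_U ⌊ξ.re⌋ ∈ nhdsWithin ξ HH :=
    inter_mem_nhdsWithin _ (P3_nhds ξ)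
  filter_upwards [h1] with x hx
  exact Phi_loc h a hχ _ hx.1 hx.2.1 hx.2.2

theorem Phi_smooth (h : Strip m Q e1 w g) (a : Arc m Q w del s0 c)
    (hχ : Step χ (1 / 3) (2 / 3) K) : ContDiffOn ℝ m (Phi χ w g del) HH := by
  intro ξ hξ
  have h0 := P3_fl0 ξ
  have h1 := P3_fl1 ξ
  refine ContDiffWithinAt.congr_of_eventuallyEq ?_ (P3_ev h a hχ ξ) rfl
  have hin : ContDiffWithinAt ℝ m (fun x : ℂ => Phi0 χ w del (x - (⌊ξ.re⌋ : ℤ))) HH ξ := by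
    refine ContDiffWithinAt.comp ξ (t := HH)
      (Phi0_diff h a hχ (P3_mem hξ _) (by linarith) (by linarith)) ?_ ?_
    · exact (contDiff_id.sub contDiff_const).contDiffWithinAt
    · intro x hx
      exact P3_mem hx _
  rw [← contDiffWithinAt_inter (P3_nhds ξ)]
  exact ContDiffWithinAt.comp ξ (t := HH)
    (Tn_smooth h _ _ (Phi0_mem h a hχ (P3_mem hξ _) (by linarith) (by linarith)))
    (hin.mono inter_subset_left) (P3_maps h a hχ _)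

theorem Phi_det (h : Strip m Q e1 w g) (a : Arc m Q w del s0 c)
    (hχ : Step χ (1 / 3) (2 / 3) K) (hK : (5 + 2 * K) * e1 ≤ 1 / 10) {ξ : ℂ} (hξ : ξ ∈ HH) :
    0 < (fderivWithin ℝ (Phi χ w g del) HH ξ).det := by
  have h0 := P3_fl0 ξ
  have h1 := P3_fl1 ξ
  have hm0 : (m : WithTop ℕ∞) ≠ 0 := by
    have := h.hm
    exact_mod_cast (by omega : m ≠ 0)
  obtain ⟨n, hn⟩ : ∃ n : ℤ, n = ⌊ξ.re⌋ := ⟨_, rfl⟩
  have hev := P3_ev h a hχ ξ (g := g)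
  have hnh := P3_nhds ξ
  rw [← hn] at h0 h1 hev hnh
  have hp : Phi0 χ w del (ξ - n) ∈ HH :=
    Phi0_mem h a hχ (P3_mem hξ _) (by linarith) (by linarith)
  have hA : HasFDerivWithinAt (Phi0 χ w del) (fderivWithin ℝ (Phi0 χ w del) HH (ξ - n)) HH
      (ξ - n) :=
    ((Phi0_diff h a hχ (P3_mem hξ _) (by linarith) (by linarith)).differentiableWithinAt
      hm0).hasFDerivWithinAt
  have hB : HasFDerivWithinAt (Tn w g n) (fderivWithin ℝ (Tn w g n) HH (Phi0 χ w del (ξ - n))) HH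
      (Phi0 χ w del (ξ - n)) :=
    ((Tn_smooth h n _ hp).differentiableWithinAt hm0).hasFDerivWithinAt
  have hS : HasFDerivWithinAt (fun x : ℂ => x - (n : ℂ)) (ContinuousLinearMap.id ℝ ℂ) HH ξ :=
    ((hasFDerivAt_id ξ).sub_const (n : ℂ)).hasFDerivWithinAt
  have hAS : HasFDerivWithinAt (fun x : ℂ => Phi0 χ w del (x - n))
      ((fderivWithin ℝ (Phi0 χ w del) HH (ξ - n)).comp (ContinuousLinearMap.id ℝ ℂ)) HH ξ := by
    have hAS' := hA.comp ξ hS (fun x hx => P3_mem hx n)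
    exact hAS'
  have hC : HasFDerivWithinAt (fun x : ℂ => Tn w g n (Phi0 χ w del (x - n)))
      ((fderivWithin ℝ (Tn w g n) HH (Phi0 χ w del (ξ - n))).comp
        ((fderivWithin ℝ (Phi0 χ w del) HH (ξ - n)).comp (ContinuousLinearMap.id ℝ ℂ))) HH ξ := by
    rw [← hasFDerivWithinAt_inter hnh]
    exact HasFDerivWithinAt.comp ξ (t := HH) hB (hAS.mono inter_subset_left)
      (P3_maps h a hχ n)
  have hD := hC.congr_of_eventuallyEq hev (hev.self_of_nhdsWithin hξ)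
  rw [hD.fderivWithin (unique_HH ξ hξ), det_comp, ContinuousLinearMap.comp_id]
  refine mul_pos (Tn_det h n hp) ?_
  have himz : (ξ - n).im = ξ.im := P3_im ξ n
  refine det_pos_of_near _ (w (del (ξ - n).im)) ?_ fun u => ?_
  · refine h.ne _ (del_mem a ?_)
    rw [himz]
    exact hξ
  · exact Phi0_deriv h a hχ hK (P3_mem hξ n) (by linarith) (by linarith) u

end Pool.Agent.H24.PG
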