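import Pool.Agent.H24.PG.A1
import Pool.Agent.H24.PG.P3

/-!
# Module A2 (about 180 lines): asymptotics of `Phi0` and of `Phi`; the structure `PhiOK`

PROOF. `Phi0_asy`: `0 ≤ re ξ < 1`. `A = EE` is `AsyAt Q c C` (`EE_asy`). `f x = EE (x - 1)` is `AsyAt Q (c - 1/Q) C` at `ξ` (`EE_asy` at `ξ - 1`,
`fderivWithin_shift`, same imaginary part), so `B x = Ft w (EE (x - 1))` is `AsyAt Q (c - 1/Q + 1/Q) C'` (`asy_step`). `Phi0_form`:
`Phi0 - (c + ξ/Q) = (1 - χ)(A - ..) + χ (B - ..)`, `D Phi0 u - u/Q = (1 - χ)(DA u - u/Q) + χ (DB u - u/Q) + χ' u.re (B - A)`,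
`‖B - A‖ ≤ (C + C') E`. Constant `C + C' + K (C + C')` (take `C, C' ≥ 0`).
`Phi_asy_nat`: induction on `k`. `k = 0`: on `0 ≤ re < 1` (even `-1/3 < re < 1`) `Phi = Phi0` (`Phi_loc` with `n = 0`, `Tn_zero`), so the
derivatives within `HH` agree (`Filter.EventuallyEq.fderivWithin_eq`). Step: for `k + 1 ≤ re ξ < k + 2` let `η = ξ - 1`;
`Phi x = Ft w (Phi (x - 1))` on `HH` (`Phi_equiv`), `Phi` is `AsyAt Q c C` at `η`, so `Ft w ∘ Phi` is `AsyAt Q (c + 1/Q) C'` at `η`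
(`asy_step`), and with `fderivWithin_shift` `Phi` is `AsyAt Q c C'` at `ξ` (`c + 1/Q + η/Q = c + ξ/Q`).
`phi_ok`: `asy`, `dasy`: let `C` be the maximum of the constants for `k < Q` (so it works for `0 ≤ re < Q`); for general `ξ` let
`n = ⌊ξ.re / Q⌋`, `η = ξ - n Q`; `Phi (η + n Q) = Phi η + n` (`Phi_per`, induction over integers, `Int.induction_on`) and the same for the
derivative (`fderivWithin_shift`). The other fields are in P3.
-/

open Set

namespace Pool.Agent.H24.PG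

variable {m Q : ℕ} {e1 s0 K : ℝ} {w g : ℂ → ℂ} {del : ℝ → ℂ} {c : ℂ} {χ : ℝ → ℝ}

private theorem A2_shift (Q : ℕ) (c : ℂ) (C : ℝ) (f : ℂ → ℂ) (ξ : ℂ) (r : ℝ) (c' : ℂ)
    (hc : c' + ξ / Q = c + (ξ + r) / Q) (hf : AsyAt Q c C f (ξ + r)) :
    AsyAt Q c' C (fun x => f (x + r)) ξ := by
  obtain ⟨h1, h2⟩ := hf
  have him : (ξ + r).im = ξ.im := by simp
  rw [him] at h1 h2
  refine ⟨?_, fun u => ?_⟩
  · rw [hc]
    exact h1
  · rw [fderivWithin_shift]
    exact h2 u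

private theorem A2_mul {a b : ℂ} {M : ℝ} (ha : ‖a‖ ≤ 1) (hb : ‖b‖ ≤ M) : ‖a * b‖ ≤ M := by
  rw [norm_mul]
  have := norm_nonneg b
  nlinarith

private theorem A2_congr {Q : ℕ} {c : ℂ} {C : ℝ} {f f' : ℂ → ℂ} {ξ : ℂ} (hξ : ξ ∈ HH)
    (he : f =ᶠ[nhdsWithin ξ HH] f') (hf : AsyAt Q c C f' ξ) : AsyAt Q c C f ξ := by
  have h0 : f ξ = f' ξ := he.self_of_nhdsWithin hξ
  obtain ⟨h1, h2⟩ := hf
  refine ⟨by rw [h0]; exact h1, fun u => ?_⟩
  rw [he.fderivWithin_eq h0]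
  exact h2 u

private theorem A2_mono {Q : ℕ} {c : ℂ} {C C' : ℝ} (h : C ≤ C') {f : ℂ → ℂ} {ξ : ℂ}
    (hf : AsyAt Q c C f ξ) : AsyAt Q c C' f ξ := by
  obtain ⟨h1, h2⟩ := hf
  refine ⟨h1.trans ?_, fun u => (h2 u).trans ?_⟩ <;> gcongr

private theorem A2_addc {Q : ℕ} {c : ℂ} {C : ℝ} {f : ℂ → ℂ} {ξ : ℂ} (d : ℂ)
    (hf : AsyAt Q c C f ξ) : AsyAt Q (c + d) C (fun x => f x + d) ξ := by
  obtain ⟨h1, h2⟩ := hf
  refine ⟨?_, fun u => ?_⟩
  · have : f ξ + d - (c + d + ξ / Q) = f ξ - (c + ξ / Q) := by ring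
    change ‖f ξ + d - (c + d + ξ / Q)‖ ≤ _
    rw [this]
    exact h1
  · rw [fderivWithin_add_const]
    exact h2 u

theorem Phi0_asy (h : Strip m Q e1 w g) (a : Arc m Q w del s0 c) (hχ : Step χ (1 / 3) (2 / 3) K) :
    ∃ C : ℝ, ∀ ξ ∈ HH, 0 ≤ ξ.re → ξ.re < 1 → AsyAt Q c C (Phi0 χ w del) ξ := by
  obtain ⟨C, hC⟩ := EE_asy h a
  obtain ⟨C', hC'⟩ := asy_step h (c - 1 / Q) C
  have hm1 : (m : WithTop ℕ∞) ≠ 0 := by
    have := h.hm
    have h2 : m ≠ 0 := by omega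
    exact_mod_cast h2
  have hK0 := hχ.Kpos
  refine ⟨(max C 0 + max C' 0) + K * (max C 0 + max C' 0), fun ξ hξ h0 h1 => ?_⟩
  have hξ' : ξ + ((-1 : ℝ) : ℂ) ∈ HH := (add_real_mem _).2 hξ
  have hre' : (ξ + ((-1 : ℝ) : ℂ)).re = ξ.re - 1 := by
    rw [Complex.add_re, Complex.ofReal_re]
    ring
  have hA := hC ξ hξ (by rw [abs_le]; constructor <;> linarith)
  have hA1 := hC _ hξ' (by rw [hre', abs_le]; constructor <;> linarith)
  have hf : AsyAt Q (c - 1 / Q) C (fun x => EE w del (x + ((-1 : ℝ) : ℂ))) ξ := by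
    refine A2_shift Q c C _ ξ (-1) (c - 1 / Q) ?_ hA1
    push_cast
    ring
  have hB := hC' _ ξ hξ (by
    have h3 : DifferentiableWithinAt ℝ (EE w del) HH (ξ + ((-1 : ℝ) : ℂ)) :=
      ((EE_smooth h a).differentiableOn hm1) _ hξ'
    have h4 : DifferentiableWithinAt ℝ (fun x : ℂ => x + ((-1 : ℝ) : ℂ)) HH ξ :=
      (differentiableWithinAt_id.add_const _)
    exact h3.comp ξ h4 (fun x hx => (add_real_mem _).2 hx)) (by
    have h5 : {x : ℂ | -1 < x.re} ∩ {x : ℂ | x.re < 2} ∈ nhds ξ := by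
      refine IsOpen.mem_nhds ?_ ⟨?_, ?_⟩
      · exact (isOpen_lt continuous_const Complex.continuous_re).inter
          (isOpen_lt Complex.continuous_re continuous_const)
      · change -1 < ξ.re
        linarith
      · change ξ.re < 2
        linarith
    filter_upwards [self_mem_nhdsWithin, mem_nhdsWithin_of_mem_nhds h5] with x hx hx2
    have h6 : -1 < x.re := hx2.1
    have h7 : x.re < 2 := hx2.2
    refine EE_mem h a ((add_real_mem _).2 hx) ?_
    rw [Complex.add_re, Complex.ofReal_re, abs_le]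
    constructor <;> linarith) hf
  have hfun : (fun x => Ft w (EE w del (x + ((-1 : ℝ) : ℂ)))) =
      fun x => Ft w (EE w del (x - 1)) := by
    funext x
    congr 2
    push_cast
    ring
  have hcc : c - 1 / (Q : ℂ) + 1 / Q = c := by ring
  rw [hfun, hcc] at hB
  obtain ⟨hA0, hA2⟩ := hA
  obtain ⟨hB0, hB2⟩ := hB
  unfold AsyAt
  have hE : 0 < Real.exp (-(2 * Real.pi * ξ.im / Q)) := Real.exp_pos _
  generalize Real.exp (-(2 * Real.pi * ξ.im / Q)) = E at *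
  have c1 : C ≤ max C 0 := le_max_left _ _
  have c2 : C' ≤ max C' 0 := le_max_left _ _
  have c3 : 0 ≤ max C 0 := le_max_right _ _
  have c4 : 0 ≤ max C' 0 := le_max_right _ _
  generalize max C 0 = M at *
  generalize max C' 0 = M' at *
  have x0 := hχ.nonneg ξ.re
  have x1 := hχ.le_one ξ.re
  have x2 := hχ.slope ξ.re
  have n1 : ‖((1 - χ ξ.re : ℝ) : ℂ)‖ ≤ 1 := by
    rw [Complex.norm_real, Real.norm_of_nonneg (by linarith)]
    linarith
  have n2 : ‖((χ ξ.re : ℝ) : ℂ)‖ ≤ 1 := by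
    rw [Complex.norm_real, Real.norm_of_nonneg (by linarith)]
    linarith
  have a1 : ‖EE w del ξ - (c + ξ / Q)‖ ≤ M * E := hA0.trans (mul_le_mul_of_nonneg_right c1 hE.le)
  have b1 : ‖Ft w (EE w del (ξ - 1)) - (c + ξ / Q)‖ ≤ M' * E :=
    hB0.trans (mul_le_mul_of_nonneg_right c2 hE.le)
  have s1 : 0 ≤ K * (M + M') := by positivity
  constructor
  · have e1 : Phi0 χ w del ξ - (c + ξ / Q) =
        ((1 - χ ξ.re : ℝ) : ℂ) * (EE w del ξ - (c + ξ / Q)) +
        ((χ ξ.re : ℝ) : ℂ) * (Ft w (EE w del (ξ - 1)) - (c + ξ / Q)) := by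
      rw [Phi0]
      push_cast
      ring
    rw [e1]
    have k1 := A2_mul n1 a1
    have k2 := A2_mul n2 b1
    refine (norm_add_le _ _).trans ?_
    nlinarith
  · intro u
    have a2 : ‖fderivWithin ℝ (EE w del) HH ξ u - u / Q‖ ≤ M * E * ‖u‖ := by
      refine (hA2 u).trans ?_
      gcongr
    have b2 : ‖fderivWithin ℝ (fun x => Ft w (EE w del (x - 1))) HH ξ u - u / Q‖ ≤ M' * E * ‖u‖ := by
      refine (hB2 u).trans ?_
      gcongr
    rw [Phi0_form h a hχ hξ (by linarith) (by linarith) u]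
    have e1 : ((1 - χ ξ.re : ℝ) : ℂ) * fderivWithin ℝ (EE w del) HH ξ u +
        ((χ ξ.re : ℝ) : ℂ) * fderivWithin ℝ (fun x => Ft w (EE w del (x - 1))) HH ξ u +
        ((deriv χ ξ.re * u.re : ℝ) : ℂ) * (Ft w (EE w del (ξ - 1)) - EE w del ξ) - u / Q =
        ((1 - χ ξ.re : ℝ) : ℂ) * (fderivWithin ℝ (EE w del) HH ξ u - u / Q) +
        ((χ ξ.re : ℝ) : ℂ) * (fderivWithin ℝ (fun x => Ft w (EE w del (x - 1))) HH ξ u - u / Q) +
        ((deriv χ ξ.re * u.re : ℝ) : ℂ) *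
          ((Ft w (EE w del (ξ - 1)) - (c + ξ / Q)) - (EE w del ξ - (c + ξ / Q))) := by
      push_cast
      ring
    rw [e1]
    have k1 := A2_mul n1 a2
    have k2 := A2_mul n2 b2
    have k3 : ‖((deriv χ ξ.re * u.re : ℝ) : ℂ) *
          ((Ft w (EE w del (ξ - 1)) - (c + ξ / Q)) - (EE w del ξ - (c + ξ / Q)))‖ ≤
        (K * ‖u‖) * (M' * E + M * E) := by
      rw [norm_mul, Complex.norm_real, norm_mul]
      have j1 : ‖deriv χ ξ.re‖ * ‖u.re‖ ≤ K * ‖u‖ :=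
        mul_le_mul x2 (Complex.abs_re_le_norm u) (norm_nonneg _) hK0.le
      exact mul_le_mul j1 ((norm_sub_le _ _).trans (add_le_add b1 a1)) (norm_nonneg _)
        (by positivity)
    refine (norm_add₃_le).trans ?_
    calc _ ≤ M * E * ‖u‖ + M' * E * ‖u‖ + (K * ‖u‖) * (M' * E + M * E) :=
          add_le_add (add_le_add k1 k2) k3
      _ = _ := by ring

theorem Phi_asy_nat (h : Strip m Q e1 w g) (a : Arc m Q w del s0 c)
    (hχ : Step χ (1 / 3) (2 / 3) K) (k : ℕ) :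
    ∃ C : ℝ, ∀ ξ ∈ HH, (k : ℝ) ≤ ξ.re → ξ.re < k + 1 → AsyAt Q c C (Phi χ w g del) ξ := by
  have hm1 : (m : WithTop ℕ∞) ≠ 0 := by
    have := h.hm
    have h2 : m ≠ 0 := by omega
    exact_mod_cast h2
  induction k with
  | zero =>
    obtain ⟨C, hC⟩ := Phi0_asy h a hχ
    refine ⟨C, fun ξ hξ h0 h1 => ?_⟩
    rw [Nat.cast_zero] at h0 h1
    rw [zero_add] at h1
    refine A2_congr hξ ?_ (hC ξ hξ h0 h1)
    have h5 : {x : ℂ | -1 / 3 < x.re} ∩ {x : ℂ | x.re < 1} ∈ nhds ξ := by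
      refine IsOpen.mem_nhds ?_ ⟨?_, ?_⟩
      · exact (isOpen_lt continuous_const Complex.continuous_re).inter
          (isOpen_lt Complex.continuous_re continuous_const)
      · change -1 / 3 < ξ.re
        linarith
      · exact h1
    filter_upwards [self_mem_nhdsWithin, mem_nhdsWithin_of_mem_nhds h5] with x hx hx2
    have h6 : -1 / 3 < x.re := hx2.1
    have h7 : x.re < 1 := hx2.2
    have h8 := Phi_loc h a hχ 0 hx (by push_cast; linarith) (by push_cast; linarith)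
    rw [h8, Tn_zero, Int.cast_zero, sub_zero]
  | succ k ih =>
    obtain ⟨C, hC⟩ := ih
    obtain ⟨C', hC'⟩ := asy_step h c C
    refine ⟨C', fun ξ hξ h0 h1 => ?_⟩
    have hη : ξ + ((-1 : ℝ) : ℂ) ∈ HH := (add_real_mem _).2 hξ
    have hre : (ξ + ((-1 : ℝ) : ℂ)).re = ξ.re - 1 := by
      rw [Complex.add_re, Complex.ofReal_re]
      ring
    push_cast at h0 h1
    have h2 := hC _ hη (by rw [hre]; linarith) (by rw [hre]; linarith)
    have h3 := hC' _ _ hη (((Phi_smooth h a hχ).differentiableOn hm1) _ hη)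
      (by filter_upwards [self_mem_nhdsWithin] with x hx using Phi_mem h a hχ hx) h2
    have h4 : AsyAt Q c C' (fun x => Ft w (Phi χ w g del (x + ((-1 : ℝ) : ℂ)))) ξ := by
      refine A2_shift Q (c + 1 / Q) C' (fun x => Ft w (Phi χ w g del x)) ξ (-1) c ?_ h3
      push_cast
      ring
    refine A2_congr hξ ?_ h4
    filter_upwards [self_mem_nhdsWithin] with x hx
    have h5 := Phi_equiv h a hχ (ξ := x + ((-1 : ℝ) : ℂ)) ((add_real_mem _).2 hx)
    rw [← h5]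
    congr 1
    push_cast
    ring

theorem phi_ok (h : Strip m Q e1 w g) (a : Arc m Q w del s0 c) (hχ : Step χ (1 / 3) (2 / 3) K)
    (hK : (5 + 2 * K) * e1 ≤ 1 / 10) : PhiOK m Q w (Phi χ w g del) c := by
  have hQ0 : (0 : ℝ) < Q := by
    have := h.hQ
    have h2 : 0 < Q := by omega
    exact_mod_cast h2
  have hper : ∀ n : ℤ, ∀ ζ ∈ HH, Phi χ w g del (ζ + ((n * Q : ℝ) : ℂ)) = Phi χ w g del ζ + n := by
    intro n
    induction n using Int.induction_on with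
    | zero =>
      intro ζ _
      simp
    | succ n ih =>
      intro ζ hζ
      have h1 := Phi_per h a hχ (ξ := ζ + (((n : ℤ) * Q : ℝ) : ℂ)) ((add_real_mem _).2 hζ)
      rw [ih ζ hζ] at h1
      have h2 : ζ + ((((n : ℤ) + 1 : ℤ) * Q : ℝ) : ℂ) = ζ + (((n : ℤ) * Q : ℝ) : ℂ) + Q := by
        push_cast
        ring
      rw [h2, h1]
      push_cast
      ring
    | pred n ih =>
      intro ζ hζ
      have h1 := Phi_per h a hχ (ξ := ζ + (((-(n : ℤ) - 1 : ℤ) * Q : ℝ) : ℂ))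
        ((add_real_mem _).2 hζ)
      have h2 : ζ + (((-(n : ℤ) - 1 : ℤ) * Q : ℝ) : ℂ) + Q = ζ + (((-(n : ℤ) : ℤ) * Q : ℝ) : ℂ) := by
        push_cast
        ring
      rw [h2, ih ζ hζ] at h1
      have h3 : Phi χ w g del (ζ + (((-(n : ℤ) - 1 : ℤ) * Q : ℝ) : ℂ)) =
        Phi χ w g del ζ + ((-(n : ℤ) : ℤ) : ℂ) - 1 := by
        rw [h1]
        ring
      rw [h3]
      push_cast
      ring
  choose C hC using Phi_asy_nat h a hχ
  have hall : ∀ ξ ∈ HH, AsyAt Q c (∑ k ∈ Finset.range Q, |C k|) (Phi χ w g del) ξ := by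
    intro ξ hξ
    set n : ℤ := ⌊ξ.re / Q⌋ with hn
    set η : ℂ := ξ + ((-(n * Q) : ℝ) : ℂ) with hη
    have hηH : η ∈ HH := (add_real_mem _).2 hξ
    have hre : η.re = ξ.re - n * Q := by
      rw [hη, Complex.add_re, Complex.ofReal_re]
      ring
    have f1 : (n : ℝ) ≤ ξ.re / Q := Int.floor_le _
    have f2 : ξ.re / Q < n + 1 := Int.lt_floor_add_one _
    rw [le_div_iff₀ hQ0] at f1
    rw [div_lt_iff₀ hQ0] at f2
    have g1 : 0 ≤ η.re := by
      rw [hre]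
      linarith
    have g2 : η.re < Q := by
      rw [hre]
      linarith
    have hk : ⌊η.re⌋₊ < Q := (Nat.floor_lt g1).2 g2
    have h1 := hC ⌊η.re⌋₊ η hηH (Nat.floor_le g1) (Nat.lt_floor_add_one _)
    have h2 : C ⌊η.re⌋₊ ≤ ∑ k ∈ Finset.range Q, |C k| :=
      (le_abs_self _).trans (Finset.single_le_sum (f := fun k => |C k|) (fun i _ => abs_nonneg _)
        (Finset.mem_range.2 hk))
    have h3 := A2_mono h2 h1
    have h4 : AsyAt Q (c - n) (∑ k ∈ Finset.range Q, |C k|)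
        (fun x => Phi χ w g del (x + ((-(n * Q) : ℝ) : ℂ))) ξ := by
      refine A2_shift Q c _ _ ξ _ (c - n) ?_ h3
      have hQc : (Q : ℂ) ≠ 0 := by exact_mod_cast hQ0.ne'
      push_cast
      field_simp
      ring
    have h5 := A2_addc (n : ℂ) h4
    rw [sub_add_cancel] at h5
    refine A2_congr hξ ?_ h5
    filter_upwards [self_mem_nhdsWithin] with x hx
    have h6 := hper n (x + ((-(n * Q) : ℝ) : ℂ)) ((add_real_mem _).2 hx)
    rw [← h6]
    congr 1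
    push_cast
    ring
  exact
    { smooth := Phi_smooth h a hχ
      maps := fun ξ hξ => Phi_mem h a hχ hξ
      bdry := fun ξ hξ => Phi_real h a hχ hξ
      inter := fun ξ hξ => Phi_pos h a hχ hξ
      equiv := fun ξ hξ => Phi_equiv h a hχ hξ
      per := fun ξ hξ => Phi_per h a hχ hξ
      det := fun ξ hξ => Phi_det h a hχ hK hξ
      asy := ⟨_, fun ξ hξ => (hall ξ hξ).1⟩
      dasy := ⟨_, fun ξ hξ => (hall ξ hξ).2⟩ }

end Pool.Agent.H24.PG
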