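import Pool.Agent.H24.PG.Defs
import Pool.Agent.H85.PR.Bij

/-!
# Module Bij (about 150 lines): a proper local diffeomorphism with one simple value is bijective

PROOF. Surjective: `f '' U` is open: `HasStrictFDerivAt.map_nhds_eq_of_equiv` (`map f (𝓝 x) = 𝓝 (f x)`), and closed in `V`:
let `y ∈ closure (f '' U) ∩ V`. Take a compact neighbourhood `K ⊆ V` of `y` (`hV`, `exists_compact_subset` or
`exists_mem_nhds_isCompact...`). `C = U ∩ f ⁻¹' K` is compact, `f '' C` is compact so closed, and `y ∈ closure (f '' C)`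
(points of `f '' U` near `y` are in `K`), so `y ∈ f '' C`. Now use `IsPreconnected.subset_of_closure_inter_subset`
(with `u = f '' U`).
Injective: let `W = {y | ∃ a ∈ U, ∃ b ∈ U, a ≠ b ∧ f a = y ∧ f b = y}`. `W` is open: if `a ≠ b` take disjoint
neighbourhoods, their images are neighbourhoods of `y`. `closure W ∩ V ⊆ W`: let `y` be in the left side, `K`, `C` as above;
there are sequences `a_n ≠ b_n` in `C` with `f a_n = f b_n → y` (`mem_closure_iff_seq_limit`); pass to a subsequence with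
`a_n → a ∈ C`, `b_n → b ∈ C` (`IsCompact.tendsto_subseq` in `C ×ˢ C`), `f a = f b = y` (continuity on `U`). If `a = b`
then `f` is injective near `a` (`HasStrictFDerivAt.injOn...`, from `HasStrictFDerivAt.approximates_deriv_on_nhds` and
`ApproximatesLinearOn.injOn`, or `HasStrictFDerivAt.toOpenPartialHomeomorph`), contradiction for large `n`. So `a ≠ b`,
`y ∈ W`. If some two points of `U` have the same value in `V` then `(V ∩ W).Nonempty`, so `V ⊆ W` and `v0 ∈ W`,
contradiction with `h1`.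
-/

open Set

namespace Pool.Agent.H24.PG

theorem bij_open {U V : Set ℂ} (hU : IsOpen U) (hV : IsOpen V) (hVc : IsPreconnected V)
    {f : ℂ → ℂ} (hf : ContinuousOn f U) (hm : MapsTo f U V)
    (hd : ∀ x ∈ U, ∃ f' : ℂ ≃L[ℝ] ℂ, HasStrictFDerivAt f (f' : ℂ →L[ℝ] ℂ) x)
    (hp : ∀ K ⊆ V, IsCompact K → IsCompact (U ∩ f ⁻¹' K)) {v0 : ℂ} (hv0 : v0 ∈ V)
    (h1 : ∃! x, x ∈ U ∧ f x = v0) : BijOn f U V := by
  have _ := hf
  exact Pool.Agent.H85.PR.bijOn_open hU hV hVc hm hd hp ⟨v0, hv0, h1⟩

end Pool.Agent.H24.PG
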