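import Mathlib

/-!
# Part G of the pseudo-rotation paper (MP_3addf4): definitions

Near-identity periodic area preserving maps of the disc are conjugate to rotations.
`D` = closed unit disc, `HH` = closed upper half plane, `ee ζ = exp (2 π i ζ)` maps `HH` onto `D` minus `0`.
-/

open Set

namespace Pool.Agent.H24.PG

noncomputable section

/-- the closed unit disc -/
abbrev D : Set ℂ := Metric.closedBall (0 : ℂ) 1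

/-- the closed upper half plane -/
def HH : Set ℂ := {ζ | 0 ≤ ζ.im}

/-- `exp (2 π i ζ)` -/
def ee (ζ : ℂ) : ℂ := Complex.exp (2 * Real.pi * Complex.I * ζ)

/-- area form -/
def om (a b : ℂ) : ℝ := a.re * b.im - a.im * b.re

/-- a smooth step from `0` (left of `a`) to `1` (right of `b`) with slope at most `K` -/
structure Step (χ : ℝ → ℝ) (a b K : ℝ) : Prop where
  smooth : ∀ n : ℕ, ContDiff ℝ n χ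
  zero : ∀ x ≤ a, χ x = 0
  one : ∀ x, b ≤ x → χ x = 1
  nonneg : ∀ x, 0 ≤ χ x
  le_one : ∀ x, χ x ≤ 1
  Kpos : 0 < K
  slope : ∀ x, |deriv χ x| ≤ K

/-- the hypotheses of Theorem G -/
structure DiscMap (m Q : ℕ) (η : ℝ) (F Fi : ℂ → ℂ) : Prop where
  hm : 2 ≤ m
  hQ : 2 ≤ Q
  η0 : 0 ≤ η
  η1 : η ≤ 1 / 1000
  smooth : ContDiffOn ℝ m F D
  smoothi : ContDiffOn ℝ m Fi D
  maps : MapsTo F D D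
  mapsi : MapsTo Fi D D
  li : ∀ z ∈ D, Fi (F z) = z
  ri : ∀ z ∈ D, F (Fi z) = z
  zero : F 0 = 0
  det : ∀ z ∈ D, (fderivWithin ℝ F D z).det = 1
  near : ∀ z ∈ D, ‖fderivWithin ℝ F D z - ContinuousLinearMap.id ℝ ℂ‖ ≤ η
  der0 : ∀ u : ℂ, fderivWithin ℝ F D 0 u = ee (1 / Q) * u
  per : ∀ z ∈ D, F^[Q] z = z

/-- the displacement of the lift of `F` -/
def lw (F : ℂ → ℂ) (ζ : ℂ) : ℂ := Complex.log (F (ee ζ) / ee ζ) / (2 * Real.pi * Complex.I)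

/-- the lift `ζ ↦ ζ + w ζ` -/
def Ft (w : ℂ → ℂ) (ζ : ℂ) : ℂ := ζ + w ζ

/-- the properties of the lift of a periodic near-identity map; `g` is the inverse of `ζ + w ζ` on `HH` -/
structure Strip (m Q : ℕ) (e1 : ℝ) (w g : ℂ → ℂ) : Prop where
  hm : 2 ≤ m
  hQ : 2 ≤ Q
  e0 : 0 ≤ e1
  e2 : e1 ≤ 1 / 100
  smooth : ContDiffOn ℝ m w HH
  per : ∀ ζ, w (ζ + 1) = w ζ
  small : ∀ ζ ∈ HH, ‖w ζ‖ ≤ 1 / 100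
  dsmall : ∀ ζ ∈ HH, ‖fderivWithin ℝ w HH ζ‖ ≤ e1
  real : ∀ ζ : ℂ, ζ.im = 0 → (w ζ).im = 0
  pos : ∀ ζ : ℂ, ζ.im = 0 → 0 < (w ζ).re
  ne : ∀ ζ ∈ HH, w ζ ≠ 0
  asy : ∃ C : ℝ, ∀ ζ ∈ HH, ‖w ζ - 1 / Q‖ ≤ C * Real.exp (-(2 * Real.pi * ζ.im))
  dasy : ∃ C : ℝ, ∀ ζ ∈ HH, ‖fderivWithin ℝ w HH ζ‖ ≤ C * Real.exp (-(2 * Real.pi * ζ.im))
  maps : ∀ ζ ∈ HH, Ft w ζ ∈ HH
  gsmooth : ContDiffOn ℝ m g HH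
  gmaps : ∀ ζ ∈ HH, g ζ ∈ HH
  gl : ∀ ζ ∈ HH, g (Ft w ζ) = ζ
  gr : ∀ ζ ∈ HH, Ft w (g ζ) = ζ
  iter : ∀ ζ ∈ HH, (Ft w)^[Q] ζ = ζ + 1

/-- a bounded function on `HH` which decreases in the direction `i w` -/
structure Lya (w : ℂ → ℂ) (σ : ℂ → ℝ) (σ' : ℂ → ℂ →L[ℝ] ℝ) : Prop where
  bd : ∃ B : ℝ, ∀ ζ ∈ HH, |σ ζ| ≤ B
  der : ∀ ζ ∈ HH, HasFDerivWithinAt σ (σ' ζ) HH ζ
  dec : ∀ ζ ∈ HH, σ' ζ (Complex.I * w ζ) ≤ -(Real.exp (-(4 * Real.pi * ζ.im)) * ‖w ζ‖ ^ 2)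

/-- an arc transversal to the displacement field, from the boundary to infinity -/
structure Arc (m Q : ℕ) (w : ℂ → ℂ) (del : ℝ → ℂ) (s0 : ℝ) (c : ℂ) : Prop where
  smooth : ContDiffOn ℝ m del (Ici 0)
  im0 : (del 0).im = 0
  impos : ∀ s, 0 < s → 0 < (del s).im
  der : ∀ s, 0 ≤ s → ‖derivWithin del (Ici 0) s - Complex.I * w (del s)‖ ≤ 1 / 20 * ‖w (del s)‖
  s0pos : 0 < s0
  aff : ∀ s, s0 ≤ s → del s = c + Complex.I * s / Q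

/-- the point `E (t + i s) = del s + t w (del s)` -/
def EE (w : ℂ → ℂ) (del : ℝ → ℂ) (ξ : ℂ) : ℂ := del ξ.im + ξ.re * w (del ξ.im)

/-- interpolation between `E ξ` and `Ft (E (ξ - 1))` -/
def Phi0 (χ : ℝ → ℝ) (w : ℂ → ℂ) (del : ℝ → ℂ) (ξ : ℂ) : ℂ :=
  (1 - χ ξ.re : ℝ) * EE w del ξ + (χ ξ.re : ℝ) * Ft w (EE w del (ξ - 1))

/-- integer powers of the lift -/
def Tn (w g : ℂ → ℂ) : ℤ → ℂ → ℂ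
  | Int.ofNat n => (Ft w)^[n]
  | Int.negSucc n => g^[n + 1]

/-- the fundamental parametrisation -/
def Phi (χ : ℝ → ℝ) (w g : ℂ → ℂ) (del : ℝ → ℂ) (ξ : ℂ) : ℂ :=
  Tn w g ⌊ξ.re⌋ (Phi0 χ w del (ξ - ⌊ξ.re⌋))

/-- what is used of `Phi` -/
structure PhiOK (m Q : ℕ) (w Φ : ℂ → ℂ) (c : ℂ) : Prop where
  smooth : ContDiffOn ℝ m Φ HH
  maps : ∀ ξ ∈ HH, Φ ξ ∈ HH
  bdry : ∀ ξ : ℂ, ξ.im = 0 → (Φ ξ).im = 0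
  inter : ∀ ξ : ℂ, 0 < ξ.im → 0 < (Φ ξ).im
  equiv : ∀ ξ ∈ HH, Φ (ξ + 1) = Ft w (Φ ξ)
  per : ∀ ξ ∈ HH, Φ (ξ + Q) = Φ ξ + 1
  det : ∀ ξ ∈ HH, 0 < (fderivWithin ℝ Φ HH ξ).det
  asy : ∃ C : ℝ, ∀ ξ ∈ HH, ‖Φ ξ - (c + ξ / Q)‖ ≤ C * Real.exp (-(2 * Real.pi * ξ.im / Q))
  dasy : ∃ C : ℝ, ∀ ξ ∈ HH, ∀ u : ℂ, ‖fderivWithin ℝ Φ HH ξ u - u / Q‖ ≤
    C * Real.exp (-(2 * Real.pi * ξ.im / Q)) * ‖u‖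

/-- what is used of `Psi`, the inverse of `ξ ↦ Phi (Q ξ)` -/
structure PsiOK (m Q : ℕ) (w Ψ : ℂ → ℂ) (c : ℂ) : Prop where
  smooth : ContDiffOn ℝ m Ψ HH
  maps : ∀ ζ ∈ HH, Ψ ζ ∈ HH
  bdry : ∀ ζ : ℂ, ζ.im = 0 → (Ψ ζ).im = 0
  inter : ∀ ζ : ℂ, 0 < ζ.im → 0 < (Ψ ζ).im
  equiv : ∀ ζ ∈ HH, Ψ (Ft w ζ) = Ψ ζ + 1 / Q
  per : ∀ ζ ∈ HH, Ψ (ζ + 1) = Ψ ζ + 1
  det : ∀ ζ ∈ HH, 0 < (fderivWithin ℝ Ψ HH ζ).det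
  asy : ∃ C : ℝ, ∀ ζ ∈ HH, ‖Ψ ζ - (ζ - c)‖ ≤ C * Real.exp (-(2 * Real.pi * ζ.im))
  dasy : ∃ C : ℝ, ∀ ζ ∈ HH, ∀ u : ℂ, ‖fderivWithin ℝ Ψ HH ζ u - u‖ ≤
    C * Real.exp (-(2 * Real.pi * ζ.im)) * ‖u‖

/-- `exp (2 π i ·)` of `Psi`, on the disc -/
def h1 (Ψ : ℂ → ℂ) (z : ℂ) : ℂ :=
  if z = 0 then 0 else ee (Ψ (Complex.log z / (2 * Real.pi * Complex.I)))

/-- average of `R⁻ⁱ Fⁱ` times `κ` -/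
def h0 (Q : ℕ) (F : ℂ → ℂ) (κ : ℂ) (z : ℂ) : ℂ :=
  κ / Q * ∑ i ∈ Finset.range Q, ee (-(i : ℂ) / Q) * F^[i] z

/-- what is used of `h1` and `h0`: an equivariant map of the disc with expansion `κ z + O (z ^ 2)` -/
structure Expn (F : ℂ → ℂ) (a κ : ℂ) (h : ℂ → ℂ) (C : ℝ) : Prop where
  equiv : ∀ z ∈ D, h (F z) = a * h z
  exp0 : ∀ z ∈ D, ‖h z - κ * z‖ ≤ C * ‖z‖ ^ 2
  exp1 : ∀ z ∈ D, z ≠ 0 → ∀ u : ℂ, ‖fderivWithin ℝ h D z u - κ * u‖ ≤ C * ‖z‖ * ‖u‖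

end

end Pool.Agent.H24.PG
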