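import Pool.Agent.H24.PG.Defs

/-!
# Module EeL (about 170 lines): the covering map `ee`, the sets `HH` and `D`

PROOF. All elementary: `Complex.exp_add`, `Complex.norm_exp` (`(2 π I ζ).re = - 2 π ζ.im`), `Complex.exp_eq_exp_iff_exists_int`,
`Complex.exp_log`, `Complex.log_im`, `Complex.log_re`; `ContDiff`: `Complex.contDiff_exp` restricted to `ℝ`; derivative:
`HasDerivAt.hasFDerivAt`, `HasFDerivAt.restrictScalars`. `HH` is a closed half space (`convex_halfSpace_im_ge`), interior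
`{0 < im}` (`interior_setOf_le_im`). `D`: `convex_closedBall`, `interior_closedBall`.
`log_bound`: `Complex.norm_log_one_add_le...` or: on the ball of radius `1/2` about `1` the derivative `1/x` of `log` is at most `2`;
mean value inequality (`Convex.norm_image_sub_le_of_norm_deriv_le`).
-/

open Set

namespace Pool.Agent.H24.PG

theorem ee_add (a b : ℂ) : ee (a + b) = ee a * ee b := by
  rw [ee, ee, ee, ← Complex.exp_add]
  congr 1
  ring

theorem ee_ne (a : ℂ) : ee a ≠ 0 := Complex.exp_ne_zero _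

theorem ee_zero : ee 0 = 1 := by
  rw [ee, mul_zero, Complex.exp_zero]

theorem ee_int (n : ℤ) : ee n = 1 := by
  rw [ee, mul_comm]
  exact Complex.exp_int_mul_two_pi_mul_I n

theorem norm_ee (ζ : ℂ) : ‖ee ζ‖ = Real.exp (-(2 * Real.pi * ζ.im)) := by
  rw [ee, Complex.norm_exp]
  congr 1
  have h : (2 * Real.pi * Complex.I * ζ : ℂ) = ((2 * Real.pi : ℝ) : ℂ) * (Complex.I * ζ) := by
    push_cast
    ring
  rw [h, Complex.re_ofReal_mul, Complex.I_mul_re]
  ring

theorem ee_mem {ζ : ℂ} (h : ζ ∈ HH) : ee ζ ∈ D := by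
  have h' : 0 ≤ ζ.im := h
  rw [mem_closedBall_zero_iff, norm_ee, Real.exp_le_one_iff]
  have := Real.pi_pos
  nlinarith [mul_nonneg this.le h']

theorem norm_ee_lt {ζ : ℂ} : ‖ee ζ‖ < 1 ↔ 0 < ζ.im := by
  rw [norm_ee, Real.exp_lt_one_iff, neg_lt_zero]
  have h := Real.two_pi_pos
  exact mul_pos_iff_of_pos_left h

theorem norm_ee_eq {ζ : ℂ} : ‖ee ζ‖ = 1 ↔ ζ.im = 0 := by
  rw [norm_ee, Real.exp_eq_one_iff, neg_eq_zero, mul_eq_zero]
  have h := Real.two_pi_pos
  exact ⟨fun h1 => h1.resolve_left h.ne', Or.inr⟩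

theorem ee_eq_iff (a b : ℂ) : ee a = ee b ↔ ∃ n : ℤ, a = b + n := by
  rw [ee, ee, Complex.exp_eq_exp_iff_exists_int]
  refine exists_congr fun n => ?_
  have h : (2 * Real.pi * Complex.I : ℂ) ≠ 0 := Complex.two_pi_I_ne_zero
  constructor
  · intro h1
    apply mul_left_cancel₀ h
    rw [h1]
    ring
  · intro h1
    rw [h1]
    ring

theorem ee_log {z : ℂ} (h : z ≠ 0) : ee (Complex.log z / (2 * Real.pi * Complex.I)) = z := by
  rw [ee, mul_div_cancel₀ _ Complex.two_pi_I_ne_zero, Complex.exp_log h]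

theorem log_mem {z : ℂ} (h : z ≠ 0) (hz : z ∈ D) :
    Complex.log z / (2 * Real.pi * Complex.I) ∈ HH := by
  have h1 := norm_ee (Complex.log z / (2 * Real.pi * Complex.I))
  rw [ee_log h] at h1
  rw [mem_closedBall_zero_iff, h1, Real.exp_le_one_iff, neg_nonpos] at hz
  change 0 ≤ (Complex.log z / (2 * Real.pi * Complex.I)).im
  exact nonneg_of_mul_nonneg_right hz Real.two_pi_pos

theorem contDiff_ee (n : ℕ) : ContDiff ℝ n ee :=
  Complex.contDiff_exp.comp (contDiff_const.mul contDiff_id)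

theorem hasFDerivAt_ee (ζ : ℂ) : ∃ A : ℂ →L[ℝ] ℂ, HasFDerivAt ee A ζ ∧
    ∀ u, A u = 2 * Real.pi * Complex.I * ee ζ * u := by
  have h1 : HasDerivAt ee (ee ζ * (2 * Real.pi * Complex.I)) ζ := by
    have h2 : HasDerivAt (fun z : ℂ => 2 * Real.pi * Complex.I * z) (2 * Real.pi * Complex.I) ζ := by
      simpa using (hasDerivAt_id ζ).const_mul (2 * Real.pi * Complex.I : ℂ)
    exact h2.cexp
  refine ⟨_, h1.hasFDerivAt.restrictScalars ℝ, fun u => ?_⟩
  simp
  ring

theorem convex_HH : Convex ℝ HH := convex_halfSpace_im_ge 0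

theorem isClosed_HH : IsClosed HH := isClosed_le continuous_const Complex.continuous_im

theorem interior_HH : interior HH = {ζ : ℂ | 0 < ζ.im} := Complex.interior_setOfPred_le_im 0

theorem unique_HH : UniqueDiffOn ℝ HH := by
  refine uniqueDiffOn_convex convex_HH ?_
  rw [interior_HH]
  exact ⟨Complex.I, by simp⟩

theorem unique_D : UniqueDiffOn ℝ D := by
  refine uniqueDiffOn_convex (convex_closedBall _ _) ?_
  rw [interior_closedBall _ one_ne_zero]
  exact ⟨0, by simp⟩

theorem interior_D : interior D = Metric.ball (0 : ℂ) 1 := interior_closedBall _ one_ne_zero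

theorem log_bound {x y : ℂ} (hx : ‖x - 1‖ ≤ 1 / 2) (hy : ‖y - 1‖ ≤ 1 / 2) :
    ‖Complex.log x - Complex.log y‖ ≤ 2 * ‖x - y‖ := by
  have hre : ∀ z ∈ Metric.closedBall (1 : ℂ) (1 / 2), 1 / 2 ≤ z.re := by
    intro z hz
    rw [mem_closedBall_iff_norm] at hz
    have h1 := (Complex.abs_re_le_norm (z - 1)).trans hz
    rw [Complex.sub_re, Complex.one_re] at h1
    linarith [(abs_le.1 h1).1]
  refine (convex_closedBall (1 : ℂ) (1 / 2)).norm_image_sub_le_of_norm_hasDerivWithin_le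
    (f := Complex.log) (f' := fun z => z⁻¹) (C := 2) (fun z hz => ?_) (fun z hz => ?_) ?_ ?_
  · refine (Complex.hasDerivAt_log (Or.inl ?_)).hasDerivWithinAt
    linarith [hre z hz]
  · rw [norm_inv]
    have h1 : 1 / 2 ≤ ‖z‖ := (hre z hz).trans ((le_abs_self _).trans (Complex.abs_re_le_norm z))
    rw [inv_le_comm₀ (by linarith) (by norm_num)]
    linarith
  · rw [mem_closedBall_iff_norm]
    exact hy
  · rw [mem_closedBall_iff_norm]
    exact hx

end Pool.Agent.H24.PG
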