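import Pool.Agent.H24.PG.Defs
import Pool.Agent.H44.PF.InvReg

/-!
# Module Inv: the inverse of a `C^m` bijection of a closed convex set is `C^m`

From `Pool.H44.PF.contDiffOn_inverse`.
-/

open Set

namespace Pool.Agent.H24.PG

theorem inv_smooth {s : Set ℂ} (hs : Convex ℝ s) (hi : (interior s).Nonempty) {m : ℕ} (hm : 1 ≤ m)
    {f g : ℂ → ℂ} (hf : ContDiffOn ℝ m f s) (hmf : MapsTo f s s) (hmg : MapsTo g s s)
    (hgf : ∀ x ∈ s, g (f x) = x) (hfg : ∀ x ∈ s, f (g x) = x) (hg : ContinuousOn g s)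
    (hd : ∀ x ∈ s, (fderivWithin ℝ f s x).det ≠ 0) :
    ContDiffOn ℝ m g s ∧ ∀ x ∈ s, (fderivWithin ℝ g s (f x)).comp (fderivWithin ℝ f s x) =
      ContinuousLinearMap.id ℝ ℂ := by
  have hu : UniqueDiffOn ℝ s := uniqueDiffOn_convex hs hi
  have h1 : ContDiffOn ℝ m g s :=
    Pool.H44.PF.contDiffOn_inverse hu hu hm hf hmg hfg hg
      fun z hz => Pool.H44.PF.isInvertible_of_det _ (hd z hz)
  refine ⟨h1, fun x hx => ?_⟩
  have hm' : (m : WithTop ℕ∞) ≠ 0 := by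
    have : m ≠ 0 := by omega
    exact_mod_cast this
  have hgd : HasFDerivWithinAt g (fderivWithin ℝ g s (f x)) s (f x) :=
    (h1.differentiableOn hm' (f x) (hmf hx)).hasFDerivWithinAt
  have hfd : HasFDerivWithinAt f (fderivWithin ℝ f s x) s x :=
    (hf.differentiableOn hm' x hx).hasFDerivWithinAt
  have h2 := hgd.comp x hfd hmf
  have h3 : HasFDerivWithinAt (fun y : ℂ => y) (ContinuousLinearMap.id ℝ ℂ) s x :=
    hasFDerivWithinAt_id x s
  have h4 : HasFDerivWithinAt (g ∘ f) (ContinuousLinearMap.id ℝ ℂ) s x :=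
    h3.congr (fun y hy => hgf y hy) (hgf x hx)
  exact (hu x hx).eq h2 h4

end Pool.Agent.H24.PG
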