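import Pool.Agent.H24.PG.Defs

/-!
# Module Lin (about 120 lines): determinants of real linear maps of the plane

PROOF. `det_eq_om`: `ContinuousLinearMap.det`, `LinearMap.det` with the basis `Complex.basisOneI` (`LinearMap.det_toLin`,
`LinearMap.toMatrix`, `Matrix.det_fin_two`). The others follow: `om_map` by writing `u = u.re * 1 + u.im * I`;
`det_comp`: `LinearMap.det_comp`; `det_mul`: `om (a * 1) (a * I) = ‖a‖ ^ 2`.
`det_pos_of_near`: put `A 1 = a (1 + β)`, `A I = a (I + γ)`, `‖β‖, ‖γ‖ ≤ 1/4`; `om (a x) (a y) = ‖a‖ ^ 2 * om x y` and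
`om (1 + β) (I + γ) = 1 + β.re + γ.im + om β γ ≥ 1 - 1/4 - 1/4 - 1/16 > 0`.
`abs_om_le`: `om a b = (conj a * b).im`.
-/

open Set

namespace Pool.Agent.H24.PG

theorem om_eq (a b : ℂ) : om a b = ((starRingEnd ℂ) a * b).im := by
  rw [om, Complex.mul_im, Complex.conj_re, Complex.conj_im]
  ring

theorem abs_om_le (a b : ℂ) : |om a b| ≤ ‖a‖ * ‖b‖ := by
  rw [om_eq]
  refine (Complex.abs_im_le_norm _).trans ?_
  rw [norm_mul, Complex.norm_conj]

private theorem Lin_add_left (a b c : ℂ) : om (a + b) c = om a c + om b c := by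
  simp only [om, Complex.add_re, Complex.add_im]
  ring

private theorem Lin_add_right (a b c : ℂ) : om a (b + c) = om a b + om a c := by
  simp only [om, Complex.add_re, Complex.add_im]
  ring

private theorem Lin_mul_I (a : ℂ) : om a (a * Complex.I) = ‖a‖ ^ 2 := by
  rw [Complex.sq_norm, Complex.normSq_apply, om, Complex.mul_re, Complex.mul_im, Complex.I_re,
    Complex.I_im]
  ring

theorem det_eq_om (A : ℂ →L[ℝ] ℂ) : A.det = om (A 1) (A Complex.I) := by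
  rw [ContinuousLinearMap.det, ← LinearMap.det_toMatrix Complex.basisOneI, Matrix.det_fin_two]
  simp only [LinearMap.toMatrix_apply, Complex.coe_basisOneI, Complex.coe_basisOneI_repr,
    Matrix.cons_val_zero, Matrix.cons_val_one, ContinuousLinearMap.coe_coe, om]
  ring

private theorem Lin_expand (A : ℂ →L[ℝ] ℂ) (u : ℂ) : A u = u.re • A 1 + u.im • A Complex.I := by
  rw [← map_smul, ← map_smul, ← map_add]
  congr 1
  apply Complex.ext <;> simp

theorem om_map (A : ℂ →L[ℝ] ℂ) (u v : ℂ) : om (A u) (A v) = A.det * om u v := by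
  rw [det_eq_om, Lin_expand A u, Lin_expand A v]
  simp only [om, Complex.add_re, Complex.add_im, Complex.smul_re, Complex.smul_im, smul_eq_mul]
  ring

theorem det_comp (A B : ℂ →L[ℝ] ℂ) : (A.comp B).det = A.det * B.det := by
  rw [det_eq_om (A.comp B)]
  change om (A (B 1)) (A (B Complex.I)) = _
  rw [om_map, ← det_eq_om]

theorem det_mul (A : ℂ →L[ℝ] ℂ) (a : ℂ) (h : ∀ u, A u = a * u) : A.det = ‖a‖ ^ 2 := by
  rw [det_eq_om, h, h, mul_one, Lin_mul_I]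

theorem det_pos_of_near (A : ℂ →L[ℝ] ℂ) (a : ℂ) (ha : a ≠ 0)
    (h : ∀ u, ‖A u - a * u‖ ≤ 1 / 4 * ‖a‖ * ‖u‖) : 0 < A.det := by
  obtain ⟨x, hx⟩ : ∃ x : ℂ, x = A 1 - a * 1 := ⟨_, rfl⟩
  obtain ⟨y, hy⟩ : ∃ y : ℂ, y = A Complex.I - a * Complex.I := ⟨_, rfl⟩
  have hx1 : ‖x‖ ≤ 1 / 4 * ‖a‖ := by
    rw [hx]
    refine (h 1).trans_eq ?_
    rw [norm_one, mul_one]
  have hy1 : ‖y‖ ≤ 1 / 4 * ‖a‖ := by
    rw [hy]
    refine (h Complex.I).trans_eq ?_
    rw [Complex.norm_I, mul_one]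
  have e1 : A 1 = a + x := by
    rw [hx]
    ring
  have e2 : A Complex.I = a * Complex.I + y := by
    rw [hy]
    ring
  have ha' : 0 < ‖a‖ := norm_pos_iff.2 ha
  have b1 := abs_om_le a y
  have b2 := abs_om_le x (a * Complex.I)
  have b3 := abs_om_le x y
  rw [norm_mul, Complex.norm_I, mul_one] at b2
  rw [det_eq_om, e1, e2, Lin_add_left, Lin_add_right, Lin_add_right, Lin_mul_I]
  have c1 := (abs_le.1 b1).1
  have c2 := (abs_le.1 b2).1
  have c3 := (abs_le.1 b3).1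
  have d1 : ‖a‖ * ‖y‖ ≤ ‖a‖ * (1 / 4 * ‖a‖) := mul_le_mul_of_nonneg_left hy1 ha'.le
  have d2 : ‖x‖ * ‖a‖ ≤ (1 / 4 * ‖a‖) * ‖a‖ := mul_le_mul_of_nonneg_right hx1 ha'.le
  have d3 : ‖x‖ * ‖y‖ ≤ (1 / 4 * ‖a‖) * (1 / 4 * ‖a‖) :=
    mul_le_mul hx1 hy1 (norm_nonneg _) (by positivity)
  nlinarith [mul_pos ha' ha']

theorem det_pos_of_id (A : ℂ →L[ℝ] ℂ) (h : ∀ u, ‖A u - u‖ ≤ 1 / 4 * ‖u‖) : 0 < A.det := by
  refine det_pos_of_near A 1 one_ne_zero fun u => ?_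
  rw [one_mul, norm_one, mul_one]
  exact h u

theorem exists_equiv (A : ℂ →L[ℝ] ℂ) (h : A.det ≠ 0) : ∃ B : ℂ ≃L[ℝ] ℂ, (B : ℂ →L[ℝ] ℂ) = A :=
  ⟨A.toContinuousLinearEquivOfDetNeZero h, A.coe_toContinuousLinearEquivOfDetNeZero h⟩

end Pool.Agent.H24.PG
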