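import Pool.Agent.H24.PG.StL

/-!
# Module O2 (about 130 lines): the vector field, and solutions reach every height

`wb` is the displacement field extended below the real line and made constant above the height `L + 1`.

PROOF. `wb_lip`: put `W ζ = w ⟨ζ.re, max ζ.im 0⟩` (argument in `HH`); the projection is `1`-Lipschitz (`abs_max_sub_max_le_abs`), so
`‖W ζ - W ζ'‖ ≤ e1 * ‖ζ - ζ'‖` (`w_lip`). `wb ζ - wb ζ' = (1 - χ) (W ζ - W ζ') + (χ - χ') (1/Q - W ζ')` with `χ = χ ζ.im`, `χ' = χ ζ'.im`,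
`|χ - χ'| ≤ 2 |ζ.im - ζ'.im|` (mean value inequality, `hχ.slope`), `‖1/Q - W‖ ≤ 1/2 + 1/100`, `‖W‖ ≤ 1/100`. Total at most `3 ‖ζ - ζ'‖`
(`e1 ≤ 1/100`). `wb_norm`: convex combination of numbers of norm at most `1/2`. `wb_smooth`: on `HH` it is
`(1 - χ ζ.im) * w ζ + χ ζ.im / Q`. `wb_near`: `wb ζ - w ζ = χ (1/Q - w ζ)` and `wb ζ - 1/Q = (1 - χ) (w ζ - 1/Q)` on `HH`; `χ = 0` for
`im ≤ L`.
`reach`: let `δ` be from `w_min`, `B` a bound for `|σ|` (`B ≥ 0`), `c = exp (- 4 π L) * δ ^ 2 > 0`. `t ↦ σ (y t)` has the derivative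
`σ' (y t) (I * w (y t)) ≤ - c` within `Icc 0 T` (`HasFDerivWithinAt.comp_hasDerivWithinAt`), so `σ (y T) - σ (y 0) ≤ - c T` (mean value,
`image_le_of_deriv_right_le_deriv_boundary` or `Convex.image_sub_le_mul_sub_of_deriv_le`), so `c T ≤ 2 B`. Take
`T0 = (2 B + 1) / c`.
-/

open Set

namespace Pool.Agent.H24.PG

variable {m Q : ℕ} {e1 : ℝ} {w g : ℂ → ℂ} {χ : ℝ → ℝ} {L : ℝ}

/-- the displacement field, extended below the real line and constant above the height `L + 1` -/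
noncomputable def wb (χ : ℝ → ℝ) (w : ℂ → ℂ) (Q : ℕ) (ζ : ℂ) : ℂ :=
  (1 - χ ζ.im : ℝ) * w ⟨ζ.re, max ζ.im 0⟩ + (χ ζ.im : ℝ) / Q

private theorem O2_chi (hχ : Step χ L (L + 1) 2) (a b : ℝ) : |χ a - χ b| ≤ 2 * |a - b| := by
  have hd : Differentiable ℝ χ := (hχ.smooth 1).differentiable (by norm_num)
  have := Convex.norm_image_sub_le_of_norm_deriv_le (f := χ) (C := 2) (s := Set.univ) (x := b) (y := a)
    (fun x _ => hd x) (fun x _ => by rw [Real.norm_eq_abs]; exact hχ.slope x) convex_univ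
    (Set.mem_univ _) (Set.mem_univ _)
  simpa [Real.norm_eq_abs] using this

private theorem O2_mem (ζ : ℂ) : (⟨ζ.re, max ζ.im 0⟩ : ℂ) ∈ HH := by
  change 0 ≤ max ζ.im 0
  exact le_max_right _ _

private theorem O2_proj (ζ ζ' : ℂ) :
    ‖(⟨ζ.re, max ζ.im 0⟩ : ℂ) - ⟨ζ'.re, max ζ'.im 0⟩‖ ≤ ‖ζ - ζ'‖ := by
  rw [← abs_of_nonneg (norm_nonneg (ζ - ζ')), ← abs_of_nonneg (norm_nonneg (_ - _)), ← sq_le_sq,
    Complex.sq_norm, Complex.sq_norm, Complex.normSq_apply, Complex.normSq_apply]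
  simp only [Complex.sub_re, Complex.sub_im]
  have h1 := abs_max_sub_max_le_abs ζ.im ζ'.im 0
  have h2 := sq_le_sq.2 h1
  nlinarith

private theorem O2_Q (h : Strip m Q e1 w g) : ‖(1 / Q : ℂ)‖ ≤ 1 / 2 := by
  have hQ : (2 : ℝ) ≤ Q := by exact_mod_cast h.hQ
  rw [norm_div, norm_one, Complex.norm_natCast]
  exact one_div_le_one_div_of_le (by norm_num) hQ

theorem wb_lip (h : Strip m Q e1 w g) (hχ : Step χ L (L + 1) 2) :
    LipschitzWith 3 (fun ζ => Complex.I * wb χ w Q ζ) := by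
  refine LipschitzWith.of_dist_le_mul fun ζ ζ' => ?_
  rw [dist_eq_norm, dist_eq_norm, ← mul_sub, norm_mul, Complex.norm_I, one_mul]
  have e : wb χ w Q ζ - wb χ w Q ζ' = ((1 - χ ζ.im : ℝ) : ℂ) * (w ⟨ζ.re, max ζ.im 0⟩ - w ⟨ζ'.re, max ζ'.im 0⟩)
      + ((χ ζ.im - χ ζ'.im : ℝ) : ℂ) * (1 / Q - w ⟨ζ'.re, max ζ'.im 0⟩) := by
    simp only [wb]
    push_cast
    ring
  rw [e]
  refine (norm_add_le _ _).trans ?_
  rw [norm_mul, norm_mul, Complex.norm_real, Complex.norm_real, Real.norm_eq_abs, Real.norm_eq_abs]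
  have h1 : |1 - χ ζ.im| ≤ 1 := by
    rw [abs_le]; constructor <;> linarith [hχ.nonneg ζ.im, hχ.le_one ζ.im]
  have h2 : ‖w ⟨ζ.re, max ζ.im 0⟩ - w ⟨ζ'.re, max ζ'.im 0⟩‖ ≤ 1 / 100 * ‖ζ - ζ'‖ := by
    refine (w_lip h (O2_mem ζ) (O2_mem ζ')).trans ?_
    exact mul_le_mul h.e2 (O2_proj ζ ζ') (norm_nonneg _) (by norm_num)
  have h3 : |χ ζ.im - χ ζ'.im| ≤ 2 * ‖ζ - ζ'‖ := by
    refine (O2_chi hχ _ _).trans ?_
    have := Complex.abs_im_le_norm (ζ - ζ')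
    rw [Complex.sub_im] at this
    linarith
  have h4 : ‖(1 / Q : ℂ) - w ⟨ζ'.re, max ζ'.im 0⟩‖ ≤ 1 := by
    refine (norm_sub_le _ _).trans ?_
    have := O2_Q h
    have := h.small _ (O2_mem ζ')
    linarith
  have h5 := mul_le_mul h1 h2 (norm_nonneg _) zero_le_one
  have h6 := mul_le_mul h3 h4 (norm_nonneg _) (by positivity)
  have h7 := norm_nonneg (ζ - ζ')
  push_cast
  linarith

private theorem O2_norm_wb (h : Strip m Q e1 w g) (hχ : Step χ L (L + 1) 2) (ζ : ℂ) :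
    ‖wb χ w Q ζ‖ ≤ 1 := by
  have e : wb χ w Q ζ = ((1 - χ ζ.im : ℝ) : ℂ) * w ⟨ζ.re, max ζ.im 0⟩ + (χ ζ.im : ℝ) * (1 / Q) := by
    simp only [wb]; ring
  rw [e]
  refine (norm_add_le _ _).trans ?_
  rw [norm_mul, norm_mul, Complex.norm_real, Complex.norm_real, Real.norm_eq_abs, Real.norm_eq_abs,
    abs_of_nonneg (hχ.nonneg _), abs_of_nonneg (by linarith [hχ.le_one ζ.im] : 0 ≤ 1 - χ ζ.im)]
  have h1 := h.small _ (O2_mem ζ)
  have h2 := O2_Q h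
  have h3 := hχ.nonneg ζ.im
  have h4 := hχ.le_one ζ.im
  nlinarith [norm_nonneg (w ⟨ζ.re, max ζ.im 0⟩), norm_nonneg (1 / Q : ℂ)]

theorem wb_norm (h : Strip m Q e1 w g) (hχ : Step χ L (L + 1) 2) (ζ : ℂ) :
    ‖Complex.I * wb χ w Q ζ‖ ≤ 1 := by
  rw [norm_mul, Complex.norm_I, one_mul]
  exact O2_norm_wb h hχ ζ

private theorem O2_HH {ζ : ℂ} (hζ : ζ ∈ HH) : (⟨ζ.re, max ζ.im 0⟩ : ℂ) = ζ := by
  apply Complex.ext
  · rfl
  · exact max_eq_left hζ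

theorem wb_smooth (h : Strip m Q e1 w g) (hχ : Step χ L (L + 1) 2) :
    ContDiffOn ℝ m (fun ζ => Complex.I * wb χ w Q ζ) HH := by
  have hc : ContDiff ℝ m (fun ζ : ℂ => ((χ ζ.im : ℝ) : ℂ)) :=
    Complex.ofRealCLM.contDiff.comp ((hχ.smooth m).comp Complex.imCLM.contDiff)
  have h1 : ContDiffOn ℝ m (fun ζ : ℂ => Complex.I * ((1 - ((χ ζ.im : ℝ) : ℂ)) * w ζ +
      ((χ ζ.im : ℝ) : ℂ) * (1 / Q))) HH :=
    contDiffOn_const.mul (((contDiffOn_const.sub hc.contDiffOn).mul h.smooth).add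
      (hc.contDiffOn.mul contDiffOn_const))
  refine h1.congr fun ζ hζ => ?_
  simp only [wb]
  rw [O2_HH hζ]
  push_cast
  ring

theorem wb_near (h : Strip m Q e1 w g) (hχ : Step χ L (L + 1) 2) {ζ : ℂ} (hζ : ζ ∈ HH) :
    (ζ.im ≤ L → wb χ w Q ζ = w ζ) ∧ (L + 1 ≤ ζ.im → wb χ w Q ζ = 1 / Q) ∧
    ‖wb χ w Q ζ - w ζ‖ ≤ ‖w ζ - 1 / Q‖ ∧ ‖wb χ w Q ζ - 1 / Q‖ ≤ ‖w ζ - 1 / Q‖ := by
  have e : wb χ w Q ζ = ((1 - χ ζ.im : ℝ) : ℂ) * w ζ + (χ ζ.im : ℝ) * (1 / Q) := by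
    simp only [wb]; rw [O2_HH hζ]; ring
  refine ⟨fun hL => ?_, fun hL => ?_, ?_, ?_⟩
  · rw [e, hχ.zero _ hL]; push_cast; ring
  · rw [e, hχ.one _ hL]; push_cast; ring
  · have e2 : wb χ w Q ζ - w ζ = -((χ ζ.im : ℝ) * (w ζ - 1 / Q)) := by
      rw [e]; push_cast; ring
    rw [e2, norm_neg, norm_mul, Complex.norm_real, Real.norm_eq_abs, abs_of_nonneg (hχ.nonneg _)]
    exact mul_le_of_le_one_left (norm_nonneg _) (hχ.le_one _)
  · have e2 : wb χ w Q ζ - 1 / Q = ((1 - χ ζ.im : ℝ) : ℂ) * (w ζ - 1 / Q) := by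
      rw [e]; push_cast; ring
    rw [e2, norm_mul, Complex.norm_real, Real.norm_eq_abs, abs_of_nonneg (by linarith [hχ.le_one ζ.im])]
    exact mul_le_of_le_one_left (norm_nonneg _) (by linarith [hχ.nonneg ζ.im])

theorem reach (h : Strip m Q e1 w g) {σ : ℂ → ℝ} {σ' : ℂ → ℂ →L[ℝ] ℝ} (hl : Lya w σ σ') (L : ℝ) :
    ∃ T0 : ℝ, 0 < T0 ∧ ∀ (y : ℝ → ℂ) (T : ℝ), 0 ≤ T →
      (∀ t ∈ Icc 0 T, y t ∈ HH ∧ (y t).im ≤ L ∧
        HasDerivWithinAt y (Complex.I * w (y t)) (Icc 0 T) t) → T < T0 := by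
  obtain ⟨δ, hδ, hδw⟩ := w_min h
  obtain ⟨B, hB⟩ := hl.bd
  have hB0 : 0 ≤ B := (abs_nonneg _).trans (hB 0 (by change (0 : ℝ) ≤ (0 : ℂ).im; simp))
  set c := Real.exp (-(4 * Real.pi * L)) * δ ^ 2 with hc
  have hc0 : 0 < c := by positivity
  refine ⟨(2 * B + 1) / c, by positivity, ?_⟩
  intro y T hT hy
  have hder : ∀ t ∈ Icc 0 T, HasDerivWithinAt (fun t => σ (y t)) (σ' (y t) (Complex.I * w (y t)))
      (Icc 0 T) t := by
    intro t ht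
    exact (hl.der (y t) (hy t ht).1).comp_hasDerivWithinAt t (hy t ht).2.2 (fun s hs => (hy s hs).1)
  have hle : ∀ t ∈ Icc 0 T, σ' (y t) (Complex.I * w (y t)) ≤ -c := by
    intro t ht
    obtain ⟨h1, h2, -⟩ := hy t ht
    refine (hl.dec (y t) h1).trans (neg_le_neg ?_)
    rw [hc]
    refine mul_le_mul (Real.exp_le_exp.2 (neg_le_neg ?_)) (pow_le_pow_left₀ hδ.le (hδw _ h1) 2)
      (by positivity) (Real.exp_pos _).le
    exact mul_le_mul_of_nonneg_left h2 (by positivity)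
  have hmv := Convex.image_sub_le_mul_sub_of_deriv_le (convex_Icc 0 T) (f := fun t => σ (y t)) (C := -c)
    (fun t ht => (hder t ht).continuousWithinAt)
    (by
      rw [interior_Icc]
      intro t ht
      exact ((hder t ⟨ht.1.le, ht.2.le⟩).hasDerivAt
        (Icc_mem_nhds ht.1 ht.2)).differentiableAt.differentiableWithinAt)
    (by
      rw [interior_Icc]
      intro t ht
      rw [((hder t ⟨ht.1.le, ht.2.le⟩).hasDerivAt (Icc_mem_nhds ht.1 ht.2)).deriv]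
      exact hle t ⟨ht.1.le, ht.2.le⟩)
    0 ⟨le_rfl, hT⟩ T ⟨hT, le_rfl⟩ hT
  have h1 := abs_le.1 (hB _ (hy 0 ⟨le_rfl, hT⟩).1)
  have h2 := abs_le.1 (hB _ (hy T ⟨hT, le_rfl⟩).1)
  rw [lt_div_iff₀ hc0]
  simp only [sub_zero] at hmv
  nlinarith [h1.1, h1.2, h2.1, h2.2]

end Pool.Agent.H24.PG
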