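import Pool.Agent.H24.PG.Defs

/-!
# Module StepE (about 90 lines): smooth steps with slope at most `2 / (b - a)`

PROOF. Let `c = (a + b) / 2`, `f : ContDiffBump c` with `rIn = (b - a) / 4`, `rOut = (b - a) / 2` (values in `[0,1]`, equal to `1` on
`closedBall c rIn`, support `ball c rOut = Ioo a b`). `N = ∫ x in a..b, f x ≥ (b - a) / 2` (integrate over the middle half).
`χ x = (∫ t in a..x, f t) / N`. `deriv χ x = f x / N` (fundamental theorem of calculus), so `0 ≤ deriv χ ≤ 1 / N ≤ 2 / (b - a)`;
`χ` is smooth (`contDiff_succ_iff_deriv` and `f.contDiff`), monotone, `0` for `x ≤ a` and `1` for `x ≥ b` since `f` vanishes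
outside `Ioo a b`.
-/

open Set

namespace Pool.Agent.H24.PG

private noncomputable def StepE_f (a b : ℝ) (hab : a < b) : ContDiffBump ((a + b) / 2) :=
  ⟨(b - a) / 4, (b - a) / 2, by linarith, by linarith⟩

private theorem StepE_cont (a b : ℝ) (hab : a < b) : Continuous (StepE_f a b hab : ℝ → ℝ) :=
  (StepE_f a b hab).continuous

private theorem StepE_int (a b : ℝ) (hab : a < b) (x y : ℝ) :
    IntervalIntegrable (StepE_f a b hab : ℝ → ℝ) MeasureTheory.volume x y :=
  (StepE_cont a b hab).intervalIntegrable x y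

private theorem StepE_left (a b : ℝ) (hab : a < b) {x : ℝ} (hx : x ≤ a) :
    StepE_f a b hab x = 0 := by
  apply ContDiffBump.zero_of_le_dist
  change (b - a) / 2 ≤ dist x ((a + b) / 2)
  rw [Real.dist_eq, abs_sub_comm, abs_of_nonneg (by linarith)]
  linarith

private theorem StepE_right (a b : ℝ) (hab : a < b) {x : ℝ} (hx : b ≤ x) :
    StepE_f a b hab x = 0 := by
  apply ContDiffBump.zero_of_le_dist
  change (b - a) / 2 ≤ dist x ((a + b) / 2)
  rw [Real.dist_eq, abs_of_nonneg (by linarith)]
  linarith

private theorem StepE_nonneg (a b : ℝ) (hab : a < b) {x y : ℝ} (hxy : x ≤ y) :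
    0 ≤ ∫ t in x..y, StepE_f a b hab t :=
  intervalIntegral.integral_nonneg hxy fun _ _ => (StepE_f a b hab).nonneg

private theorem StepE_N (a b : ℝ) (hab : a < b) :
    (b - a) / 2 ≤ ∫ t in a..b, StepE_f a b hab t := by
  have h1 : ∫ t in a..b, StepE_f a b hab t =
      (∫ t in a..(a + (b - a) / 4), StepE_f a b hab t) +
      (∫ t in (a + (b - a) / 4)..(b - (b - a) / 4), StepE_f a b hab t) +
      ∫ t in (b - (b - a) / 4)..b, StepE_f a b hab t := by
    rw [intervalIntegral.integral_add_adjacent_intervals (StepE_int a b hab _ _)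
      (StepE_int a b hab _ _), intervalIntegral.integral_add_adjacent_intervals
      (StepE_int a b hab _ _) (StepE_int a b hab _ _)]
  have h2 : ∫ t in (a + (b - a) / 4)..(b - (b - a) / 4), StepE_f a b hab t = (b - a) / 2 := by
    have h3 : ∫ t in (a + (b - a) / 4)..(b - (b - a) / 4), StepE_f a b hab t =
        ∫ _ in (a + (b - a) / 4)..(b - (b - a) / 4), (1 : ℝ) := by
      refine intervalIntegral.integral_congr fun t ht => ?_
      rw [Set.uIcc_of_le (by linarith)] at ht
      apply ContDiffBump.one_of_mem_closedBall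
      rw [Metric.mem_closedBall, Real.dist_eq, abs_le]
      change -((b - a) / 4) ≤ _ ∧ _ ≤ (b - a) / 4
      constructor <;> linarith [ht.1, ht.2]
    rw [h3, intervalIntegral.integral_const, smul_eq_mul, mul_one]
    ring
  have h4 := StepE_nonneg a b hab (x := a) (y := a + (b - a) / 4) (by linarith)
  have h5 := StepE_nonneg a b hab (x := b - (b - a) / 4) (y := b) (by linarith)
  rw [h1, h2]
  linarith

private theorem StepE_zero (a b : ℝ) (hab : a < b) {x : ℝ} (hx : x ≤ a) :
    ∫ t in a..x, StepE_f a b hab t = 0 := by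
  have h1 : ∫ t in a..x, StepE_f a b hab t = ∫ _ in a..x, (0 : ℝ) := by
    refine intervalIntegral.integral_congr fun t ht => ?_
    rw [Set.uIcc_of_ge hx] at ht
    exact StepE_left a b hab ht.2
  rw [h1]
  simp

private theorem StepE_one (a b : ℝ) (hab : a < b) {x : ℝ} (hx : b ≤ x) :
    ∫ t in a..x, StepE_f a b hab t = ∫ t in a..b, StepE_f a b hab t := by
  have h1 : ∫ t in b..x, StepE_f a b hab t = ∫ _ in b..x, (0 : ℝ) := by
    refine intervalIntegral.integral_congr fun t ht => ?_
    rw [Set.uIcc_of_le hx] at ht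
    exact StepE_right a b hab ht.1
  rw [← intervalIntegral.integral_add_adjacent_intervals (StepE_int a b hab a b)
      (StepE_int a b hab b x), h1]
  simp

private theorem StepE_le (a b : ℝ) (hab : a < b) (x : ℝ) :
    ∫ t in a..x, StepE_f a b hab t ≤ ∫ t in a..b, StepE_f a b hab t := by
  rcases le_total x b with hx | hx
  · rw [← intervalIntegral.integral_add_adjacent_intervals (StepE_int a b hab a x)
      (StepE_int a b hab x b)]
    linarith [StepE_nonneg a b hab hx]
  · rw [StepE_one a b hab hx]

private theorem StepE_ge (a b : ℝ) (hab : a < b) (x : ℝ) :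
    0 ≤ ∫ t in a..x, StepE_f a b hab t := by
  rcases le_total x a with hx | hx
  · rw [StepE_zero a b hab hx]
  · exact StepE_nonneg a b hab hx

theorem exists_step (a b : ℝ) (hab : a < b) : ∃ χ : ℝ → ℝ, Step χ a b (2 / (b - a)) := by
  have hN := StepE_N a b hab
  have hba : 0 < b - a := by linarith
  obtain ⟨N, hNdef⟩ : ∃ N : ℝ, N = ∫ t in a..b, StepE_f a b hab t := ⟨_, rfl⟩
  rw [← hNdef] at hN
  have hN0 : 0 < N := by linarith
  have hd : ∀ x, HasDerivAt (fun x => (∫ t in a..x, StepE_f a b hab t) / N)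
      (StepE_f a b hab x / N) x := fun x =>
    (intervalIntegral.integral_hasDerivAt_right (StepE_int a b hab a x)
      ((StepE_cont a b hab).stronglyMeasurableAtFilter _ _) (StepE_cont a b hab).continuousAt).div_const N
  have hderiv : deriv (fun x => (∫ t in a..x, StepE_f a b hab t) / N) =
      fun x => StepE_f a b hab x / N := funext fun x => (hd x).deriv
  have hsm : ContDiff ℝ ((⊤ : ℕ∞) : WithTop ℕ∞)
      (fun x => (∫ t in a..x, StepE_f a b hab t) / N) := by
    rw [contDiff_infty_iff_deriv]
    refine ⟨fun x => (hd x).differentiableAt, ?_⟩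
    rw [hderiv]
    exact (StepE_f a b hab).contDiff.div_const N
  refine ⟨fun x => (∫ t in a..x, StepE_f a b hab t) / N, ?_, ?_, ?_, ?_, ?_, ?_, ?_⟩
  · intro n
    exact hsm.of_le (by exact_mod_cast le_top)
  · intro x hx
    change (∫ t in a..x, StepE_f a b hab t) / N = 0
    rw [StepE_zero a b hab hx, zero_div]
  · intro x hx
    change (∫ t in a..x, StepE_f a b hab t) / N = 1
    rw [StepE_one a b hab hx, ← hNdef, div_self hN0.ne']
  · intro x
    exact div_nonneg (StepE_ge a b hab x) hN0.le
  · intro x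
    change (∫ t in a..x, StepE_f a b hab t) / N ≤ 1
    rw [div_le_one hN0, hNdef]
    exact StepE_le a b hab x
  · positivity
  · intro x
    rw [hderiv]
    change |StepE_f a b hab x / N| ≤ 2 / (b - a)
    rw [abs_of_nonneg (div_nonneg (StepE_f a b hab).nonneg hN0.le), div_le_div_iff₀ hN0 hba]
    have h1 : StepE_f a b hab x ≤ 1 := (StepE_f a b hab).le_one
    nlinarith

end Pool.Agent.H24.PG
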