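import Pool.Agent.H24.PG.O1
import Pool.Agent.H24.PG.O2
import Pool.Agent.H24.PG.StepE

/-!
# Module O3 (about 180 lines): the transversal arc

PROOF. Let `L ≥ 1` with `‖w ζ - 1/Q‖ ≤ 1/(100 Q)` for `ζ ∈ HH`, `im ≥ L` (`w_far`), `χ` a step from `L` to `L + 1` with slope `2`
(`exists_step`), `v ζ = I * wb χ w Q ζ`, `T0` from `reach` for `L`, `s0 = T0 + 2 Q`, `T = s0 + 1`, `y` a solution on `Icc 0 T` with
`y 0 = 0` (`ode_exists`, `wb_lip`, `wb_norm`).
(1) `im (y t) ≥ 0`, `> 0` for `t > 0`: `barrier` for `im ∘ y`, `a = 0`: the derivative is `(I * wb (y t)).im = (wb (y t)).re`, and for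
`im (y t) = 0` it is `(w (y t)).re > 0` (`wb_near`, `h.pos`; `0 ≤ L`).
(2) There is `t1 ∈ Icc 0 T0` with `im (y t1) ≥ L`: otherwise `reach` with `T = T0` gives `T0 < T0` (`wb = w` for `im ≤ L`).
(3) `im (y t) ≥ L` for `t ∈ Icc t1 T`: `barrier` on `Icc t1 T` with `a = L`: for `im ≥ L` `‖wb - 1/Q‖ ≤ 1/(100 Q)`, so
`(wb (y t)).re ≥ 1/(2 Q) > 0`. So `im (y t) ≥ L + (t - t1)/(2 Q)` on `Icc t1 T` (mean value inequality) and `im (y t) ≥ L + 1` for
`t ∈ Icc s0 T`. There `wb = 1/Q`, so `y t = y s0 + I * (t - s0)/Q` on `Icc s0 T` (difference has derivative zero: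
`constant_of_has_deriv_right_zero`).
(4) `del t = y t` for `t ≤ s0` and `del t = y s0 + I * (t - s0)/Q` for `t ≥ s0`. So `del = y` on `Icc 0 T`. For every `t ≥ 0` `del` has the
derivative `v (del t)` within `Ici 0`: for `t < T` from `y` (`Icc 0 T` is a neighbourhood of `t` within `Ici 0`), for `t > s0` `del` is
affine near `t` and `v (del t) = I/Q` because `im ≥ L + 1`. So `ode_smooth` with `wb_smooth` gives `smooth`.
`der`: `derivWithin del = v (del s)` (`uniqueDiffOn_Ici`), `‖v - I w‖ = ‖wb - w‖`, which is `0` for `im ≤ L` and at most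
`1/(100 Q) ≤ ‖w‖/20` for `im ≥ L` (`‖w‖ ≥ 99/(100 Q)`). `aff`: `c = y s0 - I * s0/Q`.
-/

open Set

namespace Pool.Agent.H24.PG

variable {m Q : ℕ} {e1 : ℝ} {w g : ℂ → ℂ}

private theorem O3_re {Q : ℕ} (hQ : 2 ≤ Q) {z : ℂ} (hz : ‖z - 1 / Q‖ ≤ 1 / (100 * Q)) :
    1 / (2 * Q) ≤ z.re := by
  have hQ2 : (2 : ℝ) ≤ Q := by exact_mod_cast hQ
  have hQ0 : (0 : ℝ) < Q := by linarith
  have h1 := (Complex.abs_re_le_norm _).trans hz
  have e : (z - 1 / Q).re = z.re - 1 / Q := by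
    rw [Complex.sub_re]
    congr 1
    rw [show (1 / Q : ℂ) = ((1 / Q : ℝ) : ℂ) by push_cast; ring]
    rfl
  rw [e] at h1
  have h2 := (abs_le.1 h1).1
  have h3 : (1 : ℝ) / (2 * Q) = 1 / Q - 50 * (1 / (100 * Q)) := by field_simp; ring
  have h4 : (0 : ℝ) < 1 / (100 * Q) := by positivity
  linarith

private theorem O3_imI (z : ℂ) : (Complex.I * z).im = z.re := by
  simp

theorem exists_arc (h : Strip m Q e1 w g) {σ : ℂ → ℝ} {σ' : ℂ → ℂ →L[ℝ] ℝ} (hl : Lya w σ σ') :
    ∃ (del : ℝ → ℂ) (s0 : ℝ) (c : ℂ), Arc m Q w del s0 c := by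
  have hQ2 : (2 : ℝ) ≤ Q := by exact_mod_cast h.hQ
  have hQ0 : (0 : ℝ) < Q := by linarith
  have hQc : (Q : ℂ) ≠ 0 := by exact_mod_cast hQ0.ne'
  obtain ⟨L, hL1, hLf⟩ := w_far h (ε := 1 / (100 * Q)) (by positivity)
  obtain ⟨χ, hχ'⟩ := exists_step L (L + 1) (by linarith)
  have hχ : Step χ L (L + 1) 2 := by
    have e : 2 / (L + 1 - L) = (2 : ℝ) := by rw [add_sub_cancel_left]; norm_num
    rwa [e] at hχ'
  obtain ⟨T0, hT0, hreach⟩ := reach h hl L
  obtain ⟨s0, hs0⟩ : ∃ s0 : ℝ, s0 = T0 + 2 * Q := ⟨_, rfl⟩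
  obtain ⟨T, hT⟩ : ∃ T : ℝ, T = s0 + 1 := ⟨_, rfl⟩
  have hs0p : 0 < s0 := by rw [hs0]; positivity
  have hTp : 0 < T := by rw [hT]; linarith
  obtain ⟨y, hy0, hy⟩ := ode_exists (wb_lip h hχ) (wb_norm h hχ) 0 hTp.le
  have hyim : ∀ t ∈ Icc 0 T, HasDerivWithinAt (fun t => (y t).im) (wb χ w Q (y t)).re (Icc 0 T) t := by
    intro t ht
    have := Complex.imCLM.hasFDerivAt.comp_hasDerivWithinAt t (hy t ht)
    rw [← O3_imI]
    exact this
  -- (1)
  have b1 := barrier hyim (a := 0) (by rw [hy0]; simp) (by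
    intro t ht h0
    have hH : y t ∈ HH := by change 0 ≤ (y t).im; rw [h0]
    rw [(wb_near h hχ hH).1 (by rw [h0]; linarith)]
    exact h.pos _ h0)
  have hH : ∀ t ∈ Icc 0 T, y t ∈ HH := fun t ht => (b1 t ht).1
  -- (2)
  obtain ⟨t1, ht1, hLt1⟩ : ∃ t1 ∈ Icc 0 T0, L ≤ (y t1).im := by
    by_contra hcon
    push Not at hcon
    have hsub : Icc 0 T0 ⊆ Icc 0 T := by
      apply Icc_subset_Icc_right
      rw [hT, hs0]; linarith
    refine lt_irrefl T0 (hreach y T0 hT0.le fun t ht => ?_)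
    have hm := hcon t ht
    refine ⟨hH t (hsub ht), hm.le, ?_⟩
    have := (hy t (hsub ht)).mono hsub
    rwa [(wb_near h hχ (hH t (hsub ht))).1 hm.le] at this
  have hT0s : T0 ≤ s0 := by rw [hs0]; linarith
  have hs0T : s0 ≤ T := by rw [hT]; linarith
  have hsub1 : Icc t1 T ⊆ Icc 0 T := Icc_subset_Icc_left ht1.1
  -- (3)
  have b2 := barrier (fun t ht => (hyim t (hsub1 ht)).mono hsub1) hLt1 (by
    intro t ht h0
    have hHt := hH t (hsub1 ht)
    have h1 := (wb_near h hχ hHt).2.2.2.trans (hLf _ hHt h0.ge)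
    have h2 := O3_re h.hQ h1
    have h3 : (0 : ℝ) < 1 / (2 * Q) := by positivity
    linarith)
  have hslope : ∀ t ∈ Icc t1 T, 1 / (2 * Q) ≤ (wb χ w Q (y t)).re := by
    intro t ht
    have hHt := hH t (hsub1 ht)
    exact O3_re h.hQ ((wb_near h hχ hHt).2.2.2.trans (hLf _ hHt (b2 t ht).1))
  have hgrow : ∀ t ∈ Icc s0 T, L + 1 ≤ (y t).im := by
    intro t ht
    have htt : t1 ≤ t := ht1.2.trans (hT0s.trans ht.1)
    have hmv := Convex.mul_sub_le_image_sub_of_le_deriv (convex_Icc t1 T) (f := fun t => (y t).im)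
      (C := 1 / (2 * Q))
      (fun t ht => ((hyim t (hsub1 ht)).mono hsub1).continuousWithinAt)
      (by
        rw [interior_Icc]
        intro t ht
        exact (((hyim t (hsub1 ⟨ht.1.le, ht.2.le⟩)).mono hsub1).hasDerivAt
          (Icc_mem_nhds ht.1 ht.2)).differentiableAt.differentiableWithinAt)
      (by
        rw [interior_Icc]
        intro t ht
        rw [(((hyim t (hsub1 ⟨ht.1.le, ht.2.le⟩)).mono hsub1).hasDerivAt (Icc_mem_nhds ht.1 ht.2)).deriv]
        exact hslope t ⟨ht.1.le, ht.2.le⟩)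
      t1 ⟨le_rfl, htt.trans ht.2⟩ t ⟨htt, ht.2⟩ htt
    have h2 : (1 : ℝ) ≤ 1 / (2 * Q) * (t - t1) := by
      rw [div_mul_eq_mul_div, one_mul, le_div_iff₀ (by positivity), one_mul]
      have := ht.1
      have := ht1.2
      rw [hs0] at *
      linarith
    linarith
  have hsub2 : Icc s0 T ⊆ Icc 0 T := Icc_subset_Icc_left hs0p.le
  have haff : ∀ t ∈ Icc s0 T, y t = y s0 + Complex.I * (t - s0) / Q := by
    have hconst := constant_of_has_deriv_right_zero (f := fun t : ℝ => y t - Complex.I * (t - s0) / Q)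
      (a := s0) (b := T)
      (by
        refine ContinuousOn.sub (fun t ht => ((hy t (hsub2 ht)).mono hsub2).continuousWithinAt) ?_
        fun_prop)
      (by
        intro t ht
        have h1 : HasDerivWithinAt y (Complex.I * wb χ w Q (y t)) (Ici t) t := by
          refine (hy t (hsub2 ⟨ht.1, ht.2.le⟩)).mono_of_mem_nhdsWithin ?_
          have h2 : Ici t ∩ Iio T ∈ nhdsWithin t (Ici t) := inter_mem_nhdsWithin _ (Iio_mem_nhds ht.2)
          refine Filter.mem_of_superset h2 ?_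
          rintro x ⟨hx1, hx2⟩
          exact ⟨(hs0p.le.trans ht.1).trans hx1, le_of_lt hx2⟩
        have h2 : HasDerivAt (fun t : ℝ => Complex.I * ((t : ℂ) - s0) / Q) (Complex.I / Q) t := by
          have h3 : HasDerivAt (fun t : ℝ => (t : ℂ)) 1 t := Complex.ofRealCLM.hasDerivAt
          have h4 := ((h3.sub_const (s0 : ℂ)).const_mul Complex.I).div_const (Q : ℂ)
          simpa using h4
        have h5 := h1.sub h2.hasDerivWithinAt
        rw [(wb_near h hχ (hH t (hsub2 ⟨ht.1, ht.2.le⟩))).2.1 (hgrow t ⟨ht.1, ht.2.le⟩)] at h5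
        have e : Complex.I * (1 / (Q : ℂ)) - Complex.I / Q = 0 := by ring
        rw [e] at h5
        exact h5)
    intro t ht
    have := hconst t ht
    simp only [sub_self, mul_zero, zero_div, sub_zero] at this
    rw [← this]; ring
  -- (4)
  obtain ⟨del, hdel⟩ : ∃ del : ℝ → ℂ, ∀ t, del t = if t ≤ s0 then y t else y s0 + Complex.I * (t - s0) / Q :=
    ⟨_, fun _ => rfl⟩
  have hdely : ∀ t ∈ Icc 0 T, del t = y t := by
    intro t ht
    rw [hdel]
    split_ifs with hle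
    · rfl
    · exact (haff t ⟨(not_le.1 hle).le, ht.2⟩).symm
  have hdelaff : ∀ t, s0 ≤ t → del t = y s0 + Complex.I * (t - s0) / Q := by
    intro t ht
    rw [hdel]
    split_ifs with hle
    · have : t = s0 := le_antisymm hle ht
      rw [this]; simp
    · rfl
  have himaff : ∀ t, s0 ≤ t → L + 1 ≤ (del t).im := by
    intro t ht
    rw [hdelaff t ht]
    have h1 := hgrow s0 ⟨le_rfl, hs0T⟩
    have e : (y s0 + Complex.I * (t - s0) / Q).im = (y s0).im + (t - s0) / Q := by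
      rw [Complex.add_im]
      congr 1
      rw [show Complex.I * ((t : ℂ) - s0) / Q = Complex.I * (((t - s0) / Q : ℝ) : ℂ) by push_cast; ring,
        O3_imI, Complex.ofReal_re]
    rw [e]
    have : 0 ≤ (t - s0) / Q := div_nonneg (by linarith) hQ0.le
    linarith
  have hmain : ∀ t : ℝ, 0 ≤ t → del t ∈ HH ∧
      HasDerivWithinAt del (Complex.I * wb χ w Q (del t)) (Ici 0) t := by
    intro t ht
    rcases lt_or_ge t T with hlt | hge
    · have htI : t ∈ Icc 0 T := ⟨ht, hlt.le⟩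
      rw [hdely t htI]
      refine ⟨hH t htI, ?_⟩
      have h1 := (hy t htI).congr (fun s hs => hdely s hs) (hdely t htI)
      refine h1.mono_of_mem_nhdsWithin ?_
      exact inter_mem_nhdsWithin _ (Iic_mem_nhds hlt)
    · have hst : s0 < t := by rw [hT] at hge; linarith
      have him := himaff t hst.le
      have hHt : del t ∈ HH := by change 0 ≤ (del t).im; linarith
      refine ⟨hHt, ?_⟩
      rw [(wb_near h hχ hHt).2.1 him]
      have h2 : HasDerivAt (fun t : ℝ => y s0 + Complex.I * ((t : ℂ) - s0) / Q) (Complex.I * (1 / Q)) t := by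
        have h3 : HasDerivAt (fun t : ℝ => (t : ℂ)) 1 t := Complex.ofRealCLM.hasDerivAt
        have h4 := (((h3.sub_const (s0 : ℂ)).const_mul Complex.I).div_const (Q : ℂ)).const_add (y s0)
        have e : Complex.I * 1 / (Q : ℂ) = Complex.I * (1 / Q) := by ring
        rw [e] at h4
        exact h4
      refine (h2.congr_of_eventuallyEq ?_).hasDerivWithinAt
      filter_upwards [Ioi_mem_nhds hst] with x hx
      exact hdelaff x (le_of_lt hx)
  refine ⟨del, s0, y s0 - Complex.I * s0 / Q, ?_, ?_, ?_, ?_, hs0p, ?_⟩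
  · exact ode_smooth (wb_smooth h hχ) hmain
  · rw [hdely 0 ⟨le_rfl, hTp.le⟩, hy0]; simp
  · intro s hs
    rcases lt_or_ge s T with hlt | hge
    · rw [hdely s ⟨hs.le, hlt.le⟩]
      exact (b1 s ⟨hs.le, hlt.le⟩).2 hs
    · have := himaff s (hs0T.trans hge)
      linarith
  · intro s hs
    obtain ⟨hHs, hds⟩ := hmain s hs
    rw [hds.derivWithin (uniqueDiffOn_Ici 0 s hs), ← mul_sub, norm_mul, Complex.norm_I, one_mul]
    rcases le_or_gt (del s).im L with hle | hgt
    · rw [(wb_near h hχ hHs).1 hle, sub_self, norm_zero]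
      positivity
    · have h1 := (wb_near h hχ hHs).2.2.1
      have h2 := hLf _ hHs hgt.le
      have h3 : ‖(1 / Q : ℂ)‖ = 1 / Q := by
        rw [norm_div, norm_one, Complex.norm_natCast]
      have h4 : ‖(1 / Q : ℂ)‖ ≤ ‖w (del s)‖ + ‖w (del s) - 1 / Q‖ := by
        have := norm_sub_le (w (del s)) (w (del s) - 1 / Q)
        rwa [sub_sub_cancel] at this
      rw [h3] at h4
      have h5 : (1 : ℝ) / Q = 100 * (1 / (100 * Q)) := by field_simp
      have h6 : (0 : ℝ) < 1 / (100 * Q) := by positivity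
      linarith
  · intro s hs
    rw [hdelaff s hs]; ring

end Pool.Agent.H24.PG
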