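import Pool.Agent.H24.PG.EeL

/-!
# Module PerB (about 90 lines): periodic continuous functions on a strip; translations

PROOF. `per_bdd`: the set `A = {ζ | 0 ≤ re ≤ 1, 0 ≤ im ≤ Y}` is compact (`Metric.isCompact_of_isClosed_isBounded`, or the image of a
product of intervals), `f` is bounded on it (`IsCompact.exists_bound_of_continuousOn`); every `ζ ∈ HH` with `im ≤ Y` is a point of `A`
plus an integer (`Int.floor ζ.re`), and `f (ζ + n) = f ζ` for all integers `n` by induction (`per_int`).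
`per_min`: the same with `IsCompact.exists_isMinOn` for `‖f‖` (if `A` is empty take `δ = 1`).
`fderivWithin_shift`: `HH` is invariant under real translations; `fderivWithin_comp_add_right`, or directly with
`HasFDerivWithinAt` if `f` is differentiable within `HH` at `ζ + r` and both sides zero otherwise.
-/

open Set

namespace Pool.Agent.H24.PG

theorem add_real_mem {ζ : ℂ} (r : ℝ) : ζ + r ∈ HH ↔ ζ ∈ HH := by
  show 0 ≤ (ζ + r).im ↔ 0 ≤ ζ.im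
  rw [Complex.add_im, Complex.ofReal_im, add_zero]

theorem per_int {E : Type} {f : ℂ → E} (hp : ∀ ζ ∈ HH, f (ζ + 1) = f ζ) (n : ℤ) {ζ : ℂ}
    (hζ : ζ ∈ HH) : f (ζ + n) = f ζ := by
  have hm : ∀ k : ℤ, ζ + k ∈ HH := by
    intro k
    have h := (add_real_mem (ζ := ζ) (k : ℝ)).2 hζ
    simpa using h
  induction n using Int.induction_on with
  | zero => simp
  | succ n ih =>
    have h1 := hp _ (hm n)
    rw [ih] at h1
    rw [← h1]
    congr 1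
    push_cast
    ring
  | pred n ih =>
    have h1 := hp _ (hm (-(n : ℤ) - 1))
    rw [← h1, ← ih]
    congr 1
    push_cast
    ring

theorem per_bdd {E : Type} [NormedAddCommGroup E] {f : ℂ → E} (hf : ContinuousOn f HH)
    (hp : ∀ ζ ∈ HH, f (ζ + 1) = f ζ) (Y : ℝ) : ∃ M : ℝ, ∀ ζ ∈ HH, ζ.im ≤ Y → ‖f ζ‖ ≤ M := by
  have hc : IsCompact (Set.Icc (0 : ℝ) 1 ×ℂ Set.Icc (0 : ℝ) Y) := isCompact_Icc.reProdIm isCompact_Icc
  have hsub : Set.Icc (0 : ℝ) 1 ×ℂ Set.Icc (0 : ℝ) Y ⊆ HH := by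
    intro z hz
    exact (Complex.mem_reProdIm.1 hz).2.1
  obtain ⟨M, hM⟩ := hc.exists_bound_of_continuousOn (hf.mono hsub)
  refine ⟨M, fun ζ hζ hY => ?_⟩
  have h1 := per_int hp (-⌊ζ.re⌋) hζ
  rw [← h1]
  refine hM _ (Complex.mem_reProdIm.2 ⟨?_, ?_⟩)
  · have h2 : (ζ + ((-⌊ζ.re⌋ : ℤ) : ℂ)).re = ζ.re - ⌊ζ.re⌋ := by
      push_cast
      simp [sub_eq_add_neg]
    rw [h2]
    exact ⟨sub_nonneg.2 (Int.floor_le _), by linarith [Int.lt_floor_add_one ζ.re]⟩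
  · have h2 : (ζ + ((-⌊ζ.re⌋ : ℤ) : ℂ)).im = ζ.im := by
      push_cast
      simp
    rw [h2]
    exact ⟨hζ, hY⟩

theorem per_min {f : ℂ → ℂ} (hf : ContinuousOn f HH) (hp : ∀ ζ ∈ HH, f (ζ + 1) = f ζ)
    (hne : ∀ ζ ∈ HH, f ζ ≠ 0) (Y : ℝ) : ∃ δ : ℝ, 0 < δ ∧ ∀ ζ ∈ HH, ζ.im ≤ Y → δ ≤ ‖f ζ‖ := by
  obtain ⟨M, hM⟩ := per_bdd (f := fun ζ => (f ζ)⁻¹) (hf.inv₀ hne)
    (fun ζ hζ => by rw [hp ζ hζ]) Y
  refine ⟨(max M 1)⁻¹, by positivity, fun ζ hζ hY => ?_⟩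
  have h1 := (hM ζ hζ hY).trans (le_max_left M 1)
  rw [norm_inv] at h1
  have h2 : 0 < ‖f ζ‖ := norm_pos_iff.2 (hne ζ hζ)
  exact inv_le_of_inv_le₀ h2 h1

open scoped Pointwise in
private theorem PerB_shift (f : ℂ → ℂ) (r : ℝ) (ζ : ℂ) :
    fderivWithin ℝ (fun x => f (x + r)) HH ζ = fderivWithin ℝ f HH (ζ + r) := by
  have h1 : (r : ℂ) +ᵥ HH = HH := by
    ext z
    rw [Set.mem_vadd_set_iff_neg_vadd_mem, vadd_eq_add]
    have h2 := add_real_mem (ζ := z) (-r)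
    push_cast at h2
    rw [← h2, add_comm]
  rw [fderivWithin_comp_add_right, h1]

theorem fderivWithin_shift (f : ℂ → ℂ) (r : ℝ) (ζ : ℂ) :
    fderivWithin ℝ (fun x => f (x + r)) HH ζ = fderivWithin ℝ f HH (ζ + r) := by
  exact PerB_shift f r ζ

end Pool.Agent.H24.PG
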