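import Pool.Agent.H24.PG.Q2
import Pool.Agent.H24.PG.Inv
import Pool.Agent.H24.PG.PerB

/-!
# Module Q3 (about 180 lines): the inverse `Psi`

PROOF. `G = Function.invFunOn Φ HH`, `Ψ ζ = G ζ / Q`. On `HH`: `G ζ ∈ HH`, `Φ (G ζ) = ζ`, `G (Φ ξ) = ξ` (`phi_bij`). `G` is continuous on `HH`:
`continuousOn_iff_isClosed`, for closed `A` the set `G ⁻¹' A ∩ HH = Φ '' (A ∩ HH)` is closed (`phi_proper`). `inv_smooth` gives
`G` of class `C^m` and `DG (Φ ξ) ∘ DΦ ξ = id`. So `det DG > 0` (`det_comp`, `h.det`), `det DΨ = det DG / Q ^ 2`.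
`bdry`, `inter`: `h.bdry`, `h.inter` and bijectivity (if `ζ.im = 0` then `(G ζ).im > 0` is impossible by `h.inter`; if `ζ.im > 0` then
`(G ζ).im = 0` is impossible by `h.bdry`). `equiv`: `Φ (G ζ + 1) = Ft w ζ`, so `G (Ft w ζ) = G ζ + 1`. `per`: `G (ζ + 1) = G ζ + Q`.
`asy`: `ξ = G ζ`, `‖ζ - c - ξ/Q‖ ≤ C exp (- 2 π ξ.im/Q) ≤ C`, so `ξ.im/Q ≥ ζ.im - c.im - C` and
`exp (- 2 π ξ.im/Q) ≤ M exp (- 2 π ζ.im)`, `M = exp (2 π (c.im + C))`; `Ψ ζ - (ζ - c) = ξ/Q + c - ζ`.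
`dasy`: first `‖DΨ ζ u‖ ≤ N ‖u‖` on `HH`: with `v = DG ζ u`, `DΦ ξ v = u` (the composition in the other order is `id` as well, finite
dimension, or from `det ≠ 0`), `‖u - v/Q‖ ≤ C exp (- 2 π ξ.im/Q) ‖v‖`; for large `ζ.im` the factor is at most `1/(2 Q)`, so
`‖v‖ ≤ 2 Q ‖u‖`; for `ζ.im ≤ Y`: `fderivWithin ℝ Ψ HH` is continuous and `1`-periodic (`per`, `fderivWithin_shift`), use `per_bdd`. Then
`‖DΨ u - u‖ = ‖v/Q - u‖ ≤ C M exp (- 2 π ζ.im) ‖v‖`, `‖v‖ = Q ‖DΨ u‖ ≤ Q N ‖u‖`.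
-/

open Set

namespace Pool.Agent.H24.PG

variable {m Q : ℕ} {w Φ : ℂ → ℂ} {c : ℂ}

private theorem Q3_m (hm : 1 ≤ m) : ((m : ℕ) : WithTop ℕ∞) ≠ 0 := by
  exact_mod_cast (by omega : m ≠ 0)

/-- the inverse of `Φ` -/
private theorem Q3_inv (h : PhiOK m Q w Φ c) (hm : 1 ≤ m) (hQ : 1 ≤ Q) :
    ∃ G : ℂ → ℂ, (∀ ζ ∈ HH, G ζ ∈ HH) ∧ (∀ ζ ∈ HH, Φ (G ζ) = ζ) ∧ (∀ ξ ∈ HH, G (Φ ξ) = ξ) ∧
      ContDiffOn ℝ m G HH ∧ ∀ ξ ∈ HH, (fderivWithin ℝ G HH (Φ ξ)).comp (fderivWithin ℝ Φ HH ξ) =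
        ContinuousLinearMap.id ℝ ℂ := by
  have hb := phi_bij h hm hQ
  have h1 : ∀ ζ ∈ HH, Function.invFunOn Φ HH ζ ∈ HH := fun ζ hζ =>
    Function.invFunOn_mem (hb.surjOn hζ)
  have h2 : ∀ ζ ∈ HH, Φ (Function.invFunOn Φ HH ζ) = ζ := fun ζ hζ =>
    Function.invFunOn_eq (hb.surjOn hζ)
  have h3 : ∀ ξ ∈ HH, Function.invFunOn Φ HH (Φ ξ) = ξ := fun ξ hξ =>
    hb.injOn.leftInvOn_invFunOn hξ
  have h4 : ContinuousOn (Function.invFunOn Φ HH) HH := by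
    rw [continuousOn_iff_isClosed]
    intro A hA
    refine ⟨Φ '' (A ∩ HH), phi_proper h hQ hA, ?_⟩
    ext ζ
    constructor
    · rintro ⟨ha, hζ⟩
      exact ⟨⟨_, ⟨ha, h1 ζ hζ⟩, h2 ζ hζ⟩, hζ⟩
    · rintro ⟨⟨ξ, ⟨ha, hξ⟩, rfl⟩, hζ⟩
      refine ⟨?_, hζ⟩
      rw [mem_preimage, h3 ξ hξ]
      exact ha
  have h5 := inv_smooth convex_HH (by rw [interior_HH]; exact ⟨Complex.I, by simp⟩) hm h.smooth
    (fun ξ hξ => h.maps ξ hξ) (fun ζ hζ => h1 ζ hζ) h3 h2 h4 (fun ξ hξ => (h.det ξ hξ).ne')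
  exact ⟨_, h1, h2, h3, h5.1, h5.2⟩

theorem exists_psi (h : PhiOK m Q w Φ c) (hm : 1 ≤ m) (hQ : 1 ≤ Q) (hw : ∀ ζ ∈ HH, Ft w ζ ∈ HH) :
    ∃ Ψ : ℂ → ℂ, PsiOK m Q w Ψ c ∧ InjOn Ψ HH := by
  obtain ⟨G, hG1, hG2, hG3, hG4, hG5⟩ := Q3_inv h hm hQ
  have hQ0 : (0 : ℝ) < Q := by exact_mod_cast hQ
  have hQc : (Q : ℂ) ≠ 0 := by exact_mod_cast hQ0.ne'
  have hpi := Real.pi_pos
  have him : ∀ z : ℂ, (z / Q).im = z.im / Q := fun z => Complex.div_natCast_im z Q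
  let Ψ : ℂ → ℂ := fun ζ => G ζ / Q
  have hΨ : ∀ ζ, Ψ ζ = G ζ / Q := fun ζ => rfl
  have hsm : ContDiffOn ℝ m Ψ HH := hG4.div_const _
  -- estimate for the height
  obtain ⟨C, hC⟩ := h.asy
  have hC0 : ∀ ξ ∈ HH, ‖Φ ξ - (c + ξ / Q)‖ ≤ |C| * Real.exp (-(2 * Real.pi * ξ.im / Q)) :=
    fun ξ hξ => (hC ξ hξ).trans
      (mul_le_mul_of_nonneg_right (le_abs_self C) (Real.exp_pos _).le)
  set M : ℝ := Real.exp (2 * Real.pi * (c.im + |C|)) with hM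
  have hM0 : 0 < M := Real.exp_pos _
  have hexp : ∀ ζ ∈ HH, Real.exp (-(2 * Real.pi * (G ζ).im / Q)) ≤
      M * Real.exp (-(2 * Real.pi * ζ.im)) := by
    intro ζ hζ
    have h1 := hC0 _ (hG1 ζ hζ)
    rw [hG2 ζ hζ] at h1
    have h0 : 0 ≤ (G ζ).im := hG1 ζ hζ
    have h2 : Real.exp (-(2 * Real.pi * (G ζ).im / Q)) ≤ 1 := by
      rw [Real.exp_le_one_iff, neg_nonpos]
      positivity
    have h3 : ‖ζ - (c + G ζ / Q)‖ ≤ |C| :=
      h1.trans ((mul_le_mul_of_nonneg_left h2 (abs_nonneg C)).trans_eq (mul_one _))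
    have h4 := (Complex.abs_im_le_norm _).trans h3
    rw [Complex.sub_im, Complex.add_im, him] at h4
    have h5 := (abs_le.1 h4).2
    rw [hM, ← Real.exp_add, Real.exp_le_exp]
    have h6 : ζ.im - c.im - |C| ≤ (G ζ).im / Q := by linarith
    have h7 := mul_le_mul_of_nonneg_left h6 (by positivity : (0 : ℝ) ≤ 2 * Real.pi)
    have h8 : 2 * Real.pi * (G ζ).im / Q = 2 * Real.pi * ((G ζ).im / Q) := by ring
    rw [h8]
    linarith
  -- the derivative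
  have hGd : ∀ ζ ∈ HH, HasFDerivWithinAt G (fderivWithin ℝ G HH ζ) HH ζ := fun ζ hζ =>
    (hG4.differentiableOn (Q3_m hm) ζ hζ).hasFDerivWithinAt
  have hP : ∀ ζ ∈ HH, ∀ u, fderivWithin ℝ Ψ HH ζ u = fderivWithin ℝ G HH ζ u / Q := by
    intro ζ hζ u
    have h1 : HasFDerivWithinAt Ψ ((1 / Q : ℝ) • fderivWithin ℝ G HH ζ) HH ζ := by
      have h2 := (hGd ζ hζ).const_smul (1 / Q : ℝ)
      refine h2.congr_of_eventuallyEq (Filter.Eventually.of_forall fun x => ?_) ?_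
      · rw [hΨ, Pi.smul_apply, Complex.real_smul]
        push_cast
        ring
      · rw [hΨ, Pi.smul_apply, Complex.real_smul]
        push_cast
        ring
    rw [h1.fderivWithin (unique_HH ζ hζ), ContinuousLinearMap.smul_apply, Complex.real_smul]
    push_cast
    ring
  have hBA : ∀ ζ ∈ HH, ∀ u, fderivWithin ℝ Φ HH (G ζ) (fderivWithin ℝ G HH ζ u) = u := by
    intro ζ hζ u
    have h1 := hG5 _ (hG1 ζ hζ)
    rw [hG2 ζ hζ] at h1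
    obtain ⟨Be, hBe⟩ := exists_equiv _ (h.det _ (hG1 ζ hζ)).ne'
    rw [← hBe] at h1 ⊢
    have h2 : fderivWithin ℝ G HH ζ u = Be.symm u := by
      have h3 := congrArg (fun L : ℂ →L[ℝ] ℂ => L (Be.symm u)) h1
      have h4 : fderivWithin ℝ G HH ζ (Be (Be.symm u)) = Be.symm u := h3
      rwa [Be.apply_symm_apply] at h4
    rw [h2]
    exact Be.apply_symm_apply u
  have hshift : ∀ ζ ∈ HH, fderivWithin ℝ Ψ HH (ζ + 1) = fderivWithin ℝ Ψ HH ζ := by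
    intro ζ hζ
    have h1 := fderivWithin_shift Ψ 1 ζ
    rw [Complex.ofReal_one] at h1
    rw [← h1]
    have h2 : ∀ x ∈ HH, Ψ (x + 1) = Ψ x + 1 := by
      intro x hx
      have h3 := h.per _ (hG1 x hx)
      rw [hG2 x hx] at h3
      have h4 : G x + (Q : ℂ) ∈ HH := by
        have h5 := (add_real_mem (ζ := G x) (Q : ℝ)).2 (hG1 x hx)
        push_cast at h5
        exact h5
      rw [hΨ, hΨ, ← h3, hG3 _ h4, add_div, div_self hQc]
    rw [fderivWithin_congr h2 (h2 ζ hζ), fderivWithin_add_const]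
  have hper : ∀ x ∈ HH, Ψ (x + 1) = Ψ x + 1 := by
    intro x hx
    have h3 := h.per _ (hG1 x hx)
    rw [hG2 x hx] at h3
    have h4 : G x + (Q : ℂ) ∈ HH := by
      have h5 := (add_real_mem (ζ := G x) (Q : ℝ)).2 (hG1 x hx)
      push_cast at h5
      exact h5
    rw [hΨ, hΨ, ← h3, hG3 _ h4, add_div, div_self hQc]
  refine ⟨Ψ, ⟨hsm, ?_, ?_, ?_, ?_, hper, ?_, ?_, ?_⟩, ?_⟩
  · intro ζ hζ
    have h0 : 0 ≤ (G ζ).im := hG1 ζ hζ
    change 0 ≤ (Ψ ζ).im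
    rw [hΨ, him]
    positivity
  · intro ζ hζ
    have hζ' : ζ ∈ HH := hζ.ge
    have h0 : 0 ≤ (G ζ).im := hG1 ζ hζ'
    rw [hΨ, him]
    rcases h0.eq_or_lt with h1 | h1
    · rw [← h1, zero_div]
    · exfalso
      have h2 := h.inter _ h1
      rw [hG2 ζ hζ', hζ] at h2
      exact lt_irrefl _ h2
  · intro ζ hζ
    have hζ' : ζ ∈ HH := hζ.le
    have h0 : 0 ≤ (G ζ).im := hG1 ζ hζ'
    rw [hΨ, him]
    rcases h0.eq_or_lt with h1 | h1
    · exfalso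
      have h2 := h.bdry _ h1.symm
      rw [hG2 ζ hζ'] at h2
      rw [h2] at hζ
      exact lt_irrefl _ hζ
    · positivity
  · intro ζ hζ
    have h3 := h.equiv _ (hG1 ζ hζ)
    rw [hG2 ζ hζ] at h3
    have h4 : G ζ + 1 ∈ HH := by
      have h5 := (add_real_mem (ζ := G ζ) (1 : ℝ)).2 (hG1 ζ hζ)
      push_cast at h5
      exact h5
    rw [hΨ, hΨ, ← h3, hG3 _ h4, add_div]
  · intro ζ hζ
    have h1 := h.det _ (hG1 ζ hζ)
    have h2 : ((fderivWithin ℝ Ψ HH ζ).comp (fderivWithin ℝ Φ HH (G ζ))).det = ‖(1 / Q : ℂ)‖ ^ 2 := by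
      apply det_mul
      intro u
      have h3 := hG5 _ (hG1 ζ hζ)
      rw [hG2 ζ hζ] at h3
      have h4 := congrArg (fun L : ℂ →L[ℝ] ℂ => L u) h3
      have h5 : fderivWithin ℝ G HH ζ (fderivWithin ℝ Φ HH (G ζ) u) = u := h4
      rw [ContinuousLinearMap.comp_apply, hP ζ hζ, h5]
      ring
    rw [det_comp] at h2
    have h3 : 0 < ‖(1 / Q : ℂ)‖ ^ 2 := by
      have : 0 < ‖(1 / Q : ℂ)‖ := norm_pos_iff.2 (div_ne_zero one_ne_zero hQc)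
      positivity
    rw [← h2] at h3
    exact pos_of_mul_pos_left h3 h1.le
  · refine ⟨|C| * M, ?_⟩
    intro ζ hζ
    have h1 := hC0 _ (hG1 ζ hζ)
    rw [hG2 ζ hζ] at h1
    have h2 : Ψ ζ - (ζ - c) = -(ζ - (c + G ζ / Q)) := by
      rw [hΨ]
      ring
    rw [h2, norm_neg, mul_assoc]
    exact h1.trans (mul_le_mul_of_nonneg_left (hexp ζ hζ) (abs_nonneg C))
  · obtain ⟨C', hC'⟩ := h.dasy
    set K : ℝ := |C'| * M * Q with hK
    have hK0 : 0 ≤ K := by positivity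
    -- basic inequality
    have hbas : ∀ ζ ∈ HH, ∀ u, ‖fderivWithin ℝ Ψ HH ζ u - u‖ ≤
        K * Real.exp (-(2 * Real.pi * ζ.im)) * ‖fderivWithin ℝ Ψ HH ζ u‖ := by
      intro ζ hζ u
      have h1 := hC' _ (hG1 ζ hζ) (fderivWithin ℝ G HH ζ u)
      rw [hBA ζ hζ] at h1
      have h2 : ‖fderivWithin ℝ G HH ζ u‖ = Q * ‖fderivWithin ℝ Ψ HH ζ u‖ := by
        rw [hP ζ hζ, norm_div, Complex.norm_natCast]
        field_simp
      rw [norm_sub_rev, hP ζ hζ]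
      rw [← hP ζ hζ] at h1 ⊢
      refine h1.trans ?_
      rw [h2]
      have h3 : C' * Real.exp (-(2 * Real.pi * (G ζ).im / Q)) ≤
          |C'| * (M * Real.exp (-(2 * Real.pi * ζ.im))) :=
        mul_le_mul (le_abs_self C') (hexp ζ hζ) (Real.exp_pos _).le (abs_nonneg C')
      calc C' * Real.exp (-(2 * Real.pi * (G ζ).im / Q)) * (Q * ‖fderivWithin ℝ Ψ HH ζ u‖)
          ≤ |C'| * (M * Real.exp (-(2 * Real.pi * ζ.im))) * (Q * ‖fderivWithin ℝ Ψ HH ζ u‖) :=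
            mul_le_mul_of_nonneg_right h3 (by positivity)
        _ = K * Real.exp (-(2 * Real.pi * ζ.im)) * ‖fderivWithin ℝ Ψ HH ζ u‖ := by
            rw [hK]
            ring
    -- uniform bound
    have hcont : ContinuousOn (fderivWithin ℝ Ψ HH) HH :=
      hsm.continuousOn_fderivWithin unique_HH (by exact_mod_cast hm)
    obtain ⟨N, hN⟩ := per_bdd hcont hshift (Real.log (2 * (K + 1)) / (2 * Real.pi))
    have hbd : ∀ ζ ∈ HH, ∀ u, ‖fderivWithin ℝ Ψ HH ζ u‖ ≤ (|N| + 2) * ‖u‖ := by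
      intro ζ hζ u
      by_cases hY : ζ.im ≤ Real.log (2 * (K + 1)) / (2 * Real.pi)
      · have h1 := (fderivWithin ℝ Ψ HH ζ).le_of_opNorm_le (hN ζ hζ hY) u
        refine h1.trans (mul_le_mul_of_nonneg_right ?_ (norm_nonneg u))
        have := le_abs_self N
        linarith
      · push Not at hY
        have h1 := hbas ζ hζ u
        have h2 : Real.exp (-(2 * Real.pi * ζ.im)) ≤ 1 / (2 * (K + 1)) := by
          rw [div_lt_iff₀ (by positivity)] at hY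
          have h3 : -(2 * Real.pi * ζ.im) ≤ -Real.log (2 * (K + 1)) := by linarith
          refine (Real.exp_le_exp.2 h3).trans_eq ?_
          rw [Real.exp_neg, Real.exp_log (by positivity), one_div]
        have h3 : K * Real.exp (-(2 * Real.pi * ζ.im)) ≤ 1 / 2 := by
          refine (mul_le_mul_of_nonneg_left h2 hK0).trans ?_
          rw [mul_one_div, div_le_div_iff₀ (by positivity) (by norm_num)]
          linarith
        have h4 : ‖fderivWithin ℝ Ψ HH ζ u - u‖ ≤ 1 / 2 * ‖fderivWithin ℝ Ψ HH ζ u‖ :=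
          h1.trans (mul_le_mul_of_nonneg_right h3 (norm_nonneg _))
        have h5 : ‖fderivWithin ℝ Ψ HH ζ u‖ ≤ ‖fderivWithin ℝ Ψ HH ζ u - u‖ + ‖u‖ := by
          have := norm_add_le (fderivWithin ℝ Ψ HH ζ u - u) u
          rwa [sub_add_cancel] at this
        have h6 : ‖fderivWithin ℝ Ψ HH ζ u‖ ≤ 2 * ‖u‖ := by linarith
        refine h6.trans (mul_le_mul_of_nonneg_right ?_ (norm_nonneg u))
        have := abs_nonneg N
        linarith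
    refine ⟨K * (|N| + 2), ?_⟩
    intro ζ hζ u
    refine (hbas ζ hζ u).trans ?_
    have h1 := mul_le_mul_of_nonneg_left (hbd ζ hζ u)
      (by positivity : (0 : ℝ) ≤ K * Real.exp (-(2 * Real.pi * ζ.im)))
    refine h1.trans_eq ?_
    ring
  · intro ζ hζ ζ' hζ' he
    rw [hΨ, hΨ, div_left_inj' hQc] at he
    rw [← hG2 ζ hζ, ← hG2 ζ' hζ', he]

end Pool.Agent.H24.PG
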