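import Pool.Agent.H24.PG.R1
import Pool.Agent.H24.PG.Lin

/-!
# Module R2 (about 170 lines): smoothness, derivative and expansion of `h1`

PROOF. `h1_loc`: let `z0 = ee ζ0 ∈ D`, `lam z = ζ0 + Complex.log (z / z0) / (2 π I)`. `lam` is smooth at `z0` (`Complex.contDiffAt_log` at `1`,
restricted to `ℝ`), `lam z0 = ζ0`, `ee (lam z) = z` for `z ≠ 0`, so `lam z ∈ HH` for `z ∈ D` minus `0` (`norm_ee`) and
`h1 Ψ z = ee (Ψ (lam z))` (`h1_ee`). Composition gives `ContDiffWithinAt` (`h.smooth`, `contDiff_ee`).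
The chain rule within `D`: `D lam z0 u = u / (2 π I z0)`,
`D h1 (z0) u = 2 π I * ee (Ψ ζ0) * DΨ ζ0 (u / (2 π I z0))`; this is `h1_deriv`.
`h1_det`: `det = det (mul by 2 π I ee (Ψ ζ0)) * det DΨ * det (mul by 1/(2 π I z0)) > 0` (`det_comp`, `det_mul`, `h.det`), or with `om_map`.
`h1_exp`: `κ = ee (- c)`, `z = ee ζ`, `r = Ψ ζ - (ζ - c)`, `‖r‖ ≤ C ‖z‖ ≤ C` (`norm_ee`, `h.asy`), `h1 z = κ z ee r`,
`‖ee r - 1‖ ≤ 2 π ‖r‖ exp (2 π ‖r‖)` (`Complex.norm_exp_sub_one_le` or `norm_exp_sub_one...`; any bound `M ‖r‖` for `‖r‖ ≤ C`), so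
`‖h1 z - κ z‖ ≤ C1 ‖z‖ ^ 2`. Derivative (`z ≠ 0`): with `v = u / (2 π I z)`, `DΨ v = v + r'`, `‖r'‖ ≤ C ‖z‖ ‖v‖ = C ‖u‖ / (2 π)`:
`D h1 z u - κ u = (h1 z / z - κ) u + 2 π I h1 z r'`, norm at most `C1 ‖z‖ ‖u‖ + (‖κ‖ + C1) ‖z‖ C ‖u‖`. At `z = 0` `exp0` is trivial.
-/

open Set

namespace Pool.Agent.H24.PG

variable {m Q : ℕ} {η : ℝ} {F Fi w Ψ : ℂ → ℂ} {c : ℂ}

/-- the local inverse of `ee` -/
private noncomputable def R2_lam (ζ z : ℂ) : ℂ :=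
  ζ + Complex.log (z / ee ζ) / (2 * Real.pi * Complex.I)

private theorem R2_ee_lam (ζ : ℂ) {z : ℂ} (h0 : z ≠ 0) : ee (R2_lam ζ z) = z := by
  rw [R2_lam, ee_add, ee_log (div_ne_zero h0 (ee_ne ζ)), mul_div_cancel₀ _ (ee_ne ζ)]

private theorem R2_mem (ζ : ℂ) {z : ℂ} (hz : z ∈ D) (h0 : z ≠ 0) : R2_lam ζ z ∈ HH := by
  have h1 := norm_ee (R2_lam ζ z)
  rw [R2_ee_lam ζ h0] at h1
  rw [mem_closedBall_zero_iff, h1, Real.exp_le_one_iff, neg_nonpos] at hz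
  change 0 ≤ (R2_lam ζ z).im
  exact nonneg_of_mul_nonneg_right hz Real.two_pi_pos

private theorem R2_h1 (h : PsiOK m Q w Ψ c) (ζ : ℂ) {z : ℂ} (hz : z ∈ D) (h0 : z ≠ 0) :
    h1 Ψ z = ee (Ψ (R2_lam ζ z)) := by
  conv_lhs => rw [← R2_ee_lam ζ h0]
  exact h1_ee h (R2_mem ζ hz h0)

private theorem R2_lam_self (ζ : ℂ) : R2_lam ζ (ee ζ) = ζ := by
  rw [R2_lam, div_self (ee_ne ζ), Complex.log_one, zero_div, add_zero]

private theorem R2_lam_smooth (ζ : ℂ) (n : ℕ) : ContDiffAt ℝ n (R2_lam ζ) (ee ζ) := by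
  have h1 : ContDiffAt ℂ n (R2_lam ζ) (ee ζ) := by
    have h3 : ContDiffAt ℂ n (fun z : ℂ => z / ee ζ) (ee ζ) := contDiffAt_id.div_const _
    have h2 : ContDiffAt ℂ n Complex.log ((fun z : ℂ => z / ee ζ) (ee ζ)) := by
      apply Complex.contDiffAt_log
      change ee ζ / ee ζ ∈ _
      rw [div_self (ee_ne ζ)]
      exact Complex.one_mem_slitPlane
    have h4 := (ContDiffAt.comp (f := fun z : ℂ => z / ee ζ) (ee ζ) h2 h3).div_const (2 * Real.pi * Complex.I)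
    exact contDiffAt_const.add h4
  exact h1.restrict_scalars ℝ

private theorem R2_lam_deriv (ζ : ℂ) : HasDerivAt (R2_lam ζ)
    (1 / (2 * Real.pi * Complex.I * ee ζ)) (ee ζ) := by
  have h0 := ee_ne ζ
  have hpi := Complex.two_pi_I_ne_zero
  have h3 : HasDerivAt (fun z : ℂ => z / ee ζ) (1 / ee ζ) (ee ζ) :=
    (hasDerivAt_id (ee ζ)).div_const _
  have h2 : HasDerivAt Complex.log (ee ζ / ee ζ)⁻¹ ((fun z : ℂ => z / ee ζ) (ee ζ)) := by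
    apply Complex.hasDerivAt_log
    rw [div_self (ee_ne ζ)]
    exact Complex.one_mem_slitPlane
  have h4 := ((HasDerivAt.comp (h := fun z : ℂ => z / ee ζ) (ee ζ) h2 h3).div_const
    (2 * Real.pi * Complex.I)).const_add ζ
  have h5 : (ee ζ / ee ζ)⁻¹ * (1 / ee ζ) / (2 * Real.pi * Complex.I) =
      1 / (2 * Real.pi * Complex.I * ee ζ) := by
    rw [div_self h0]
    field_simp
  rw [h5] at h4
  exact h4

private theorem R2_nhds (ζ : ℂ) : D ∩ {z | z ≠ 0} ∈ nhdsWithin (ee ζ) D := by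
  refine Filter.inter_mem self_mem_nhdsWithin (mem_nhdsWithin_of_mem_nhds ?_)
  exact isOpen_ne.mem_nhds (ee_ne ζ)

theorem h1_smooth (h : PsiOK m Q w Ψ c) {z : ℂ} (hz : z ∈ D) (h0 : z ≠ 0) :
    ContDiffWithinAt ℝ m (h1 Ψ) D z := by
  obtain ⟨ζ, hζ, rfl⟩ := exists_zeta hz h0
  have h1' : ContDiffWithinAt ℝ m (fun z => ee (Ψ (R2_lam ζ z))) (D ∩ {z | z ≠ 0}) (ee ζ) := by
    refine (contDiff_ee m).contDiffAt.comp_contDiffWithinAt (ee ζ) ?_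
    have h2 : ContDiffWithinAt ℝ m Ψ HH (R2_lam ζ (ee ζ)) := by
      rw [R2_lam_self]
      exact h.smooth ζ hζ
    exact h2.comp (ee ζ) (R2_lam_smooth ζ m).contDiffWithinAt
      (fun x hx => R2_mem ζ hx.1 hx.2)
  have h3 : ContDiffWithinAt ℝ m (h1 Ψ) (D ∩ {z | z ≠ 0}) (ee ζ) :=
    h1'.congr (fun x hx => R2_h1 h ζ hx.1 hx.2) (R2_h1 h ζ hz h0)
  exact h3.mono_of_mem_nhdsWithin (R2_nhds ζ)

private theorem R2_has (h : PsiOK m Q w Ψ c) (hm : 1 ≤ m) {ζ : ℂ} (hζ : ζ ∈ HH) :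
    ∃ P R : ℂ →L[ℝ] ℂ, (∀ u, P u = (2 * Real.pi * Complex.I * ee (Ψ ζ)) * u) ∧
      (∀ u, R u = 1 / (2 * Real.pi * Complex.I * ee ζ) * u) ∧
      fderivWithin ℝ (h1 Ψ) D (ee ζ) = P.comp ((fderivWithin ℝ Ψ HH ζ).comp R) := by
  obtain ⟨P, hP, hP'⟩ := hasFDerivAt_ee (Ψ ζ)
  have hR := (R2_lam_deriv ζ).hasFDerivAt.restrictScalars ℝ
  refine ⟨P, (ContinuousLinearMap.toSpanSingleton ℂ
    (1 / (2 * Real.pi * Complex.I * ee ζ))).restrictScalars ℝ, hP', fun u => ?_, ?_⟩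
  · simp
    ring
  · refine HasFDerivWithinAt.fderivWithin ?_ (unique_D _ (ee_mem hζ))
    have hm' : ((m : ℕ) : WithTop ℕ∞) ≠ 0 := by
      exact_mod_cast (by omega : m ≠ 0)
    have hΨ : HasFDerivWithinAt Ψ (fderivWithin ℝ Ψ HH ζ) HH (R2_lam ζ (ee ζ)) := by
      rw [R2_lam_self]
      exact (h.smooth.differentiableOn hm' ζ hζ).hasFDerivWithinAt
    have h2 := hΨ.comp (ee ζ) (hR.hasFDerivWithinAt (s := D ∩ {z | z ≠ 0}))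
      (fun x hx => R2_mem ζ hx.1 hx.2)
    have hP2 : HasFDerivAt ee P ((Ψ ∘ R2_lam ζ) (ee ζ)) := by
      rw [Function.comp_apply, R2_lam_self]
      exact hP
    have h3 := hP2.comp_hasFDerivWithinAt (ee ζ) h2
    have h4 : HasFDerivWithinAt (h1 Ψ) _ (D ∩ {z | z ≠ 0}) (ee ζ) :=
      h3.congr (fun x hx => R2_h1 h ζ hx.1 hx.2) (R2_h1 h ζ (ee_mem hζ) (ee_ne ζ))
    exact h4.mono_of_mem_nhdsWithin (R2_nhds ζ)

theorem h1_deriv (h : PsiOK m Q w Ψ c) (hm : 1 ≤ m) {ζ : ℂ} (hζ : ζ ∈ HH) (u : ℂ) :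
    fderivWithin ℝ (h1 Ψ) D (ee ζ) u = 2 * Real.pi * Complex.I * ee (Ψ ζ) *
      fderivWithin ℝ Ψ HH ζ (u / (2 * Real.pi * Complex.I * ee ζ)) := by
  obtain ⟨P, R, hP, hR, he⟩ := R2_has h hm hζ
  rw [he]
  change P (fderivWithin ℝ Ψ HH ζ (R u)) = _
  rw [hP, hR, one_div_mul_eq_div]

theorem h1_det (h : PsiOK m Q w Ψ c) (hm : 1 ≤ m) {z : ℂ} (hz : z ∈ D) (h0 : z ≠ 0) :
    0 < (fderivWithin ℝ (h1 Ψ) D z).det := by
  obtain ⟨ζ, hζ, rfl⟩ := exists_zeta hz h0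
  obtain ⟨P, R, hP, hR, he⟩ := R2_has h hm hζ
  have hpi := Complex.two_pi_I_ne_zero
  rw [he, det_comp, det_comp, det_mul P _ hP, det_mul R _ hR]
  have h1 : (2 * Real.pi * Complex.I * ee (Ψ ζ) : ℂ) ≠ 0 := mul_ne_zero hpi (ee_ne _)
  have h2 : (1 / (2 * Real.pi * Complex.I * ee ζ) : ℂ) ≠ 0 :=
    one_div_ne_zero (mul_ne_zero hpi (ee_ne _))
  have h3 := h.det ζ hζ
  have h4 := norm_pos_iff.2 h1
  have h5 := norm_pos_iff.2 h2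
  positivity

private theorem R2_norm2pi : ‖(2 * Real.pi * Complex.I : ℂ)‖ = 2 * Real.pi := by
  rw [norm_mul, norm_mul, Complex.norm_I, mul_one, Complex.norm_real, Complex.norm_ofNat,
    Real.norm_eq_abs, abs_of_pos Real.pi_pos]

private theorem R2_exp {C : ℝ} {r : ℂ} {t : ℝ} (hC : 0 ≤ C) (ht0 : 0 ≤ t) (ht : t ≤ 1)
    (hr : ‖r‖ ≤ C * t) :
    ‖ee r - 1‖ ≤ 2 * Real.pi * C * Real.exp (2 * Real.pi * C) * t ∧
      ‖ee r‖ ≤ Real.exp (2 * Real.pi * C) := by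
  have hpi := Real.pi_pos
  have hr1 : ‖r‖ ≤ C := hr.trans (mul_le_of_le_one_right hC ht)
  have hx : ‖(2 * Real.pi * Complex.I * r : ℂ)‖ = 2 * Real.pi * ‖r‖ := by
    rw [norm_mul, R2_norm2pi]
  have hE : Real.exp ‖(2 * Real.pi * Complex.I * r : ℂ)‖ ≤ Real.exp (2 * Real.pi * C) := by
    rw [hx]
    apply Real.exp_le_exp.2
    exact mul_le_mul_of_nonneg_left hr1 (by positivity)
  refine ⟨?_, ?_⟩
  · have h1 := Complex.norm_exp_sub_sum_le_norm_mul_exp (2 * Real.pi * Complex.I * r) 1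
    simp only [Finset.sum_range_one, pow_zero, Nat.factorial_zero, Nat.cast_one, div_one,
      pow_one] at h1
    rw [ee]
    refine h1.trans ?_
    rw [hx] at hE ⊢
    calc 2 * Real.pi * ‖r‖ * Real.exp (2 * Real.pi * ‖r‖)
        ≤ 2 * Real.pi * (C * t) * Real.exp (2 * Real.pi * C) := by
          apply mul_le_mul _ hE (Real.exp_pos _).le (by positivity)
          exact mul_le_mul_of_nonneg_left hr (by positivity)
      _ = _ := by ring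
  · rw [ee]
    exact (Complex.norm_exp_le_exp_norm _).trans hE

theorem h1_exp (hF : DiscMap m Q η F Fi) (h : PsiOK m Q (lw F) Ψ c) :
    ∃ C : ℝ, Expn F (ee (1 / Q)) (ee (-c)) (h1 Ψ) C := by
  obtain ⟨C0, hC0⟩ := h.asy
  obtain ⟨C1, hC1⟩ := h.dasy
  obtain ⟨C, hC⟩ : ∃ C : ℝ, C = max (max C0 C1) 0 := ⟨_, rfl⟩
  have hCn : 0 ≤ C := by rw [hC]; exact le_max_right _ _
  have hC0' : C0 ≤ C := by rw [hC]; exact (le_max_left _ _).trans (le_max_left _ _)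
  have hC1' : C1 ≤ C := by rw [hC]; exact (le_max_right _ _).trans (le_max_left _ _)
  have hpi := Real.pi_pos
  have hm1 : 1 ≤ m := (by norm_num : 1 ≤ 2).trans hF.hm
  have hb : ∀ ζ ∈ HH, ‖Ψ ζ - (ζ - c)‖ ≤ C * ‖ee ζ‖ := by
    intro ζ hζ
    rw [norm_ee]
    exact (hC0 ζ hζ).trans (mul_le_mul_of_nonneg_right hC0' (Real.exp_pos _).le)
  have hdb : ∀ ζ ∈ HH, ∀ u : ℂ, ‖fderivWithin ℝ Ψ HH ζ u - u‖ ≤ C * ‖ee ζ‖ * ‖u‖ := by
    intro ζ hζ u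
    rw [norm_ee]
    refine (hC1 ζ hζ u).trans (mul_le_mul_of_nonneg_right ?_ (norm_nonneg _))
    exact mul_le_mul_of_nonneg_right hC1' (Real.exp_pos _).le
  obtain ⟨E, hE⟩ : ∃ E : ℝ, E = Real.exp (2 * Real.pi * C) := ⟨_, rfl⟩
  have hE0 : 0 ≤ E := by rw [hE]; exact (Real.exp_pos _).le
  obtain ⟨M, hM⟩ : ∃ M : ℝ, M = 2 * Real.pi * C * E := ⟨_, rfl⟩
  have hM0 : 0 ≤ M := by rw [hM]; positivity
  -- the factor
  have hfac : ∀ ζ ∈ HH, ∃ r : ℂ, ee (Ψ ζ) = ee (-c) * ee ζ * ee r ∧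
      ‖ee r - 1‖ ≤ M * ‖ee ζ‖ ∧ ‖ee r‖ ≤ E := by
    intro ζ hζ
    have hle : ‖ee ζ‖ ≤ 1 := by
      have := ee_mem hζ
      rwa [mem_closedBall_zero_iff] at this
    refine ⟨Ψ ζ - (ζ - c), ?_, ?_⟩
    · rw [← ee_add, ← ee_add]
      congr 1
      ring
    · have := R2_exp hCn (norm_nonneg (ee ζ)) hle (hb ζ hζ)
      rw [hM, hE]
      exact this
  refine ⟨‖ee (-c)‖ * (M + E * C), ⟨fun z hz => h1_equiv hF h hz, ?_, ?_⟩⟩
  · intro z hz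
    by_cases h0 : z = 0
    · subst h0
      simp [h1]
    · obtain ⟨ζ, hζ, rfl⟩ := exists_zeta hz h0
      obtain ⟨r, hr1, hr2, -⟩ := hfac ζ hζ
      rw [h1_ee h hζ, hr1]
      have e : ee (-c) * ee ζ * ee r - ee (-c) * ee ζ = ee (-c) * ee ζ * (ee r - 1) := by ring
      rw [e, norm_mul, norm_mul]
      have h5 : 0 ≤ ‖ee (-c)‖ * ‖ee ζ‖ := by positivity
      calc ‖ee (-c)‖ * ‖ee ζ‖ * ‖ee r - 1‖ ≤ ‖ee (-c)‖ * ‖ee ζ‖ * (M * ‖ee ζ‖) :=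
            mul_le_mul_of_nonneg_left hr2 h5
        _ = ‖ee (-c)‖ * M * ‖ee ζ‖ ^ 2 := by ring
        _ ≤ ‖ee (-c)‖ * (M + E * C) * ‖ee ζ‖ ^ 2 := by
            apply mul_le_mul_of_nonneg_right _ (by positivity)
            apply mul_le_mul_of_nonneg_left _ (norm_nonneg _)
            have : 0 ≤ E * C := mul_nonneg hE0 hCn
            linarith
  · intro z hz h0 u
    obtain ⟨ζ, hζ, rfl⟩ := exists_zeta hz h0
    obtain ⟨r, hr1, hr2, hr3⟩ := hfac ζ hζ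
    have hpi2 := Complex.two_pi_I_ne_zero
    rw [h1_deriv h hm1 hζ]
    obtain ⟨v, hv⟩ : ∃ v : ℂ, v = u / (2 * Real.pi * Complex.I * ee ζ) := ⟨_, rfl⟩
    rw [← hv]
    obtain ⟨s, hs⟩ : ∃ s : ℂ, s = fderivWithin ℝ Ψ HH ζ v - v := ⟨_, rfl⟩
    have hs1 : ‖s‖ ≤ C * ‖ee ζ‖ * ‖v‖ := by
      rw [hs]
      exact hdb ζ hζ v
    have hs2 : fderivWithin ℝ Ψ HH ζ v = v + s := by
      rw [hs]
      ring
    have hu : u = 2 * Real.pi * Complex.I * ee ζ * v := by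
      rw [hv, mul_div_cancel₀ _ (mul_ne_zero hpi2 h0)]
    have hun : ‖u‖ = 2 * Real.pi * ‖ee ζ‖ * ‖v‖ := by
      rw [hu, norm_mul, norm_mul, R2_norm2pi]
    rw [hs2, hr1]
    have e : 2 * Real.pi * Complex.I * (ee (-c) * ee ζ * ee r) * (v + s) - ee (-c) * u =
        ee (-c) * (ee r - 1) * u + 2 * Real.pi * Complex.I * (ee (-c) * ee ζ * ee r * s) := by
      rw [hu]
      ring
    rw [e]
    refine (norm_add_le _ _).trans ?_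
    rw [norm_mul, norm_mul, norm_mul (2 * Real.pi * Complex.I : ℂ), R2_norm2pi, norm_mul, norm_mul,
      norm_mul]
    have k1 : ‖ee (-c)‖ * ‖ee r - 1‖ * ‖u‖ ≤ ‖ee (-c)‖ * (M * ‖ee ζ‖) * ‖u‖ :=
      mul_le_mul_of_nonneg_right (mul_le_mul_of_nonneg_left hr2 (norm_nonneg _)) (norm_nonneg _)
    have k2 : 2 * Real.pi * (‖ee (-c)‖ * ‖ee ζ‖ * ‖ee r‖ * ‖s‖) ≤
        2 * Real.pi * (‖ee (-c)‖ * ‖ee ζ‖ * E * (C * ‖ee ζ‖ * ‖v‖)) := by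
      apply mul_le_mul_of_nonneg_left _ (by positivity)
      apply mul_le_mul _ hs1 (norm_nonneg _) (by positivity)
      exact mul_le_mul_of_nonneg_left hr3 (by positivity)
    calc ‖ee (-c)‖ * ‖ee r - 1‖ * ‖u‖ + 2 * Real.pi * (‖ee (-c)‖ * ‖ee ζ‖ * ‖ee r‖ * ‖s‖)
        ≤ ‖ee (-c)‖ * (M * ‖ee ζ‖) * ‖u‖ +
          2 * Real.pi * (‖ee (-c)‖ * ‖ee ζ‖ * E * (C * ‖ee ζ‖ * ‖v‖)) := add_le_add k1 k2
      _ = ‖ee (-c)‖ * (M + E * C) * ‖ee ζ‖ * ‖u‖ := by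
          rw [hun]
          ring

end Pool.Agent.H24.PG
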