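import Pool.Agent.H24.PG.EeL

/-!
# Module R3 (about 130 lines): the averaged map `h0`

PROOF. `F^[i]` is `C^m` on `D` with values in `D` (induction, `ContDiffOn.comp`, `hF.maps`), and its derivative at `0` is
`u ↦ ee (i/Q) u = ee (1/Q)^i u` (induction, chain rule within `D`, `F^[i] 0 = 0`, `hF.der0`). So `h0` is `C^m` and `h0_der`: the sum is
`κ/Q * ∑ ee (-i/Q) ee (i/Q) u = κ u`. `equiv`: `∑_{i<Q} ee (-i/Q) F^[i+1] z = ee (1/Q) ∑_{i<Q} ee (-(i+1)/Q) F^[i+1] z`, and the last sum is the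
sum over `1 ≤ j ≤ Q`, in which the term `j = Q` is `ee (-1) F^[Q] z = z`, the term `j = 0` (`Finset.sum_range_succ'`, `Finset.sum_range_succ`,
`hF.per`). `exp0`, `exp1`: `D h0` is Lipschitz on the compact convex `D` (`h0` is `C^2`: `fderivWithin ℝ h0 D` is `C^1` on `D`, its
derivative is continuous so bounded on `D`, `Convex.norm_image_sub_le_of_norm_fderivWithin_le`), `D h0 0 u = κ u`, so
`‖D h0 z u - κ u‖ ≤ C ‖z‖ ‖u‖` and `‖h0 z - κ z‖ ≤ C ‖z‖ ^ 2` by the mean value inequality on `D ∩ closedBall 0 ‖z‖` (`h0 0 = 0`).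
-/

open Set

namespace Pool.Agent.H24.PG

variable {m Q : ℕ} {η : ℝ} {F Fi : ℂ → ℂ}

private theorem r3_maps (hF : DiscMap m Q η F Fi) (i : ℕ) : MapsTo (F^[i]) D D :=
  hF.maps.iterate i

private theorem r3_zero (hF : DiscMap m Q η F Fi) (i : ℕ) : F^[i] 0 = 0 :=
  Function.iterate_fixed hF.zero i

private theorem r3_smooth (hF : DiscMap m Q η F Fi) (i : ℕ) : ContDiffOn ℝ m (F^[i]) D := by
  induction i with
  | zero => exact contDiffOn_id
  | succ i ih =>
    rw [Function.iterate_succ']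
    exact hF.smooth.comp ih (r3_maps hF i)

/-- multiplication by a complex number -/
private noncomputable def mlt (c : ℂ) : ℂ →L[ℝ] ℂ := c • ContinuousLinearMap.id ℝ ℂ

private theorem mlt_apply (c u : ℂ) : mlt c u = c * u := rfl

private theorem r3_zmem : (0 : ℂ) ∈ D := by simp

private theorem r3_der1 (hF : DiscMap m Q η F Fi) : HasFDerivWithinAt F (mlt (ee (1 / Q))) D 0 := by
  have hm : (m : WithTop ℕ∞) ≠ 0 := by
    have := hF.hm
    intro h
    have h2 : m = 0 := by exact_mod_cast h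
    omega
  have h1 := (hF.smooth.differentiableOn hm 0 r3_zmem).hasFDerivWithinAt
  have h2 : fderivWithin ℝ F D 0 = mlt (ee (1 / Q)) := by
    ext u
    rw [hF.der0, mlt_apply]
  rwa [h2] at h1

private theorem r3_der (hF : DiscMap m Q η F Fi) (i : ℕ) :
    HasFDerivWithinAt (F^[i]) (mlt (ee ((i : ℂ) / Q))) D 0 := by
  induction i with
  | zero =>
    have h : mlt (ee (((0 : ℕ) : ℂ) / Q)) = ContinuousLinearMap.id ℝ ℂ := by
      ext u
      rw [mlt_apply, Nat.cast_zero, zero_div, ee_zero, one_mul]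
      rfl
    rw [h]
    exact hasFDerivWithinAt_id _ _
  | succ i ih =>
    have h1 : HasFDerivWithinAt F (mlt (ee (1 / Q))) D (F^[i] 0) := by
      rw [r3_zero hF]
      exact r3_der1 hF
    have h2 := h1.comp (0 : ℂ) ih (r3_maps hF i)
    rw [Function.iterate_succ']
    refine h2.congr_fderiv ?_
    ext u
    rw [ContinuousLinearMap.comp_apply, mlt_apply, mlt_apply, mlt_apply, ← mul_assoc, ← ee_add]
    congr 2
    push_cast
    ring

theorem h0_smooth (hF : DiscMap m Q η F Fi) (κ : ℂ) : ContDiffOn ℝ m (h0 Q F κ) D := by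
  unfold h0
  refine contDiffOn_const.mul (ContDiffOn.sum fun i _ => ?_)
  exact contDiffOn_const.mul (r3_smooth hF i)

private theorem r3_h0 (hF : DiscMap m Q η F Fi) (κ : ℂ) :
    HasFDerivWithinAt (h0 Q F κ) (mlt κ) D 0 := by
  have hQ : (Q : ℂ) ≠ 0 := by
    have := hF.hQ
    exact_mod_cast (by omega : Q ≠ 0)
  have h1 := (HasFDerivWithinAt.fun_sum (u := Finset.range Q) fun i _ =>
    (r3_der hF i).const_mul (ee (-(i : ℂ) / Q))).const_mul (κ / Q)
  refine h1.congr_fderiv ?_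
  ext u
  rw [mlt_apply, smul_apply, sum_apply]
  have h2 : ∀ i ∈ Finset.range Q, (ee (-(i : ℂ) / Q) • mlt (ee ((i : ℂ) / Q))) u = u := by
    intro i _
    rw [smul_apply, mlt_apply, smul_eq_mul, ← mul_assoc, ← ee_add]
    have h3 : -(i : ℂ) / Q + (i : ℂ) / Q = 0 := by ring
    rw [h3, ee_zero, one_mul]
  rw [Finset.sum_congr rfl h2, Finset.sum_const, Finset.card_range, smul_eq_mul, nsmul_eq_mul]
  field_simp

theorem h0_der (hF : DiscMap m Q η F Fi) (κ u : ℂ) : fderivWithin ℝ (h0 Q F κ) D 0 u = κ * u := by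
  rw [(r3_h0 hF κ).fderivWithin (unique_D 0 r3_zmem), mlt_apply]

private theorem r3_equiv (hF : DiscMap m Q η F Fi) (κ : ℂ) {z : ℂ} (hz : z ∈ D) :
    h0 Q F κ (F z) = ee (1 / Q) * h0 Q F κ z := by
  have hQ : (Q : ℂ) ≠ 0 := by
    have := hF.hQ
    exact_mod_cast (by omega : Q ≠ 0)
  have h1 : ∑ i ∈ Finset.range Q, ee (-((i + 1 : ℕ) : ℂ) / Q) * F^[i + 1] z =
      ∑ i ∈ Finset.range Q, ee (-(i : ℂ) / Q) * F^[i] z := by
    have h2 := Finset.sum_range_succ' (fun i : ℕ => ee (-(i : ℂ) / Q) * F^[i] z) Q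
    rw [Finset.sum_range_succ] at h2
    have h3 : ee (-(Q : ℂ) / Q) * F^[Q] z = z := by
      rw [hF.per z hz, neg_div, div_self hQ]
      have := ee_int (-1)
      rw [Int.cast_neg, Int.cast_one] at this
      rw [this, one_mul]
    have h4 : ee (-((0 : ℕ) : ℂ) / Q) * F^[0] z = z := by
      rw [Nat.cast_zero, neg_zero, zero_div, ee_zero, one_mul]
      rfl
    rw [h3, h4] at h2
    exact (add_right_cancel h2).symm
  unfold h0
  rw [← h1, mul_left_comm, Finset.mul_sum _ _ (ee (1 / Q))]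
  congr 1
  refine Finset.sum_congr rfl fun i _ => ?_
  rw [← mul_assoc, ← ee_add, Function.iterate_succ_apply]
  congr 2
  push_cast
  ring

theorem h0_exp (hF : DiscMap m Q η F Fi) (κ : ℂ) :
    ∃ C : ℝ, Expn F (ee (1 / Q)) κ (h0 Q F κ) C := by
  have hm : (m : WithTop ℕ∞) ≠ 0 := by
    have := hF.hm
    intro h
    have h2 : m = 0 := by exact_mod_cast h
    omega
  have hconv : Convex ℝ D := convex_closedBall _ _
  have hs := h0_smooth hF κ
  have hm2 : (1 : WithTop ℕ∞) + 1 ≤ m := by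
    have := hF.hm
    have h2 : ((2 : ℕ) : WithTop ℕ∞) ≤ (m : ℕ) := by exact_mod_cast this
    have h3 : (1 : WithTop ℕ∞) + 1 = ((2 : ℕ) : WithTop ℕ∞) := by norm_num
    rw [h3]
    exact h2
  obtain ⟨K, hK⟩ := (hs.fderivWithin unique_D hm2).exists_lipschitzOnWith one_ne_zero hconv
    (isCompact_closedBall _ _)
  have h0d : fderivWithin ℝ (h0 Q F κ) D 0 = mlt κ := by
    ext u
    rw [h0_der hF κ u, mlt_apply]
  have hb : ∀ z ∈ D, ‖fderivWithin ℝ (h0 Q F κ) D z - mlt κ‖ ≤ K * ‖z‖ := by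
    intro z hz
    have h1 := hK.dist_le_mul z hz 0 r3_zmem
    rwa [h0d, dist_eq_norm, dist_zero_right] at h1
  have hz0 : h0 Q F κ 0 = 0 := by
    unfold h0
    rw [Finset.sum_eq_zero fun i _ => by rw [r3_zero hF, mul_zero], mul_zero]
  refine ⟨K, fun z hz => r3_equiv hF κ hz, fun z hz => ?_, fun z hz _ u => ?_⟩
  · have hsub : D ∩ Metric.closedBall (0 : ℂ) ‖z‖ ⊆ D := inter_subset_left
    have h1 := (hconv.inter (convex_closedBall (0 : ℂ) ‖z‖)).norm_image_sub_le_of_norm_hasFDerivWithin_le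
      (f := fun y => h0 Q F κ y - mlt κ y)
      (f' := fun y => fderivWithin ℝ (h0 Q F κ) D y - mlt κ) (C := K * ‖z‖)
      (fun y hy => ((hs.differentiableOn hm y hy.1).hasFDerivWithinAt.mono hsub).sub
        (mlt κ).hasFDerivWithinAt)
      (fun y hy => (hb y hy.1).trans
        (mul_le_mul_of_nonneg_left (mem_closedBall_zero_iff.1 hy.2) K.coe_nonneg))
      (x := 0) (y := z) ⟨r3_zmem, by simp⟩ ⟨hz, by simp⟩
    simp only [hz0, map_zero, sub_zero, mlt_apply] at h1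
    calc ‖h0 Q F κ z - κ * z‖ ≤ K * ‖z‖ * ‖z‖ := h1
      _ = K * ‖z‖ ^ 2 := by ring
  · have h1 : fderivWithin ℝ (h0 Q F κ) D z u - κ * u =
        (fderivWithin ℝ (h0 Q F κ) D z - mlt κ) u := rfl
    rw [h1]
    exact ((fderivWithin ℝ (h0 Q F κ) D z - mlt κ).le_opNorm u).trans
      (mul_le_mul_of_nonneg_right (hb z hz) (norm_nonneg u))

end Pool.Agent.H24.PG
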