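import Pool.Agent.H24.PG.R4

/-!
# Module R5 (about 150 lines): the glued map has positive Jacobian

PROOF. See `gl_det` in the header of `R4`: three cases (a) `z = 0`, (b) `‖f1 z‖ > 2 ε`, (c) `z ≠ 0`, `‖f1 z‖ ≤ 2 ε`.
-/

open Set

namespace Pool.Agent.H24.PG

variable {m : ℕ} {F f0 f1 : ℂ → ℂ} {a κ : ℂ} {C b ε : ℝ} {χ : ℝ → ℝ}

private theorem R5_small (hε : 0 < ε) (hχ : Step χ 1 4 1) {z : ℂ} (h : ‖f1 z‖ ≤ ε) :
    gl χ ε f0 f1 z = f0 z := by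
  have h1 : ‖f1 z‖ ^ 2 / ε ^ 2 ≤ 1 := by
    rw [div_le_one (by positivity)]
    exact pow_le_pow_left₀ (norm_nonneg _) h 2
  rw [gl, hχ.zero _ h1]
  simp

private theorem R5_big (hε : 0 < ε) (hχ : Step χ 1 4 1) {z : ℂ} (h : 2 * ε ≤ ‖f1 z‖) :
    gl χ ε f0 f1 z = f1 z := by
  have h1 : 4 ≤ ‖f1 z‖ ^ 2 / ε ^ 2 := by
    rw [le_div_iff₀ (by positivity)]
    have h2 := pow_le_pow_left₀ (by positivity) h 2
    nlinarith
  rw [gl, hχ.one _ h1]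
  simp

private theorem R5_zero (P : Pre m F a κ C b f0 f1) (S : Sml κ C b ε) (hχ : Step χ 1 4 1) :
    0 < (fderivWithin ℝ (gl χ ε f0 f1) D 0).det := by
  have h0D : (0 : ℂ) ∈ D := Metric.mem_closedBall_self zero_le_one
  have hK : 0 < ‖κ‖ + C + 1 := by
    have := norm_nonneg κ
    have := P.hC
    linarith
  have hb1 : ∀ z ∈ D, ‖f1 z‖ ≤ (‖κ‖ + C) * ‖z‖ := by
    intro z hz
    have h1 := P.e1.exp0 z hz
    have h2 : ‖z‖ ≤ 1 := mem_closedBall_zero_iff.1 hz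
    have h3 : ‖f1 z‖ ≤ ‖f1 z - κ * z‖ + ‖κ * z‖ := by
      have := norm_add_le (f1 z - κ * z) (κ * z)
      rwa [sub_add_cancel] at this
    rw [norm_mul] at h3
    have h4 : C * ‖z‖ ^ 2 ≤ C * ‖z‖ := by
      refine mul_le_mul_of_nonneg_left ?_ P.hC
      nlinarith [norm_nonneg z]
    linarith
  have hev : gl χ ε f0 f1 =ᶠ[nhdsWithin 0 D] f0 := by
    have hball : Metric.ball (0 : ℂ) (ε / (‖κ‖ + C + 1)) ∈ nhds (0 : ℂ) :=
      Metric.ball_mem_nhds _ (div_pos S.s0 hK)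
    filter_upwards [mem_nhdsWithin_of_mem_nhds hball, self_mem_nhdsWithin] with z hz hzD
    refine R5_small S.s0 hχ ?_
    rw [mem_ball_zero_iff, lt_div_iff₀ hK] at hz
    have h1 := hb1 z hzD
    have h2 := norm_nonneg z
    nlinarith
  rw [hev.fderivWithin_eq (hev.self_of_nhdsWithin h0D), det_mul _ κ P.d0]
  have := norm_pos_iff.2 P.hκ
  positivity

private theorem R5_bnd {c ν : ℝ} {A0 A1 : ℂ →L[ℝ] ℂ} {dx : ℂ →L[ℝ] ℝ} {v0 v1 z : ℂ}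
    (hC : 0 ≤ C) (hb : 0 < b) (S : Sml κ C b ε) (hc0 : 0 ≤ c) (hc1 : c ≤ 1) (hν : |ν| ≤ 1)
    (hz : ‖z‖ ≤ 2 * ε / b)
    (h0 : ∀ u, ‖A0 u - κ * u‖ ≤ C * ‖z‖ * ‖u‖) (h1 : ∀ u, ‖A1 u - κ * u‖ ≤ C * ‖z‖ * ‖u‖)
    (hv0 : ‖v0 - κ * z‖ ≤ C * ‖z‖ ^ 2) (hv1 : ‖v1 - κ * z‖ ≤ C * ‖z‖ ^ 2)
    (hv : ‖v1‖ ≤ 2 * ε) (hdx : ∀ u, |dx u| ≤ 2 * ‖v1‖ * ‖A1 u‖ / ε ^ 2) (u : ℂ) :
    ‖(1 - c) • A0 u + (-(ν * dx u)) • v0 + (c • A1 u + (ν * dx u) • v1) - κ * u‖ ≤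
      1 / 4 * ‖κ‖ * ‖u‖ := by
  have hε := S.s0
  have hu := norm_nonneg u
  have hz0 := norm_nonneg z
  have hκ0 := norm_nonneg κ
  have hz1 : ‖z‖ ≤ 1 := hz.trans S.s2.1.le
  have e : (1 - c) • A0 u + (-(ν * dx u)) • v0 + (c • A1 u + (ν * dx u) • v1) - κ * u =
      (1 - c) • (A0 u - κ * u) + c • (A1 u - κ * u) + (ν * dx u) • (v1 - v0) := by
    simp only [Complex.real_smul]
    push_cast
    ring
  have hA1 : ‖A1 u‖ ≤ (‖κ‖ + C) * ‖u‖ := by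
    have h3 : ‖A1 u‖ ≤ ‖A1 u - κ * u‖ + ‖κ * u‖ := by
      have := norm_add_le (A1 u - κ * u) (κ * u)
      rwa [sub_add_cancel] at this
    rw [norm_mul] at h3
    have h4 : C * ‖z‖ * ‖u‖ ≤ C * ‖u‖ := by
      refine mul_le_mul_of_nonneg_right ?_ hu
      nlinarith
    linarith [h1 u]
  have hvv : ‖v1 - v0‖ ≤ 2 * C * ‖z‖ ^ 2 := by
    have h5 : v1 - v0 = (v1 - κ * z) - (v0 - κ * z) := by ring
    rw [h5]
    have := norm_sub_le (v1 - κ * z) (v0 - κ * z)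
    linarith
  have hd : |ν * dx u| ≤ 4 * (‖κ‖ + C) / ε * ‖u‖ := by
    rw [abs_mul]
    have h6 : |dx u| ≤ 4 * (‖κ‖ + C) / ε * ‖u‖ := by
      refine (hdx u).trans ?_
      rw [div_le_iff₀ (by positivity)]
      have h7 : 4 * (‖κ‖ + C) / ε * ‖u‖ * ε ^ 2 = 2 * (2 * ε) * ((‖κ‖ + C) * ‖u‖) := by
        field_simp
        ring
      rw [h7]
      refine mul_le_mul (by linarith) hA1 (norm_nonneg _) (by linarith)
    have h8 := abs_nonneg (dx u)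
    nlinarith [abs_nonneg ν]
  have hlast : |ν * dx u| * ‖v1 - v0‖ ≤ 32 * C * (‖κ‖ + C) * ε / b ^ 2 * ‖u‖ := by
    have h9 : ‖v1 - v0‖ ≤ 2 * C * (2 * ε / b) ^ 2 := by
      refine hvv.trans ?_
      refine mul_le_mul_of_nonneg_left (pow_le_pow_left₀ hz0 hz 2) (by linarith)
    refine (mul_le_mul hd h9 (norm_nonneg _) (by positivity)).trans_eq ?_
    field_simp
    ring
  have hzz : C * ‖z‖ ≤ C * (2 * ε / b) := mul_le_mul_of_nonneg_left hz hC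
  have hs := S.s3
  rw [e]
  calc ‖(1 - c) • (A0 u - κ * u) + c • (A1 u - κ * u) + (ν * dx u) • (v1 - v0)‖
      ≤ ‖(1 - c) • (A0 u - κ * u)‖ + ‖c • (A1 u - κ * u)‖ + ‖(ν * dx u) • (v1 - v0)‖ :=
        (norm_add_le _ _).trans (add_le_add_left (norm_add_le _ _) _)
    _ = (1 - c) * ‖A0 u - κ * u‖ + c * ‖A1 u - κ * u‖ + |ν * dx u| * ‖v1 - v0‖ := by
        rw [norm_smul, norm_smul, norm_smul, Real.norm_eq_abs, Real.norm_eq_abs, Real.norm_eq_abs,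
          abs_of_nonneg (by linarith : (0 : ℝ) ≤ 1 - c), abs_of_nonneg hc0]
    _ ≤ (1 - c) * (C * ‖z‖ * ‖u‖) + c * (C * ‖z‖ * ‖u‖) +
          32 * C * (‖κ‖ + C) * ε / b ^ 2 * ‖u‖ := by
        refine add_le_add (add_le_add ?_ ?_) hlast
        · exact mul_le_mul_of_nonneg_left (h0 u) (by linarith)
        · exact mul_le_mul_of_nonneg_left (h1 u) hc0
    _ = (C * ‖z‖ + 32 * C * (‖κ‖ + C) * ε / b ^ 2) * ‖u‖ := by ring
    _ ≤ (‖κ‖ / 4) * ‖u‖ := mul_le_mul_of_nonneg_right (by linarith) hu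
    _ = 1 / 4 * ‖κ‖ * ‖u‖ := by ring

theorem gl_det (P : Pre m F a κ C b f0 f1) (S : Sml κ C b ε) (hχ : Step χ 1 4 1) {z : ℂ}
    (hz : z ∈ D) : 0 < (fderivWithin ℝ (gl χ ε f0 f1) D z).det := by
  rcases eq_or_ne z 0 with rfl | hz0
  · exact R5_zero P S hχ
  have hm : (1 : WithTop ℕ∞) ≤ (m : WithTop ℕ∞) := by exact_mod_cast P.hm
  have hm0 : (m : WithTop ℕ∞) ≠ 0 := by
    intro h
    rw [h] at hm
    exact absurd hm (by simp)
  rcases lt_or_ge (2 * ε) ‖f1 z‖ with hbig | hsmall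
  · have hev : gl χ ε f0 f1 =ᶠ[nhdsWithin z D] f1 := by
      have hc : ContinuousWithinAt (fun w => ‖f1 w‖) D z := (P.sm1 z hz hz0).continuousWithinAt.norm
      filter_upwards [hc.eventually (lt_mem_nhds hbig)] with w hw
      exact R5_big S.s0 hχ (le_of_lt hw)
    rw [hev.fderivWithin_eq (hev.self_of_nhdsWithin hz)]
    exact P.d1 z hz hz0
  · have hε := S.s0
    have hzb : ‖z‖ ≤ 2 * ε / b := by
      rw [le_div_iff₀ P.hb]
      have := P.lb z hz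
      linarith
    have hA0 : HasFDerivWithinAt f0 (fderivWithin ℝ f0 D z) D z :=
      ((P.sm0 z hz).differentiableWithinAt hm0).hasFDerivWithinAt
    have hA1 : HasFDerivWithinAt f1 (fderivWithin ℝ f1 D z) D z :=
      ((P.sm1 z hz hz0).differentiableWithinAt hm0).hasFDerivWithinAt
    have hX := (hA1.norm_sq).const_mul (1 / ε ^ 2)
    have hχd : HasDerivAt χ (deriv χ (1 / ε ^ 2 * ‖f1 z‖ ^ 2)) (1 / ε ^ 2 * ‖f1 z‖ ^ 2) :=
      ((hχ.smooth 1).differentiable (by norm_num)).differentiableAt.hasDerivAt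
    have hc := hχd.comp_hasFDerivWithinAt z hX
    have hc1 := hc.const_sub 1
    have hG := (hc1.smul hA0).add (hc.smul hA1)
    have hEq : gl χ ε f0 f1 = fun w =>
        (1 - (χ ∘ fun y => 1 / ε ^ 2 * ‖f1 y‖ ^ 2) w) • f0 w +
          (χ ∘ fun y => 1 / ε ^ 2 * ‖f1 y‖ ^ 2) w • f1 w := by
      funext w
      have h1 : ‖f1 w‖ ^ 2 / ε ^ 2 = 1 / ε ^ 2 * ‖f1 w‖ ^ 2 := by ring
      simp only [gl, Function.comp_apply, Complex.real_smul, h1]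
    have hfd := HasFDerivWithinAt.fderivWithin (hG.congr_of_eventuallyEq
      (Filter.Eventually.of_forall fun w => congrFun hEq w) (congrFun hEq z)) (unique_D z hz)
    rw [hfd]
    refine det_pos_of_near _ κ P.hκ fun u => ?_
    have hres := R5_bnd (c := χ (1 / ε ^ 2 * ‖f1 z‖ ^ 2))
      (ν := deriv χ (1 / ε ^ 2 * ‖f1 z‖ ^ 2)) (A0 := fderivWithin ℝ f0 D z)
      (A1 := fderivWithin ℝ f1 D z)
      (dx := (1 / ε ^ 2) • (2 • (innerSL ℝ (f1 z)).comp (fderivWithin ℝ f1 D z)))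
      (v0 := f0 z) (v1 := f1 z) (z := z) P.hC P.hb S (hχ.nonneg _) (hχ.le_one _) (hχ.slope _) hzb
      (P.e0.exp1 z hz hz0) (P.e1.exp1 z hz hz0) (P.e0.exp0 z hz) (P.e1.exp0 z hz) hsmall ?_ u
    · simpa using hres
    · intro u
      have h1 : ((1 / ε ^ 2) • (2 • (innerSL ℝ (f1 z)).comp (fderivWithin ℝ f1 D z))) u =
          2 * (inner ℝ (f1 z) (fderivWithin ℝ f1 D z u)) / ε ^ 2 := by
        simp
        ring
      rw [h1, abs_div, abs_mul, abs_two, abs_of_pos (by positivity : (0 : ℝ) < ε ^ 2)]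
      refine div_le_div_of_nonneg_right ?_ (by positivity)
      have := abs_real_inner_le_norm (f1 z) (fderivWithin ℝ f1 D z u)
      nlinarith

end Pool.Agent.H24.PG
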