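import Pool.Agent.H24.PG.Bij
import Pool.Agent.H24.PG.Inv
import Pool.Agent.H24.PG.EeL
import Pool.Agent.H24.PG.Lin

/-!
# Module R6 (about 120 lines): a local diffeomorphism of the disc is a diffeomorphism

PROOF. `bij_open` with `U = V = ball 0 1`, `v0 = 0`: derivatives: in the interior `fderivWithin = fderiv`, `ContDiffAt.hasStrictFDerivAt`
(`1 ≤ m`), `exists_equiv`; compactness: for `K` compact in the ball, `ball ∩ h ⁻¹' K = D ∩ h ⁻¹' K` (`eq`), closed in the compact `D`.
So `h` is a bijection of the open ball. `h '' D` is compact and contains the ball, so it contains `D = closure (ball)`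
(`closure_ball`); a preimage of a point of the circle is on the circle (`lt`). Injective on `D`: two points with equal images are
both in the ball or both on the circle (`hinj`). Inverse `g = Function.invFunOn h D`; continuous on `D` (`D` compact, `h` continuous
bijective: `continuousOn_iff_isClosed` with `h '' (A ∩ D)` compact, see `InvPair.continuousOn_right` in `Pool.Agent.H44.PF.InvReg`); smooth by
`inv_smooth`.
-/

open Set

namespace Pool.Agent.H24.PG

theorem disc_diffeo {m : ℕ} (hm : 1 ≤ m) {h : ℂ → ℂ} (hs : ContDiffOn ℝ m h D)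
    (hd : ∀ z ∈ D, 0 < (fderivWithin ℝ h D z).det) (lt : ∀ z : ℂ, ‖z‖ < 1 → ‖h z‖ < 1)
    (eq : ∀ z : ℂ, ‖z‖ = 1 → ‖h z‖ = 1) (hz : ∀ z ∈ D, h z = 0 ↔ z = 0)
    (hinj : InjOn h {z : ℂ | ‖z‖ = 1}) :
    ∃ g : ℂ → ℂ, ContDiffOn ℝ m g D ∧ MapsTo h D D ∧ MapsTo g D D ∧ (∀ z ∈ D, g (h z) = z) ∧
      ∀ z ∈ D, h (g z) = z := by
  have hD : ∀ z : ℂ, z ∈ D ↔ ‖z‖ ≤ 1 := fun z => by simp [D]
  have hB : ∀ z : ℂ, z ∈ Metric.ball (0 : ℂ) 1 ↔ ‖z‖ < 1 := fun z => by simp
  have hc : ContinuousOn h D := hs.continuousOn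
  have hDc : IsCompact D := isCompact_closedBall 0 1
  have hBD : Metric.ball (0 : ℂ) 1 ⊆ D := Metric.ball_subset_closedBall
  have hm' : (m : WithTop ℕ∞) ≠ 0 := by
    have : m ≠ 0 := by omega
    exact_mod_cast this
  have B : BijOn h (Metric.ball (0 : ℂ) 1) (Metric.ball (0 : ℂ) 1) := by
    refine bij_open Metric.isOpen_ball Metric.isOpen_ball
      (convex_ball (0 : ℂ) 1).isPreconnected (hc.mono hBD)
      (fun z hz => (hB _).2 (lt z ((hB z).1 hz))) (fun x hx => ?_) (fun K hK hKc => ?_)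
      (v0 := 0) (by simp) ⟨0, ⟨by simp, (hz 0 (by simp)).2 rfl⟩, fun y hy =>
        (hz y (hBD hy.1)).1 hy.2⟩
    · have hn : D ∈ nhds x := Filter.mem_of_superset (Metric.isOpen_ball.mem_nhds hx) hBD
      have h1 : ContDiffAt ℝ m h x := hs.contDiffAt hn
      have h2 := h1.hasStrictFDerivAt hm'
      have h3 : fderivWithin ℝ h D x = fderiv ℝ h x := fderivWithin_of_mem_nhds hn
      have h4 := hd x (hBD hx)
      rw [h3] at h4
      obtain ⟨A, hA⟩ := exists_equiv _ h4.ne'
      exact ⟨A, by rw [hA]; exact h2⟩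
    · have h1 : Metric.ball (0 : ℂ) 1 ∩ h ⁻¹' K = D ∩ h ⁻¹' K := by
        ext z
        constructor
        · exact fun hz => ⟨hBD hz.1, hz.2⟩
        · rintro ⟨h2, h3⟩
          refine ⟨?_, h3⟩
          have h4 := (hB _).1 (hK h3)
          have h5 := (hD z).1 h2
          rcases h5.lt_or_eq with h6 | h6
          · exact (hB z).2 h6
          · rw [eq z h6] at h4
            exact absurd h4 (lt_irrefl _)
      rw [h1]
      exact hDc.of_isClosed_subset
        (hc.preimage_isClosed_of_isClosed hDc.isClosed hKc.isClosed) inter_subset_left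
  have hmf : MapsTo h D D := by
    intro z hz
    rcases ((hD z).1 hz).lt_or_eq with h6 | h6
    · exact (hD _).2 (lt z h6).le
    · exact (hD _).2 (eq z h6).le
  have hsurj : SurjOn h D D := by
    have h1 : Metric.ball (0 : ℂ) 1 ⊆ h '' D := B.surjOn.trans (image_mono hBD)
    have h2 : IsClosed (h '' D) := (hDc.image_of_continuousOn hc).isClosed
    have h3 := h2.closure_subset_iff.2 h1
    rwa [closure_ball (0 : ℂ) one_ne_zero] at h3
  have hinjD : InjOn h D := by
    intro x hx y hy hxy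
    rcases ((hD x).1 hx).lt_or_eq with h6 | h6
    · rcases ((hD y).1 hy).lt_or_eq with h7 | h7
      · exact B.injOn ((hB x).2 h6) ((hB y).2 h7) hxy
      · have h8 := lt x h6
        rw [hxy, eq y h7] at h8
        exact absurd h8 (lt_irrefl _)
    · rcases ((hD y).1 hy).lt_or_eq with h7 | h7
      · have h8 := lt y h7
        rw [← hxy, eq x h6] at h8
        exact absurd h8 (lt_irrefl _)
      · exact hinj h6 h7 hxy
  have hmg : MapsTo (Function.invFunOn h D) D D := by
    intro z hz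
    obtain ⟨x, hx, hxz⟩ := hsurj hz
    exact Function.invFunOn_mem ⟨x, hx, hxz⟩
  have hfg : ∀ z ∈ D, h (Function.invFunOn h D z) = z := by
    intro z hz
    obtain ⟨x, hx, hxz⟩ := hsurj hz
    exact Function.invFunOn_eq ⟨x, hx, hxz⟩
  have hgf : ∀ z ∈ D, Function.invFunOn h D (h z) = z := by
    intro z hz
    exact hinjD (hmg (hmf hz)) hz (hfg _ (hmf hz))
  have hcg : ContinuousOn (Function.invFunOn h D) D :=
    Pool.H44.PF.InvPair.continuousOn_right (f := h) ⟨hmf, hmg, hgf, hfg⟩ hc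
  refine ⟨Function.invFunOn h D, ?_, hmf, hmg, hgf, hfg⟩
  refine (inv_smooth (convex_closedBall (0 : ℂ) 1) ?_ hm hs hmf hmg hgf hfg hcg
    fun x hx => (hd x hx).ne').1
  rw [interior_D]
  exact ⟨0, by simp⟩

end Pool.Agent.H24.PG
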