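import Pool.Agent.H24.PG.Lin
import Pool.Agent.H24.PG.EeL

/-!
# Module W0 (about 100 lines): `F` and its inverse preserve the boundary of the disc; `‖F z - z‖ ≤ η ‖z‖`

PROOF. `near_F`: `z ↦ F z - z` has derivative (within `D`) of norm at most `η` and vanishes at `0`
(`Convex.norm_image_sub_le_of_norm_fderivWithin_le`). `near_Fi`: `y = Fi z ∈ D`, `‖Fi z - z‖ = ‖y - F y‖ ≤ η ‖y‖` and
`‖y‖ ≤ ‖z‖ + η ‖y‖`, so `‖y‖ ≤ 2 ‖z‖`.
`lt_F`: let `‖z‖ < 1`. `F` is `C^1` near `z` with invertible derivative (`det = 1`), so `F` maps neighbourhoods of `z` onto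
neighbourhoods of `F z` (`HasStrictFDerivAt.map_nhds_eq_of_equiv`), and `F` maps `D` into `D`, so `F z ∈ interior D`.
(`ContDiffAt.hasStrictFDerivAt`; `fderivWithin = fderiv` in the interior.)
`lt_Fi`: the same for `Fi`; its derivative at `z` is invertible: differentiate `F (Fi z) = z` (all within `D`), or: if
`‖z‖ < 1` and `‖Fi z‖ = 1`, use that `Fi` has a derivative at `z` with `DF (Fi z) ∘ DFi z = id`, so `det DFi z ≠ 0`.
The converse implications follow from `z = Fi (F z)`, `z = F (Fi z)`.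
-/

open Set

namespace Pool.Agent.H24.PG

variable {m Q : ℕ} {η : ℝ} {F Fi : ℂ → ℂ}

private theorem W0_m (h : DiscMap m Q η F Fi) : ((m : ℕ) : WithTop ℕ∞) ≠ 0 := by
  have := h.hm
  exact_mod_cast (by omega : m ≠ 0)

theorem near_F (h : DiscMap m Q η F Fi) {z : ℂ} (hz : z ∈ D) : ‖F z - z‖ ≤ η * ‖z‖ := by
  have hd : DifferentiableOn ℝ F D := h.smooth.differentiableOn (W0_m h)
  have hd2 : DifferentiableOn ℝ (fun z => F z - z) D := hd.sub differentiableOn_id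
  have hb : ∀ x ∈ D, ‖fderivWithin ℝ (fun z => F z - z) D x‖ ≤ η := by
    intro x hx
    have e : fderivWithin ℝ (fun z => F z - z) D x
        = fderivWithin ℝ F D x - ContinuousLinearMap.id ℝ ℂ :=
      ((hd x hx).hasFDerivWithinAt.sub (hasFDerivWithinAt_id x D)).fderivWithin (unique_D x hx)
    rw [e]
    exact h.near x hx
  have h0 : (0 : ℂ) ∈ D := by simp
  have := (convex_closedBall (0 : ℂ) 1).norm_image_sub_le_of_norm_fderivWithin_le hd2 hb h0 hz
  simpa [h.zero] using this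

theorem near_Fi (h : DiscMap m Q η F Fi) {z : ℂ} (hz : z ∈ D) : ‖Fi z - z‖ ≤ 2 * η * ‖z‖ := by
  have hy : Fi z ∈ D := h.mapsi hz
  have h1 := near_F h hy
  rw [h.ri z hz] at h1
  have h2 : ‖Fi z - z‖ ≤ η * ‖Fi z‖ := by
    rw [norm_sub_rev]
    exact h1
  have h3 : ‖Fi z‖ ≤ ‖z‖ + ‖Fi z - z‖ := by
    have := norm_add_le z (Fi z - z)
    rwa [add_sub_cancel] at this
  have h0 := h.η0
  have h4 := h.η1
  have h5 : ‖Fi z‖ ≤ 2 * ‖z‖ := by
    nlinarith [norm_nonneg (Fi z), norm_nonneg z]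
  calc ‖Fi z - z‖ ≤ η * ‖Fi z‖ := h2
    _ ≤ η * (2 * ‖z‖) := mul_le_mul_of_nonneg_left h5 h0
    _ = 2 * η * ‖z‖ := by ring

/-- a map of the disc which is a local diffeomorphism at an interior point maps it to an interior
point -/
private theorem W0_open {G : ℂ → ℂ} (hG : ContDiffOn ℝ m G D) (hm : ((m : ℕ) : WithTop ℕ∞) ≠ 0)
    (hmaps : MapsTo G D D) {z : ℂ} (hz : ‖z‖ < 1) (hdet : (fderivWithin ℝ G D z).det ≠ 0) :
    ‖G z‖ < 1 := by
  have hzD : D ∈ nhds z := by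
    rw [← mem_interior_iff_mem_nhds, interior_D]
    simpa using hz
  have hc : ContDiffAt ℝ m G z := hG.contDiffAt hzD
  rw [fderivWithin_of_mem_nhds hzD] at hdet
  obtain ⟨B, hB⟩ := exists_equiv _ hdet
  have hs : HasStrictFDerivAt G (B : ℂ →L[ℝ] ℂ) z := by
    rw [hB]
    exact hc.hasStrictFDerivAt hm
  have hmap := hs.map_nhds_eq_of_equiv
  have h1 : D ∈ nhds (G z) := by
    rw [← hmap]
    exact Filter.mem_map.2 (Filter.mem_of_superset hzD hmaps)
  rw [← mem_interior_iff_mem_nhds, interior_D] at h1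
  simpa using h1

private theorem W0_F (h : DiscMap m Q η F Fi) {z : ℂ} (hz : ‖z‖ < 1) : ‖F z‖ < 1 := by
  have hzD : z ∈ D := by simpa using hz.le
  refine W0_open h.smooth (W0_m h) h.maps hz ?_
  rw [h.det z hzD]
  exact one_ne_zero

private theorem W0_Fi (h : DiscMap m Q η F Fi) {z : ℂ} (hz : ‖z‖ < 1) : ‖Fi z‖ < 1 := by
  have hzD : z ∈ D := by simpa using hz.le
  refine W0_open h.smoothi (W0_m h) h.mapsi hz ?_
  have hFi : HasFDerivWithinAt Fi (fderivWithin ℝ Fi D z) D z :=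
    (h.smoothi.differentiableOn (W0_m h) z hzD).hasFDerivWithinAt
  have hF : HasFDerivWithinAt F (fderivWithin ℝ F D (Fi z)) D (Fi z) :=
    (h.smooth.differentiableOn (W0_m h) (Fi z) (h.mapsi hzD)).hasFDerivWithinAt
  have hcomp := hF.comp z hFi h.mapsi
  have hid : HasFDerivWithinAt (F ∘ Fi) (ContinuousLinearMap.id ℝ ℂ) D z :=
    (hasFDerivWithinAt_id z D).congr (fun x hx => h.ri x hx) (h.ri z hzD)
  have he := (unique_D z hzD).eq hcomp hid
  have hd := det_comp (fderivWithin ℝ F D (Fi z)) (fderivWithin ℝ Fi D z)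
  rw [he, h.det _ (h.mapsi hzD), one_mul] at hd
  rw [← hd]
  have : (ContinuousLinearMap.id ℝ ℂ).det = 1 := LinearMap.det_id
  rw [this]
  exact one_ne_zero

theorem lt_F (h : DiscMap m Q η F Fi) {z : ℂ} (hz : z ∈ D) : ‖F z‖ < 1 ↔ ‖z‖ < 1 := by
  refine ⟨fun h1 => ?_, W0_F h⟩
  have := W0_Fi h h1
  rwa [h.li z hz] at this

theorem lt_Fi (h : DiscMap m Q η F Fi) {z : ℂ} (hz : z ∈ D) : ‖Fi z‖ < 1 ↔ ‖z‖ < 1 := by
  refine ⟨fun h1 => ?_, W0_Fi h⟩
  have := W0_F h h1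
  rwa [h.ri z hz] at this

end Pool.Agent.H24.PG
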