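import Pool.Agent.H24.PG.EeL

/-!
# Module W1 (about 130 lines): the lift of a near-identity map

`F z = z + O (κ z)`, so `F z / z` is in the ball of radius `κ ≤ 1/100` about `1` and its logarithm is small.

PROOF. Let `z = ee ζ ≠ 0`, `x = F z / z`, `‖x - 1‖ ≤ κ`, `x ≠ 0`. `lw_spec`: `ee (lw F ζ) = exp (log x) = x`. `lw_norm`: `log_bound`
with `y = 1` gives `‖log x‖ ≤ 2 κ` and `2 κ / (2 π) ≤ κ`. `lw_per`: `ee (ζ + 1) = ee ζ`. `lw_maps`: `‖ee (ζ + w)‖ = ‖F z‖ ≤ 1` and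
`norm_ee`. `lw_real`: `‖ee (ζ + w)‖ = 1` gives `(ζ + w).im = 0` (`norm_ee_eq`).
`lift_inv`: `ee (Ft (lw G) (Ft (lw F) ζ)) = G (F (ee ζ)) = ee ζ`, so the difference of the arguments is an integer (`ee_eq_iff`) of
absolute value at most `2/100 < 1`, so it is `0`.
-/

open Set

namespace Pool.Agent.H24.PG

variable {F G : ℂ → ℂ} {κ : ℝ}

theorem w1_aux (hF : ∀ z ∈ D, ‖F z - z‖ ≤ κ * ‖z‖) {ζ : ℂ} (hζ : ζ ∈ HH) :
    ‖F (ee ζ) / ee ζ - 1‖ ≤ κ := by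
  have h0 := ee_ne ζ
  have h1 := hF _ (ee_mem hζ)
  have h2 : F (ee ζ) / ee ζ - 1 = (F (ee ζ) - ee ζ) / ee ζ := by
    field_simp
  rw [h2, norm_div, div_le_iff₀ (norm_pos_iff.2 h0)]
  exact h1

theorem w1_ne (hF : ∀ z ∈ D, ‖F z - z‖ ≤ κ * ‖z‖) (hκ : κ ≤ 1 / 100) {ζ : ℂ} (hζ : ζ ∈ HH) :
    F (ee ζ) / ee ζ ≠ 0 := by
  intro h
  have h1 := w1_aux hF hζ
  rw [h, zero_sub, norm_neg, norm_one] at h1
  linarith

theorem lw_spec (hF : ∀ z ∈ D, ‖F z - z‖ ≤ κ * ‖z‖) (hκ : κ ≤ 1 / 100) {ζ : ℂ} (hζ : ζ ∈ HH) :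
    ee (Ft (lw F) ζ) = F (ee ζ) := by
  unfold Ft lw
  rw [ee_add, ee_log (w1_ne hF hκ hζ), mul_div_cancel₀ _ (ee_ne ζ)]

theorem lw_norm (hF : ∀ z ∈ D, ‖F z - z‖ ≤ κ * ‖z‖) (hκ : κ ≤ 1 / 100) {ζ : ℂ} (hζ : ζ ∈ HH) :
    ‖lw F ζ‖ ≤ κ := by
  have h1 := w1_aux hF hζ
  have hκ0 : 0 ≤ κ := (norm_nonneg _).trans h1
  have h2 := log_bound (x := F (ee ζ) / ee ζ) (y := 1) (by linarith) (by simp)
  rw [Complex.log_one, sub_zero] at h2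
  have h3 : ‖(2 * Real.pi * Complex.I : ℂ)‖ = 2 * Real.pi := by
    rw [norm_mul, norm_mul, Complex.norm_I, mul_one, Complex.norm_real, Complex.norm_ofNat,
      Real.norm_eq_abs, abs_of_pos Real.pi_pos]
  have hpi := Real.pi_gt_three
  unfold lw
  rw [norm_div, h3, div_le_iff₀ (by positivity)]
  nlinarith

theorem lw_per (ζ : ℂ) : lw F (ζ + 1) = lw F ζ := by
  have h1 : ee (ζ + 1) = ee ζ := by
    have h2 := ee_int 1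
    rw [Int.cast_one] at h2
    rw [ee_add, h2, mul_one]
  unfold lw
  rw [h1]

theorem lw_maps (hF : ∀ z ∈ D, ‖F z - z‖ ≤ κ * ‖z‖) (hκ : κ ≤ 1 / 100) (hm : MapsTo F D D) {ζ : ℂ}
    (hζ : ζ ∈ HH) : Ft (lw F) ζ ∈ HH := by
  have h1 : ‖ee (Ft (lw F) ζ)‖ ≤ 1 := by
    rw [lw_spec hF hκ hζ]
    have h2 := hm (ee_mem hζ)
    rwa [mem_closedBall_zero_iff] at h2
  rw [norm_ee, Real.exp_le_one_iff] at h1
  have hpi := Real.pi_pos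
  change 0 ≤ (Ft (lw F) ζ).im
  by_contra hneg
  rw [not_le] at hneg
  nlinarith

theorem lw_real (hF : ∀ z ∈ D, ‖F z - z‖ ≤ κ * ‖z‖) (hκ : κ ≤ 1 / 100)
    (hb : ∀ z : ℂ, ‖z‖ = 1 → ‖F z‖ = 1) {ζ : ℂ} (hζ : ζ.im = 0) : (lw F ζ).im = 0 := by
  have hζ' : ζ ∈ HH := le_of_eq hζ.symm
  have h1 : ‖ee (Ft (lw F) ζ)‖ = 1 := by
    rw [lw_spec hF hκ hζ']
    exact hb _ (norm_ee_eq.2 hζ)
  have h2 := norm_ee_eq.1 h1
  unfold Ft at h2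
  rw [Complex.add_im, hζ, zero_add] at h2
  exact h2

theorem lift_inv (hF : ∀ z ∈ D, ‖F z - z‖ ≤ κ * ‖z‖) (hG : ∀ z ∈ D, ‖G z - z‖ ≤ κ * ‖z‖)
    (hκ : κ ≤ 1 / 100) (hm : MapsTo F D D) (hi : ∀ z ∈ D, G (F z) = z) {ζ : ℂ} (hζ : ζ ∈ HH) :
    Ft (lw G) (Ft (lw F) ζ) = ζ := by
  have hζ' := lw_maps hF hκ hm hζ
  have h1 : ee (Ft (lw G) (Ft (lw F) ζ)) = ee ζ := by
    rw [lw_spec hG hκ hζ', lw_spec hF hκ hζ, hi _ (ee_mem hζ)]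
  obtain ⟨n, hn⟩ := (ee_eq_iff _ _).1 h1
  have h2 : (n : ℂ) = lw F ζ + lw G (Ft (lw F) ζ) := by
    have h3 : Ft (lw G) (Ft (lw F) ζ) = ζ + lw F ζ + lw G (Ft (lw F) ζ) := rfl
    rw [h3] at hn
    linear_combination -hn
  have h3 : ‖(n : ℂ)‖ < 1 := by
    rw [h2]
    refine (norm_add_le _ _).trans_lt ?_
    have h4 := lw_norm hF hκ hζ
    have h5 := lw_norm hG hκ hζ'
    linarith
  have h4 : n = 0 := by
    rw [Complex.norm_intCast] at h3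
    have h5 : |n| < 1 := by exact_mod_cast h3
    exact Int.abs_lt_one_iff.1 h5
  rw [hn, h4, Int.cast_zero, add_zero]

end Pool.Agent.H24.PG
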