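import Pool.Agent.H24.PG.S1
import Pool.Agent.H24.PG.W1
import Pool.Agent.H24.PG.W0

/-!
# Module S2 (about 130 lines): the generating function decreases along the field `i w`

PROOF. `σ ζ = S (ee ζ)`, `σ' ζ = L (ee ζ) ∘ D ee ζ` (chain rule within, `ee_mem`, `hasFDerivAt_ee`). Bounded: `S` is continuous on the
compact `D`. `dec`: let `z = ee ζ`, `w = lw F ζ`, `‖w‖ ≤ η ≤ 1/1000` (`lw_norm`, `near_F`), `z' = 2 π I z (I w) = - 2 π z w`,
`v = F z - z = z (exp (2 π I w) - 1)` (`lw_spec`). `‖exp (2 π I w) - 1 - 2 π I w‖ ≤ (2 π ‖w‖) ^ 2` (`Complex.norm_exp_sub_one_sub_id_le`).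
So `om v z' = ‖z‖ ^ 2 * om (exp (2 π I w) - 1) (- 2 π w) ≥ ‖z‖ ^ 2 (4 π ^ 2 ‖w‖ ^ 2 - (2 π ‖w‖) ^ 3) ≥ 30 ‖z‖ ^ 2 ‖w‖ ^ 2`, since
`om (2 π I w) (- 2 π w) = 4 π ^ 2 ‖w‖ ^ 2`, `om (z a) (z b) = ‖z‖ ^ 2 om a b`. And
`L z z' = - om v z' - om v ((DF - id) z') / 2`, where the last term is at most `η ‖v‖ ‖z'‖ / 2 ≤ η * 4 π ^ 2 ‖z‖ ^ 2 ‖w‖ ^ 2` (`‖v‖ ≤ 4 π ‖z‖ ‖w‖`),
at most `‖z‖ ^ 2 ‖w‖ ^ 2`. So `L z z' ≤ - ‖z‖ ^ 2 ‖w‖ ^ 2` and `‖z‖ ^ 2 = exp (- 4 π ζ.im)`.
-/

open Set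

namespace Pool.Agent.H24.PG

variable {m Q : ℕ} {η : ℝ} {F Fi : ℂ → ℂ}

private theorem s2_om_mul (z a b : ℂ) : om (z * a) (z * b) = ‖z‖ ^ 2 * om a b := by
  rw [Complex.sq_norm, Complex.normSq_apply]
  unfold om
  simp only [Complex.mul_re, Complex.mul_im]
  ring

private theorem s2_om_add_left (a b c : ℂ) : om (a + b) c = om a c + om b c := by
  unfold om
  simp only [Complex.add_re, Complex.add_im]
  ring

private theorem s2_om_add_right (a b c : ℂ) : om a (b + c) = om a b + om a c := by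
  unfold om
  simp only [Complex.add_re, Complex.add_im]
  ring

private theorem s2_om_diag (w : ℂ) :
    om (2 * Real.pi * Complex.I * w) (-(2 * Real.pi * w)) = (2 * Real.pi * ‖w‖) ^ 2 := by
  have e1 : (2 * Real.pi * Complex.I * w).re = -(2 * Real.pi * w.im) := by
    have : 2 * Real.pi * Complex.I * w = ((2 * Real.pi : ℝ) : ℂ) * (Complex.I * w) := by
      push_cast; ring
    rw [this, Complex.re_ofReal_mul, Complex.I_mul_re]
    ring
  have e2 : (2 * Real.pi * Complex.I * w).im = 2 * Real.pi * w.re := by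
    have : 2 * Real.pi * Complex.I * w = ((2 * Real.pi : ℝ) : ℂ) * (Complex.I * w) := by
      push_cast; ring
    rw [this, Complex.im_ofReal_mul, Complex.I_mul_im]
  have e3 : (-(2 * Real.pi * w)).re = -(2 * Real.pi * w.re) := by
    have : -(2 * Real.pi * w) = -(((2 * Real.pi : ℝ) : ℂ) * w) := by
      push_cast; ring
    rw [this, Complex.neg_re, Complex.re_ofReal_mul]
  have e4 : (-(2 * Real.pi * w)).im = -(2 * Real.pi * w.im) := by
    have : -(2 * Real.pi * w) = -(((2 * Real.pi : ℝ) : ℂ) * w) := by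
      push_cast; ring
    rw [this, Complex.neg_im, Complex.im_ofReal_mul]
  unfold om
  rw [e1, e2, e3, e4, mul_pow, Complex.sq_norm, Complex.normSq_apply]
  ring

theorem lya_of_disc (h : DiscMap m Q η F Fi) : ∃ (σ : ℂ → ℝ) (σ' : ℂ → ℂ →L[ℝ] ℝ),
    Lya (lw F) σ σ' := by
  obtain ⟨S, L, hS, hL⟩ := exists_S h
  choose A hA hA' using hasFDerivAt_ee
  have hF : ∀ z ∈ D, ‖F z - z‖ ≤ η * ‖z‖ := fun z hz => near_F h hz
  have hη : η ≤ 1 / 100 := h.η1.trans (by norm_num)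
  refine ⟨fun ζ => S (ee ζ), fun ζ => (L (ee ζ)).comp (A ζ), ?_, ?_, ?_⟩
  · have hc : ContinuousOn S D := fun z hz => (hS z hz).continuousWithinAt
    obtain ⟨B, hB⟩ := (isCompact_closedBall (0 : ℂ) 1).exists_bound_of_continuousOn hc
    exact ⟨B, fun ζ hζ => hB _ (ee_mem hζ)⟩
  · intro ζ hζ
    exact (hS _ (ee_mem hζ)).comp ζ (hA ζ).hasFDerivWithinAt fun x hx => ee_mem hx
  · intro ζ hζ
    set w := lw F ζ with hw
    set z := ee ζ with hz
    have hzD : z ∈ D := ee_mem hζ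
    have hwn : ‖w‖ ≤ 1 / 1000 := (lw_norm hF hη hζ).trans h.η1
    set n := ‖w‖ with hn
    have hn0 : 0 ≤ n := norm_nonneg _
    have hZ0 : 0 ≤ ‖z‖ := norm_nonneg _
    have hπ1 := Real.pi_gt_three
    have hπ2 := Real.pi_lt_d2
    have ht0 : 0 ≤ 2 * Real.pi * n := by positivity
    have ht1 : 2 * Real.pi * n ≤ 7 / 1000 := by nlinarith
    have ht2 : 6 * n ≤ 2 * Real.pi * n := by nlinarith
    -- the two vectors
    have e0 : A ζ (Complex.I * w) = z * (-(2 * Real.pi * w)) := by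
      rw [hA']
      linear_combination (2 * Real.pi * z * w) * Complex.I_mul_I
    set q := Complex.exp (2 * Real.pi * Complex.I * w) - 1 - 2 * Real.pi * Complex.I * w with hq
    have hxn : ‖2 * Real.pi * Complex.I * w‖ = 2 * Real.pi * n := by
      rw [norm_mul, norm_mul, norm_mul, Complex.norm_I, Complex.norm_real, Complex.norm_ofNat,
        Real.norm_of_nonneg Real.pi_pos.le, mul_one]
    have hqn : ‖q‖ ≤ (2 * Real.pi * n) ^ 2 := by
      rw [← hxn]
      exact Complex.norm_exp_sub_one_sub_id_le (by rw [hxn]; linarith)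
    have ev : F z - z = z * (2 * Real.pi * Complex.I * w + q) := by
      have e1 := lw_spec hF hη hζ
      have e2 : ee (Ft (lw F) ζ) = z * Complex.exp (2 * Real.pi * Complex.I * w) := by
        unfold Ft
        rw [ee_add]
        rfl
      rw [e2] at e1
      rw [← e1, hq]
      ring
    set z' := z * (-(2 * Real.pi * w)) with hz'
    have hyn : ‖-(2 * Real.pi * w)‖ = 2 * Real.pi * n := by
      rw [norm_neg, norm_mul, norm_mul, Complex.norm_real, Complex.norm_ofNat,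
        Real.norm_of_nonneg Real.pi_pos.le]
    have hz'n : ‖z'‖ = ‖z‖ * (2 * Real.pi * n) := by rw [hz', norm_mul, hyn]
    have hvn : ‖F z - z‖ ≤ ‖z‖ * (2 * (2 * Real.pi * n)) := by
      rw [ev, norm_mul]
      refine mul_le_mul_of_nonneg_left ?_ hZ0
      refine (norm_add_le _ _).trans ?_
      rw [hxn]
      nlinarith
    have h1 : om (F z - z) z' ≥ ‖z‖ ^ 2 * ((2 * Real.pi * n) ^ 2 - (2 * Real.pi * n) ^ 3) := by
      rw [ev, hz', s2_om_mul, s2_om_add_left, s2_om_diag]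
      refine mul_le_mul_of_nonneg_left ?_ (sq_nonneg _)
      have h2 := abs_om_le q (-(2 * Real.pi * w))
      rw [hyn] at h2
      have h3 := neg_abs_le (om q (-(2 * Real.pi * w)))
      have h4 : ‖q‖ * (2 * Real.pi * n) ≤ (2 * Real.pi * n) ^ 2 * (2 * Real.pi * n) :=
        mul_le_mul_of_nonneg_right hqn ht0
      nlinarith
    have h2 : |om (F z - z) (fderivWithin ℝ F D z z' - z')| ≤
        ‖z‖ ^ 2 * (2 * (2 * Real.pi * n)) * (1 / 1000 * (2 * Real.pi * n)) := by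
      refine (abs_om_le _ _).trans ?_
      have h3 : ‖fderivWithin ℝ F D z z' - z'‖ ≤ 1 / 1000 * (‖z‖ * (2 * Real.pi * n)) := by
        have h4 : fderivWithin ℝ F D z z' - z' =
            (fderivWithin ℝ F D z - ContinuousLinearMap.id ℝ ℂ) z' := rfl
        rw [h4, ← hz'n]
        refine ((fderivWithin ℝ F D z - ContinuousLinearMap.id ℝ ℂ).le_opNorm z').trans ?_
        exact mul_le_mul_of_nonneg_right ((h.near z hzD).trans h.η1) (norm_nonneg _)
      calc ‖F z - z‖ * ‖fderivWithin ℝ F D z z' - z'‖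
          ≤ (‖z‖ * (2 * (2 * Real.pi * n))) * (1 / 1000 * (‖z‖ * (2 * Real.pi * n))) :=
            mul_le_mul hvn h3 (norm_nonneg _) (by positivity)
        _ = _ := by ring
    have e3 : (L (ee ζ)).comp (A ζ) (Complex.I * w) = -om (F z - z) z' -
        om (F z - z) (fderivWithin ℝ F D z z' - z') / 2 := by
      have e4 : (L (ee ζ)).comp (A ζ) (Complex.I * w) = L z z' := by
        rw [ContinuousLinearMap.comp_apply, e0]
      rw [e4, hL z hzD]
      have e5 : z' + fderivWithin ℝ F D z z' = z' + (z' + (fderivWithin ℝ F D z z' - z')) := by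
        ring
      rw [e5, s2_om_add_right, s2_om_add_right]
      ring
    have e6 : Real.exp (-(4 * Real.pi * ζ.im)) = ‖z‖ ^ 2 := by
      rw [hz, norm_ee, ← Real.exp_nat_mul]
      congr 1
      push_cast
      ring
    have h5 := (abs_le.1 h2).1
    rw [e3, e6]
    set t := 2 * Real.pi * n with ht
    have h6 : n ^ 2 ≤ t ^ 2 - t ^ 3 - t * (1 / 1000 * t) := by
      have h7 : t ^ 3 ≤ 7 / 1000 * t ^ 2 := by nlinarith [sq_nonneg t]
      nlinarith [mul_nonneg hn0 hn0]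
    have h8 : ‖z‖ ^ 2 * n ^ 2 ≤ ‖z‖ ^ 2 * (t ^ 2 - t ^ 3 - t * (1 / 1000 * t)) :=
      mul_le_mul_of_nonneg_left h6 (sq_nonneg _)
    nlinarith

end Pool.Agent.H24.PG
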