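import Pool.Agent.H24.PG.W5
import Pool.Agent.H24.PG.S2
import Pool.Agent.H24.PG.O3
import Pool.Agent.H24.PG.A2
import Pool.Agent.H24.PG.Q3
import Pool.Agent.H24.PG.R2
import Pool.Agent.H24.PG.R3
import Pool.Agent.H24.PG.R5
import Pool.Agent.H24.PG.R6

/-!
# Theorem G: a periodic area preserving map of the disc near the identity is conjugate to a rotation
-/

open Set

namespace Pool.Agent.H24.PG

variable {m Q : ℕ} {η : ℝ} {F Fi : ℂ → ℂ}

theorem norm_ee_real (x : ℝ) : ‖ee (x : ℂ)‖ = 1 := norm_ee_eq.2 (by simp)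

theorem ee_one_div (Q : ℕ) : ee (1 / Q) = ee ((1 / (Q : ℝ) : ℝ) : ℂ) := by
  push_cast
  rfl

theorem Step.mono {χ : ℝ → ℝ} {a b K K' : ℝ} (h : Step χ a b K) (hK : K ≤ K') : Step χ a b K' :=
  ⟨h.smooth, h.zero, h.one, h.nonneg, h.le_one, h.Kpos.trans_le hK, fun x => (h.slope x).trans hK⟩

theorem thmG (hF : DiscMap m Q η F Fi) : ∃ h g : ℂ → ℂ, ContDiffOn ℝ m h D ∧ ContDiffOn ℝ m g D ∧
    MapsTo h D D ∧ MapsTo g D D ∧ (∀ z ∈ D, g (h z) = z) ∧ (∀ z ∈ D, h (g z) = z) ∧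
    (∀ z ∈ D, 0 < (fderivWithin ℝ h D z).det) ∧ ∀ z ∈ D, h (F z) = ee (1 / Q) * h z := by
  have hm1 : 1 ≤ m := by have := hF.hm; omega
  have hQ1 : 1 ≤ Q := by have := hF.hQ; omega
  have hS := strip_of_disc hF
  obtain ⟨σ, σ', hl⟩ := lya_of_disc hF
  obtain ⟨del, s0, c, ha⟩ := exists_arc hS hl
  obtain ⟨χ, hχ0⟩ := exists_step (1 / 3) (2 / 3) (by norm_num)
  have hχ : Step χ (1 / 3) (2 / 3) 6 := hχ0.mono (by norm_num)
  have hP := phi_ok hS ha hχ (by have := hF.η1; have := hF.η0; nlinarith)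
  obtain ⟨Ψ, hΨ, hinj⟩ := exists_psi hP hm1 hQ1 hS.maps
  obtain ⟨C1, hC1⟩ := h1_exp hF hΨ
  obtain ⟨C0, hC0⟩ := h0_exp hF (ee (-c))
  obtain ⟨b, hb, hlb⟩ := h1_low hΨ
  obtain ⟨χ2, hχ20⟩ := exists_step 1 4 (by norm_num)
  have hχ2 : Step χ2 1 4 1 := hχ20.mono (by norm_num)
  have hP : Pre m F (ee (1 / Q)) (ee (-c)) (max (max C0 C1) 0) b (h0 Q F (ee (-c))) (h1 Ψ) := by
    refine ⟨hm1, ?_, ee_ne _, le_max_right _ _, hb, ?_, ?_, h0_smooth hF _,
      fun z hz h0 => h1_smooth hΨ hz h0, hlb, fun u => h0_der hF _ u,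
      fun z hz h0 => h1_det hΨ hm1 hz h0, fun z hz => h1_lt hΨ hz, fun z hz => h1_eq hΨ hz⟩
    · rw [ee_one_div]; exact norm_ee_real _
    · refine ⟨hC0.equiv, fun z hz => (hC0.exp0 z hz).trans ?_, fun z hz h0 u =>
        (hC0.exp1 z hz h0 u).trans ?_⟩
      · exact mul_le_mul_of_nonneg_right ((le_max_left _ _).trans (le_max_left _ _)) (by positivity)
      · exact mul_le_mul_of_nonneg_right (mul_le_mul_of_nonneg_right
          ((le_max_left _ _).trans (le_max_left _ _)) (by positivity)) (by positivity)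
    · refine ⟨hC1.equiv, fun z hz => (hC1.exp0 z hz).trans ?_, fun z hz h0 u =>
        (hC1.exp1 z hz h0 u).trans ?_⟩
      · exact mul_le_mul_of_nonneg_right ((le_max_right _ _).trans (le_max_left _ _)) (by positivity)
      · exact mul_le_mul_of_nonneg_right (mul_le_mul_of_nonneg_right
          ((le_max_right _ _).trans (le_max_left _ _)) (by positivity)) (by positivity)
  obtain ⟨ε, hε⟩ := exists_sml (ee_ne (-c)) hb (max (max C0 C1) 0)
  set h := gl χ2 ε (h0 Q F (ee (-c))) (h1 Ψ) with hh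
  have hsm : ContDiffOn ℝ m h D := gl_smooth hP hε hχ2
  have hdet : ∀ z ∈ D, 0 < (fderivWithin ℝ h D z).det := fun z hz => gl_det hP hε hχ2 hz
  have hlt : ∀ z : ℂ, ‖z‖ < 1 → ‖h z‖ < 1 := fun z hz => gl_lt hP hε hχ2 hz
  have heqf : ∀ z : ℂ, ‖z‖ = 1 → h z = h1 Ψ z := fun z hz => gl_eq hP hε hχ2 hz
  have heq : ∀ z : ℂ, ‖z‖ = 1 → ‖h z‖ = 1 := fun z hz => by
    rw [heqf z hz]; exact h1_eq hΨ hz
  have hinj1 : InjOn h {z : ℂ | ‖z‖ = 1} := by
    intro x hx y hy hxy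
    rw [heqf x hx, heqf y hy] at hxy
    have hxD : x ∈ D := by simp only [Metric.mem_closedBall, dist_zero_right]; exact le_of_eq hx
    have hyD : y ∈ D := by simp only [Metric.mem_closedBall, dist_zero_right]; exact le_of_eq hy
    exact h1_inj hΨ hinj hxD hyD hxy
  obtain ⟨g, hg1, hg2, hg3, hg4, hg5⟩ := disc_diffeo hm1 hsm hdet hlt heq
    (fun z hz => gl_zero hP hε hχ2 hz) hinj1
  exact ⟨h, g, hsm, hg1, hg2, hg3, hg4, hg5, hdet, fun z hz => gl_equiv hP hz⟩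

end Pool.Agent.H24.PG
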