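import Pool.Agent.H24.PG.EeL

/-!
# Module O1 (about 90 lines): solutions of autonomous differential equations

PROOF. `ode_exists`: Picard Lindelof of Mathlib (`IsPicardLindelof` with `f := fun _ => v`, time interval `Icc 0 T`, initial time `0`, ball of
radius `a = T + 1`, `r = 0`, `L = 1`, `K`; `IsPicardLindelof.exists_eq_forall_mem_Icc_hasDerivWithinAt₀`; see
`Mathlib/Analysis/ODE/PicardLindelof.lean`, in particular the constructors for time independent fields).
`barrier`: the first claim is `image_le_of_deriv_right_lt_deriv_boundary` for the functions `- y` and the constant `- a` (the right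
derivative within `Ici t` comes from the derivative within `Icc s T` for `t < T`). Second claim: if `s < t` and `y t = a` then `y' t > 0`,
so `y < a` at some points of `Icc s T` immediately left of `t`, which contradicts the first claim.
`ode_smooth`: by induction on `k ≤ m` `y` is `C^k` on `Ici 0`: `derivWithin y (Ici 0) = v ∘ y` on `Ici 0`, which is `C^k` by
composition, so `y` is `C^(k+1)` (`contDiffOn_succ_iff_derivWithin`, `uniqueDiffOn_Ici`). Start: `k = 0`, continuity.
-/

open Set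

namespace Pool.Agent.H24.PG

theorem ode_exists {v : ℂ → ℂ} {K : NNReal} (hv : LipschitzWith K v) (hb : ∀ z, ‖v z‖ ≤ 1) (x0 : ℂ)
    {T : ℝ} (hT : 0 ≤ T) : ∃ y : ℝ → ℂ, y 0 = x0 ∧
      ∀ t ∈ Icc 0 T, HasDerivWithinAt y (v (y t)) (Icc 0 T) t := by
  have h0 : (0 : ℝ) ∈ Icc 0 T := ⟨le_rfl, hT⟩
  have hpl : IsPicardLindelof (fun _ : ℝ => v) (tmin := 0) (tmax := T) ⟨0, h0⟩ x0
      (⟨T + 1, by linarith⟩ : NNReal) 0 1 K := by
    refine IsPicardLindelof.of_time_independent (fun x _ => ?_) hv.lipschitzOnWith ?_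
    · rw [NNReal.coe_one]
      exact hb x
    · show ((1 : NNReal) : ℝ) * max (T - 0) (0 - 0) ≤ (T + 1) - ((0 : NNReal) : ℝ)
      rw [NNReal.coe_one, NNReal.coe_zero, sub_zero, sub_zero, max_eq_left hT]
      linarith
  obtain ⟨y, hy0, hy⟩ := hpl.exists_eq_forall_mem_Icc_hasDerivWithinAt₀
  exact ⟨y, hy0, hy⟩

theorem barrier {y y' : ℝ → ℝ} {s T a : ℝ}
    (hd : ∀ t ∈ Icc s T, HasDerivWithinAt y (y' t) (Icc s T) t) (h0 : a ≤ y s)
    (hb : ∀ t ∈ Icc s T, y t = a → 0 < y' t) :
    ∀ t ∈ Icc s T, a ≤ y t ∧ (s < t → a < y t) := by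
  have h1 : ∀ t ∈ Icc s T, a ≤ y t := by
    intro t ht
    have h2 := image_le_of_deriv_right_lt_deriv_boundary (f := fun t => -y t) (f' := fun t => -y' t)
      (a := s) (b := T) (B := fun _ => -a) (B' := fun _ => 0)
      (fun u hu => ((hd u hu).neg).continuousWithinAt)
      (fun u hu => (((hd u ⟨hu.1, hu.2.le⟩).neg).mono_of_mem_nhdsWithin
        (Icc_mem_nhdsGE_of_mem hu)))
      (by simpa using h0) (fun u => hasDerivAt_const u (-a))
      (fun u hu hua => by
        have h3 : y u = a := neg_injective hua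
        have h4 := hb u ⟨hu.1, hu.2.le⟩ h3
        show -y' u < 0
        linarith)
    have h3 : -y t ≤ -a := h2 ht
    linarith
  intro t ht
  refine ⟨h1 t ht, fun hst => lt_of_le_of_ne (h1 t ht) fun hne => ?_⟩
  have h2 := hb t ht hne.symm
  have h3 : HasDerivWithinAt y (y' t) (Iio t) t :=
    (hd t ht).mono_of_mem_nhdsWithin
      (Filter.mem_of_superset (Ioo_mem_nhdsLT hst) fun u hu => ⟨hu.1.le, hu.2.le.trans ht.2⟩)
  have h4 := (hasDerivWithinAt_iff_tendsto_slope' (notMem_Iio.2 le_rfl)).1 h3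
  have h5 : y' t ≤ 0 := by
    refine le_of_tendsto h4 ?_
    filter_upwards [Ioo_mem_nhdsLT hst] with u hu
    rw [slope_def_field]
    refine div_nonpos_of_nonneg_of_nonpos ?_ (by linarith [hu.2])
    rw [← hne]
    linarith [h1 u ⟨hu.1.le, hu.2.le.trans ht.2⟩]
  linarith

theorem ode_smooth {v : ℂ → ℂ} {y : ℝ → ℂ} {m : ℕ} (hv : ContDiffOn ℝ m v HH)
    (hy : ∀ t : ℝ, 0 ≤ t → y t ∈ HH ∧ HasDerivWithinAt y (v (y t)) (Ici 0) t) :
    ContDiffOn ℝ m y (Ici 0) := by
  have key : ∀ k : ℕ, k ≤ m → ContDiffOn ℝ k y (Ici 0) := by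
    intro k
    induction k with
    | zero =>
      intro _
      rw [Nat.cast_zero, contDiffOn_zero]
      exact fun t ht => (hy t ht).2.continuousWithinAt
    | succ k ih =>
      intro hk
      have h1 : ContDiffOn ℝ (((k : ℕ) : WithTop ℕ∞) + 1) y (Ici 0) := by
        rw [contDiffOn_succ_iff_derivWithin (uniqueDiffOn_Ici 0)]
        refine ⟨fun t ht => (hy t ht).2.differentiableWithinAt, fun h => by simp at h, ?_⟩
        have h2 : ContDiffOn ℝ k (v ∘ y) (Ici 0) :=
          (hv.of_le (by exact_mod_cast (Nat.le_of_succ_le hk))).comp (ih (Nat.le_of_succ_le hk))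
            (fun t ht => (hy t ht).1)
        exact h2.congr fun t ht => (hy t ht).2.derivWithin (uniqueDiffOn_Ici 0 t ht)
      exact_mod_cast h1
  exact key m le_rfl

end Pool.Agent.H24.PG
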