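import Pool.Agent.H24.PG.Main
import Pool.Agent.H25.PR.Defs

/-!
# Theorem G in the notation of the parts of MP_3addf4
-/

open Complex Set Metric Topology Filter

namespace Pool.Agent.H24.PG

open Pool.Agent.H25.PR

theorem G (m : ℕ) (hm : 2 ≤ m) (Q : ℕ) (hQ : 2 ≤ Q) (F F' : ℂ → ℂ) (hF : APair m F F')
    (h0 : F 0 = 0) (hD : ∀ v : ℂ, fderivWithin ℝ F Dsk 0 v = e (1 / Q) * v)
    (hper : ∀ z ∈ Dsk, F^[Q] z = z)
    (hcl : ∀ z ∈ Dsk, ‖fderivWithin ℝ F Dsk z - ContinuousLinearMap.id ℝ ℂ‖ ≤ 1 / 1000) :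
    ∃ h h' : ℂ → ℂ, DPair m h h' ∧ (∀ z ∈ Dsk, 0 < (fderivWithin ℝ h Dsk z).det) ∧
      ∀ z ∈ Dsk, h (F z) = e (1 / Q) * h z := by
  have hee : e (1 / Q) = ee (1 / Q) := by
    simp only [e, ee]
    congr 1
    push_cast
    ring
  have hDM : DiscMap m Q (1 / 1000) F F' := by
    refine ⟨hm, hQ, by norm_num, le_rfl, ?_, ?_, hF.maps, hF.maps', hF.left, hF.right, h0, hF.area,
      hcl, ?_, hper⟩
    · exact_mod_cast hF.smooth
    · exact_mod_cast hF.smooth'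
    · intro u
      rw [← hee]
      exact hD u
  obtain ⟨h, g, h1, h2, h3, h4, h5, h6, h7, h8⟩ := thmG hDM
  refine ⟨h, g, ⟨h3, h4, h5, h6, ?_, ?_⟩, h7, ?_⟩
  · exact_mod_cast h1
  · exact_mod_cast h2
  · intro z hz
    rw [hee]
    exact h8 z hz

end Pool.Agent.H24.PG
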