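import Pool.Agent.H24.PG.StL

/-!
# Module P1 (about 140 lines): the map `EE (t + i s) = del s + t w (del s)`

PROOF. Let `s = ξ.im ≥ 0`, `t = ξ.re`, `w0 = w (del s)`, `d = derivWithin del (Ici 0) s`. `del s ∈ HH` (`a.im0`, `a.impos`).
`EE_mem`, `EE_pos`: `(EE ξ).im = (del s).im + t * w0.im ≥ (1 - 2 e1) (del s).im` (`w_im`). `EE_smooth`: composition (`a.smooth`, `h.smooth`;
`ξ ↦ ξ.im` maps `HH` into `Ici 0`). `EE_deriv`: chain and product rule within `HH`: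
`D EE u = u.re * w0 + u.im * (d + t * (fderivWithin ℝ w HH (del s)) d)`, and `w0 * u = u.re * w0 + u.im * (I * w0)`; the difference is
`u.im * ((d - I w0) + t Dw d)` and `‖d - I w0‖ ≤ ‖w0‖/20`, `‖d‖ ≤ 21/20 ‖w0‖`, `|t| ≤ 2`, `‖Dw‖ ≤ e1`. `EE_form` is this formula.
-/

open Set

namespace Pool.Agent.H24.PG

variable {m Q : ℕ} {e1 s0 : ℝ} {w g : ℂ → ℂ} {del : ℝ → ℂ} {c : ℂ}

theorem del_mem (a : Arc m Q w del s0 c) {s : ℝ} (hs : 0 ≤ s) : del s ∈ HH := by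
  change 0 ≤ (del s).im
  rcases hs.eq_or_lt with h | h
  · rw [← h, a.im0]
  · exact (a.impos s h).le

private theorem p1_im (ξ : ℂ) :
    (EE w del ξ).im = (del ξ.im).im + ξ.re * (w (del ξ.im)).im := by
  simp [EE]

private theorem p1_bd (h : Strip m Q e1 w g) (a : Arc m Q w del s0 c) {ξ : ℂ} (hξ : ξ ∈ HH)
    (ht : |ξ.re| ≤ 2) : (del ξ.im).im / 2 ≤ (EE w del ξ).im := by
  have hd : 0 ≤ (del ξ.im).im := del_mem a hξ
  have h1 := w_im h (del_mem a hξ)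
  have h2 : |ξ.re * (w (del ξ.im)).im| ≤ 2 * (e1 * (del ξ.im).im) := by
    rw [abs_mul]
    exact mul_le_mul ht h1 (abs_nonneg _) (by norm_num)
  have h3 := (abs_le.mp h2).1
  have h4 : e1 * (del ξ.im).im ≤ 1 / 100 * (del ξ.im).im :=
    mul_le_mul_of_nonneg_right h.e2 hd
  rw [p1_im]
  linarith

theorem EE_mem (h : Strip m Q e1 w g) (a : Arc m Q w del s0 c) {ξ : ℂ} (hξ : ξ ∈ HH)
    (ht : |ξ.re| ≤ 2) : EE w del ξ ∈ HH := by
  change 0 ≤ (EE w del ξ).im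
  have hd : 0 ≤ (del ξ.im).im := del_mem a hξ
  have h1 := p1_bd h a hξ ht
  linarith

theorem EE_real (h : Strip m Q e1 w g) (a : Arc m Q w del s0 c) {ξ : ℂ} (hξ : ξ.im = 0) :
    (EE w del ξ).im = 0 := by
  rw [p1_im, hξ, a.im0, h.real _ a.im0]
  ring

theorem EE_pos (h : Strip m Q e1 w g) (a : Arc m Q w del s0 c) {ξ : ℂ} (hξ : 0 < ξ.im)
    (ht : |ξ.re| ≤ 2) : 0 < (EE w del ξ).im := by
  have hd : 0 < (del ξ.im).im := a.impos _ hξ
  have hξ' : ξ ∈ HH := hξ.le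
  have h1 := p1_bd h a hξ' ht
  linarith

theorem EE_smooth (h : Strip m Q e1 w g) (a : Arc m Q w del s0 c) :
    ContDiffOn ℝ m (EE w del) HH := by
  have h1 : ContDiffOn ℝ m (fun ξ : ℂ => del ξ.im) HH :=
    a.smooth.comp Complex.imCLM.contDiff.contDiffOn (fun ξ hξ => hξ)
  have h2 : ContDiffOn ℝ m (fun ξ : ℂ => w (del ξ.im)) HH :=
    h.smooth.comp h1 (fun ξ hξ => del_mem a hξ)
  have h3 : ContDiffOn ℝ m (fun ξ : ℂ => (ξ.re : ℂ)) HH :=
    (Complex.ofRealCLM.contDiff.comp Complex.reCLM.contDiff).contDiffOn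
  exact h1.add (h3.mul h2)

theorem EE_form (h : Strip m Q e1 w g) (a : Arc m Q w del s0 c) {ξ : ℂ} (hξ : ξ ∈ HH) (u : ℂ) :
    fderivWithin ℝ (EE w del) HH ξ u = u.re * w (del ξ.im) +
      u.im * (derivWithin del (Ici 0) ξ.im +
        ξ.re * fderivWithin ℝ w HH (del ξ.im) (derivWithin del (Ici 0) ξ.im)) := by
  have hm1 : ((m : ℕ∞) : WithTop ℕ∞) ≠ 0 := by
    have := h.hm
    exact_mod_cast (by omega : m ≠ 0)
  have hdel : DifferentiableWithinAt ℝ del (Ici 0) ξ.im :=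
    (a.smooth.differentiableOn hm1) ξ.im hξ
  have hw : DifferentiableWithinAt ℝ w HH (del ξ.im) :=
    (h.smooth.differentiableOn hm1) _ (del_mem a hξ)
  set d := derivWithin del (Ici 0) ξ.im with hd
  set W := fderivWithin ℝ w HH (del ξ.im) with hW
  have e1 : HasFDerivWithinAt del (ContinuousLinearMap.toSpanSingleton ℝ d) (Ici 0) ξ.im :=
    hdel.hasDerivWithinAt.hasFDerivWithinAt
  have e2 : HasFDerivWithinAt (fun ξ : ℂ => del ξ.im)
      ((ContinuousLinearMap.toSpanSingleton ℝ d).comp Complex.imCLM) HH ξ :=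
    e1.comp ξ Complex.imCLM.hasFDerivAt.hasFDerivWithinAt (fun ξ hξ => hξ)
  have e3 : HasFDerivWithinAt (fun ξ : ℂ => w (del ξ.im))
      (W.comp ((ContinuousLinearMap.toSpanSingleton ℝ d).comp Complex.imCLM)) HH ξ :=
    HasFDerivWithinAt.comp (g := w) (f := fun ξ : ℂ => del ξ.im) ξ hw.hasFDerivWithinAt e2
      (fun ξ hξ => del_mem a hξ)
  have e4 : HasFDerivWithinAt (fun ξ : ℂ => (ξ.re : ℂ))
      (Complex.ofRealCLM.comp Complex.reCLM) HH ξ :=
    (Complex.ofRealCLM.comp Complex.reCLM).hasFDerivAt.hasFDerivWithinAt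
  have e5 := e2.add (e4.mul e3)
  have e6 : HasFDerivWithinAt (EE w del) _ HH ξ := e5
  rw [e6.fderivWithin (unique_HH ξ hξ)]
  have hWl : W ((u.im : ℂ) * d) = u.im * W d := by
    rw [← Complex.real_smul, map_smul, Complex.real_smul]
  simp only [add_apply, ContinuousLinearMap.comp_apply, smul_apply,
    ContinuousLinearMap.toSpanSingleton_apply, Complex.imCLM_apply, Complex.reCLM_apply,
    Complex.ofRealCLM_apply, smul_eq_mul, Complex.real_smul, hWl]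
  ring

theorem EE_deriv (h : Strip m Q e1 w g) (a : Arc m Q w del s0 c) {ξ : ℂ} (hξ : ξ ∈ HH)
    (ht : |ξ.re| ≤ 2) (u : ℂ) : ‖fderivWithin ℝ (EE w del) HH ξ u - w (del ξ.im) * u‖ ≤
      (1 / 20 + 3 * e1) * ‖w (del ξ.im)‖ * ‖u‖ := by
  rw [EE_form h a hξ]
  have hder := a.der ξ.im hξ
  have hds := h.dsmall _ (del_mem a hξ)
  set d := derivWithin del (Ici 0) ξ.im with hd
  set W := fderivWithin ℝ w HH (del ξ.im) with hW
  set w0 := w (del ξ.im) with hw0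
  have e0 : (u.re : ℂ) * w0 + u.im * (d + ξ.re * W d) - w0 * u =
      u.im * ((d - Complex.I * w0) + ξ.re * W d) := by
    conv_lhs => rw [← Complex.re_add_im u]
    simp only [Complex.add_re, Complex.add_im, Complex.ofReal_re, Complex.ofReal_im,
      Complex.mul_re, Complex.mul_im, Complex.I_re, Complex.I_im, mul_zero, mul_one, sub_zero,
      add_zero, zero_add]
    ring
  rw [e0, norm_mul, Complex.norm_real, Real.norm_eq_abs]
  have hn : ‖d‖ ≤ 21 / 20 * ‖w0‖ := by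
    have h1 : d = (d - Complex.I * w0) + Complex.I * w0 := by ring
    have h2 : ‖Complex.I * w0‖ = ‖w0‖ := by rw [norm_mul, Complex.norm_I, one_mul]
    calc ‖d‖ ≤ ‖d - Complex.I * w0‖ + ‖Complex.I * w0‖ := by
          conv_lhs => rw [h1]
          exact norm_add_le _ _
      _ ≤ 21 / 20 * ‖w0‖ := by rw [h2]; linarith
  have hWd : ‖W d‖ ≤ e1 * (21 / 20 * ‖w0‖) :=
    (W.le_opNorm d).trans (mul_le_mul hds hn (norm_nonneg _) h.e0)
  have h3 : ‖(ξ.re : ℂ) * W d‖ ≤ 2 * (e1 * (21 / 20 * ‖w0‖)) := by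
    rw [norm_mul, Complex.norm_real, Real.norm_eq_abs]
    exact mul_le_mul ht hWd (norm_nonneg _) (by norm_num)
  have h4 : ‖(d - Complex.I * w0) + ξ.re * W d‖ ≤ (1 / 20 + 3 * e1) * ‖w0‖ := by
    refine (norm_add_le _ _).trans ?_
    have h5 : 0 ≤ e1 * ‖w0‖ := mul_nonneg h.e0 (norm_nonneg _)
    linarith
  have h6 : 0 ≤ (1 / 20 + 3 * e1) * ‖w0‖ :=
    mul_nonneg (by linarith [h.e0]) (norm_nonneg _)
  calc |u.im| * ‖(d - Complex.I * w0) + ξ.re * W d‖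
      ≤ ‖u‖ * ((1 / 20 + 3 * e1) * ‖w0‖) :=
        mul_le_mul (Complex.abs_im_le_norm u) h4 (norm_nonneg _) (norm_nonneg _)
    _ = _ := by ring

end Pool.Agent.H24.PG
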