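import Pool.Agent.H24.PG.P1

/-!
# Module P2 (about 180 lines): the map `Phi0`

PROOF. Let `t = ξ.re`, `-1 < t < 2`, `s = ξ.im`, `w0 = w (del s)`, `A = EE ξ`, `B ξ = Ft w (EE (ξ - 1))`. `Phi0 = (1 - χ t) A + χ t B`.
`Phi0_mem`, `Phi0_real`, `Phi0_pos`: both `A` and `B` have the property (`|t| ≤ 2`, `|t - 1| ≤ 2`, `EE_mem`, `h.maps`, `EE_pos`, `Ft_pos`, ..) and
`Phi0` is a convex combination. `Phi0_diff`: `ξ ↦ EE (ξ - 1)` is `C^m` within `HH` at `ξ` and has values in `HH` for points of `HH` near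
`ξ`; composition with `Ft_smooth` (`ContDiffWithinAt.comp_of_mem_nhdsWithin_image` or restrict to `HH ∩ {-1 < re < 2}`, an intersection
with an open set, `contDiffWithinAt_inter`). `Phi0_form`: product rule, where
`DB u = fderivWithin ℝ (fun x => Ft w (EE w del (x - 1))) HH ξ u`; `B_form`: chain rule, `Ft_near`, `fderivWithin_shift` with `r = -1`.
`Phi0_deriv`: `‖DA u - w0 u‖ ≤ (1/20 + 3 e1) ‖w0‖ ‖u‖` (`EE_deriv`); `DB u = v + Dw v`, `v = D EE (ξ - 1) u`,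
`‖v - w0 u‖ ≤ (1/20 + 3 e1) ‖w0‖ ‖u‖`, `‖v‖ ≤ 2 ‖w0‖ ‖u‖`, so `‖DB u - w0 u‖ ≤ (1/20 + 5 e1) ‖w0‖ ‖u‖`;
`B - A = w (del s + (t - 1) w0) - w (del s)` has norm at most `e1 |t - 1| ‖w0‖ ≤ 2 e1 ‖w0‖` (`w_lip`), `|χ'| ≤ K`. Total:
`(1/20 + 5 e1 + 2 K e1) ‖w0‖ ‖u‖ ≤ (1/20 + 1/10) ‖w0‖ ‖u‖`.
-/

open Set

namespace Pool.Agent.H24.PG

variable {m Q : ℕ} {e1 s0 K : ℝ} {w g : ℂ → ℂ} {del : ℝ → ℂ} {c : ℂ} {χ : ℝ → ℝ}

theorem Phi0_left (hχ : Step χ (1 / 3) (2 / 3) K) {ξ : ℂ} (h1 : ξ.re ≤ 1 / 3) :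
    Phi0 χ w del ξ = EE w del ξ := by
  rw [Phi0, hχ.zero _ h1, sub_zero, Complex.ofReal_one, Complex.ofReal_zero, one_mul, zero_mul,
    add_zero]

theorem Phi0_right (hχ : Step χ (1 / 3) (2 / 3) K) {ξ : ℂ} (h1 : 2 / 3 ≤ ξ.re) :
    Phi0 χ w del ξ = Ft w (EE w del (ξ - 1)) := by
  rw [Phi0, hχ.one _ h1, sub_self, Complex.ofReal_one, Complex.ofReal_zero, one_mul, zero_mul,
    zero_add]

private theorem P2_im (ξ : ℂ) : (Phi0 χ w del ξ).im =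
    (1 - χ ξ.re) * (EE w del ξ).im + χ ξ.re * (Ft w (EE w del (ξ - 1))).im := by
  rw [Phi0, Complex.add_im, Complex.im_ofReal_mul, Complex.im_ofReal_mul]

private theorem P2_abs {t : ℝ} (h1 : -1 < t) (h2 : t < 2) : |t| ≤ 2 :=
  abs_le.2 ⟨by linarith, h2.le⟩

private theorem P2_abs1 {ξ : ℂ} (h1 : -1 < ξ.re) (h2 : ξ.re < 2) : |(ξ - 1).re| ≤ 2 := by
  rw [Complex.sub_re, Complex.one_re]
  exact abs_le.2 ⟨by linarith, by linarith⟩

private theorem P2_im1 (ξ : ℂ) : (ξ - 1).im = ξ.im := by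
  rw [Complex.sub_im, Complex.one_im, sub_zero]

private theorem P2_mem1 {ξ : ℂ} (hξ : ξ ∈ HH) : ξ - 1 ∈ HH := by
  change 0 ≤ (ξ - 1).im
  rw [P2_im1]
  exact hξ

theorem Phi0_pos (h : Strip m Q e1 w g) (a : Arc m Q w del s0 c) (hχ : Step χ (1 / 3) (2 / 3) K)
    {ξ : ℂ} (hξ : 0 < ξ.im) (h1 : -1 < ξ.re) (h2 : ξ.re < 2) : 0 < (Phi0 χ w del ξ).im := by
  have hA : 0 < (EE w del ξ).im := EE_pos h a hξ (P2_abs h1 h2)
  have hB : 0 < (Ft w (EE w del (ξ - 1))).im :=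
    Ft_pos h (EE_pos h a (by rw [P2_im1]; exact hξ) (P2_abs1 h1 h2))
  rw [P2_im]
  have c0 := hχ.nonneg ξ.re
  have c1 := hχ.le_one ξ.re
  rcases eq_or_lt_of_le c0 with h0 | h0
  · rw [← h0]
    linarith
  · exact add_pos_of_nonneg_of_pos (mul_nonneg (by linarith) hA.le) (mul_pos h0 hB)

theorem Phi0_real (h : Strip m Q e1 w g) (a : Arc m Q w del s0 c)
    {ξ : ℂ} (hξ : ξ.im = 0) : (Phi0 χ w del ξ).im = 0 := by
  rw [P2_im, EE_real h a hξ, Ft_real h (EE_real h a (by rw [P2_im1]; exact hξ)), mul_zero,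
    mul_zero, add_zero]

theorem Phi0_mem (h : Strip m Q e1 w g) (a : Arc m Q w del s0 c) (hχ : Step χ (1 / 3) (2 / 3) K)
    {ξ : ℂ} (hξ : ξ ∈ HH) (h1 : -1 < ξ.re) (h2 : ξ.re < 2) : Phi0 χ w del ξ ∈ HH := by
  rcases eq_or_lt_of_le (show 0 ≤ ξ.im from hξ) with h0 | h0
  · exact (Phi0_real h a h0.symm).ge
  · exact (Phi0_pos h a hχ h0 h1 h2).le

private theorem P2_open {ξ : ℂ} (h1 : -1 < ξ.re) (h2 : ξ.re < 2) :
    {x : ℂ | -1 < x.re ∧ x.re < 2} ∈ nhds ξ :=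
  ((isOpen_lt continuous_const Complex.continuous_re).inter
    (isOpen_lt Complex.continuous_re continuous_const)).mem_nhds ⟨h1, h2⟩

private theorem P2_maps (h : Strip m Q e1 w g) (a : Arc m Q w del s0 c) :
    MapsTo (fun x => EE w del (x - 1)) (HH ∩ {x : ℂ | -1 < x.re ∧ x.re < 2}) HH :=
  fun _ hx => EE_mem h a (P2_mem1 hx.1) (P2_abs1 hx.2.1 hx.2.2)

private theorem P2_one (h : Strip m Q e1 w g) : (1 : WithTop ℕ∞) ≤ (m : WithTop ℕ∞) := by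
  have := h.hm
  exact_mod_cast (show 1 ≤ m by omega)

private theorem P2_ne (h : Strip m Q e1 w g) : (m : WithTop ℕ∞) ≠ 0 := by
  have := h.hm
  exact_mod_cast (show m ≠ 0 by omega)

private theorem P2_shift (h : Strip m Q e1 w g) (a : Arc m Q w del s0 c) {ξ : ℂ} (hξ : ξ ∈ HH) :
    ContDiffWithinAt ℝ m (fun x => EE w del (x - 1)) HH ξ :=
  ((EE_smooth h a) (ξ - 1) (P2_mem1 hξ)).comp ξ
    (contDiffWithinAt_id.sub contDiffWithinAt_const) (fun _ hx => P2_mem1 hx)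

theorem B_form (h : Strip m Q e1 w g) (a : Arc m Q w del s0 c) {ξ : ℂ} (hξ : ξ ∈ HH)
    (h1 : -1 < ξ.re) (h2 : ξ.re < 2) (u : ℂ) :
    ContDiffWithinAt ℝ m (fun x => Ft w (EE w del (x - 1))) HH ξ ∧
    fderivWithin ℝ (fun x => Ft w (EE w del (x - 1))) HH ξ u =
      fderivWithin ℝ (EE w del) HH (ξ - 1) u +
        fderivWithin ℝ w HH (EE w del (ξ - 1)) (fderivWithin ℝ (EE w del) HH (ξ - 1) u) := by
  have hm : EE w del (ξ - 1) ∈ HH := P2_maps h a ⟨hξ, h1, h2⟩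
  have hs := P2_shift h a hξ
  have hg := Ft_smooth h (EE w del (ξ - 1)) hm
  constructor
  · have h3 : ContDiffWithinAt ℝ m (fun x => Ft w (EE w del (x - 1)))
        (HH ∩ {x : ℂ | -1 < x.re ∧ x.re < 2}) ξ :=
      ContDiffWithinAt.comp (g := Ft w) ξ hg (hs.mono inter_subset_left) (P2_maps h a)
    exact (contDiffWithinAt_inter (P2_open h1 h2)).1 h3
  · have d1 : HasFDerivWithinAt (Ft w) (fderivWithin ℝ (Ft w) HH (EE w del (ξ - 1))) HH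
        (EE w del (ξ - 1)) := (hg.differentiableWithinAt (P2_ne h)).hasFDerivWithinAt
    have d2 : HasFDerivWithinAt (fun x => EE w del (x - 1))
        (fderivWithin ℝ (fun x => EE w del (x - 1)) HH ξ) HH ξ :=
      (hs.differentiableWithinAt (P2_ne h)).hasFDerivWithinAt
    have d3 := d1.comp ξ (d2.mono inter_subset_left) (P2_maps h a)
    have d4 := ((hasFDerivWithinAt_inter (P2_open h1 h2)).1 d3).fderivWithin (unique_HH ξ hξ)
    have d5 : fderivWithin ℝ (fun x => EE w del (x - 1)) HH ξ =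
        fderivWithin ℝ (EE w del) HH (ξ - 1) := by
      have h5 := fderivWithin_shift (EE w del) (-1) ξ
      simpa only [Complex.ofReal_neg, Complex.ofReal_one, ← sub_eq_add_neg] using h5
    rw [d5] at d4
    have d6 : fderivWithin ℝ (fun x => Ft w (EE w del (x - 1))) HH ξ =
        (fderivWithin ℝ (Ft w) HH (EE w del (ξ - 1))).comp
          (fderivWithin ℝ (EE w del) HH (ξ - 1)) := d4
    rw [d6, ContinuousLinearMap.comp_apply, (Ft_near h hm _).1]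

private theorem P2_chi (hχ : Step χ (1 / 3) (2 / 3) K) (ξ : ℂ) :
    HasFDerivWithinAt (fun x : ℂ => χ x.re) (deriv χ ξ.re • Complex.reCLM) HH ξ := by
  have h1 : HasDerivAt χ (deriv χ ξ.re) ξ.re :=
    ((hχ.smooth 1).differentiable (by simp) ξ.re).hasDerivAt
  exact (h1.comp_hasFDerivAt ξ Complex.reCLM.hasFDerivAt).hasFDerivWithinAt

private theorem P2_eq : Phi0 χ w del = fun x => (1 - χ x.re) • EE w del x +
    χ x.re • Ft w (EE w del (x - 1)) := by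
  funext x
  rw [Phi0, Complex.real_smul, Complex.real_smul]

theorem Phi0_diff (h : Strip m Q e1 w g) (a : Arc m Q w del s0 c) (hχ : Step χ (1 / 3) (2 / 3) K)
    {ξ : ℂ} (hξ : ξ ∈ HH) (h1 : -1 < ξ.re) (h2 : ξ.re < 2) :
    ContDiffWithinAt ℝ m (Phi0 χ w del) HH ξ := by
  have hc : ContDiffWithinAt ℝ m (fun x : ℂ => χ x.re) HH ξ :=
    ((hχ.smooth m).comp Complex.reCLM.contDiff).contDiffWithinAt
  rw [P2_eq]
  exact ((contDiffWithinAt_const.sub hc).smul (EE_smooth h a ξ hξ)).add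
    (hc.smul (B_form h a hξ h1 h2 0).1)

theorem Phi0_form (h : Strip m Q e1 w g) (a : Arc m Q w del s0 c)
    (hχ : Step χ (1 / 3) (2 / 3) K) {ξ : ℂ} (hξ : ξ ∈ HH) (h1 : -1 < ξ.re) (h2 : ξ.re < 2) (u : ℂ) :
    fderivWithin ℝ (Phi0 χ w del) HH ξ u =
      (1 - χ ξ.re : ℝ) * fderivWithin ℝ (EE w del) HH ξ u +
      (χ ξ.re : ℝ) * fderivWithin ℝ (fun x => Ft w (EE w del (x - 1))) HH ξ u +
      (deriv χ ξ.re * u.re : ℝ) * (Ft w (EE w del (ξ - 1)) - EE w del ξ) := by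
  have hc := P2_chi hχ ξ
  have hA : HasFDerivWithinAt (EE w del) (fderivWithin ℝ (EE w del) HH ξ) HH ξ :=
    ((EE_smooth h a ξ hξ).differentiableWithinAt (P2_ne h)).hasFDerivWithinAt
  have hB : HasFDerivWithinAt (fun x => Ft w (EE w del (x - 1)))
      (fderivWithin ℝ (fun x => Ft w (EE w del (x - 1))) HH ξ) HH ξ :=
    ((B_form h a hξ h1 h2 0).1.differentiableWithinAt (P2_ne h)).hasFDerivWithinAt
  have hP := ((hc.const_sub 1).smul hA).add (hc.smul hB)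
  rw [P2_eq]
  refine (congrArg (fun L : ℂ →L[ℝ] ℂ => L u) (hP.fderivWithin (unique_HH ξ hξ))).trans ?_
  simp only [ContinuousLinearMap.add_apply, ContinuousLinearMap.smul_apply,
    ContinuousLinearMap.smulRight_apply, ContinuousLinearMap.neg_apply, Complex.reCLM_apply,
    smul_eq_mul, Complex.real_smul]
  push_cast
  ring

private theorem P2_BA (h : Strip m Q e1 w g) (a : Arc m Q w del s0 c) {ξ : ℂ} (hξ : ξ ∈ HH)
    (h1 : -1 < ξ.re) (h2 : ξ.re < 2) :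
    ‖Ft w (EE w del (ξ - 1)) - EE w del ξ‖ ≤ 2 * e1 * ‖w (del ξ.im)‖ := by
  have hm : EE w del (ξ - 1) ∈ HH := P2_maps h a ⟨hξ, h1, h2⟩
  have hd : del ξ.im ∈ HH := del_mem a hξ
  have e1' : Ft w (EE w del (ξ - 1)) - EE w del ξ = w (EE w del (ξ - 1)) - w (del ξ.im) := by
    have e2 : EE w del ξ = EE w del (ξ - 1) + w (del ξ.im) := by
      rw [EE, EE, P2_im1, Complex.sub_re, Complex.one_re]
      push_cast
      ring
    rw [e2, Ft]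
    ring
  have e3 : EE w del (ξ - 1) - del ξ.im = ((ξ.re - 1 : ℝ) : ℂ) * w (del ξ.im) := by
    rw [EE, P2_im1, Complex.sub_re, Complex.one_re]
    ring
  rw [e1']
  refine (w_lip h hm hd).trans ?_
  rw [e3, norm_mul, Complex.norm_real, Real.norm_eq_abs]
  have h3 : |ξ.re - 1| ≤ 2 := abs_le.2 ⟨by linarith, by linarith⟩
  have h4 : |ξ.re - 1| * ‖w (del ξ.im)‖ ≤ 2 * ‖w (del ξ.im)‖ :=
    mul_le_mul_of_nonneg_right h3 (norm_nonneg _)
  calc e1 * (|ξ.re - 1| * ‖w (del ξ.im)‖) ≤ e1 * (2 * ‖w (del ξ.im)‖) :=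
        mul_le_mul_of_nonneg_left h4 h.e0
    _ = 2 * e1 * ‖w (del ξ.im)‖ := by ring

theorem Phi0_deriv (h : Strip m Q e1 w g) (a : Arc m Q w del s0 c)
    (hχ : Step χ (1 / 3) (2 / 3) K) (hK : (5 + 2 * K) * e1 ≤ 1 / 10) {ξ : ℂ} (hξ : ξ ∈ HH)
    (h1 : -1 < ξ.re) (h2 : ξ.re < 2) (u : ℂ) :
    ‖fderivWithin ℝ (Phi0 χ w del) HH ξ u - w (del ξ.im) * u‖ ≤
      1 / 4 * ‖w (del ξ.im)‖ * ‖u‖ := by
  have hA := EE_deriv h a hξ (P2_abs h1 h2) u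
  have hv := EE_deriv h a (P2_mem1 hξ) (P2_abs1 h1 h2) u
  rw [P2_im1] at hv
  have hBA := P2_BA h a hξ h1 h2
  have hm : EE w del (ξ - 1) ∈ HH := P2_maps h a ⟨hξ, h1, h2⟩
  have hform := Phi0_form h a hχ hξ h1 h2 u
  rw [(B_form h a hξ h1 h2 u).2] at hform
  have hw := (Ft_near h hm (fderivWithin ℝ (EE w del) HH (ξ - 1) u)).2
  set w0 := w (del ξ.im)
  set v := fderivWithin ℝ (EE w del) HH (ξ - 1) u
  set y := fderivWithin ℝ w HH (EE w del (ξ - 1)) v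
  set A := fderivWithin ℝ (EE w del) HH ξ u
  set δ := Ft w (EE w del (ξ - 1)) - EE w del ξ
  have c0 := hχ.nonneg ξ.re
  have c1 := hχ.le_one ξ.re
  have cs := hχ.slope ξ.re
  have hN : 0 ≤ ‖w0‖ * ‖u‖ := mul_nonneg (norm_nonneg _) (norm_nonneg _)
  have hv2 : ‖v‖ ≤ 2 * (‖w0‖ * ‖u‖) := by
    have h3 : ‖v‖ ≤ ‖v - w0 * u‖ + ‖w0 * u‖ := by
      have := norm_add_le (v - w0 * u) (w0 * u)
      rwa [sub_add_cancel] at this
    rw [norm_mul] at h3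
    have h4 : (1 / 20 + 3 * e1) * ‖w0‖ * ‖u‖ ≤ 1 * (‖w0‖ * ‖u‖) := by
      rw [mul_assoc]
      exact mul_le_mul_of_nonneg_right (by linarith [h.e2]) hN
    linarith
  have hy : ‖y‖ ≤ 2 * e1 * (‖w0‖ * ‖u‖) := by
    refine hw.trans ?_
    have := mul_le_mul_of_nonneg_left hv2 h.e0
    linarith
  have hd : ‖((deriv χ ξ.re * u.re : ℝ) : ℂ) * δ‖ ≤ 2 * K * e1 * (‖w0‖ * ‖u‖) := by
    rw [norm_mul, Complex.norm_real, Real.norm_eq_abs, abs_mul]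
    have h3 : |deriv χ ξ.re| * |u.re| ≤ K * ‖u‖ :=
      mul_le_mul cs (Complex.abs_re_le_norm u) (abs_nonneg _) hχ.Kpos.le
    calc |deriv χ ξ.re| * |u.re| * ‖δ‖ ≤ K * ‖u‖ * (2 * e1 * ‖w0‖) :=
          mul_le_mul h3 hBA (norm_nonneg _) (mul_nonneg hχ.Kpos.le (norm_nonneg _))
      _ = 2 * K * e1 * (‖w0‖ * ‖u‖) := by ring
  have hsplit : fderivWithin ℝ (Phi0 χ w del) HH ξ u - w0 * u =
      ((1 - χ ξ.re : ℝ) : ℂ) * (A - w0 * u) + ((χ ξ.re : ℝ) : ℂ) * ((v - w0 * u) + y) +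
        ((deriv χ ξ.re * u.re : ℝ) : ℂ) * δ := by
    rw [hform]
    push_cast
    ring
  rw [hsplit]
  have n1 : ‖((1 - χ ξ.re : ℝ) : ℂ) * (A - w0 * u)‖ ≤
      (1 - χ ξ.re) * ((1 / 20 + 3 * e1) * (‖w0‖ * ‖u‖)) := by
    rw [norm_mul, Complex.norm_real, Real.norm_eq_abs, abs_of_nonneg (by linarith)]
    refine mul_le_mul_of_nonneg_left ?_ (by linarith)
    rw [← mul_assoc]
    exact hA
  have n2 : ‖((χ ξ.re : ℝ) : ℂ) * ((v - w0 * u) + y)‖ ≤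
      χ ξ.re * ((1 / 20 + 5 * e1) * (‖w0‖ * ‖u‖)) := by
    rw [norm_mul, Complex.norm_real, Real.norm_eq_abs, abs_of_nonneg c0]
    refine mul_le_mul_of_nonneg_left ?_ c0
    refine (norm_add_le _ _).trans ?_
    rw [mul_assoc] at hv
    linarith
  have n3 : (1 - χ ξ.re) * ((1 / 20 + 3 * e1) * (‖w0‖ * ‖u‖)) ≤
      (1 - χ ξ.re) * ((1 / 20 + 5 * e1) * (‖w0‖ * ‖u‖)) := by
    refine mul_le_mul_of_nonneg_left ?_ (by linarith)
    exact mul_le_mul_of_nonneg_right (by linarith [h.e0]) hN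
  have n4 : (1 / 20 + 5 * e1 + 2 * K * e1) * (‖w0‖ * ‖u‖) ≤ 1 / 4 * (‖w0‖ * ‖u‖) :=
    mul_le_mul_of_nonneg_right (by linarith) hN
  refine (norm_add₃_le ..).trans ?_
  rw [mul_assoc]
  linarith

end Pool.Agent.H24.PG
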