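import Pool.Agent.H24.PG.Lin
import Pool.Agent.H24.PG.EeL

/-!
# Module Q1 (about 120 lines): `Phi` is a bijection of the real line

PROOF. `p x = (Φ x).re`, `Φ x = p x` for real `x` (`h.bdry`). Let `x` be real, `A = fderivWithin ℝ Φ HH x`. `(A 1).im = 0` and
`(A 1).re = deriv p x`: compose `Φ` with `x ↦ (x : ℂ)`, which maps into `HH`. `(A I).im ≥ 0`: `s ↦ (Φ (x + I s)).im` is `≥ 0` for `s ≥ 0`
and `0` for `s = 0`, and has right derivative `(A I).im` at `0`. `0 < A.det = om (A 1) (A I) = (A 1).re * (A I).im`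
(`det_eq_om`), so `(A 1).re > 0`. So `p` is strictly monotone (`strictMono_of_deriv_pos`): `InjOn`. Surjective: `p` is continuous and
`|p x - (c.re + x/Q)| ≤ C` (`h.asy` on the real line, `exp 0 = 1`), so `p` tends to `± ∞` (`Continuous.surjective`).
-/

open Set

namespace Pool.Agent.H24.PG

variable {m Q : ℕ} {w Φ : ℂ → ℂ} {c : ℂ}

private theorem Q1_mem (x : ℝ) : (x : ℂ) ∈ HH := by
  change 0 ≤ (x : ℂ).im
  rw [Complex.ofReal_im]

private theorem Q1_bdry (h : PhiOK m Q w Φ c) (x : ℝ) : (Φ x).im = 0 :=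
  h.bdry x (Complex.ofReal_im x)

private theorem Q1_fd (h : PhiOK m Q w Φ c) (hm : 1 ≤ m) (x : ℝ) :
    HasFDerivWithinAt Φ (fderivWithin ℝ Φ HH x) HH x := by
  have h1 : DifferentiableOn ℝ Φ HH := h.smooth.differentiableOn (by exact_mod_cast (by omega : m ≠ 0))
  exact (h1 x (Q1_mem x)).hasFDerivWithinAt

private theorem Q1_real (h : PhiOK m Q w Φ c) (hm : 1 ≤ m) (x : ℝ) :
    HasDerivAt (fun y : ℝ => Φ y) (fderivWithin ℝ Φ HH x 1) x := by
  have h2 : HasDerivAt (fun y : ℝ => (y : ℂ)) 1 x := Complex.ofRealCLM.hasDerivAt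
  exact (Q1_fd h hm x).comp_hasDerivAt x h2 (Filter.Eventually.of_forall Q1_mem)

private theorem Q1_re (h : PhiOK m Q w Φ c) (hm : 1 ≤ m) (x : ℝ) :
    HasDerivAt (fun y : ℝ => (Φ y).re) (fderivWithin ℝ Φ HH x 1).re x :=
  Complex.reCLM.hasFDerivAt.comp_hasDerivAt x (Q1_real h hm x)

private theorem Q1_im (h : PhiOK m Q w Φ c) (hm : 1 ≤ m) (x : ℝ) :
    (fderivWithin ℝ Φ HH x 1).im = 0 := by
  have h1 : HasDerivAt (fun y : ℝ => (Φ y).im) (fderivWithin ℝ Φ HH x 1).im x :=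
    Complex.imCLM.hasFDerivAt.comp_hasDerivAt x (Q1_real h hm x)
  have h2 : (fun y : ℝ => (Φ y).im) = fun _ => 0 := funext fun y => Q1_bdry h y
  rw [h2] at h1
  exact h1.unique (hasDerivAt_const x 0)

private theorem Q1_up (h : PhiOK m Q w Φ c) (hm : 1 ≤ m) (x : ℝ) :
    0 ≤ (fderivWithin ℝ Φ HH x Complex.I).im := by
  obtain ⟨f, hf⟩ : ∃ f : ℝ → ℂ, f = fun s : ℝ => (x : ℂ) + s * Complex.I := ⟨_, rfl⟩
  have f0 : f 0 = x := by
    rw [hf]
    simp
  have h1 : HasDerivWithinAt f Complex.I (Ici 0) 0 := by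
    have h2 : HasDerivAt (fun s : ℝ => (s : ℂ)) 1 0 := Complex.ofRealCLM.hasDerivAt
    have h3 := (h2.mul_const Complex.I).const_add (x : ℂ)
    rw [one_mul] at h3
    rw [hf]
    exact h3.hasDerivWithinAt
  have fim : ∀ s : ℝ, (f s).im = s := by
    intro s
    rw [hf]
    simp
  have hmap : MapsTo f (Ici 0) HH := by
    intro s hs
    change 0 ≤ (f s).im
    rw [fim]
    exact hs
  have h4 : HasFDerivWithinAt Φ (fderivWithin ℝ Φ HH x) HH (f 0) := by
    rw [f0]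
    exact Q1_fd h hm x
  have h5 : HasDerivWithinAt (Φ ∘ f) (fderivWithin ℝ Φ HH x Complex.I) (Ici 0) 0 :=
    h4.comp_hasDerivWithinAt 0 h1 hmap
  have h6 : HasDerivWithinAt (fun s => (Φ (f s)).im) (fderivWithin ℝ Φ HH x Complex.I).im (Ici 0) 0 :=
    Complex.imCLM.hasFDerivAt.comp_hasDerivWithinAt 0 h5
  have h7 := h6.Ioi_of_Ici
  rw [hasDerivWithinAt_iff_tendsto_slope' self_notMem_Ioi] at h7
  refine ge_of_tendsto h7 ?_
  filter_upwards [self_mem_nhdsWithin] with s hs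
  have hs' : (0 : ℝ) < s := hs
  rw [slope_def_field]
  have e0 : (Φ (f 0)).im = 0 := by
    rw [f0]
    exact Q1_bdry h x
  have e1 : 0 ≤ (Φ (f s)).im := h.maps _ (hmap hs'.le)
  rw [e0, sub_zero, sub_zero]
  exact div_nonneg e1 hs'.le

private theorem Q1_pos (h : PhiOK m Q w Φ c) (hm : 1 ≤ m) (x : ℝ) :
    0 < (fderivWithin ℝ Φ HH x 1).re := by
  have h1 := h.det x (Q1_mem x)
  rw [det_eq_om, om, Q1_im h hm x, zero_mul, sub_zero] at h1
  exact pos_of_mul_pos_left h1 (Q1_up h hm x)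

theorem phi_line (h : PhiOK m Q w Φ c) (hm : 1 ≤ m) (hQ : 1 ≤ Q) :
    BijOn Φ {ξ : ℂ | ξ.im = 0} {ξ : ℂ | ξ.im = 0} := by
  obtain ⟨p, hp⟩ : ∃ p : ℝ → ℝ, p = fun y : ℝ => (Φ y).re := ⟨_, rfl⟩
  have hd : ∀ x : ℝ, HasDerivAt p (fderivWithin ℝ Φ HH x 1).re x := by
    intro x
    rw [hp]
    exact Q1_re h hm x
  have hmono : StrictMono p := by
    refine strictMono_of_deriv_pos fun x => ?_
    rw [(hd x).deriv]
    exact Q1_pos h hm x
  have hcont : Continuous p := continuous_iff_continuousAt.2 fun x => (hd x).continuousAt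
  have hQ0 : (0 : ℝ) < Q := by exact_mod_cast hQ
  obtain ⟨C, hC⟩ := h.asy
  have hb : ∀ x : ℝ, |p x - (c.re + x / Q)| ≤ C := by
    intro x
    have h1 := hC x (Q1_mem x)
    have h2 : Real.exp (-(2 * Real.pi * (x : ℂ).im / Q)) = 1 := by
      rw [Complex.ofReal_im, mul_zero, zero_div, neg_zero, Real.exp_zero]
    rw [h2, mul_one] at h1
    have h3 : p x - (c.re + x / Q) = (Φ x - (c + x / Q)).re := by
      rw [hp, Complex.sub_re, Complex.add_re]
      have h4 : ((x : ℂ) / (Q : ℂ)) = ((x / Q : ℝ) : ℂ) := by push_cast; rfl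
      rw [h4, Complex.ofReal_re]
    rw [h3]
    exact (Complex.abs_re_le_norm _).trans h1
  have hsurj : Function.Surjective p := by
    refine hcont.surjective ?_ ?_
    · refine Filter.tendsto_atTop_mono (f := fun x : ℝ => (c.re - C) + x / Q) (fun x => ?_) ?_
      · have := (abs_le.1 (hb x)).1
        linarith
      · exact Filter.tendsto_atTop_add_const_left _ _ (Filter.tendsto_id.atTop_div_const hQ0)
    · refine Filter.tendsto_atBot_mono (f := fun x : ℝ => (c.re + C) + x / Q) (fun x => ?_) ?_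
      · have := (abs_le.1 (hb x)).2
        linarith
      · exact Filter.tendsto_atBot_add_const_left _ _ (Filter.tendsto_id.atBot_div_const hQ0)
  have hreal : ∀ ξ : ℂ, ξ.im = 0 → ξ = (ξ.re : ℂ) := by
    intro ξ hξ
    apply Complex.ext
    · rw [Complex.ofReal_re]
    · rw [Complex.ofReal_im, hξ]
  refine ⟨fun ξ hξ => h.bdry ξ hξ, ?_, ?_⟩
  · intro a ha b hb' hab
    have ha1 : a = (a.re : ℂ) := hreal a ha
    have hb1 : b = (b.re : ℂ) := hreal b hb'
    have h1 : p a.re = p b.re := by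
      rw [hp]
      change (Φ (a.re : ℂ)).re = (Φ (b.re : ℂ)).re
      rw [← ha1, ← hb1, hab]
    rw [ha1, hb1, hmono.injective h1]
  · intro z hz
    obtain ⟨x, hx⟩ := hsurj z.re
    refine ⟨(x : ℂ), Complex.ofReal_im x, ?_⟩
    apply Complex.ext
    · rw [← hx, hp]
    · rw [Q1_bdry h x]
      exact (show z.im = 0 from hz).symm

end Pool.Agent.H24.PG
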