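import Pool.Agent.H24.PG.Q1
import Pool.Agent.H24.PG.Bij

/-!
# Module Q2 (about 160 lines): `Phi` is a bijection of the half plane, with continuous inverse

PROOF. Let `C ≥ 0` be a constant for `h.asy` and `h.dasy`, so `‖Φ ξ - (c + ξ/Q)‖ ≤ C` on `HH`.
`phi_proper`: `A ∩ HH` closed; if `ξ_n ∈ A ∩ HH` and `Φ ξ_n → ζ` then `Φ ξ_n` is bounded, so `ξ_n` is bounded, a subsequence tends to
some `ξ ∈ A ∩ HH` (`tendsto_subseq_of_bounded`), and `Φ ξ = ζ` by continuity within `HH`.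
`phi_open`: `bij_open` with `U = V = {0 < im}`: derivatives: `ContDiffAt.hasStrictFDerivAt`, `fderivWithin = fderiv` on the interior,
`exists_equiv` with `h.det`; compactness: for `K ⊆ V` compact, `U ∩ Φ ⁻¹' K = HH ∩ Φ ⁻¹' K` (`h.bdry`), which is closed
(`ContinuousOn.preimage_isClosed_of_isClosed`, `isClosed_HH`) and bounded (`‖ξ‖ ≤ Q (‖Φ ξ‖ + C + ‖c‖)`).
A value with one preimage: let `s1 ≥ 0` with `C * exp (- 2 π s1 / Q) ≤ 1/(2 Q)`; on the convex set `{im ≥ s1}` `Φ ξ - ξ/Q` has a derivative of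
norm at most `1/(2 Q)`, so `‖Φ x - Φ y‖ ≥ ‖x - y‖/(2 Q)` and `Φ` is injective there. Let `s2 = s1 + 2 C Q + 1`, `v0 = Φ (I s2)`. If
`Φ ξ = v0` then `‖ξ - I s2‖ ≤ 2 C Q`, so `ξ.im ≥ s1` and `ξ = I s2`.
`phi_bij`: union of `phi_open` and `phi_line` (the images are disjoint).
-/

open Set

namespace Pool.Agent.H24.PG

variable {m Q : ℕ} {w Φ : ℂ → ℂ} {c : ℂ}

private theorem q2_exp_le {Q : ℕ} {s : ℝ} (hs : 0 ≤ s) :
    Real.exp (-(2 * Real.pi * s / Q)) ≤ 1 := by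
  rw [Real.exp_le_one_iff]
  have : 0 ≤ 2 * Real.pi * s / Q := by positivity
  linarith

private theorem q2_asy (h : PhiOK m Q w Φ c) :
    ∃ C : ℝ, 0 ≤ C ∧ ∀ ξ ∈ HH, ‖Φ ξ - (c + ξ / Q)‖ ≤ C := by
  obtain ⟨C, hC⟩ := h.asy
  refine ⟨|C|, abs_nonneg _, fun ξ hξ => (hC ξ hξ).trans ?_⟩
  calc C * Real.exp (-(2 * Real.pi * ξ.im / Q)) ≤ |C| * Real.exp (-(2 * Real.pi * ξ.im / Q)) :=
        mul_le_mul_of_nonneg_right (le_abs_self _) (Real.exp_pos _).le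
    _ ≤ |C| * 1 := mul_le_mul_of_nonneg_left (q2_exp_le hξ) (abs_nonneg _)
    _ = |C| := mul_one _

private theorem q2_bound (hQ : 1 ≤ Q) {C : ℝ} {ξ : ℂ} (h : ‖Φ ξ - (c + ξ / Q)‖ ≤ C) :
    ‖ξ‖ ≤ Q * (‖Φ ξ‖ + C + ‖c‖) := by
  have hQr : (0 : ℝ) < Q := by exact_mod_cast hQ
  have hQc : (Q : ℂ) ≠ 0 := by exact_mod_cast hQr.ne'
  have e : ξ = Q * (Φ ξ - (Φ ξ - (c + ξ / Q)) - c) := by
    field_simp
    ring
  have h1 : ‖ξ‖ = ‖(Q : ℂ) * (Φ ξ - (Φ ξ - (c + ξ / Q)) - c)‖ := congrArg norm e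
  rw [h1, norm_mul, Complex.norm_natCast]
  refine mul_le_mul_of_nonneg_left ?_ hQr.le
  calc ‖Φ ξ - (Φ ξ - (c + ξ / Q)) - c‖ ≤ ‖Φ ξ - (Φ ξ - (c + ξ / Q))‖ + ‖c‖ := norm_sub_le _ _
    _ ≤ ‖Φ ξ‖ + ‖Φ ξ - (c + ξ / Q)‖ + ‖c‖ := by gcongr; exact norm_sub_le _ _
    _ ≤ ‖Φ ξ‖ + C + ‖c‖ := by gcongr

theorem phi_proper (h : PhiOK m Q w Φ c) (hQ : 1 ≤ Q) {A : Set ℂ} (hA : IsClosed A) :
    IsClosed (Φ '' (A ∩ HH)) := by
  obtain ⟨C, hC0, hC⟩ := q2_asy h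
  have hQr : (0 : ℝ) < Q := by exact_mod_cast hQ
  refine IsSeqClosed.isClosed fun y ζ hy hlim => ?_
  choose ξ hξ hξy using hy
  obtain ⟨R, hR⟩ := (Metric.isBounded_range_of_tendsto y hlim).exists_norm_le
  have hb : ∀ n, ξ n ∈ Metric.closedBall (0 : ℂ) (Q * (R + C + ‖c‖)) := by
    intro n
    rw [mem_closedBall_zero_iff]
    refine (q2_bound hQ (hC _ (hξ n).2)).trans ?_
    refine mul_le_mul_of_nonneg_left ?_ hQr.le
    have := hR (y n) ⟨n, rfl⟩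
    rw [hξy]
    linarith
  obtain ⟨a, _, φ, hφ, ha⟩ := tendsto_subseq_of_bounded Metric.isBounded_closedBall hb
  have hcl : IsClosed (A ∩ HH) := hA.inter isClosed_HH
  have ham : a ∈ A ∩ HH := hcl.mem_of_tendsto ha (Filter.Eventually.of_forall fun n => hξ (φ n))
  refine ⟨a, ham, ?_⟩
  have h1 : Filter.Tendsto (ξ ∘ φ) Filter.atTop (nhdsWithin a HH) :=
    tendsto_nhdsWithin_iff.2 ⟨ha, Filter.Eventually.of_forall fun n => (hξ (φ n)).2⟩
  have h2 : Filter.Tendsto (Φ ∘ (ξ ∘ φ)) Filter.atTop (nhds (Φ a)) :=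
    (h.smooth.continuousOn a ham.2).tendsto.comp h1
  have h3 : Filter.Tendsto (Φ ∘ (ξ ∘ φ)) Filter.atTop (nhds ζ) := by
    have h4 := hlim.comp hφ.tendsto_atTop
    have h5 : Φ ∘ (ξ ∘ φ) = y ∘ φ := by
      funext n
      exact hξy (φ n)
    rw [h5]
    exact h4
  exact tendsto_nhds_unique h2 h3

private theorem q2_large (h : PhiOK m Q w Φ c) (hm : 1 ≤ m) (hQ : 1 ≤ Q) :
    ∃ s1 : ℝ, 0 ≤ s1 ∧ ∀ x y : ℂ, s1 ≤ x.im → s1 ≤ y.im → Φ x = Φ y → x = y := by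
  obtain ⟨C, hC⟩ := h.dasy
  have hQr : (0 : ℝ) < Q := by exact_mod_cast hQ
  have hQc : (Q : ℂ) ≠ 0 := by exact_mod_cast hQr.ne'
  have hm' : (m : WithTop ℕ∞) ≠ 0 := by
    have : m ≠ 0 := by omega
    exact_mod_cast this
  refine ⟨Q * (2 * Q * |C|), by positivity, fun x y hx hy hxy => ?_⟩
  let S : Set ℂ := {ξ : ℂ | Q * (2 * Q * |C|) ≤ ξ.im}
  have hSH : S ⊆ HH := by
    intro ξ hξ
    have h0 : 0 ≤ (Q : ℝ) * (2 * Q * |C|) := by positivity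
    exact h0.trans hξ
  have hbd : ∀ ξ ∈ S, C * Real.exp (-(2 * Real.pi * ξ.im / Q)) ≤ 1 / (2 * Q) := by
    intro ξ hξ
    have h1 : 2 * Q * |C| ≤ 2 * Real.pi * ξ.im / Q := by
      rw [le_div_iff₀ hQr]
      have h2 : (Q : ℝ) * (2 * Q * |C|) ≤ ξ.im := hξ
      have h3 : 0 ≤ ξ.im := hSH hξ
      nlinarith [Real.pi_gt_three]
    have h2 : 0 ≤ 2 * Real.pi * ξ.im / Q := le_trans (by positivity) h1
    have h3 : Real.exp (-(2 * Real.pi * ξ.im / Q)) ≤ 1 / (1 + 2 * Q * |C|) := by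
      rw [Real.exp_neg, one_div]
      refine inv_anti₀ (by positivity) ?_
      have := Real.add_one_le_exp (2 * Real.pi * ξ.im / Q)
      linarith
    calc C * Real.exp (-(2 * Real.pi * ξ.im / Q)) ≤
          |C| * Real.exp (-(2 * Real.pi * ξ.im / Q)) :=
          mul_le_mul_of_nonneg_right (le_abs_self _) (Real.exp_pos _).le
      _ ≤ |C| * (1 / (1 + 2 * Q * |C|)) := mul_le_mul_of_nonneg_left h3 (abs_nonneg _)
      _ ≤ 1 / (2 * Q) := by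
        rw [mul_one_div, div_le_div_iff₀ (by positivity) (by positivity)]
        nlinarith [abs_nonneg C]
  have hconv : Convex ℝ S := convex_halfSpace_im_ge _
  have hder : ∀ ξ ∈ S, HasFDerivWithinAt (fun z : ℂ => Φ z - z / Q)
      (fderivWithin ℝ Φ HH ξ - (Q : ℂ)⁻¹ • ContinuousLinearMap.id ℝ ℂ) S ξ := by
    intro ξ hξ
    have h1 : HasFDerivWithinAt Φ (fderivWithin ℝ Φ HH ξ) S ξ :=
      ((h.smooth.differentiableOn hm' ξ (hSH hξ)).hasFDerivWithinAt).mono hSH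
    have h2 : HasFDerivWithinAt (fun z : ℂ => z / Q)
        ((Q : ℂ)⁻¹ • ContinuousLinearMap.id ℝ ℂ) S ξ := by
      have h3 := (hasFDerivWithinAt_id (𝕜 := ℝ) ξ S).const_smul ((Q : ℂ)⁻¹)
      refine h3.congr (fun z _ => ?_) ?_
      · simp [div_eq_inv_mul]
      · simp [div_eq_inv_mul]
    exact h1.sub h2
  have hnb : ∀ ξ ∈ S, ‖fderivWithin ℝ Φ HH ξ - (Q : ℂ)⁻¹ • ContinuousLinearMap.id ℝ ℂ‖ ≤
      1 / (2 * Q) := by
    intro ξ hξ
    refine ContinuousLinearMap.opNorm_le_bound _ (by positivity) fun u => ?_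
    have h1 := hC ξ (hSH hξ) u
    have h2 : (fderivWithin ℝ Φ HH ξ - (Q : ℂ)⁻¹ • ContinuousLinearMap.id ℝ ℂ) u =
        fderivWithin ℝ Φ HH ξ u - u / Q := by
      simp [div_eq_inv_mul]
    rw [h2]
    exact h1.trans (mul_le_mul_of_nonneg_right (hbd ξ hξ) (norm_nonneg _))
  have key := hconv.norm_image_sub_le_of_norm_hasFDerivWithin_le hder hnb hx hy
  have h1 : Φ y - y / Q - (Φ x - x / Q) = -((y - x) / Q) := by
    rw [hxy]
    ring
  rw [h1, norm_neg, norm_div, Complex.norm_natCast] at key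
  have h2 : ‖y - x‖ ≤ ‖y - x‖ / 2 := by
    rw [div_le_iff₀ hQr] at key
    calc ‖y - x‖ ≤ 1 / (2 * Q) * ‖y - x‖ * Q := key
      _ = ‖y - x‖ / 2 := by field_simp
  have h3 : ‖y - x‖ = 0 := by
    have := norm_nonneg (y - x)
    linarith
  exact (sub_eq_zero.1 (norm_eq_zero.1 h3)).symm

theorem phi_open (h : PhiOK m Q w Φ c) (hm : 1 ≤ m) (hQ : 1 ≤ Q) :
    BijOn Φ {ξ : ℂ | 0 < ξ.im} {ξ : ℂ | 0 < ξ.im} := by
  obtain ⟨C, hC0, hC⟩ := q2_asy h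
  obtain ⟨s1, hs1, hinj⟩ := q2_large h hm hQ
  have hQr : (0 : ℝ) < Q := by exact_mod_cast hQ
  have hQc : (Q : ℂ) ≠ 0 := by exact_mod_cast hQr.ne'
  have hm' : (m : WithTop ℕ∞) ≠ 0 := by
    have : m ≠ 0 := by omega
    exact_mod_cast this
  have hUo : IsOpen {ξ : ℂ | 0 < ξ.im} := isOpen_lt continuous_const Complex.continuous_im
  have hUH : {ξ : ℂ | 0 < ξ.im} ⊆ HH := fun ξ hξ => (le_of_lt hξ : (0 : ℝ) ≤ ξ.im)
  have hs2 : 0 < s1 + 2 * C * Q + 1 := by positivity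
  have him : ((Complex.I * ((s1 + 2 * C * Q + 1 : ℝ) : ℂ) : ℂ)).im = s1 + 2 * C * Q + 1 := by
    rw [Complex.mul_im, Complex.I_re, Complex.I_im, Complex.ofReal_re, Complex.ofReal_im]
    ring
  have hU2 : Complex.I * ((s1 + 2 * C * Q + 1 : ℝ) : ℂ) ∈ {ξ : ℂ | 0 < ξ.im} := by
    show 0 < (Complex.I * ((s1 + 2 * C * Q + 1 : ℝ) : ℂ) : ℂ).im
    rw [him]
    exact hs2
  refine bij_open hUo hUo (convex_halfSpace_im_gt 0).isPreconnected
    (h.smooth.continuousOn.mono hUH) (fun ξ hξ => h.inter ξ hξ) (fun x hx => ?_)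
    (fun K hK hKc => ?_) (v0 := Φ (Complex.I * ((s1 + 2 * C * Q + 1 : ℝ) : ℂ))) (h.inter _ hU2)
    ⟨Complex.I * ((s1 + 2 * C * Q + 1 : ℝ) : ℂ), ⟨hU2, rfl⟩, fun y hy => ?_⟩
  · have hn : HH ∈ nhds x := Filter.mem_of_superset (hUo.mem_nhds hx) hUH
    have h1 : ContDiffAt ℝ m Φ x := h.smooth.contDiffAt hn
    have h2 := h1.hasStrictFDerivAt hm'
    have h3 : fderivWithin ℝ Φ HH x = fderiv ℝ Φ x := fderivWithin_of_mem_nhds hn
    have h4 := h.det x (hUH hx)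
    rw [h3] at h4
    obtain ⟨A, hA⟩ := exists_equiv _ h4.ne'
    exact ⟨A, by rw [hA]; exact h2⟩
  · have h1 : {ξ : ℂ | 0 < ξ.im} ∩ Φ ⁻¹' K = HH ∩ Φ ⁻¹' K := by
      ext z
      constructor
      · exact fun hz => ⟨hUH hz.1, hz.2⟩
      · rintro ⟨h2, h3⟩
        refine ⟨?_, h3⟩
        have h4 : 0 < (Φ z).im := hK h3
        have h5 : 0 ≤ z.im := h2
        rcases h5.lt_or_eq with h6 | h6
        · exact h6
        · rw [h.bdry z h6.symm] at h4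
          exact absurd h4 (lt_irrefl _)
    rw [h1]
    refine Metric.isCompact_of_isClosed_isBounded
      (h.smooth.continuousOn.preimage_isClosed_of_isClosed isClosed_HH hKc.isClosed) ?_
    obtain ⟨R, hR⟩ := hKc.isBounded.exists_norm_le
    refine (Metric.isBounded_closedBall (x := (0 : ℂ)) (r := Q * (R + C + ‖c‖))).subset
      fun z hz => ?_
    rw [mem_closedBall_zero_iff]
    refine (q2_bound hQ (hC _ hz.1)).trans ?_
    refine mul_le_mul_of_nonneg_left ?_ hQr.le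
    have := hR (Φ z) hz.2
    linarith
  · have hy0 : 0 < y.im := hy.1
    have hy2 := hy.2
    have h1 := hC y (hUH hy.1)
    have h2 := hC _ (hUH hU2)
    rw [← hy2] at h2
    have h3 : ‖y - Complex.I * ((s1 + 2 * C * Q + 1 : ℝ) : ℂ)‖ ≤ 2 * C * Q := by
      have e : y - Complex.I * ((s1 + 2 * C * Q + 1 : ℝ) : ℂ) = Q * ((Φ y -
          (c + Complex.I * ((s1 + 2 * C * Q + 1 : ℝ) : ℂ) / Q)) - (Φ y - (c + y / Q))) := by
        field_simp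
        ring
      rw [e, norm_mul, Complex.norm_natCast]
      calc (Q : ℝ) * ‖(Φ y - (c + Complex.I * ((s1 + 2 * C * Q + 1 : ℝ) : ℂ) / Q)) -
            (Φ y - (c + y / Q))‖ ≤ Q * (C + C) :=
            mul_le_mul_of_nonneg_left ((norm_sub_le _ _).trans (add_le_add h2 h1)) hQr.le
        _ = 2 * C * Q := by ring
    have h4 : |(y - Complex.I * ((s1 + 2 * C * Q + 1 : ℝ) : ℂ)).im| ≤ 2 * C * Q :=
      (Complex.abs_im_le_norm _).trans h3
    rw [Complex.sub_im, him] at h4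
    have h5 := (abs_le.1 h4).1
    refine hinj _ _ (by linarith) ?_ hy2
    rw [him]
    have : 0 ≤ 2 * C * Q := by positivity
    linarith

theorem phi_bij (h : PhiOK m Q w Φ c) (hm : 1 ≤ m) (hQ : 1 ≤ Q) : BijOn Φ HH HH := by
  have h1 := phi_line h hm hQ
  have h2 := phi_open h hm hQ
  have e : HH = {ξ : ℂ | ξ.im = 0} ∪ {ξ : ℂ | 0 < ξ.im} := by
    ext ξ
    constructor
    · intro hξ
      have : 0 ≤ ξ.im := hξ
      rcases this.lt_or_eq with h | h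
      · exact Or.inr h
      · exact Or.inl h.symm
    · rintro (h | h)
      · exact (le_of_eq (Eq.symm h) : (0 : ℝ) ≤ ξ.im)
      · exact (le_of_lt h : (0 : ℝ) ≤ ξ.im)
  rw [e]
  refine h1.union h2 ?_
  rintro x (hx | hx) y (hy | hy) hxy
  · exact h1.injOn hx hy hxy
  · have h3 : (Φ x).im = 0 := h1.mapsTo hx
    have h4 : 0 < (Φ y).im := h2.mapsTo hy
    rw [hxy] at h3
    rw [h3] at h4
    exact absurd h4 (lt_irrefl _)
  · have h3 : (Φ y).im = 0 := h1.mapsTo hy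
    have h4 : 0 < (Φ x).im := h2.mapsTo hx
    rw [hxy, h3] at h4
    exact absurd h4 (lt_irrefl _)
  · exact h2.injOn hx hy hxy

end Pool.Agent.H24.PG
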