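import Pool.Agent.H24.PG.W1
import Pool.Agent.H24.PG.W0
import Pool.Agent.H24.PG.PerB

/-!
# Module R1 (about 180 lines): the map `h1` on the disc minus `0`

PROOF. `h1_ee`: `Complex.log (ee ζ) / (2 π I) = ζ + n` for some integer `n` (`ee_log`, `ee_eq_iff`), and `Ψ (ζ + n) = Ψ ζ + n`
(`per_int` for `Ψ ζ - ζ`), `ee (Ψ ζ + n) = ee (Ψ ζ)`. `exists_zeta`: `ζ = Complex.log z / (2 π I)` (`ee_log`, `log_mem`).
`h1_equiv`: `z = 0`: both sides `0` (`hF.zero`). `z = ee ζ`: `F z = ee (Ft (lw F) ζ)` (`lw_spec`, `near_F`), `h1_ee`, `h.equiv`.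
`h1_lt`, `h1_eq`: `norm_ee_lt`, `norm_ee_eq`, `h.inter`, `h.bdry`. `h1_inj`: `ee (Ψ ζ) = ee (Ψ ζ')` gives `Ψ ζ = Ψ ζ' + n = Ψ (ζ' + n)`, so
`ζ = ζ' + n` and `ee ζ = ee ζ'`. `h1_low`: `‖Ψ ζ - (ζ - c)‖ ≤ C`, so `(Ψ ζ).im ≤ ζ.im - c.im + C` and
`‖h1 (ee ζ)‖ = exp (- 2 π (Ψ ζ).im) ≥ b ‖ee ζ‖`, `b = exp (2 π (c.im - C))` (`norm_ee`).
-/

open Set

namespace Pool.Agent.H24.PG

variable {m Q : ℕ} {η : ℝ} {F Fi w Ψ : ℂ → ℂ} {c : ℂ}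

theorem exists_zeta {z : ℂ} (hz : z ∈ D) (h0 : z ≠ 0) : ∃ ζ ∈ HH, ee ζ = z :=
  ⟨_, log_mem h0 hz, ee_log h0⟩

private theorem R1_int (h : PsiOK m Q w Ψ c) (n : ℤ) {ζ : ℂ} (hζ : ζ ∈ HH) :
    Ψ (ζ + n) = Ψ ζ + n := by
  have h1 := per_int (f := fun x => Ψ x - x) (fun ζ hζ => by
    beta_reduce
    rw [h.per ζ hζ]
    ring) n hζ
  beta_reduce at h1
  linear_combination h1

private theorem R1_ee_int (a : ℂ) (n : ℤ) : ee (a + n) = ee a := by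
  rw [ee_add, ee_int, mul_one]

theorem h1_ee (h : PsiOK m Q w Ψ c) {ζ : ℂ} (hζ : ζ ∈ HH) : h1 Ψ (ee ζ) = ee (Ψ ζ) := by
  unfold h1
  rw [if_neg (ee_ne ζ)]
  obtain ⟨n, hn⟩ := (ee_eq_iff _ _).1 (ee_log (ee_ne ζ))
  rw [hn, R1_int h n hζ, R1_ee_int]

private theorem R1_zero : h1 Ψ 0 = 0 := by
  unfold h1
  rw [if_pos rfl]

theorem h1_equiv (hF : DiscMap m Q η F Fi) (h : PsiOK m Q (lw F) Ψ c) {z : ℂ} (hz : z ∈ D) :
    h1 Ψ (F z) = ee (1 / Q) * h1 Ψ z := by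
  by_cases h0 : z = 0
  · rw [h0, hF.zero, R1_zero, mul_zero]
  · obtain ⟨ζ, hζ, rfl⟩ := exists_zeta hz h0
    have hη : η ≤ 1 / 100 := by
      have := hF.η1
      linarith
    have hn : ∀ z ∈ D, ‖F z - z‖ ≤ η * ‖z‖ := fun z hz => near_F hF hz
    rw [← lw_spec hn hη hζ, h1_ee h (lw_maps hn hη hF.maps hζ), h1_ee h hζ, h.equiv ζ hζ, ee_add,
      mul_comm]

theorem h1_lt (h : PsiOK m Q w Ψ c) {z : ℂ} (hz : ‖z‖ < 1) : ‖h1 Ψ z‖ < 1 := by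
  by_cases h0 : z = 0
  · rw [h0, R1_zero, norm_zero]
    exact one_pos
  · obtain ⟨ζ, hζ, rfl⟩ := exists_zeta (by simpa using hz.le) h0
    rw [h1_ee h hζ, norm_ee_lt]
    exact h.inter ζ (norm_ee_lt.1 hz)

theorem h1_eq (h : PsiOK m Q w Ψ c) {z : ℂ} (hz : ‖z‖ = 1) : ‖h1 Ψ z‖ = 1 := by
  have h0 : z ≠ 0 := by
    rintro rfl
    rw [norm_zero] at hz
    exact zero_ne_one hz
  obtain ⟨ζ, hζ, rfl⟩ := exists_zeta (by simpa using hz.le) h0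
  rw [h1_ee h hζ, norm_ee_eq]
  exact h.bdry ζ (norm_ee_eq.1 hz)

private theorem R1_ne (h : PsiOK m Q w Ψ c) {z : ℂ} (hz : z ∈ D) (h0 : z ≠ 0) : h1 Ψ z ≠ 0 := by
  obtain ⟨ζ, hζ, rfl⟩ := exists_zeta hz h0
  rw [h1_ee h hζ]
  exact ee_ne _

theorem h1_inj (h : PsiOK m Q w Ψ c) (hi : InjOn Ψ HH) : InjOn (h1 Ψ) D := by
  intro z hz z' hz' he
  by_cases h0 : z = 0
  · by_contra hne
    rw [h0, R1_zero] at he
    exact R1_ne h hz' (fun h1 => hne (h0.trans h1.symm)) he.symm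
  · by_cases h0' : z' = 0
    · rw [h0', R1_zero] at he
      exact absurd he (R1_ne h hz h0)
    · obtain ⟨ζ, hζ, rfl⟩ := exists_zeta hz h0
      obtain ⟨ζ', hζ', rfl⟩ := exists_zeta hz' h0'
      rw [h1_ee h hζ, h1_ee h hζ'] at he
      obtain ⟨n, hn⟩ := (ee_eq_iff _ _).1 he
      rw [← R1_int h n hζ'] at hn
      have hmem : ζ' + (n : ℂ) ∈ HH := by
        have h2 := (add_real_mem (ζ := ζ') (n : ℝ)).2 hζ'
        push_cast at h2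
        exact h2
      rw [hi hζ hmem hn, R1_ee_int]

theorem h1_low (h : PsiOK m Q w Ψ c) : ∃ b : ℝ, 0 < b ∧ ∀ z ∈ D, b * ‖z‖ ≤ ‖h1 Ψ z‖ := by
  obtain ⟨C, hC⟩ := h.asy
  refine ⟨Real.exp (2 * Real.pi * (c.im - |C|)), Real.exp_pos _, ?_⟩
  intro z hz
  by_cases h0 : z = 0
  · rw [h0, R1_zero, norm_zero, mul_zero]
  · obtain ⟨ζ, hζ, rfl⟩ := exists_zeta hz h0
    have hζ' : 0 ≤ ζ.im := hζ
    rw [h1_ee h hζ, norm_ee, norm_ee, ← Real.exp_add, Real.exp_le_exp]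
    have h1 := hC ζ hζ
    have hpi := Real.pi_pos
    have h2 : Real.exp (-(2 * Real.pi * ζ.im)) ≤ 1 := by
      rw [Real.exp_le_one_iff]
      nlinarith [mul_nonneg hpi.le hζ']
    have h3 : ‖Ψ ζ - (ζ - c)‖ ≤ |C| := by
      refine h1.trans ?_
      calc C * Real.exp (-(2 * Real.pi * ζ.im)) ≤ |C| * Real.exp (-(2 * Real.pi * ζ.im)) :=
            mul_le_mul_of_nonneg_right (le_abs_self C) (Real.exp_pos _).le
        _ ≤ |C| * 1 := mul_le_mul_of_nonneg_left h2 (abs_nonneg C)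
        _ = |C| := mul_one _
    have h4 := (Complex.abs_im_le_norm (Ψ ζ - (ζ - c))).trans h3
    rw [Complex.sub_im, Complex.sub_im] at h4
    have h5 := (abs_le.1 h4).2
    have h6 : (Ψ ζ).im ≤ ζ.im - c.im + |C| := by linarith
    nlinarith [mul_le_mul_of_nonneg_left h6 (by positivity : (0 : ℝ) ≤ 2 * Real.pi)]

end Pool.Agent.H24.PG
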