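import Pool.Agent.H24.PG.EeL
import Pool.Agent.H24.PG.Lin
import Pool.Agent.H24.PG.StepE

/-!
# Module R4 (about 180 lines): gluing `f0` near `0` to `f1`

`gl` is `f0` where `‖f1‖ ≤ ε` and `f1` where `‖f1‖ ≥ 2 ε`. Let `ρ = 2 ε / b`. In `D`, `‖f1 z‖ < 2 ε` implies `‖z‖ ≤ ρ` (`lb`). `C ≥ 0` because
of `exp0` at `z = 1` (or use `|C|`).

PROOF. Write `x = ‖f1 z‖ ^ 2 / ε ^ 2`, so `x ≤ 1 ↔ ‖f1 z‖ ≤ ε`, `4 ≤ x ↔ 2 ε ≤ ‖f1 z‖`.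
`gl_equiv`: `‖f1 (F z)‖ = ‖f1 z‖` (`h1.equiv`, `‖a‖ = 1`) and both functions are equivariant.
`gl_zero`: `f1 0 = 0` and `f0 0 = 0` by `exp0`. If `z ≠ 0`: `‖f1 z‖ ≥ 2 ε`: `gl = f1 z ≠ 0`. Otherwise `0 < ‖z‖ ≤ ρ` and
`‖gl z - κ z‖ ≤ C ‖z‖ ^ 2 ≤ (‖κ‖/4) ‖z‖ < ‖κ‖ ‖z‖` (`S.s3`).
`gl_lt`: `‖f1 z‖ ≥ 2 ε`: `gl = f1`. Otherwise `‖gl z‖ ≤ (‖κ‖ + C) ‖z‖ ≤ (‖κ‖ + C) ρ < 1` (`ρ < 1`, `S.s2`).
`gl_eq`: for `‖z‖ = 1` `‖f1 z‖ = 1 ≥ 2 ε`.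
`gl_smooth`: at `z ≠ 0`: `f0`, `f1` are `C^m` within `D` at `z`, `‖f1‖ ^ 2 = re ^ 2 + im ^ 2` is too (`ContDiffWithinAt.norm_sq`), `χ` smooth.
At `0`: `‖f1 z‖ ≤ (‖κ‖ + C) ‖z‖ < ε` for `z ∈ D` near `0`, so `gl = f0` there.
`gl_det`: (a) `z = 0`: `gl = f0` near `0`, the derivative is `κ u` (`d0`), `det_mul`. (b) `‖f1 z‖ > 2 ε`: `gl = f1` near `z` within `D`
(`f1` is continuous within `D` at `z ≠ 0`), `d1`. (c) `0 < ‖z‖`, `‖f1 z‖ ≤ 2 ε`, so `‖z‖ ≤ ρ < 1`: product rule: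
`D gl u = (1 - χ x) D f0 u + χ x D f1 u + deriv χ x * (dx u) * (f1 z - f0 z)`, with `dx u = 2 re (conj (f1 z) * D f1 u)/ε ^ 2`,
`|dx u| ≤ 2 * 2 ε * (‖κ‖ + C) ‖u‖ / ε ^ 2`, `|deriv χ| ≤ 1`, `‖f1 z - f0 z‖ ≤ 2 C ‖z‖ ^ 2 ≤ 2 C ρ ^ 2`. So
`‖D gl u - κ u‖ ≤ (C ρ + 8 C (‖κ‖ + C) ρ ^ 2 / ε) ‖u‖ ≤ ‖κ‖/4 * ‖u‖` (`S.s3`, `ρ ^ 2 / ε = 4 ε / b ^ 2`), and `det_pos_of_near`.
-/

open Set

namespace Pool.Agent.H24.PG

/-- the glued map -/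
noncomputable def gl (χ : ℝ → ℝ) (ε : ℝ) (f0 f1 : ℂ → ℂ) (z : ℂ) : ℂ :=
  (1 - χ (‖f1 z‖ ^ 2 / ε ^ 2) : ℝ) * f0 z + (χ (‖f1 z‖ ^ 2 / ε ^ 2) : ℝ) * f1 z

/-- the two maps which are glued -/
structure Pre (m : ℕ) (F : ℂ → ℂ) (a κ : ℂ) (C b : ℝ) (f0 f1 : ℂ → ℂ) : Prop where
  hm : 1 ≤ m
  ha : ‖a‖ = 1
  hκ : κ ≠ 0
  hC : 0 ≤ C
  hb : 0 < b
  e0 : Expn F a κ f0 C
  e1 : Expn F a κ f1 C
  sm0 : ContDiffOn ℝ m f0 D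
  sm1 : ∀ z ∈ D, z ≠ 0 → ContDiffWithinAt ℝ m f1 D z
  lb : ∀ z ∈ D, b * ‖z‖ ≤ ‖f1 z‖
  d0 : ∀ u, fderivWithin ℝ f0 D 0 u = κ * u
  d1 : ∀ z ∈ D, z ≠ 0 → 0 < (fderivWithin ℝ f1 D z).det
  lt : ∀ z : ℂ, ‖z‖ < 1 → ‖f1 z‖ < 1
  eq : ∀ z : ℂ, ‖z‖ = 1 → ‖f1 z‖ = 1

/-- `ε` is small enough -/
structure Sml (κ : ℂ) (C b ε : ℝ) : Prop where
  s0 : 0 < ε
  s1 : 2 * ε < 1
  s2 : 2 * ε / b < 1 ∧ (‖κ‖ + C) * (2 * ε / b) < 1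
  s3 : C * (2 * ε / b) + 32 * C * (‖κ‖ + C) * ε / b ^ 2 ≤ ‖κ‖ / 4

variable {m : ℕ} {F f0 f1 : ℂ → ℂ} {a κ : ℂ} {C b ε : ℝ} {χ : ℝ → ℝ}

theorem exists_sml (hκ : κ ≠ 0) (hb : 0 < b) (C : ℝ) : ∃ ε : ℝ, Sml κ C b ε := by
  have _ := hb
  have hK : 0 < ‖κ‖ := norm_pos_iff.2 hκ
  have key : ∀ (f : ℝ → ℝ) (c : ℝ), Continuous f → f 0 < c →
      ∀ᶠ ε in nhdsWithin (0 : ℝ) (Ioi 0), f ε < c := by
    intro f c hf h0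
    exact (hf.continuousAt.eventually_lt continuousAt_const h0).filter_mono nhdsWithin_le_nhds
  have h1 := key (fun ε => 2 * ε) 1 (by fun_prop) (by norm_num)
  have h2 := key (fun ε => 2 * ε / b) 1 (by fun_prop) (by norm_num)
  have h3 := key (fun ε => (‖κ‖ + C) * (2 * ε / b)) 1 (by fun_prop) (by norm_num)
  have h4 := key (fun ε => C * (2 * ε / b) + 32 * C * (‖κ‖ + C) * ε / b ^ 2) (‖κ‖ / 4)
    (by fun_prop) (by simp only [mul_zero, zero_div, add_zero]; linarith)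
  obtain ⟨ε, hε1, hε2, hε3, hε4, hε0⟩ := (h1.and (h2.and (h3.and (h4.and
    self_mem_nhdsWithin)))).exists
  exact ⟨ε, hε0, hε1, ⟨hε2, hε3⟩, hε4.le⟩

theorem gl_equiv (P : Pre m F a κ C b f0 f1) {z : ℂ} (hz : z ∈ D) :
    gl χ ε f0 f1 (F z) = a * gl χ ε f0 f1 z := by
  unfold gl
  rw [P.e0.equiv z hz, P.e1.equiv z hz, norm_mul, P.ha, one_mul]
  ring

private theorem R4_near (hχ : Step χ 1 4 1) {z : ℂ} (hε : 0 < ε) (h : ‖f1 z‖ ≤ ε) :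
    gl χ ε f0 f1 z = f0 z := by
  have h1 : ‖f1 z‖ ^ 2 / ε ^ 2 ≤ 1 := by
    rw [div_le_one (by positivity)]
    exact pow_le_pow_left₀ (norm_nonneg _) h 2
  rw [gl, hχ.zero _ h1]
  simp

private theorem R4_far (hχ : Step χ 1 4 1) {z : ℂ} (hε : 0 < ε) (h : 2 * ε ≤ ‖f1 z‖) :
    gl χ ε f0 f1 z = f1 z := by
  have h1 : 4 ≤ ‖f1 z‖ ^ 2 / ε ^ 2 := by
    rw [le_div_iff₀ (by positivity)]
    calc 4 * ε ^ 2 = (2 * ε) ^ 2 := by ring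
      _ ≤ ‖f1 z‖ ^ 2 := pow_le_pow_left₀ (by positivity) h 2
  rw [gl, hχ.one _ h1]
  simp

private theorem R4_diff (P : Pre m F a κ C b f0 f1) (hχ : Step χ 1 4 1) {z : ℂ}
    (hz : z ∈ D) : ‖gl χ ε f0 f1 z - κ * z‖ ≤ C * ‖z‖ ^ 2 := by
  obtain ⟨t, ht⟩ : ∃ t : ℝ, t = χ (‖f1 z‖ ^ 2 / ε ^ 2) := ⟨_, rfl⟩
  have ht0 : 0 ≤ t := ht ▸ hχ.nonneg _
  have ht1 : t ≤ 1 := ht ▸ hχ.le_one _
  have e : gl χ ε f0 f1 z - κ * z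
      = ((1 - t : ℝ) : ℂ) * (f0 z - κ * z) + ((t : ℝ) : ℂ) * (f1 z - κ * z) := by
    rw [gl, ← ht]
    push_cast
    ring
  rw [e]
  have h0 := P.e0.exp0 z hz
  have h1 := P.e1.exp0 z hz
  calc _ ≤ ‖((1 - t : ℝ) : ℂ) * (f0 z - κ * z)‖ + ‖((t : ℝ) : ℂ) * (f1 z - κ * z)‖ :=
        norm_add_le _ _
    _ = (1 - t) * ‖f0 z - κ * z‖ + t * ‖f1 z - κ * z‖ := by
        rw [norm_mul, norm_mul, Complex.norm_real, Complex.norm_real,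
          Real.norm_of_nonneg (by linarith), Real.norm_of_nonneg ht0]
    _ ≤ (1 - t) * (C * ‖z‖ ^ 2) + t * (C * ‖z‖ ^ 2) :=
        add_le_add (mul_le_mul_of_nonneg_left h0 (by linarith))
          (mul_le_mul_of_nonneg_left h1 ht0)
    _ = C * ‖z‖ ^ 2 := by ring

private theorem R4_small (P : Pre m F a κ C b f0 f1) {z : ℂ} (hz : z ∈ D)
    (h : ‖f1 z‖ < 2 * ε) : ‖z‖ ≤ 2 * ε / b := by
  rw [le_div_iff₀ P.hb, mul_comm]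
  exact (P.lb z hz).trans h.le

private theorem R4_s3 (P : Pre m F a κ C b f0 f1) (S : Sml κ C b ε) :
    C * (2 * ε / b) ≤ ‖κ‖ / 4 := by
  have h1 : 0 ≤ 32 * C * (‖κ‖ + C) * ε / b ^ 2 := by
    have := P.hC
    have := P.hb
    have := S.s0
    positivity
  have h2 := S.s3
  linarith

private theorem R4_zero (P : Pre m F a κ C b f0 f1) : f0 0 = 0 ∧ f1 0 = 0 := by
  have h0 := P.e0.exp0 0 (by simp)
  have h1 := P.e1.exp0 0 (by simp)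
  simp only [mul_zero, sub_zero, norm_zero] at h0 h1
  constructor
  · rw [← norm_le_zero_iff]
    simpa using h0
  · rw [← norm_le_zero_iff]
    simpa using h1

theorem gl_zero (P : Pre m F a κ C b f0 f1) (S : Sml κ C b ε) (hχ : Step χ 1 4 1) {z : ℂ}
    (hz : z ∈ D) : gl χ ε f0 f1 z = 0 ↔ z = 0 := by
  constructor
  · intro h
    by_contra hz0
    have hzp : 0 < ‖z‖ := norm_pos_iff.2 hz0
    by_cases h1 : 2 * ε ≤ ‖f1 z‖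
    · rw [R4_far hχ S.s0 h1] at h
      have h2 := P.lb z hz
      rw [h, norm_zero] at h2
      have h3 := mul_pos P.hb hzp
      linarith
    · have h2 := R4_small P hz (not_le.1 h1)
      have h3 := R4_diff (ε := ε) P hχ hz
      rw [h, zero_sub, norm_neg, norm_mul] at h3
      have h4 := R4_s3 P S
      have hK : 0 < ‖κ‖ := norm_pos_iff.2 P.hκ
      have h5 : C * ‖z‖ ^ 2 ≤ ‖κ‖ / 4 * ‖z‖ :=
        calc C * ‖z‖ ^ 2 = C * ‖z‖ * ‖z‖ := by ring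
          _ ≤ C * (2 * ε / b) * ‖z‖ := by
              have := P.hC
              gcongr
          _ ≤ ‖κ‖ / 4 * ‖z‖ := by gcongr
      nlinarith [mul_pos hK hzp]
  · intro h
    rw [h, gl, (R4_zero P).1, (R4_zero P).2, mul_zero, mul_zero, add_zero]

theorem gl_lt (P : Pre m F a κ C b f0 f1) (S : Sml κ C b ε) (hχ : Step χ 1 4 1) {z : ℂ}
    (hz : ‖z‖ < 1) : ‖gl χ ε f0 f1 z‖ < 1 := by
  have hzD : z ∈ D := by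
    rw [mem_closedBall_zero_iff]
    exact hz.le
  by_cases h1 : 2 * ε ≤ ‖f1 z‖
  · rw [R4_far hχ S.s0 h1]
    exact P.lt z hz
  · have h2 := R4_small P hzD (not_le.1 h1)
    have h3 := R4_diff (ε := ε) P hχ hzD
    have h4 : ‖gl χ ε f0 f1 z‖ ≤ ‖gl χ ε f0 f1 z - κ * z‖ + ‖κ * z‖ := by
      have := norm_add_le (gl χ ε f0 f1 z - κ * z) (κ * z)
      rwa [sub_add_cancel] at this
    rw [norm_mul] at h4
    have h5 : C * ‖z‖ ^ 2 ≤ C * ‖z‖ := by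
      have := P.hC
      have h6 : ‖z‖ ^ 2 ≤ ‖z‖ := by nlinarith [norm_nonneg z]
      exact mul_le_mul_of_nonneg_left h6 this
    have h6 : (‖κ‖ + C) * ‖z‖ ≤ (‖κ‖ + C) * (2 * ε / b) := by
      have := P.hC
      gcongr
    have h7 := S.s2.2
    nlinarith

theorem gl_eq (P : Pre m F a κ C b f0 f1) (S : Sml κ C b ε) (hχ : Step χ 1 4 1) {z : ℂ}
    (hz : ‖z‖ = 1) : gl χ ε f0 f1 z = f1 z := by
  refine R4_far hχ S.s0 ?_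
  rw [P.eq z hz]
  exact S.s1.le

theorem gl_smooth (P : Pre m F a κ C b f0 f1) (S : Sml κ C b ε) (hχ : Step χ 1 4 1) :
    ContDiffOn ℝ m (gl χ ε f0 f1) D := by
  intro z hz
  by_cases hz0 : z = 0
  · have hev : ∀ᶠ w in nhdsWithin z D, gl χ ε f0 f1 w = f0 w := by
      have hc : Continuous (fun w : ℂ => (‖κ‖ + C) * ‖w‖) := by fun_prop
      have h1 : ∀ᶠ w in nhds z, (‖κ‖ + C) * ‖w‖ < ε := by
        refine hc.continuousAt.eventually_lt continuousAt_const ?_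
        rw [hz0, norm_zero, mul_zero]
        exact S.s0
      filter_upwards [nhdsWithin_le_nhds h1, self_mem_nhdsWithin] with w hw hwD
      refine R4_near hχ S.s0 ?_
      have h3 := P.e1.exp0 w hwD
      have h4 : ‖f1 w‖ ≤ ‖f1 w - κ * w‖ + ‖κ * w‖ := by
        have := norm_add_le (f1 w - κ * w) (κ * w)
        rwa [sub_add_cancel] at this
      rw [norm_mul] at h4
      have hw1 : ‖w‖ ≤ 1 := by rwa [mem_closedBall_zero_iff] at hwD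
      have h5 : C * ‖w‖ ^ 2 ≤ C * ‖w‖ := by
        have := P.hC
        have h6 : ‖w‖ ^ 2 ≤ ‖w‖ := by nlinarith [norm_nonneg w]
        exact mul_le_mul_of_nonneg_left h6 this
      nlinarith
    exact (P.sm0 z hz).congr_of_eventuallyEq hev (hev.self_of_nhdsWithin hz)
  · have h1 := P.sm1 z hz hz0
    have h0 := P.sm0 z hz
    have h2 : ContDiffWithinAt ℝ m (fun w => ‖f1 w‖ ^ 2 / ε ^ 2) D z :=
      (h1.norm_sq ℂ).div_const _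
    have h3 : ContDiffWithinAt ℝ m (fun w => χ (‖f1 w‖ ^ 2 / ε ^ 2)) D z :=
      (hχ.smooth m).contDiffAt.comp_contDiffWithinAt z h2
    have h4 : ContDiffWithinAt ℝ m (fun w => ((χ (‖f1 w‖ ^ 2 / ε ^ 2) : ℝ) : ℂ)) D z :=
      Complex.ofRealCLM.contDiff.contDiffAt.comp_contDiffWithinAt z h3
    have h5 : ContDiffWithinAt ℝ m (fun w => ((1 - χ (‖f1 w‖ ^ 2 / ε ^ 2) : ℝ) : ℂ)) D z :=
      Complex.ofRealCLM.contDiff.contDiffAt.comp_contDiffWithinAt z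
        (contDiffWithinAt_const.sub h3)
    exact (h5.mul h0).add (h4.mul h1)

end Pool.Agent.H24.PG
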