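import Pool.Agent.H24.PG.Lin
import Pool.Agent.H24.PG.EeL

/-!
# Module S1 (about 150 lines): the generating function

With `DF = fderivWithin ℝ F D`, the one-form `β z u = om (z) u / 2 - om (F z) (DF z u) / 2` is closed on `D` because `det DF = 1`:

PROOF. `β : ℂ → ℂ →L[ℝ] ℝ` (build it with `om` as a continuous bilinear map `ℂ →L[ℝ] ℂ →L[ℝ] ℝ`, or by components
`om a b = a.re * b.im - a.im * b.re`). `F` is `C^2` on `D` (`hm`), so `β` has the derivative within `D`
`dβ z v u = om v u / 2 - om (DF z v) (DF z u) / 2 - om (F z) (D2F z v u) / 2`. `D2F z` is symmetric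
(`ContDiffWithinAt.isSymmSndFDerivWithinAt`, `D` = closure of its interior) and `om (DF z v) (DF z u) = om v u` (`om_map`,
`det = 1`), so `dβ z v u = - om (F z) (D2F z v u) / 2` is symmetric. By the Poincare lemma
(`Convex.exists_forall_hasFDerivWithinAt_of_hasFDerivWithinAt_symmetric`) there is `S0` with derivative `β z` within `D`. Put
`S z = S0 z + om z (F z) / 2`. Its derivative is
`u ↦ (om z u - om (F z) (DF z u) + om u (F z) + om z (DF z u)) / 2 = - om (F z - z) (u + DF z u) / 2`.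
-/

open Set

namespace Pool.Agent.H24.PG

variable {m Q : ℕ} {η : ℝ} {F Fi : ℂ → ℂ}

/-- the area form as a continuous bilinear map -/
private noncomputable def omL : ℂ →L[ℝ] ℂ →L[ℝ] ℝ :=
  Complex.reCLM.smulRight Complex.imCLM - Complex.imCLM.smulRight Complex.reCLM

private theorem omL_apply (a b : ℂ) : omL a b = om a b := by
  simp [omL, om]

private theorem om_swap (a b : ℂ) : om a b = -om b a := by
  unfold om
  ring

private theorem om_add_left (a b c : ℂ) : om (a + b) c = om a c + om b c := by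
  unfold om
  simp only [Complex.add_re, Complex.add_im]
  ring

private theorem om_sub_left (a b c : ℂ) : om (a - b) c = om a c - om b c := by
  unfold om
  simp only [Complex.sub_re, Complex.sub_im]
  ring

private theorem om_add_right (a b c : ℂ) : om a (b + c) = om a b + om a c := by
  unfold om
  simp only [Complex.add_re, Complex.add_im]
  ring

theorem exists_S (h : DiscMap m Q η F Fi) : ∃ (S : ℂ → ℝ) (L : ℂ → ℂ →L[ℝ] ℝ),
    (∀ z ∈ D, HasFDerivWithinAt S (L z) D z) ∧
    ∀ z ∈ D, ∀ u : ℂ, L z u = -om (F z - z) (u + fderivWithin ℝ F D z u) / 2 := by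
  have h2 : ContDiffOn ℝ 2 F D := h.smooth.of_le (by exact_mod_cast h.hm)
  have hF : ∀ z ∈ D, HasFDerivWithinAt F (fderivWithin ℝ F D z) D z := fun z hz =>
    (h2.differentiableOn two_ne_zero z hz).hasFDerivWithinAt
  have hDF : ∀ z ∈ D, HasFDerivWithinAt (fderivWithin ℝ F D)
      (fderivWithin ℝ (fderivWithin ℝ F D) D z) D z := by
    intro z hz
    have h3 : ContDiffOn ℝ 1 (fderivWithin ℝ F D) D :=
      h2.fderivWithin unique_D (by norm_num)
    exact (h3.differentiableOn one_ne_zero z hz).hasFDerivWithinAt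
  let β : ℂ → ℂ →L[ℝ] ℝ := fun z =>
    (1 / 2 : ℝ) • omL z - (1 / 2 : ℝ) • (omL (F z)).comp (fderivWithin ℝ F D z)
  let dβ : ℂ → ℂ →L[ℝ] ℂ →L[ℝ] ℝ := fun z =>
    (1 / 2 : ℝ) • omL - (1 / 2 : ℝ) •
      ((ContinuousLinearMap.compL ℝ ℂ ℂ ℝ (omL (F z))).comp
        (fderivWithin ℝ (fderivWithin ℝ F D) D z) +
      ((ContinuousLinearMap.compL ℝ ℂ ℂ ℝ).flip (fderivWithin ℝ F D z)).comp
        (omL.comp (fderivWithin ℝ F D z)))
  have hβ : ∀ z ∈ D, HasFDerivWithinAt β (dβ z) D z := by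
    intro z hz
    have e1 : HasFDerivWithinAt (fun z => (1 / 2 : ℝ) • omL z) ((1 / 2 : ℝ) • omL) D z :=
      (omL.hasFDerivWithinAt).const_smul (1 / 2 : ℝ)
    have e2 : HasFDerivWithinAt (fun z => omL (F z)) (omL.comp (fderivWithin ℝ F D z)) D z :=
      omL.hasFDerivAt.comp_hasFDerivWithinAt z (hF z hz)
    have e3 := (e2.clm_comp (hDF z hz)).const_smul (1 / 2 : ℝ)
    exact e1.sub e3
  have hdβ : ∀ a ∈ D, ∀ x y : ℂ, dβ a x y =
      -(1 / 2) * om (F a) (fderivWithin ℝ (fderivWithin ℝ F D) D a x y) := by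
    intro a ha x y
    have e1 : dβ a x y = (1 / 2 : ℝ) * omL x y - (1 / 2 : ℝ) *
        (omL (F a) (fderivWithin ℝ (fderivWithin ℝ F D) D a x y) +
          omL (fderivWithin ℝ F D a x) (fderivWithin ℝ F D a y)) := rfl
    rw [e1, omL_apply, omL_apply, omL_apply, om_map, h.det a ha]
    ring
  have hsymm : ∀ a ∈ D, ∀ x ∈ tangentConeAt ℝ D a, ∀ y ∈ tangentConeAt ℝ D a,
      dβ a x y = dβ a y x := by
    intro a ha x _ y _
    rw [hdβ a ha, hdβ a ha]
    have hcl : a ∈ closure (interior D) := by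
      rw [interior_D, closure_ball (0 : ℂ) one_ne_zero]
      exact ha
    have h3 : IsSymmSndFDerivWithinAt ℝ F D a :=
      (h2 a ha).isSymmSndFDerivWithinAt (by simp) unique_D hcl ha
    rw [h3.eq x y]
  obtain ⟨S0, hS0⟩ := Convex.exists_forall_hasFDerivWithinAt_of_hasFDerivWithinAt_symmetric
    (convex_closedBall (0 : ℂ) 1) hβ hsymm
  refine ⟨fun z => S0 z + (1 / 2 : ℝ) • omL z (F z), fun z => β z + (1 / 2 : ℝ) •
    ((omL z).comp (fderivWithin ℝ F D z) + omL.flip (F z)), fun z hz => ?_, fun z hz u => ?_⟩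
  · have e1 : HasFDerivWithinAt (fun z => omL z) omL D z := omL.hasFDerivWithinAt
    exact (hS0 z hz).add ((e1.clm_apply (hF z hz)).const_smul (1 / 2 : ℝ))
  · have e1 : (β z + (1 / 2 : ℝ) • ((omL z).comp (fderivWithin ℝ F D z) + omL.flip (F z))) u =
        ((1 / 2 : ℝ) * omL z u - (1 / 2 : ℝ) * omL (F z) (fderivWithin ℝ F D z u)) +
          (1 / 2 : ℝ) * (omL z (fderivWithin ℝ F D z u) + omL u (F z)) := rfl
    rw [e1]
    simp only [omL_apply, om_sub_left, om_add_right]
    rw [om_swap u (F z)]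
    ring

end Pool.Agent.H24.PG
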