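import Pool.Agent.H24.PG.PerB
import Pool.Agent.H24.PG.Lin

/-!
# Module StL (about 150 lines): elementary properties of a strip map

PROOF. `w_lip`: mean value inequality on the convex set `HH` (`Convex.norm_image_sub_le_of_norm_fderivWithin_le`, `unique_HH`, `h.dsmall`).
`w_im`: `|(w ζ).im| = |(w ζ).im - (w ζ.re).im| ≤ e1 * ‖ζ - ζ.re‖ = e1 * ζ.im` (`h.real`). `Ft_pos`: `ζ.im + (w ζ).im ≥ (1 - e1) ζ.im > 0`.
`Ft_near`: `fderivWithin (Ft w) = id + fderivWithin w` (`fderivWithin_fun_add`, `unique_HH`). `Ft_det`: `det_pos_of_id`, `e1 ≤ 1/4`.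
`w_min`: `h.asy`: for `im ≥ Y` large `‖w ζ - 1/Q‖ ≤ 1/(2Q)`, so `‖w ζ‖ ≥ 1/(2Q)`; below use `per_min` (`h.per`, `h.ne`).
`w_far`: `h.asy` and `Real.exp (- 2 π Y) → 0`.
`g_per`: `Ft w (g ζ + 1) = Ft w (g ζ) + 1 = ζ + 1` (`h.per`) and apply `g`. `g_real`: `(g ζ).im > 0` would give `ζ.im = (Ft w (g ζ)).im > 0`.
`g_pos`: `(g ζ).im = 0` would give `ζ.im = 0`. `g_det`: differentiate `Ft w (g ζ) = ζ` within `HH` (`HasFDerivWithinAt.comp`,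
`UniqueDiffWithinAt.eq`), so `det (D Ft) * det (D g) = 1` (`det_comp`).
-/

open Set

namespace Pool.Agent.H24.PG

variable {m Q : ℕ} {e1 : ℝ} {w g : ℂ → ℂ}

theorem w_lip (h : Strip m Q e1 w g) {ζ ζ' : ℂ} (h1 : ζ ∈ HH) (h2 : ζ' ∈ HH) :
    ‖w ζ - w ζ'‖ ≤ e1 * ‖ζ - ζ'‖ := by
  have hd : DifferentiableOn ℝ w HH := h.smooth.differentiableOn (by
    have := h.hm
    norm_cast
    omega)
  exact convex_HH.norm_image_sub_le_of_norm_fderivWithin_le hd h.dsmall h2 h1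

theorem w_im (h : Strip m Q e1 w g) {ζ : ℂ} (hζ : ζ ∈ HH) : |(w ζ).im| ≤ e1 * ζ.im := by
  have h0 : ((ζ.re : ℝ) : ℂ) ∈ HH := by
    show 0 ≤ (((ζ.re : ℝ) : ℂ)).im
    rw [Complex.ofReal_im]
  have h1 := w_lip h hζ h0
  have h2 : (w ((ζ.re : ℝ) : ℂ)).im = 0 := h.real _ (Complex.ofReal_im _)
  have h3 : ‖ζ - ((ζ.re : ℝ) : ℂ)‖ = ζ.im := by
    have h4 : ζ - ((ζ.re : ℝ) : ℂ) = ((ζ.im : ℝ) : ℂ) * Complex.I := by
      apply Complex.ext <;> simp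
    rw [h4, norm_mul, Complex.norm_I, mul_one, Complex.norm_real, Real.norm_of_nonneg hζ]
  rw [h3] at h1
  have h5 : |(w ζ - w ((ζ.re : ℝ) : ℂ)).im| ≤ ‖w ζ - w ((ζ.re : ℝ) : ℂ)‖ :=
    Complex.abs_im_le_norm _
  rw [Complex.sub_im, h2, sub_zero] at h5
  exact h5.trans h1

theorem Ft_smooth (h : Strip m Q e1 w g) : ContDiffOn ℝ m (Ft w) HH := by
  have h1 : ContDiffOn ℝ m (fun ζ : ℂ => ζ) HH := contDiff_id.contDiffOn
  exact h1.add h.smooth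

theorem Ft_add_one (h : Strip m Q e1 w g) (ζ : ℂ) : Ft w (ζ + 1) = Ft w ζ + 1 := by
  unfold Ft
  rw [h.per]
  ring

theorem Ft_real (h : Strip m Q e1 w g) {ζ : ℂ} (hζ : ζ.im = 0) : (Ft w ζ).im = 0 := by
  unfold Ft
  rw [Complex.add_im, hζ, h.real ζ hζ, add_zero]

theorem Ft_pos (h : Strip m Q e1 w g) {ζ : ℂ} (hζ : 0 < ζ.im) : 0 < (Ft w ζ).im := by
  have h1 := w_im h (ζ := ζ) hζ.le
  have h2 := (abs_le.1 h1).1
  have h3 := h.e2
  have h4 := h.e0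
  unfold Ft
  rw [Complex.add_im]
  nlinarith

theorem Ft_near (h : Strip m Q e1 w g) {ζ : ℂ} (hζ : ζ ∈ HH) (u : ℂ) :
    fderivWithin ℝ (Ft w) HH ζ u = u + fderivWithin ℝ w HH ζ u ∧
    ‖fderivWithin ℝ w HH ζ u‖ ≤ e1 * ‖u‖ := by
  have hd : DifferentiableWithinAt ℝ w HH ζ := h.smooth.differentiableOn (by
    have := h.hm
    norm_cast
    omega) ζ hζ
  refine ⟨?_, ?_⟩
  · have h1 : HasFDerivWithinAt (Ft w) (ContinuousLinearMap.id ℝ ℂ + fderivWithin ℝ w HH ζ)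
        HH ζ := (hasFDerivWithinAt_id ζ HH).add hd.hasFDerivWithinAt
    rw [h1.fderivWithin (unique_HH ζ hζ)]
    rfl
  · exact ContinuousLinearMap.le_of_opNorm_le _ (h.dsmall ζ hζ) u

theorem Ft_det (h : Strip m Q e1 w g) {ζ : ℂ} (hζ : ζ ∈ HH) :
    0 < (fderivWithin ℝ (Ft w) HH ζ).det := by
  apply det_pos_of_id
  intro u
  obtain ⟨h1, h2⟩ := Ft_near h hζ u
  rw [h1, add_sub_cancel_left]
  refine h2.trans (mul_le_mul_of_nonneg_right ?_ (norm_nonneg _))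
  have := h.e2
  linarith

theorem w_far (h : Strip m Q e1 w g) {ε : ℝ} (hε : 0 < ε) :
    ∃ Y : ℝ, 1 ≤ Y ∧ ∀ ζ ∈ HH, Y ≤ ζ.im → ‖w ζ - 1 / Q‖ ≤ ε := by
  obtain ⟨C, hC⟩ := h.asy
  have h0 : Filter.Tendsto (fun Y : ℝ => (|C| + 1) * Real.exp (-(2 * Real.pi * Y))) Filter.atTop
      (nhds ((|C| + 1) * 0)) := by
    apply Filter.Tendsto.const_mul
    apply Real.tendsto_exp_neg_atTop_nhds_zero.comp
    exact Filter.tendsto_id.const_mul_atTop Real.two_pi_pos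
  rw [mul_zero] at h0
  obtain ⟨Y, hY1, hY2⟩ := ((h0.eventually (gt_mem_nhds hε)).and
    (Filter.eventually_ge_atTop (1 : ℝ))).exists
  refine ⟨Y, hY2, fun ζ hζ hY => ?_⟩
  refine (hC ζ hζ).trans ?_
  have h1 : Real.exp (-(2 * Real.pi * ζ.im)) ≤ Real.exp (-(2 * Real.pi * Y)) := by
    apply Real.exp_le_exp.2
    have := Real.two_pi_pos
    nlinarith
  have h2 : C * Real.exp (-(2 * Real.pi * ζ.im)) ≤
      (|C| + 1) * Real.exp (-(2 * Real.pi * Y)) := by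
    apply mul_le_mul _ h1 (Real.exp_pos _).le (by positivity)
    linarith [le_abs_self C]
  exact h2.trans hY1.le

theorem w_min (h : Strip m Q e1 w g) : ∃ δ : ℝ, 0 < δ ∧ ∀ ζ ∈ HH, δ ≤ ‖w ζ‖ := by
  have hQ : (0 : ℝ) < Q := by
    have := h.hQ
    exact_mod_cast (by omega : 0 < Q)
  obtain ⟨Y, _, hY⟩ := w_far h (ε := 1 / (2 * Q)) (by positivity)
  obtain ⟨δ, hδ, hδ'⟩ := per_min h.smooth.continuousOn (fun ζ _ => h.per ζ) h.ne Y
  refine ⟨min δ (1 / (2 * Q)), lt_min hδ (by positivity), fun ζ hζ => ?_⟩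
  rcases le_or_gt ζ.im Y with h1 | h1
  · exact (min_le_left _ _).trans (hδ' ζ hζ h1)
  · refine (min_le_right _ _).trans ?_
    have h2 := hY ζ hζ h1.le
    have h3 : ‖(1 / Q : ℂ)‖ = 1 / Q := by
      rw [norm_div, norm_one, Complex.norm_natCast]
    have h4 : ‖(1 / Q : ℂ)‖ ≤ ‖w ζ‖ + ‖w ζ - 1 / Q‖ := by
      have h5 : (1 / Q : ℂ) = w ζ - (w ζ - 1 / Q) := by ring
      calc ‖(1 / Q : ℂ)‖ = ‖w ζ - (w ζ - 1 / Q)‖ := by rw [← h5]
        _ ≤ _ := norm_sub_le _ _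
    rw [h3] at h4
    have h6 : (1 : ℝ) / Q = 1 / (2 * Q) + 1 / (2 * Q) := by
      field_simp
      norm_num
    linarith

theorem g_per (h : Strip m Q e1 w g) {ζ : ℂ} (hζ : ζ ∈ HH) : g (ζ + 1) = g ζ + 1 := by
  have h1 : Ft w (g ζ + 1) = ζ + 1 := by rw [Ft_add_one h, h.gr ζ hζ]
  have h2 : g ζ + 1 ∈ HH := by
    have h3 : 0 ≤ (g ζ).im := h.gmaps ζ hζ
    show 0 ≤ (g ζ + 1).im
    rw [Complex.add_im, Complex.one_im, add_zero]
    exact h3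
  have h4 := h.gl (g ζ + 1) h2
  rw [h1] at h4
  exact h4

theorem g_real (h : Strip m Q e1 w g) {ζ : ℂ} (hζ : ζ.im = 0) : (g ζ).im = 0 := by
  have h0 : ζ ∈ HH := by
    show 0 ≤ ζ.im
    rw [hζ]
  have h1 : 0 ≤ (g ζ).im := h.gmaps ζ h0
  rcases h1.lt_or_eq with h2 | h2
  · have h3 := Ft_pos h h2
    rw [h.gr ζ h0, hζ] at h3
    exact absurd h3 (lt_irrefl _)
  · exact h2.symm

theorem g_pos (h : Strip m Q e1 w g) {ζ : ℂ} (hζ : 0 < ζ.im) : 0 < (g ζ).im := by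
  have h0 : ζ ∈ HH := hζ.le
  have h1 : 0 ≤ (g ζ).im := h.gmaps ζ h0
  rcases h1.lt_or_eq with h2 | h2
  · exact h2
  · have h3 := Ft_real h h2.symm
    rw [h.gr ζ h0] at h3
    exact absurd hζ (by rw [h3]; exact lt_irrefl _)

theorem g_det (h : Strip m Q e1 w g) {ζ : ℂ} (hζ : ζ ∈ HH) :
    0 < (fderivWithin ℝ g HH ζ).det := by
  have hm1 : ((1 : ℕ) : WithTop ℕ∞) ≤ (m : WithTop ℕ∞) := by
    have := h.hm
    norm_cast
    omega
  have hd : DifferentiableWithinAt ℝ g HH ζ := (h.gsmooth.of_le hm1).differentiableOn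
    (by norm_num) ζ hζ
  have hd' : DifferentiableWithinAt ℝ (Ft w) HH (g ζ) :=
    ((Ft_smooth h).of_le hm1).differentiableOn (by norm_num) (g ζ) (h.gmaps ζ hζ)
  have h1 : HasFDerivWithinAt (fun x => Ft w (g x))
      ((fderivWithin ℝ (Ft w) HH (g ζ)).comp (fderivWithin ℝ g HH ζ)) HH ζ :=
    hd'.hasFDerivWithinAt.comp ζ hd.hasFDerivWithinAt (fun x hx => h.gmaps x hx)
  have h2 : HasFDerivWithinAt (fun x => Ft w (g x)) (ContinuousLinearMap.id ℝ ℂ) HH ζ :=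
    (hasFDerivWithinAt_id ζ HH).congr (fun x hx => h.gr x hx) (h.gr ζ hζ)
  have h3 := (unique_HH ζ hζ).eq h1 h2
  have h4 := congrArg ContinuousLinearMap.det h3
  rw [det_comp] at h4
  have h5 : (ContinuousLinearMap.id ℝ ℂ).det = 1 := by
    rw [det_eq_om]
    simp [om]
  rw [h5] at h4
  have h6 := Ft_det h (h.gmaps ζ hζ)
  by_contra h7
  have h8 := mul_nonpos_of_nonneg_of_nonpos h6.le (not_lt.1 h7)
  rw [h4] at h8
  linarith

end Pool.Agent.H24.PG
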