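import Pool.Agent.H24.PG.EeL

/-!
# Module W2 (about 130 lines): smoothness and derivative of the displacement of the lift

PROOF. `lw_smooth`: `F ∘ ee` is `C^m` on `HH` (`ContDiffOn.comp`, `ee_mem`, `contDiff_ee`), `F (ee ζ) / ee ζ` is `C^m`
(`ContDiffOn.div`) with values in the ball of radius `1/100` about `1`, inside `Complex.slitPlane`; `Complex.log` is smooth there
(`Complex.contDiffAt_log`, restricted to real scalars: `ContDiffAt.restrict_scalars`).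
`lw_deriv`: chain rule within `HH`: with `z = ee ζ`, `A = fderivWithin ℝ F D z`:
`d (F (ee ζ)) (u) = A (2 π I z u)`, `d log x (v) = v / x`, `x = F z / z`, so
`2 π I * dw (u) = A (2 π I z u) / F z - 2 π I u`. Use `HasFDerivWithinAt` throughout and `unique_HH` at the end
(`HasFDerivWithinAt.fderivWithin`).
-/

open Set

namespace Pool.Agent.H24.PG

variable {F : ℂ → ℂ} {κ : ℝ} {m : ℕ}

private theorem w2_slit (hF : ∀ z ∈ D, ‖F z - z‖ ≤ κ * ‖z‖) (hκ : κ ≤ 1 / 100) {ζ : ℂ}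
    (hζ : ζ ∈ HH) : F (ee ζ) / ee ζ ∈ Complex.slitPlane := by
  have h0 : ee ζ ≠ 0 := ee_ne ζ
  have h1 := hF (ee ζ) (ee_mem hζ)
  have hn : 0 < ‖ee ζ‖ := norm_pos_iff.mpr h0
  have h2 : ‖F (ee ζ) / ee ζ - 1‖ < 1 := by
    have e : F (ee ζ) / ee ζ - 1 = (F (ee ζ) - ee ζ) / ee ζ := by
      rw [sub_div, div_self h0]
    rw [e, norm_div, div_lt_iff₀ hn]
    nlinarith
  have h3 : F (ee ζ) / ee ζ = 1 + (F (ee ζ) / ee ζ - 1) := by ring
  rw [h3]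
  exact Complex.mem_slitPlane_of_norm_lt_one h2

private theorem w2_div (ζ : ℂ) : F (ee ζ) / ee ζ = F (ee ζ) * ee (-ζ) := by
  have h : ee ζ * ee (-ζ) = 1 := by rw [← ee_add, add_neg_cancel, ee_zero]
  rw [div_eq_mul_inv, eq_inv_of_mul_eq_one_right h]

theorem lw_smooth (hF : ∀ z ∈ D, ‖F z - z‖ ≤ κ * ‖z‖) (hκ : κ ≤ 1 / 100)
    (hs : ContDiffOn ℝ m F D) : ContDiffOn ℝ m (lw F) HH := by
  have h1 : ContDiffOn ℝ m (fun ζ => F (ee ζ)) HH :=
    hs.comp (contDiff_ee m).contDiffOn (fun ζ h => ee_mem h)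
  have h2 : ContDiffOn ℝ m (fun ζ => F (ee ζ) / ee ζ) HH :=
    (h1.mul ((contDiff_ee m).comp contDiff_neg).contDiffOn).congr fun ζ _ => w2_div ζ
  have h3 : ContDiffOn ℝ m (fun ζ => Complex.log (F (ee ζ) / ee ζ)) HH := by
    intro ζ hζ
    have h4 : ContDiffAt ℝ m Complex.log (F (ee ζ) / ee ζ) :=
      (Complex.contDiffAt_log (w2_slit hF hκ hζ)).restrict_scalars ℝ
    exact h4.comp_contDiffWithinAt ζ (h2 ζ hζ)
  exact h3.div_const _

private theorem w2_diff (hF : ∀ z ∈ D, ‖F z - z‖ ≤ κ * ‖z‖) (hκ : κ ≤ 1 / 100)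
    (hs : DifferentiableOn ℝ F D) {ζ : ℂ} (hζ : ζ ∈ HH) :
    DifferentiableWithinAt ℝ (lw F) HH ζ := by
  obtain ⟨E, hE, -⟩ := hasFDerivAt_ee ζ
  have h1 : DifferentiableWithinAt ℝ (fun ζ => F (ee ζ)) HH ζ :=
    (hs (ee ζ) (ee_mem hζ)).comp ζ hE.differentiableAt.differentiableWithinAt
      (fun ζ h => ee_mem h)
  have h5 : DifferentiableAt ℝ (fun ζ => ee (-ζ)) ζ :=
    ((contDiff_ee 1).differentiable one_ne_zero).differentiableAt.comp ζ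
      differentiableAt_id.neg
  have h2 : DifferentiableWithinAt ℝ (fun ζ => F (ee ζ) / ee ζ) HH ζ :=
    (h1.mul h5.differentiableWithinAt).congr (fun ζ _ => w2_div ζ) (w2_div ζ)
  have h4 : DifferentiableAt ℝ Complex.log (F (ee ζ) / ee ζ) :=
    ((Complex.contDiffAt_log (n := 1) (w2_slit hF hκ hζ)).restrict_scalars ℝ).differentiableAt
      one_ne_zero
  have h3 : DifferentiableWithinAt ℝ (fun ζ => Complex.log (F (ee ζ) / ee ζ)) HH ζ :=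
    DifferentiableAt.comp_differentiableWithinAt (g := Complex.log)
      (f := fun ζ => F (ee ζ) / ee ζ) ζ h4 h2
  have h6 := h3.mul_const ((2 * Real.pi * Complex.I)⁻¹)
  exact h6

private theorem w2_key (hF : ∀ z ∈ D, ‖F z - z‖ ≤ κ * ‖z‖) (hκ : κ ≤ 1 / 100) {ζ : ℂ}
    (hζ : ζ ∈ HH) : ee (lw F ζ + ζ) = F (ee ζ) := by
  have h0 : ee ζ ≠ 0 := ee_ne ζ
  have h1 : F (ee ζ) / ee ζ ≠ 0 := Complex.slitPlane_ne_zero (w2_slit hF hκ hζ)
  rw [ee_add, lw, ee_log h1, div_mul_cancel₀ _ h0]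

theorem lw_deriv (hF : ∀ z ∈ D, ‖F z - z‖ ≤ κ * ‖z‖) (hκ : κ ≤ 1 / 100)
    (hs : DifferentiableOn ℝ F D) {ζ : ℂ} (hζ : ζ ∈ HH) (u : ℂ) :
    2 * Real.pi * Complex.I * F (ee ζ) * fderivWithin ℝ (lw F) HH ζ u =
      fderivWithin ℝ F D (ee ζ) (2 * Real.pi * Complex.I * ee ζ * u) -
        2 * Real.pi * Complex.I * u * F (ee ζ) := by
  obtain ⟨E, hE, hEu⟩ := hasFDerivAt_ee ζ
  obtain ⟨E', hE', hEu'⟩ := hasFDerivAt_ee (lw F ζ + ζ)
  have hw := (w2_diff hF hκ hs hζ).hasFDerivWithinAt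
  have h1 : HasFDerivWithinAt (fun ζ => lw F ζ + ζ)
      (fderivWithin ℝ (lw F) HH ζ + ContinuousLinearMap.id ℝ ℂ) HH ζ :=
    hw.add (hasFDerivWithinAt_id ζ HH)
  have h2 : HasFDerivWithinAt (fun ζ => ee (lw F ζ + ζ))
      (E'.comp (fderivWithin ℝ (lw F) HH ζ + ContinuousLinearMap.id ℝ ℂ)) HH ζ :=
    HasFDerivAt.comp_hasFDerivWithinAt (g := ee) (f := fun ζ => lw F ζ + ζ) ζ hE' h1
  have hA := (hs (ee ζ) (ee_mem hζ)).hasFDerivWithinAt
  have h3 : HasFDerivWithinAt (fun ζ => F (ee ζ))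
      ((fderivWithin ℝ F D (ee ζ)).comp E) HH ζ :=
    hA.comp ζ hE.hasFDerivWithinAt (fun ζ h => ee_mem h)
  have h4 : HasFDerivWithinAt (fun ζ => ee (lw F ζ + ζ))
      ((fderivWithin ℝ F D (ee ζ)).comp E) HH ζ :=
    h3.congr (fun ξ hξ => w2_key hF hκ hξ) (w2_key hF hκ hζ)
  have h5 := (unique_HH ζ hζ).eq h2 h4
  have h6 := congrArg (fun L : ℂ →L[ℝ] ℂ => L u) h5
  simp only [ContinuousLinearMap.comp_apply, add_apply,
    ContinuousLinearMap.id_apply, hEu, hEu', w2_key hF hκ hζ] at h6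
  rw [← h6]
  ring

end Pool.Agent.H24.PG
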