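import Pool.Agent.H24.PG.W0
import Pool.Agent.H24.PG.W2

/-!
# Module W3 (about 170 lines): bounds and asymptotics of the displacement

PROOF. Let `z = ee ζ`, `A = fderivWithin ℝ F D z`, `‖z‖ = exp (- 2 π ζ.im)`, `‖F z‖ ≥ (1 - η) ‖z‖`.
`lw_dsmall`: by `lw_deriv` the left side is `(A - id) (2 π I z u) - 2 π I u (F z - z)` of norm at most `4 π η ‖z‖ ‖u‖`; divide by
`2 π ‖F z‖ ≥ 2 π (1 - η) ‖z‖`: at most `3 η ‖u‖`.
`taylor`: `z ↦ fderivWithin ℝ F D z` is `C^1` on the compact convex `D` (`m ≥ 2`), so Lipschitz with some constant `C`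
(`ContDiffOn` of order one on a compact convex set; bound the continuous derivative on the compact set and use
`Convex.norm_image_sub_le_of_norm_fderivWithin_le`), so `‖A u - a u‖ ≤ C ‖z‖ ‖u‖`, `a = ee (1/Q)` (`der0`); then
`z ↦ F z - a z` has derivative of norm at most `C ‖z‖` and vanishes at `0`: `‖F z - a z‖ ≤ C ‖z‖ ^ 2` (mean value on the segment
`[0, z]`, or on the convex set `D ∩ closedBall 0 ‖z‖`).
`lw_asy`: `F z / z` and `a` are within `1/2` of `1` (`‖a - 1‖ ≤ η` from `near` at `0` applied to `1`) and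
`‖F z / z - a‖ ≤ C ‖z‖`; `log a = 2 π I / Q` (`Complex.log_exp`, `0 < 2 π / Q ≤ π`); `log_bound`.
`lw_dasy`: the left side of `lw_deriv` is `(A - a) (2 π I z u) + 2 π I u (a z - F z)`, norm at most `4 π C ‖z‖ ^ 2 ‖u‖`.
-/

open Set

namespace Pool.Agent.H24.PG

variable {m Q : ℕ} {η : ℝ} {F Fi : ℂ → ℂ}

private theorem w3_diff (h : DiscMap m Q η F Fi) : DifferentiableOn ℝ F D :=
  h.smooth.differentiableOn (by
    have := h.hm
    exact_mod_cast (by omega : m ≠ 0))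

private theorem w3_two_pi (u : ℂ) : ‖2 * Real.pi * Complex.I * u‖ = 2 * Real.pi * ‖u‖ := by
  rw [norm_mul, norm_mul, norm_mul, Complex.norm_I, Complex.norm_real, Complex.norm_ofNat,
    Real.norm_of_nonneg Real.pi_pos.le, mul_one]

private theorem w3_low (h : DiscMap m Q η F Fi) {z : ℂ} (hz : z ∈ D) :
    (1 - η) * ‖z‖ ≤ ‖F z‖ := by
  have h1 := near_F h hz
  have h2 : ‖z‖ ≤ ‖F z‖ + ‖F z - z‖ := by
    calc ‖z‖ = ‖F z - (F z - z)‖ := by congr 1; ring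
      _ ≤ _ := norm_sub_le _ _
  linarith

theorem lw_dsmall (h : DiscMap m Q η F Fi) {ζ : ℂ} (hζ : ζ ∈ HH) :
    ‖fderivWithin ℝ (lw F) HH ζ‖ ≤ 3 * η := by
  have hη0 := h.η0
  have hη1 := h.η1
  have hη : η ≤ 1 / 100 := hη1.trans (by norm_num)
  refine ContinuousLinearMap.opNorm_le_bound _ (by positivity) fun u => ?_
  have hzD : ee ζ ∈ D := ee_mem hζ
  have h1 := lw_deriv (fun z hz => near_F h hz) hη (w3_diff h) hζ u
  set z := ee ζ with hz
  set A := fderivWithin ℝ F D z with hA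
  set X := fderivWithin ℝ (lw F) HH ζ u with hX
  have hz0 : 0 < ‖z‖ := norm_pos_iff.2 (ee_ne ζ)
  have h2 : 2 * Real.pi * Complex.I * F z * X =
      (A - ContinuousLinearMap.id ℝ ℂ) (2 * Real.pi * Complex.I * z * u) -
        2 * Real.pi * Complex.I * (u * (F z - z)) := by
    rw [h1, sub_apply, ContinuousLinearMap.id_apply]
    ring
  have h3 : ‖2 * Real.pi * Complex.I * F z * X‖ = 2 * Real.pi * (‖F z‖ * ‖X‖) := by
    rw [mul_assoc _ (F z), w3_two_pi, norm_mul]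
  have h4 : ‖(A - ContinuousLinearMap.id ℝ ℂ) (2 * Real.pi * Complex.I * z * u) -
      2 * Real.pi * Complex.I * (u * (F z - z))‖ ≤ 2 * Real.pi * (2 * η * ‖z‖ * ‖u‖) := by
    refine (norm_sub_le _ _).trans ?_
    have h5 : ‖(A - ContinuousLinearMap.id ℝ ℂ) (2 * Real.pi * Complex.I * z * u)‖ ≤
        η * (2 * Real.pi * (‖z‖ * ‖u‖)) := by
      refine ((A - ContinuousLinearMap.id ℝ ℂ).le_opNorm _).trans ?_
      rw [mul_assoc _ z, w3_two_pi, norm_mul]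
      exact mul_le_mul_of_nonneg_right (h.near z hzD) (by positivity)
    have h6 : ‖2 * Real.pi * Complex.I * (u * (F z - z))‖ ≤ 2 * Real.pi * (‖u‖ * (η * ‖z‖)) := by
      rw [w3_two_pi, norm_mul]
      have := near_F h hzD
      gcongr
    linarith
  rw [← h2, h3] at h4
  have h7 : ‖F z‖ * ‖X‖ ≤ 2 * η * ‖z‖ * ‖u‖ :=
    le_of_mul_le_mul_left h4 (by positivity)
  have h8 := w3_low h hzD
  have h9 : (1 - η) * ‖z‖ * ‖X‖ ≤ 2 * η * ‖z‖ * ‖u‖ :=
    (mul_le_mul_of_nonneg_right h8 (norm_nonneg _)).trans h7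
  have h10 : ‖z‖ * ((1 - η) * ‖X‖) ≤ ‖z‖ * (2 * η * ‖u‖) := by linarith
  have h11 : (1 - η) * ‖X‖ ≤ 2 * η * ‖u‖ := le_of_mul_le_mul_left h10 hz0
  have hX0 := norm_nonneg X
  have hu0 := norm_nonneg u
  have h12 : 2 * η * ‖u‖ ≤ (1 - η) * (3 * η * ‖u‖) := by
    have : 0 ≤ η * ‖u‖ := by positivity
    nlinarith
  exact le_of_mul_le_mul_left (h11.trans h12) (by linarith)

theorem taylor (h : DiscMap m Q η F Fi) : ∃ C : ℝ, 0 ≤ C ∧ ∀ z ∈ D,
    ‖F z - ee (1 / Q) * z‖ ≤ C * ‖z‖ ^ 2 ∧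
    ∀ u : ℂ, ‖fderivWithin ℝ F D z u - ee (1 / Q) * u‖ ≤ C * ‖z‖ * ‖u‖ := by
  have h2 : ContDiffOn ℝ 2 F D := h.smooth.of_le (by exact_mod_cast h.hm)
  have h3 : ContDiffOn ℝ 1 (fderivWithin ℝ F D) D := h2.fderivWithin unique_D (by norm_num)
  have h4 : ContinuousOn (fderivWithin ℝ (fderivWithin ℝ F D) D) D :=
    h3.continuousOn_fderivWithin unique_D le_rfl
  obtain ⟨C, hC⟩ := IsCompact.exists_bound_of_continuousOn (E := ℂ →L[ℝ] ℂ →L[ℝ] ℂ)
    (isCompact_closedBall (0 : ℂ) 1) h4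
  have h0 : (0 : ℂ) ∈ D := Metric.mem_closedBall_self zero_le_one
  have hC0 : 0 ≤ C := (norm_nonneg _).trans (hC 0 h0)
  have hL : ∀ z ∈ D, ‖fderivWithin ℝ F D z - fderivWithin ℝ F D 0‖ ≤ C * ‖z‖ := by
    intro z hz
    have := Convex.norm_image_sub_le_of_norm_fderivWithin_le (𝕜 := ℝ) (f := fderivWithin ℝ F D)
      (h3.differentiableOn one_ne_zero) hC (convex_closedBall (0 : ℂ) 1) h0 hz
    rwa [sub_zero] at this
  have hF : ∀ z ∈ D, HasFDerivWithinAt F (fderivWithin ℝ F D z) D z := fun z hz =>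
    (h2.differentiableOn two_ne_zero z hz).hasFDerivWithinAt
  refine ⟨C, hC0, fun z hz => ⟨?_, fun u => ?_⟩⟩
  · have h5 := Convex.norm_image_sub_le_of_norm_hasFDerivWithin_le' (𝕜 := ℝ)
      (s := D ∩ Metric.closedBall 0 ‖z‖) (f := F) (f' := fun x => fderivWithin ℝ F D x)
      (φ := fderivWithin ℝ F D 0) (C := C * ‖z‖) (x := 0) (y := z)
      (fun x hx => (hF x hx.1).mono inter_subset_left)
      (fun x hx => (hL x hx.1).trans (mul_le_mul_of_nonneg_left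
        (mem_closedBall_zero_iff.1 hx.2) hC0))
      ((convex_closedBall _ _).inter (convex_closedBall _ _))
      ⟨h0, Metric.mem_closedBall_self (norm_nonneg z)⟩
      ⟨hz, mem_closedBall_zero_iff.2 le_rfl⟩
    rw [h.zero, sub_zero, sub_zero, h.der0] at h5
    calc _ ≤ C * ‖z‖ * ‖z‖ := h5
      _ = _ := by ring
  · rw [← h.der0 u, ← sub_apply]
    exact ((fderivWithin ℝ F D z - fderivWithin ℝ F D 0).le_opNorm u).trans
      (mul_le_mul_of_nonneg_right (hL z hz) (norm_nonneg u))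

theorem lw_asy (h : DiscMap m Q η F Fi) : ∃ C : ℝ, ∀ ζ ∈ HH,
    ‖lw F ζ - 1 / Q‖ ≤ C * Real.exp (-(2 * Real.pi * ζ.im)) := by
  obtain ⟨C, hC0, hC⟩ := taylor h
  refine ⟨C, fun ζ hζ => ?_⟩
  have hQ := h.hQ
  have hη1 := h.η1
  have hzD : ee ζ ∈ D := ee_mem hζ
  have hnz := norm_ee ζ
  rw [← hnz]
  set z := ee ζ with hz
  have hz0 : z ≠ 0 := ee_ne ζ
  have hzn : 0 < ‖z‖ := norm_pos_iff.2 hz0
  have h0 : (0 : ℂ) ∈ D := Metric.mem_closedBall_self zero_le_one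
  have hπ : (2 * Real.pi * Complex.I : ℂ) ≠ 0 := Complex.two_pi_I_ne_zero
  have hQc : (Q : ℂ) ≠ 0 := by
    exact_mod_cast (by omega : Q ≠ 0)
  have hlog : Complex.log (ee (1 / Q)) = 2 * Real.pi * Complex.I * (1 / Q) := by
    unfold ee
    have him : (2 * Real.pi * Complex.I * (1 / Q) : ℂ).im = 2 * Real.pi / Q := by
      have : (2 * Real.pi * Complex.I * (1 / Q) : ℂ) = ((2 * Real.pi / Q : ℝ) : ℂ) * Complex.I := by
        push_cast; ring
      rw [this, Complex.mul_I_im, Complex.ofReal_re]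
    have hQ2 : (2 : ℝ) ≤ Q := by exact_mod_cast hQ
    have hpos : 0 < 2 * Real.pi / Q := by positivity
    rw [Complex.log_exp]
    · rw [him]
      linarith [Real.pi_pos]
    · rw [him, div_le_iff₀ (by linarith)]
      nlinarith [Real.pi_pos]
  have ha : ‖ee (1 / Q) - 1‖ ≤ 1 / 2 := by
    have h1 := (fderivWithin ℝ F D 0 - ContinuousLinearMap.id ℝ ℂ).le_opNorm 1
    rw [sub_apply, ContinuousLinearMap.id_apply, h.der0, mul_one,
      norm_one, mul_one] at h1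
    linarith [h.near 0 h0]
  have hx : ‖F z / z - 1‖ ≤ 1 / 2 := by
    have h1 : F z / z - 1 = (F z - z) / z := by field_simp
    rw [h1, norm_div, div_le_iff₀ hzn]
    have := near_F h hzD
    nlinarith
  have hxa : ‖F z / z - ee (1 / Q)‖ ≤ C * ‖z‖ := by
    have h1 : F z / z - ee (1 / Q) = (F z - ee (1 / Q) * z) / z := by field_simp
    rw [h1, norm_div, div_le_iff₀ hzn]
    calc _ ≤ C * ‖z‖ ^ 2 := (hC z hzD).1
      _ = _ := by ring
  have e1 : lw F ζ - 1 / Q = (Complex.log (F z / z) - Complex.log (ee (1 / Q))) /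
      (2 * Real.pi * Complex.I) := by
    rw [hlog]
    change Complex.log (F z / z) / (2 * Real.pi * Complex.I) - 1 / Q = _
    field_simp
  rw [e1, norm_div]
  have e2 : ‖(2 * Real.pi * Complex.I : ℂ)‖ = 2 * Real.pi := by
    have := w3_two_pi 1
    rwa [mul_one, norm_one, mul_one] at this
  rw [e2, div_le_iff₀ (by positivity)]
  refine (log_bound hx ha).trans ?_
  have hπ3 := Real.pi_gt_three
  have : 0 ≤ C * ‖z‖ := by positivity
  nlinarith

theorem lw_dasy (h : DiscMap m Q η F Fi) : ∃ C : ℝ, ∀ ζ ∈ HH,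
    ‖fderivWithin ℝ (lw F) HH ζ‖ ≤ C * Real.exp (-(2 * Real.pi * ζ.im)) := by
  obtain ⟨C, hC0, hC⟩ := taylor h
  refine ⟨4 * C, fun ζ hζ => ?_⟩
  have hη0 := h.η0
  have hη1 := h.η1
  have hη : η ≤ 1 / 100 := hη1.trans (by norm_num)
  have hnz := norm_ee ζ
  rw [← hnz]
  refine ContinuousLinearMap.opNorm_le_bound _ (by positivity) fun u => ?_
  have hzD : ee ζ ∈ D := ee_mem hζ
  have h1 := lw_deriv (fun z hz => near_F h hz) hη (w3_diff h) hζ u
  set z := ee ζ with hz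
  set A := fderivWithin ℝ F D z with hA
  set X := fderivWithin ℝ (lw F) HH ζ u with hX
  have hz0 : 0 < ‖z‖ := norm_pos_iff.2 (ee_ne ζ)
  have h2 : 2 * Real.pi * Complex.I * F z * X =
      (A (2 * Real.pi * Complex.I * (z * u)) - ee (1 / Q) * (2 * Real.pi * Complex.I * (z * u))) -
        2 * Real.pi * Complex.I * (u * (F z - ee (1 / Q) * z)) := by
    rw [h1, mul_assoc _ z u]
    ring
  have h3 : ‖2 * Real.pi * Complex.I * F z * X‖ = 2 * Real.pi * (‖F z‖ * ‖X‖) := by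
    rw [mul_assoc _ (F z), w3_two_pi, norm_mul]
  have h4 : ‖(A (2 * Real.pi * Complex.I * (z * u)) -
      ee (1 / Q) * (2 * Real.pi * Complex.I * (z * u))) -
        2 * Real.pi * Complex.I * (u * (F z - ee (1 / Q) * z))‖ ≤
      2 * Real.pi * (2 * C * ‖z‖ ^ 2 * ‖u‖) := by
    refine (norm_sub_le _ _).trans ?_
    have h5 := (hC z hzD).2 (2 * Real.pi * Complex.I * (z * u))
    rw [w3_two_pi, norm_mul] at h5
    have h6 : ‖2 * Real.pi * Complex.I * (u * (F z - ee (1 / Q) * z))‖ ≤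
        2 * Real.pi * (‖u‖ * (C * ‖z‖ ^ 2)) := by
      rw [w3_two_pi, norm_mul]
      have := (hC z hzD).1
      gcongr
    calc _ ≤ C * ‖z‖ * (2 * Real.pi * (‖z‖ * ‖u‖)) + 2 * Real.pi * (‖u‖ * (C * ‖z‖ ^ 2)) :=
          add_le_add h5 h6
      _ = _ := by ring
  rw [← h2, h3] at h4
  have h7 : ‖F z‖ * ‖X‖ ≤ 2 * C * ‖z‖ ^ 2 * ‖u‖ :=
    le_of_mul_le_mul_left h4 (by positivity)
  have h8 := w3_low h hzD
  have h8' : 1 / 2 * ‖z‖ ≤ ‖F z‖ := by nlinarith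
  have h9 : 1 / 2 * ‖z‖ * ‖X‖ ≤ 2 * C * ‖z‖ ^ 2 * ‖u‖ :=
    (mul_le_mul_of_nonneg_right h8' (norm_nonneg _)).trans h7
  have h10 : (1 / 2 * ‖z‖) * ‖X‖ ≤ (1 / 2 * ‖z‖) * (4 * C * ‖z‖ * ‖u‖) := by
    calc _ ≤ 2 * C * ‖z‖ ^ 2 * ‖u‖ := h9
      _ = _ := by ring
  exact le_of_mul_le_mul_left h10 (by positivity)

end Pool.Agent.H24.PG
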