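import Pool.Agent.H24.PG.W1
import Pool.Agent.H24.PG.W3

/-!
# Module W4 (about 150 lines): the `Q`-th iterate of the lift is the translation by `1`

PROOF. `lift_iter`: `ee ((Ft w)^[k] ζ) = F^[k] (ee ζ)` (induction, `lw_spec`), so `N ζ = (Ft w)^[Q] ζ - ζ` is an integer for every
`ζ ∈ HH` (`per`, `ee_eq_iff`). `N` is continuous on the convex set `HH` and integer valued, so constant
(`IsPreconnected.constant` for the integer valued function `round (N ζ).re`, or: `IsPreconnected.image` is a preconnected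
subset of the integers, a subsingleton). For `ζ = I y`, `y → ∞`: `‖N ζ - 1‖ ≤ ∑_{k<Q} ‖w (Ft^k ζ) - 1/Q‖ ≤ Q C exp (- 2 π (y - Q))`
(`(Ft^k ζ).im ≥ y - k/100`, `lw_norm`), which is less than `1` for large `y`, so `N = 1`.
`lift_ne`: `w ζ = 0` gives `(Ft w)^[Q] ζ = ζ`.
`lift_pos`: on the real line `w` is real (`lw_real`, with `lt_F`: `‖z‖ = 1` gives `‖F z‖ = 1`), continuous, without zero, so of constant
sign (intermediate value theorem); if `w x ≤ 0` for one real `x` then `w < 0` on the whole real line, and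
`(Ft w)^[Q] x = x + ∑ w (..) < x`, contradiction with `lift_iter`.
-/

open Set

namespace Pool.Agent.H24.PG

variable {m Q : ℕ} {η : ℝ} {F Fi : ℂ → ℂ}

private theorem w4_near (h : DiscMap m Q η F Fi) :
    ∀ z ∈ D, ‖F z - z‖ ≤ η * ‖z‖ := fun _ hz => near_F h hz

private theorem w4_eta (h : DiscMap m Q η F Fi) : η ≤ 1 / 100 := h.η1.trans (by norm_num)

private theorem w4_maps (h : DiscMap m Q η F Fi) {ζ : ℂ} (hζ : ζ ∈ HH) (k : ℕ) :
    (Ft (lw F))^[k] ζ ∈ HH := by
  induction k with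
  | zero => exact hζ
  | succ k ih =>
    rw [Function.iterate_succ_apply']
    exact lw_maps (w4_near h) (w4_eta h) h.maps ih

private theorem w4_ee (h : DiscMap m Q η F Fi) {ζ : ℂ} (hζ : ζ ∈ HH) (k : ℕ) :
    ee ((Ft (lw F))^[k] ζ) = F^[k] (ee ζ) := by
  induction k with
  | zero => rfl
  | succ k ih =>
    rw [Function.iterate_succ_apply', Function.iterate_succ_apply',
      lw_spec (w4_near h) (w4_eta h) (w4_maps h hζ k), ih]

private theorem w4_int (h : DiscMap m Q η F Fi) {ζ : ℂ} (hζ : ζ ∈ HH) :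
    ∃ n : ℤ, (Ft (lw F))^[Q] ζ = ζ + n := by
  rw [← ee_eq_iff, w4_ee h hζ, h.per _ (ee_mem hζ)]

private theorem w4_contw (h : DiscMap m Q η F Fi) : ContinuousOn (lw F) HH :=
  (lw_smooth (w4_near h) (w4_eta h) h.smooth).continuousOn

private theorem w4_cont (h : DiscMap m Q η F Fi) (k : ℕ) :
    ContinuousOn ((Ft (lw F))^[k]) HH := by
  induction k with
  | zero => exact continuousOn_id
  | succ k ih =>
    rw [Function.iterate_succ']
    have h1 : ContinuousOn (Ft (lw F)) HH := continuousOn_id.add (w4_contw h)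
    exact h1.comp ih fun ζ hζ => w4_maps h hζ k

private theorem w4_sum (w : ℂ → ℂ) (ζ : ℂ) (k : ℕ) :
    (Ft w)^[k] ζ = ζ + ∑ i ∈ Finset.range k, w ((Ft w)^[i] ζ) := by
  induction k with
  | zero => simp
  | succ k ih =>
    rw [Function.iterate_succ_apply', Finset.sum_range_succ, ← add_assoc, ← ih]
    rfl

private theorem w4_im (h : DiscMap m Q η F Fi) {ζ : ℂ} (hζ : ζ ∈ HH) (k : ℕ) :
    ζ.im - k ≤ ((Ft (lw F))^[k] ζ).im := by
  induction k with
  | zero => simp
  | succ k ih =>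
    rw [Function.iterate_succ_apply']
    have h1 := lw_norm (w4_near h) (w4_eta h) (w4_maps h hζ k)
    have h2 := (Complex.abs_im_le_norm (lw F ((Ft (lw F))^[k] ζ)))
    have h3 := (abs_le.1 h2).1
    have h4 := w4_eta h
    unfold Ft at *
    rw [Complex.add_im]
    push_cast
    linarith

private theorem w4_const {S : Set ℝ} (hS : IsPreconnected S) (hi : ∀ x ∈ S, ∃ n : ℤ, x = n)
    {x y : ℝ} (hx : x ∈ S) (hy : y ∈ S) : x = y := by
  have key : ∀ x ∈ S, ∀ y ∈ S, ¬ x < y := by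
    intro x hx y hy hxy
    obtain ⟨a, ha⟩ := hi x hx
    obtain ⟨b, hb⟩ := hi y hy
    have hab : a < b := by
      rw [ha, hb] at hxy
      exact_mod_cast hxy
    have hab' : (a : ℝ) + 1 ≤ b := by exact_mod_cast hab
    have h1 : (a : ℝ) + 1 / 2 ∈ S :=
      hS.ordConnected.out hx hy ⟨by rw [ha]; linarith, by rw [hb]; linarith⟩
    obtain ⟨c, hc⟩ := hi _ h1
    have h2 : (2 : ℝ) * a + 1 = 2 * c := by linarith
    have h3 : 2 * a + 1 = 2 * c := by exact_mod_cast h2
    omega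
  exact le_antisymm (not_lt.1 (key y hy x hx)) (not_lt.1 (key x hx y hy))

theorem lift_iter (h : DiscMap m Q η F Fi) {ζ : ℂ} (hζ : ζ ∈ HH) : (Ft (lw F))^[Q] ζ = ζ + 1 := by
  obtain ⟨C, hC⟩ := lw_asy h
  have hQ0 : (0 : ℝ) < Q := by exact_mod_cast (by have := h.hQ; omega : 0 < Q)
  -- a point far up
  set y : ℝ := Q + Q * |C| with hy
  have hy0 : 0 ≤ y := by positivity
  have hyH : Complex.I * y ∈ HH := by
    change 0 ≤ (Complex.I * y).im
    simpa using hy0
  have him : (Complex.I * (y : ℂ)).im = y := by simp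
  have hfar : ‖((Ft (lw F))^[Q] (Complex.I * y) - Complex.I * y) - 1‖ < 1 := by
    rw [w4_sum, add_sub_cancel_left]
    have e1 : (1 : ℂ) = ∑ _i ∈ Finset.range Q, (1 / Q : ℂ) := by
      rw [Finset.sum_const, Finset.card_range, nsmul_eq_mul]
      have : (Q : ℂ) ≠ 0 := by exact_mod_cast hQ0.ne'
      field_simp
    have e2 : ∑ i ∈ Finset.range Q, lw F ((Ft (lw F))^[i] (Complex.I * y)) - 1 =
        ∑ i ∈ Finset.range Q, (lw F ((Ft (lw F))^[i] (Complex.I * y)) - 1 / Q) := by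
      rw [Finset.sum_sub_distrib, ← e1]
    rw [e2]
    have h1 : ∀ i ∈ Finset.range Q, ‖lw F ((Ft (lw F))^[i] (Complex.I * y)) - 1 / Q‖ ≤
        |C| * Real.exp (-(2 * Real.pi * (Q * |C|))) := by
      intro i hi
      have hiQ : (i : ℝ) ≤ Q := by exact_mod_cast (Finset.mem_range.1 hi).le
      refine (hC _ (w4_maps h hyH i)).trans ?_
      have h2 := w4_im h hyH i
      rw [him] at h2
      have h3 : Q * |C| ≤ ((Ft (lw F))^[i] (Complex.I * y)).im := by linarith
      have hpi := Real.pi_pos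
      refine mul_le_mul (le_abs_self C) (Real.exp_le_exp.2 ?_) (Real.exp_pos _).le (abs_nonneg C)
      have := mul_le_mul_of_nonneg_left h3 (by positivity : 0 ≤ 2 * Real.pi)
      linarith
    refine (norm_sum_le_of_le _ h1).trans_lt ?_
    rw [Finset.sum_const, Finset.card_range, nsmul_eq_mul, ← mul_assoc, Real.exp_neg,
      ← div_eq_mul_inv, div_lt_one (Real.exp_pos _)]
    have h4 : 0 ≤ (Q : ℝ) * |C| := by positivity
    have h5 := Real.add_one_le_exp (2 * Real.pi * (Q * |C|))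
    have h6 := Real.pi_gt_three
    nlinarith
  -- the integer is constant
  have hS : IsPreconnected ((fun ζ => ((Ft (lw F))^[Q] ζ - ζ).re) '' HH) := by
    refine convex_HH.isPreconnected.image _ ?_
    exact Complex.continuous_re.comp_continuousOn ((w4_cont h Q).sub continuousOn_id)
  have hi : ∀ x ∈ ((fun ζ => ((Ft (lw F))^[Q] ζ - ζ).re) '' HH), ∃ n : ℤ, x = n := by
    rintro _ ⟨ζ', hζ', rfl⟩
    obtain ⟨n, hn⟩ := w4_int h hζ'
    refine ⟨n, ?_⟩
    change ((Ft (lw F))^[Q] ζ' - ζ').re = n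
    rw [hn, add_sub_cancel_left, Complex.intCast_re]
  have heq := w4_const hS hi ⟨ζ, hζ, rfl⟩ ⟨Complex.I * y, hyH, rfl⟩
  obtain ⟨n, hn⟩ := w4_int h hζ
  obtain ⟨n', hn'⟩ := w4_int h hyH
  simp only [hn, hn', add_sub_cancel_left, Complex.intCast_re] at heq
  rw [hn', add_sub_cancel_left] at hfar
  have h1 : n' = 1 := by
    have h2 : ‖((n' - 1 : ℤ) : ℂ)‖ < 1 := by push_cast; exact hfar
    rw [Complex.norm_intCast] at h2
    have h3 : |n' - 1| < 1 := by exact_mod_cast h2
    have h4 := Int.abs_lt_one_iff.1 h3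
    omega
  have h2 : n = n' := by exact_mod_cast heq
  rw [hn, h2, h1, Int.cast_one]

theorem lift_ne (h : DiscMap m Q η F Fi) {ζ : ℂ} (hζ : ζ ∈ HH) : lw F ζ ≠ 0 := by
  intro h0
  have h1 : Ft (lw F) ζ = ζ := by
    unfold Ft
    rw [h0, add_zero]
  have h2 := lift_iter h hζ
  rw [Function.iterate_fixed h1] at h2
  exact one_ne_zero (left_eq_add.1 h2)

theorem lift_pos (h : DiscMap m Q η F Fi) {ζ : ℂ} (hζ : ζ.im = 0) : 0 < (lw F ζ).re := by
  have hb : ∀ z : ℂ, ‖z‖ = 1 → ‖F z‖ = 1 := by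
    intro z hz
    have hzD : z ∈ D := by rw [mem_closedBall_zero_iff]; exact hz.le
    have h1 := h.maps hzD
    rw [mem_closedBall_zero_iff] at h1
    refine le_antisymm h1 (not_lt.1 fun h2 => ?_)
    have h3 := (lt_F h hzD).1 h2
    exact absurd hz h3.ne
  have hreal : ∀ {ζ : ℂ}, ζ.im = 0 → (lw F ζ).im = 0 :=
    fun hζ => lw_real (w4_near h) (w4_eta h) hb hζ
  have hH : ∀ {ζ : ℂ}, ζ.im = 0 → ζ ∈ HH := fun hζ => le_of_eq hζ.symm
  have hf : Continuous fun t : ℝ => (lw F (t : ℂ)).re := by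
    refine Complex.continuous_re.comp ?_
    exact (w4_contw h).comp_continuous Complex.continuous_ofReal fun t => hH (by simp)
  have hne : ∀ t : ℝ, (lw F (t : ℂ)).re ≠ 0 := by
    intro t ht
    have him : (t : ℂ).im = 0 := Complex.ofReal_im t
    refine lift_ne h (hH him) (Complex.ext ht ?_)
    exact hreal him
  have hζr : ((ζ.re : ℝ) : ℂ) = ζ := Complex.ext (by simp) (by simp [hζ])
  by_contra hcon
  rw [not_lt] at hcon
  have hneg : ∀ t : ℝ, (lw F (t : ℂ)).re < 0 := by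
    intro t
    by_contra ht
    rw [not_lt] at ht
    obtain ⟨s, hs⟩ := mem_range_of_exists_le_of_exists_ge hf
      ⟨ζ.re, by rw [hζr]; exact hcon⟩ ⟨t, ht⟩
    exact hne s hs
  have hit : ∀ k : ℕ, ((Ft (lw F))^[k] ζ).im = 0 ∧ ((Ft (lw F))^[k] ζ).re ≤ ζ.re := by
    intro k
    induction k with
    | zero => exact ⟨hζ, le_rfl⟩
    | succ k ih =>
      rw [Function.iterate_succ_apply']
      obtain ⟨i1, i2⟩ := ih
      set ξ := (Ft (lw F))^[k] ζ with hξ
      have hξr : ((ξ.re : ℝ) : ℂ) = ξ := Complex.ext (by simp) (by simp [i1])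
      have h1 := hneg ξ.re
      rw [hξr] at h1
      constructor
      · change (ξ + lw F ξ).im = 0
        rw [Complex.add_im, i1, hreal i1, add_zero]
      · change (ξ + lw F ξ).re ≤ ζ.re
        rw [Complex.add_re]
        linarith
  have h1 := (hit Q).2
  rw [lift_iter h (hH hζ), Complex.add_re, Complex.one_re] at h1
  linarith

end Pool.Agent.H24.PG
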