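import Pool.Agent.H24.PG.W4

/-!
# Module W5 (about 60 lines): the lift of a near-identity periodic map is a `Strip`

PROOF. Collect: `lw_smooth`, `lw_per`, `lw_norm` (with `κ = 2 η ≤ 1/100`; `near_F`, `near_Fi`), `lw_dsmall`, `lw_real`, `lift_pos`,
`lift_ne`, `lw_asy`, `lw_dasy`, `lw_maps`, and for the inverse `g = Ft (lw Fi)`: `lw_smooth` for `Fi`, `lw_maps`, `lift_inv` twice.
-/

open Set

namespace Pool.Agent.H24.PG

variable {m Q : ℕ} {η : ℝ} {F Fi : ℂ → ℂ}

theorem strip_of_disc (h : DiscMap m Q η F Fi) : Strip m Q (3 * η) (lw F) (Ft (lw Fi)) := by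
  have h0 := h.η0
  have h1 := h.η1
  have hκ : 2 * η ≤ 1 / 100 := by linarith
  have hF : ∀ z ∈ D, ‖F z - z‖ ≤ 2 * η * ‖z‖ := fun z hz =>
    (near_F h hz).trans (mul_le_mul_of_nonneg_right (by linarith) (norm_nonneg z))
  have hG : ∀ z ∈ D, ‖Fi z - z‖ ≤ 2 * η * ‖z‖ := fun z hz => near_Fi h hz
  have hb : ∀ z : ℂ, ‖z‖ = 1 → ‖F z‖ = 1 := by
    intro z hz
    have hzD : z ∈ D := by rw [mem_closedBall_zero_iff, hz]
    have h2 : ‖F z‖ ≤ 1 := by
      have := h.maps hzD
      rwa [mem_closedBall_zero_iff] at this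
    refine le_antisymm h2 (not_lt.mp fun h3 => ?_)
    have h4 := (lt_F h hzD).mp h3
    linarith
  exact
    { hm := h.hm
      hQ := h.hQ
      e0 := by linarith
      e2 := by linarith
      smooth := lw_smooth hF hκ h.smooth
      per := lw_per
      small := fun ζ hζ => (lw_norm hF hκ hζ).trans hκ
      dsmall := fun ζ hζ => lw_dsmall h hζ
      real := fun ζ hζ => lw_real hF hκ hb hζ
      pos := fun ζ hζ => lift_pos h hζ
      ne := fun ζ hζ => lift_ne h hζ
      asy := lw_asy h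
      dasy := lw_dasy h
      maps := fun ζ hζ => lw_maps hF hκ h.maps hζ
      gsmooth := contDiffOn_id.add (lw_smooth hG hκ h.smoothi)
      gmaps := fun ζ hζ => lw_maps hG hκ h.mapsi hζ
      gl := fun ζ hζ => lift_inv hF hG hκ h.maps h.li hζ
      gr := fun ζ hζ => lift_inv hG hF hκ h.mapsi h.ri hζ
      iter := fun ζ hζ => lift_iter h hζ }

end Pool.Agent.H24.PG
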